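import Mathlib

/-!
# The K-Bessel function (Macdonald function): integral representation, differential equation, decay,
Mellin transform.
-/

set_option autoImplicit false

open MeasureTheory Filter Topology Set

namespace Q276.OM

/-- The integrand. -/
noncomputable def kf (k : ℕ) (ν : ℂ) (x t : ℝ) : ℂ :=
  ((Real.cosh t : ℝ) : ℂ) ^ k * Complex.exp (-(x * Real.cosh t : ℝ) + ν * t)

/-- `∫ cosh(t)^k exp(-x cosh t + ν t) dt`; for `k = 0` this is `2 K_ν(x)`. -/
noncomputable def KI (k : ℕ) (ν : ℂ) (x : ℝ) : ℂ := ∫ t : ℝ, kf k ν x t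

lemma kf_norm (k : ℕ) (ν : ℂ) (x t : ℝ) :
    ‖kf k ν x t‖ = (Real.cosh t) ^ k * Real.exp (-(x * Real.cosh t) + ν.re * t) := by
  unfold kf
  rw [norm_mul, norm_pow, Complex.norm_real, Real.norm_of_nonneg (Real.cosh_pos t).le, Complex.norm_exp]
  congr 2
  simp

lemma kf_cont (k : ℕ) (ν : ℂ) (x : ℝ) : Continuous (kf k ν x) := by
  unfold kf
  fun_prop

lemma cosh_ge (t : ℝ) : 1 + t ^ 2 / 2 ≤ Real.cosh t := by
  have h1 : ∀ u : ℝ, 0 ≤ u → 1 + u ^ 2 / 2 ≤ Real.cosh u := by
    intro u hu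
    have h2 : u / 2 ≤ Real.sinh (u / 2) := Real.self_le_sinh_iff.2 (by positivity)
    have h3 := Real.cosh_two_mul (u / 2)
    have h4 := Real.cosh_sq (u / 2)
    have h5 : 2 * (u / 2) = u := by ring
    rw [h5] at h3
    have h6 : (u / 2) ^ 2 ≤ Real.sinh (u / 2) ^ 2 := pow_le_pow_left₀ (by positivity) h2 2
    nlinarith
  have h2 := h1 |t| (abs_nonneg t)
  rwa [sq_abs, Real.cosh_abs] at h2

lemma gauss_integrable (a b : ℝ) (ha : 0 < a) : Integrable (fun t : ℝ => Real.exp (b * t - a * t ^ 2)) := by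
  have h1 := (integrable_exp_neg_mul_sq ha).comp_sub_right (b / (2 * a))
  have h2 := h1.mul_const (Real.exp (b ^ 2 / (4 * a)))
  refine h2.congr (Eventually.of_forall (fun t => ?_))
  simp only
  rw [← Real.exp_add]
  congr 1
  field_simp
  ring

lemma cosh_pow_le (k : ℕ) (t : ℝ) : (Real.cosh t) ^ k ≤ Real.exp (k * t) + Real.exp (-(k * t)) := by
  have h1 : Real.cosh t ≤ Real.exp |t| := by
    rw [← Real.cosh_abs, Real.cosh_eq]
    have : Real.exp (-|t|) ≤ Real.exp |t| := Real.exp_le_exp.2 (by linarith [abs_nonneg t])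
    linarith
  have h2 : (Real.cosh t) ^ k ≤ Real.exp (k * |t|) := by
    calc (Real.cosh t) ^ k ≤ (Real.exp |t|) ^ k := pow_le_pow_left₀ (Real.cosh_pos t).le h1 k
      _ = Real.exp (k * |t|) := by rw [← Real.exp_nat_mul]
  refine h2.trans ?_
  rcases abs_cases t with ⟨h, _⟩ | ⟨h, _⟩
  · rw [h]; linarith [Real.exp_pos (-(k * t))]
  · rw [h]
    have : (k : ℝ) * -t = -(k * t) := by ring
    rw [this]; linarith [Real.exp_pos (k * t)]

lemma kf_norm_le (k : ℕ) (ν : ℂ) {x : ℝ} (hx : 0 < x) (t : ℝ) :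
    ‖kf k ν x t‖ ≤ Real.exp ((k + ν.re) * t - (x / 2) * t ^ 2) + Real.exp ((-k + ν.re) * t - (x / 2) * t ^ 2) := by
  rw [kf_norm]
  have h1 := cosh_pow_le k t
  have h2 := cosh_ge t
  have h3 : Real.exp (-(x * Real.cosh t) + ν.re * t) ≤ Real.exp (ν.re * t - (x / 2) * t ^ 2) := by
    apply Real.exp_le_exp.2
    nlinarith
  calc (Real.cosh t) ^ k * Real.exp (-(x * Real.cosh t) + ν.re * t)
      ≤ (Real.exp (k * t) + Real.exp (-(k * t))) * Real.exp (ν.re * t - (x / 2) * t ^ 2) :=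
        mul_le_mul h1 h3 (Real.exp_pos _).le (by positivity)
    _ = _ := by
        rw [add_mul, ← Real.exp_add, ← Real.exp_add]
        congr 2 <;> ring

lemma kf_integrable (k : ℕ) (ν : ℂ) {x : ℝ} (hx : 0 < x) : Integrable (kf k ν x) := by
  refine ((gauss_integrable (x / 2) (k + ν.re) (by positivity)).add
    (gauss_integrable (x / 2) (-k + ν.re) (by positivity))).mono' (kf_cont k ν x).aestronglyMeasurable
    (Eventually.of_forall (fun t => kf_norm_le k ν hx t))

lemma kf_mono (k : ℕ) (ν : ℂ) {x y : ℝ} (h : x ≤ y) (t : ℝ) : ‖kf k ν y t‖ ≤ ‖kf k ν x t‖ := by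
  rw [kf_norm, kf_norm]
  have := Real.cosh_pos t
  gcongr

lemma kf_hasDerivAt (k : ℕ) (ν : ℂ) (x t : ℝ) : HasDerivAt (fun x => kf k ν x t) (-kf (k + 1) ν x t) x := by
  unfold kf
  have h1 : HasDerivAt (fun x : ℝ => (-(x * Real.cosh t : ℝ) : ℂ) + ν * t) (-(Real.cosh t : ℝ) : ℂ) x := by
    have h2 : HasDerivAt (fun x : ℝ => x * Real.cosh t) (Real.cosh t) x := by
      simpa using (hasDerivAt_id x).mul_const (Real.cosh t)
    have h3 := (h2.ofReal_comp).neg.add_const (ν * t)
    simpa using h3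
  have h4 := (h1.cexp).const_mul (((Real.cosh t : ℝ) : ℂ) ^ k)
  refine h4.congr_deriv ?_
  rw [pow_succ]; ring

lemma KI_hasDerivAt (k : ℕ) (ν : ℂ) {x : ℝ} (hx : 0 < x) : HasDerivAt (KI k ν) (-KI (k + 1) ν x) x := by
  have hs : Ioi (x / 2) ∈ 𝓝 x := Ioi_mem_nhds (by linarith)
  have key := hasDerivAt_integral_of_dominated_loc_of_deriv_le (μ := (volume : Measure ℝ))
    (F := fun x t => kf k ν x t) (F' := fun x t => -kf (k + 1) ν x t) (x₀ := x) (s := Ioi (x / 2))
    (bound := fun t => ‖kf (k + 1) ν (x / 2) t‖) hs ?_ ?_ ?_ ?_ ?_ ?_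
  · have h2 := key.2
    rw [integral_neg] at h2
    exact h2
  · exact Eventually.of_forall (fun y => (kf_cont k ν y).aestronglyMeasurable)
  · exact kf_integrable k ν hx
  · exact (kf_cont (k + 1) ν x).neg.aestronglyMeasurable
  · refine Eventually.of_forall (fun t y hy => ?_)
    rw [norm_neg]
    exact kf_mono (k + 1) ν (le_of_lt hy) t
  · exact (kf_integrable (k + 1) ν (by positivity)).norm
  · exact Eventually.of_forall (fun t y _ => kf_hasDerivAt k ν y t)

/-- Bessel's equation. -/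
theorem KI_ode (ν : ℂ) {x : ℝ} (hx : 0 < x) :
    (x : ℂ) ^ 2 * KI 2 ν x - x * KI 1 ν x - ((x : ℂ) ^ 2 + ν ^ 2) * KI 0 ν x = 0 := by
  have hG : ∀ t : ℝ, HasDerivAt (fun t : ℝ => (-(x * Real.sinh t : ℝ) - ν) * Complex.exp (-(x * Real.cosh t : ℝ) + ν * t))
      ((x : ℂ) ^ 2 * kf 2 ν x t - x * kf 1 ν x t - ((x : ℂ) ^ 2 + ν ^ 2) * kf 0 ν x t) t := by
    intro t
    have h1 : HasDerivAt (fun t : ℝ => (-(x * Real.sinh t : ℝ) : ℂ) - ν) (-(x * Real.cosh t : ℝ) : ℂ) t := by
      have h2 := ((Real.hasDerivAt_sinh t).const_mul x).ofReal_comp.neg.sub_const ν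
      simpa using h2
    have h3 : HasDerivAt (fun t : ℝ => (-(x * Real.cosh t : ℝ) : ℂ) + ν * t) (-(x * Real.sinh t : ℝ) + ν : ℂ) t := by
      have h2 := ((Real.hasDerivAt_cosh t).const_mul x).ofReal_comp.neg
      have h4 : HasDerivAt (fun t : ℝ => ν * (t : ℂ)) ν t := by
        simpa using (hasDerivAt_id t).ofReal_comp.const_mul ν
      exact h2.add h4
    refine (h1.mul h3.cexp).congr_deriv ?_
    unfold kf
    have hc : ((Real.cosh t : ℝ) : ℂ) ^ 2 = 1 + ((Real.sinh t : ℝ) : ℂ) ^ 2 := by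
      have := Real.cosh_sq t
      rw [← Complex.ofReal_pow, this]; push_cast; ring
    push_cast at hc ⊢
    rw [hc]
    ring
  have hint : Integrable (fun t : ℝ => ((x : ℂ) ^ 2 * kf 2 ν x t - x * kf 1 ν x t - ((x : ℂ) ^ 2 + ν ^ 2) * kf 0 ν x t)) :=
    (((kf_integrable 2 ν hx).const_mul _).sub ((kf_integrable 1 ν hx).const_mul _)).sub ((kf_integrable 0 ν hx).const_mul _)
  have hintG : Integrable (fun t : ℝ => (-(x * Real.sinh t : ℝ) - ν) * Complex.exp (-(x * Real.cosh t : ℝ) + ν * t)) := by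
    have hb : Integrable (fun t : ℝ => x * ‖kf 1 ν x t‖ + ‖ν‖ * ‖kf 0 ν x t‖) :=
      ((kf_integrable 1 ν hx).norm.const_mul _).add ((kf_integrable 0 ν hx).norm.const_mul _)
    refine hb.mono' (by fun_prop) (Eventually.of_forall (fun t => ?_))
    have e0 : kf 0 ν x t = Complex.exp (-(x * Real.cosh t : ℝ) + ν * t) := by simp [kf]
    have e1 : ‖kf 1 ν x t‖ = Real.cosh t * ‖Complex.exp (-(x * Real.cosh t : ℝ) + ν * t)‖ := by
      unfold kf
      rw [norm_mul, pow_one, Complex.norm_real, Real.norm_of_nonneg (Real.cosh_pos t).le]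
    rw [norm_mul, e1, e0, ← mul_assoc, ← add_mul]
    apply mul_le_mul_of_nonneg_right _ (norm_nonneg _)
    refine (norm_sub_le _ _).trans ?_
    rw [norm_neg, Complex.norm_real, norm_mul, Real.norm_of_nonneg hx.le]
    have : ‖Real.sinh t‖ ≤ Real.cosh t := by
      rw [Real.norm_eq_abs, abs_le]
      have h1 := Real.sinh_lt_cosh t
      have h2 : -Real.cosh t ≤ Real.sinh t := by
        rw [Real.cosh_eq, Real.sinh_eq]
        have := Real.exp_pos t
        linarith
      exact ⟨h2, h1.le⟩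
    gcongr
  have h0 := integral_eq_zero_of_hasDerivAt_of_integrable hG hint hintG
  rw [integral_sub, integral_sub, integral_const_mul, integral_const_mul, integral_const_mul] at h0
  · exact h0
  · exact (kf_integrable 2 ν hx).const_mul _
  · exact (kf_integrable 1 ν hx).const_mul _
  · exact ((kf_integrable 2 ν hx).const_mul _).sub ((kf_integrable 1 ν hx).const_mul _)
  · exact (kf_integrable 0 ν hx).const_mul _

/-- Exponential decay. -/
theorem KI_decay (k : ℕ) (ν : ℂ) : ∃ A, ∀ x : ℝ, 1 ≤ x → ‖KI k ν x‖ ≤ A * Real.exp (-x) := by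
  refine ⟨Real.exp 1 * ∫ t, ‖kf k ν 1 t‖, fun x hx => ?_⟩
  unfold KI
  refine (norm_integral_le_integral_norm _).trans ?_
  have h1 : ∀ t, ‖kf k ν x t‖ ≤ Real.exp (-(x - 1)) * ‖kf k ν 1 t‖ := by
    intro t
    rw [kf_norm, kf_norm, mul_left_comm]
    apply mul_le_mul_of_nonneg_left _ (pow_nonneg (Real.cosh_pos t).le k)
    rw [← Real.exp_add]
    apply Real.exp_le_exp.2
    have := Real.one_le_cosh t
    nlinarith
  calc ∫ t, ‖kf k ν x t‖ ≤ ∫ t, Real.exp (-(x - 1)) * ‖kf k ν 1 t‖ :=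
        integral_mono (kf_integrable k ν (by linarith)).norm ((kf_integrable k ν one_pos).norm.const_mul _) h1
    _ = _ := by
        rw [integral_const_mul, neg_sub, sub_eq_add_neg, Real.exp_add]; ring


/-! ### Mellin transform -/

lemma cpow_pos {x : ℝ} (hx : 0 < x) (a : ℂ) : (x : ℂ) ^ a = Complex.exp (a * (Real.log x : ℝ)) := by
  rw [Complex.cpow_def_of_ne_zero (by exact_mod_cast hx.ne'), Complex.ofReal_log hx.le, mul_comm]

/-- logistic change of variables -/
noncomputable def lg (t : ℝ) : ℝ := Real.exp t / (2 * Real.cosh t)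

lemma lg_pos (t : ℝ) : 0 < lg t := div_pos (Real.exp_pos t) (by have := Real.cosh_pos t; positivity)

lemma one_sub_lg (t : ℝ) : 1 - lg t = Real.exp (-t) / (2 * Real.cosh t) := by
  have h := Real.cosh_pos t
  unfold lg
  rw [eq_div_iff (by positivity), sub_mul, div_mul_cancel₀ _ (by positivity), Real.cosh_eq]
  ring

lemma one_sub_lg_pos (t : ℝ) : 0 < 1 - lg t := by
  rw [one_sub_lg]; exact div_pos (Real.exp_pos _) (by have := Real.cosh_pos t; positivity)

lemma lg_deriv (t : ℝ) : HasDerivAt lg (2 * lg t * (1 - lg t)) t := by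
  have hc := Real.cosh_pos t
  have h1 := (Real.hasDerivAt_exp t).div ((Real.hasDerivAt_cosh t).const_mul 2) (by positivity)
  refine h1.congr_deriv ?_
  rw [one_sub_lg, lg]
  have h2 : Real.exp t * Real.exp (-t) = 1 := by rw [← Real.exp_add]; simp
  have h3 : Real.sinh t = Real.cosh t - Real.exp (-t) := by rw [Real.cosh_eq, Real.sinh_eq]; ring
  rw [h3]
  field_simp
  ring

lemma lg_strictMono : StrictMono lg := by
  apply strictMono_of_deriv_pos
  intro t
  rw [(lg_deriv t).deriv]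
  exact mul_pos (mul_pos two_pos (lg_pos t)) (one_sub_lg_pos t)

lemma lg_image : lg '' univ = Ioo 0 1 := by
  ext x
  constructor
  · rintro ⟨t, _, rfl⟩
    exact ⟨lg_pos t, by linarith [one_sub_lg_pos t]⟩
  · rintro ⟨h0, h1⟩
    refine ⟨Real.log (x / (1 - x)) / 2, trivial, ?_⟩
    set t := Real.log (x / (1 - x)) / 2 with ht
    have h1' : 0 < 1 - x := by linarith
    have h2 : Real.exp t * Real.exp t = x / (1 - x) := by
      rw [← Real.exp_add, ht, add_halves, Real.exp_log (by positivity)]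
    have h3 : Real.exp (-t) * Real.exp t = 1 := by rw [← Real.exp_add]; simp
    have he := Real.exp_pos t
    unfold lg
    rw [Real.cosh_eq, div_eq_iff (by positivity)]
    have h4 : Real.exp t * (1 - x) = x * Real.exp (-t) := by
      have h5 : Real.exp t * (Real.exp t * (1 - x)) = Real.exp t * (x * Real.exp (-t)) := by
        rw [← mul_assoc, h2, div_mul_cancel₀ _ h1'.ne']
        linear_combination (-x) * h3
      exact mul_left_cancel₀ he.ne' h5
    linear_combination h4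

/-- `e^{νt} cosh(t)^{-s}` -/
noncomputable def Jf (ν s : ℂ) (t : ℝ) : ℂ := Complex.exp (ν * t) * ((Real.cosh t : ℝ) : ℂ) ^ (-s)

lemma changevar (ν s : ℂ) (t : ℝ) :
    |2 * lg t * (1 - lg t)| • (((lg t : ℝ) : ℂ) ^ ((s + ν) / 2 - 1) * (1 - ((lg t : ℝ) : ℂ)) ^ ((s - ν) / 2 - 1)) =
      (2 : ℂ) ^ (1 - s) * Jf ν s t := by
  have hc := Real.cosh_pos t
  have hl := lg_pos t
  have hl' := one_sub_lg_pos t
  have e0 : (1 - ((lg t : ℝ) : ℂ)) = ((1 - lg t : ℝ) : ℂ) := by push_cast; ring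
  have e2 : (2 : ℂ) = ((2 : ℝ) : ℂ) := by norm_num
  rw [abs_of_pos (mul_pos (mul_pos two_pos hl) hl'), e0, cpow_pos hl, cpow_pos hl', Jf, cpow_pos hc]
  have h1 : Real.log (lg t) = t - (Real.log 2 + Real.log (Real.cosh t)) := by
    unfold lg
    rw [Real.log_div (Real.exp_pos t).ne' (by positivity), Real.log_exp, Real.log_mul two_ne_zero hc.ne']
  have h2 : Real.log (1 - lg t) = -t - (Real.log 2 + Real.log (Real.cosh t)) := by
    rw [one_sub_lg, Real.log_div (Real.exp_pos _).ne' (by positivity), Real.log_exp, Real.log_mul two_ne_zero hc.ne']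
  have h3 : ((2 * lg t * (1 - lg t) : ℝ) : ℂ) = 2 * Complex.exp ((Real.log (lg t) : ℝ) : ℂ) * Complex.exp ((Real.log (1 - lg t) : ℝ) : ℂ) := by
    rw [← Complex.ofReal_exp, ← Complex.ofReal_exp, Real.exp_log hl, Real.exp_log hl']
    push_cast; ring
  rw [Complex.real_smul, h3]
  have h4 : (2 : ℂ) ^ (1 - s) = 2 * Complex.exp (-s * (Real.log 2 : ℝ)) := by
    rw [e2, cpow_pos two_pos, sub_mul, one_mul, sub_eq_add_neg, Complex.exp_add, ← Complex.ofReal_exp, Real.exp_log two_pos]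
    congr 2
    ring
  rw [h4, h1, h2]
  rw [mul_assoc (2 : ℂ), ← Complex.exp_add, ← Complex.exp_add, mul_assoc (2 : ℂ), ← Complex.exp_add,
    mul_assoc (2 : ℂ), ← Complex.exp_add, ← Complex.exp_add]
  congr 2
  push_cast
  ring

lemma Jf_integrable {ν s : ℂ} (h1 : 0 < ((s + ν) / 2).re) (h2 : 0 < ((s - ν) / 2).re) : Integrable (Jf ν s) := by
  have hb := Complex.betaIntegral_convergent h1 h2
  rw [intervalIntegrable_iff_integrableOn_Ioo_of_le zero_le_one, ← lg_image] at hb
  have hb2 := (integrableOn_image_iff_integrableOn_abs_deriv_smul MeasurableSet.univ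
    (fun x _ => (lg_deriv x).hasDerivWithinAt) lg_strictMono.injective.injOn _).1 hb
  rw [integrableOn_univ] at hb2
  simp only [changevar] at hb2
  have h3 : (2 : ℂ) ^ (1 - s) ≠ 0 := by
    rw [Complex.cpow_def_of_ne_zero two_ne_zero]; exact Complex.exp_ne_zero _
  have h4 := hb2.const_mul ((2 : ℂ) ^ (1 - s))⁻¹
  refine h4.congr (Eventually.of_forall (fun t => ?_))
  simp only
  rw [← mul_assoc, inv_mul_cancel₀ h3, one_mul]

lemma Jf_integral {ν s : ℂ} :
    (2 : ℂ) ^ (1 - s) * ∫ t, Jf ν s t = Complex.betaIntegral ((s + ν) / 2) ((s - ν) / 2) := by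
  unfold Complex.betaIntegral
  rw [intervalIntegral.integral_of_le zero_le_one, integral_Ioc_eq_integral_Ioo, ← lg_image,
    integral_image_eq_integral_abs_deriv_smul MeasurableSet.univ
    (fun x _ => (lg_deriv x).hasDerivWithinAt) lg_strictMono.injective.injOn, Measure.restrict_univ]
  simp only [changevar]
  rw [integral_const_mul]


lemma inner_integral {s : ℂ} (hs : 0 < s.re) (ν : ℂ) (t : ℝ) :
    ∫ x in Ioi (0 : ℝ), (x : ℂ) ^ (s - 1) * kf 0 ν x t = Complex.Gamma s * Jf ν s t := by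
  have hc := Real.cosh_pos t
  have h1 := Complex.integral_cpow_mul_exp_neg_mul_Ioi (a := s) (r := Real.cosh t) hs hc
  have h2 : ∀ x : ℝ, (x : ℂ) ^ (s - 1) * kf 0 ν x t = Complex.exp (ν * t) * ((x : ℂ) ^ (s - 1) * Complex.exp (-((Real.cosh t : ℝ) * x))) := by
    intro x
    unfold kf
    rw [pow_zero, one_mul, Complex.exp_add]
    push_cast
    ring_nf
  simp only [h2]
  rw [integral_const_mul, h1, Jf]
  have h3 : (1 / ((Real.cosh t : ℝ) : ℂ)) ^ s = ((Real.cosh t : ℝ) : ℂ) ^ (-s) := by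
    rw [Complex.cpow_neg, one_div, Complex.inv_cpow]
    rw [Complex.arg_ofReal_of_nonneg hc.le]
    exact Real.pi_pos.ne
  rw [h3]; ring

lemma inner_norm {s : ℂ} (hs : 0 < s.re) (ν : ℂ) (t : ℝ) :
    ∫ x in Ioi (0 : ℝ), ‖(x : ℂ) ^ (s - 1) * kf 0 ν x t‖ = Real.Gamma s.re * ‖Jf ν s t‖ := by
  have hc := Real.cosh_pos t
  have h1 := Real.integral_rpow_mul_exp_neg_mul_Ioi (a := s.re) (r := Real.cosh t) hs hc
  have h2 : ∀ x ∈ Ioi (0 : ℝ), ‖(x : ℂ) ^ (s - 1) * kf 0 ν x t‖ = Real.exp (ν.re * t) * (x ^ (s.re - 1) * Real.exp (-((Real.cosh t) * x))) := by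
    intro x hx
    rw [norm_mul, Complex.norm_cpow_eq_rpow_re_of_pos hx, kf_norm, pow_zero, one_mul, Real.exp_add]
    simp only [Complex.sub_re, Complex.one_re]
    rw [mul_comm (Real.cosh t) x]
    ring
  rw [setIntegral_congr_fun measurableSet_Ioi h2, integral_const_mul, h1, Jf, norm_mul,
    Complex.norm_cpow_eq_rpow_re_of_pos hc, Complex.norm_exp]
  simp only [Complex.neg_re, Complex.mul_re, Complex.ofReal_re, Complex.ofReal_im, mul_zero, sub_zero]
  rw [Real.rpow_neg hc.le, one_div, Real.inv_rpow hc.le]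
  ring

lemma inner_integrable {s : ℂ} (hs : 0 < s.re) (ν : ℂ) (t : ℝ) :
    Integrable (fun x : ℝ => (x : ℂ) ^ (s - 1) * kf 0 ν x t) (volume.restrict (Ioi 0)) := by
  have hc := Real.cosh_pos t
  have h0 := integrableOn_rpow_mul_exp_neg_mul_rpow (p := 1) (s := s.re - 1) (b := Real.cosh t) (by linarith) one_pos hc
  have h1 : Integrable (fun x : ℝ => Real.exp (ν.re * t) * (x ^ (s.re - 1) * Real.exp (-(Real.cosh t) * x ^ (1 : ℝ)))) (volume.restrict (Ioi 0)) :=
    h0.const_mul _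
  refine h1.mono' ?_ ?_
  · refine AEStronglyMeasurable.mul ?_ ?_
    · refine ContinuousOn.aestronglyMeasurable ?_ measurableSet_Ioi
      intro x hx
      exact (Complex.continuousAt_ofReal_cpow_const x _ (Or.inr hx.ne')).continuousWithinAt
    · refine Continuous.aestronglyMeasurable ?_
      unfold kf
      fun_prop
  · filter_upwards [ae_restrict_mem measurableSet_Ioi] with x hx
    rw [norm_mul, Complex.norm_cpow_eq_rpow_re_of_pos hx, kf_norm, pow_zero, one_mul, Real.exp_add, Real.rpow_one]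
    simp only [Complex.sub_re, Complex.one_re]
    apply le_of_eq
    rw [show -(x * Real.cosh t) = -Real.cosh t * x by ring]
    ring

lemma double_integrable {ν s : ℂ} (h1 : 0 < ((s + ν) / 2).re) (h2 : 0 < ((s - ν) / 2).re) :
    Integrable (fun p : ℝ × ℝ => (p.1 : ℂ) ^ (s - 1) * kf 0 ν p.1 p.2) ((volume.restrict (Ioi 0)).prod volume) := by
  have hs : 0 < s.re := by
    have e : s = (s + ν) / 2 + (s - ν) / 2 := by ring
    rw [e, Complex.add_re]; linarith
  rw [integrable_prod_iff']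
  · refine ⟨Eventually.of_forall (fun t => inner_integrable hs ν t), ?_⟩
    simp only [inner_norm hs]
    exact (Jf_integrable h1 h2).norm.const_mul _
  · refine AEStronglyMeasurable.mul ?_ ?_
    · have : AEStronglyMeasurable (fun x : ℝ => (x : ℂ) ^ (s - 1)) (volume.restrict (Ioi 0)) := by
        refine ContinuousOn.aestronglyMeasurable ?_ measurableSet_Ioi
        intro x hx
        exact (Complex.continuousAt_ofReal_cpow_const x _ (Or.inr hx.ne')).continuousWithinAt
      exact this.comp_fst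
    · refine Continuous.aestronglyMeasurable ?_
      unfold kf
      fun_prop

/-- The Mellin transform of the K-Bessel function. -/
theorem KI_mellin {ν s : ℂ} (h1 : 0 < ((s + ν) / 2).re) (h2 : 0 < ((s - ν) / 2).re) :
    MellinConvergent (KI 0 ν) s ∧
    mellin (KI 0 ν) s = (2 : ℂ) ^ (s - 1) * Complex.Gamma ((s + ν) / 2) * Complex.Gamma ((s - ν) / 2) := by
  have hs : 0 < s.re := by
    have e : s = (s + ν) / 2 + (s - ν) / 2 := by ring
    rw [e, Complex.add_re]; linarith
  have hd := double_integrable h1 h2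
  constructor
  · have := hd.integral_prod_left
    unfold MellinConvergent
    refine this.congr (Eventually.of_forall (fun x => ?_))
    simp only [smul_eq_mul]
    rw [integral_const_mul, KI]
  · unfold mellin
    have e1 : ∫ x in Ioi (0 : ℝ), (x : ℂ) ^ (s - 1) • KI 0 ν x = ∫ x in Ioi (0 : ℝ), ∫ t : ℝ, (x : ℂ) ^ (s - 1) * kf 0 ν x t := by
      refine setIntegral_congr_fun measurableSet_Ioi (fun x _ => ?_)
      simp only [smul_eq_mul]
      rw [integral_const_mul, KI]
    rw [e1, integral_integral_swap hd]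
    simp only [inner_integral hs]
    rw [integral_const_mul]
    have e2 := Jf_integral (ν := ν) (s := s)
    have e3 := Complex.Gamma_mul_Gamma_eq_betaIntegral h1 h2
    have e4 : (s + ν) / 2 + (s - ν) / 2 = s := by ring
    rw [e4, ← e2] at e3
    have e5 : (2 : ℂ) ^ (s - 1) * (2 : ℂ) ^ (1 - s) = 1 := by
      rw [← Complex.cpow_add _ _ two_ne_zero]; simp
    rw [mul_assoc, e3]
    linear_combination (-Complex.Gamma s * ∫ t, Jf ν s t) * e5

end Q276.OM
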