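import Pool.Agent.Q276.OM.Wn
import Pool.Agent.Q276.OM.Bessel

/-!
# The first Fourier coefficient is a multiple of the K-Bessel function
-/

set_option autoImplicit false

open MeasureTheory Filter Topology Set

namespace Q276.OM

/-- `√y K_ν(2πy)` (up to a factor 2) -/
noncomputable def BK (ν : ℂ) (y : ℝ) : ℂ := ((Real.sqrt y : ℝ) : ℂ) * KI 0 ν (2 * Real.pi * y)

/-- its derivative -/
noncomputable def BK' (ν : ℂ) (y : ℝ) : ℂ := KI 0 ν (2 * Real.pi * y) / (2 * ((Real.sqrt y : ℝ) : ℂ)) -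
  2 * Real.pi * ((Real.sqrt y : ℝ) : ℂ) * KI 1 ν (2 * Real.pi * y)

lemma hasDerivAt_KIc (k : ℕ) (ν : ℂ) {y : ℝ} (hy : 0 < y) :
    HasDerivAt (fun y : ℝ => KI k ν (2 * Real.pi * y)) (-(2 * Real.pi) * KI (k + 1) ν (2 * Real.pi * y)) y := by
  have hx : 0 < 2 * Real.pi * y := by positivity
  have h1 : HasDerivAt (fun y : ℝ => 2 * Real.pi * y) (2 * Real.pi) y := by
    simpa using (hasDerivAt_id y).const_mul (2 * Real.pi)
  have h2 := (KI_hasDerivAt k ν hx).scomp y h1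
  refine h2.congr_deriv ?_
  rw [Complex.real_smul]; push_cast; ring

lemma hasDerivAt_sq {y : ℝ} (hy : 0 < y) : HasDerivAt (fun y : ℝ => ((Real.sqrt y : ℝ) : ℂ)) (1 / (2 * ((Real.sqrt y : ℝ) : ℂ))) y := by
  have := (Real.hasDerivAt_sqrt hy.ne').ofReal_comp
  refine this.congr_deriv ?_
  push_cast; ring

lemma sqc_ne {y : ℝ} (hy : 0 < y) : ((Real.sqrt y : ℝ) : ℂ) ≠ 0 := by
  exact_mod_cast (Real.sqrt_pos.2 hy).ne'

lemma sqc_sq {y : ℝ} (hy : 0 < y) : ((Real.sqrt y : ℝ) : ℂ) ^ 2 = y := by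
  rw [← Complex.ofReal_pow, Real.sq_sqrt hy.le]

lemma hBK (ν : ℂ) {y : ℝ} (hy : 0 < y) : HasDerivAt (BK ν) (BK' ν y) y := by
  have := (hasDerivAt_sq hy).mul (hasDerivAt_KIc 0 ν hy)
  refine this.congr_deriv ?_
  unfold BK'
  rw [zero_add]
  ring

lemma hBK' {ν Λ : ℂ} (hν : ν ^ 2 = 1 / 4 - Λ) {y : ℝ} (hy : 0 < y) :
    HasDerivAt (BK' ν) ((4 * Real.pi ^ 2 - Λ / (y : ℂ) ^ 2) * BK ν y) y := by
  have h1 := ((hasDerivAt_KIc 0 ν hy).div ((hasDerivAt_sq hy).const_mul 2) (mul_ne_zero two_ne_zero (sqc_ne hy))).sub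
    (((hasDerivAt_sq hy).const_mul (2 * Real.pi : ℂ)).mul (hasDerivAt_KIc 1 ν hy))
  refine h1.congr_deriv ?_
  have hode := KI_ode ν (x := 2 * Real.pi * y) (by positivity)
  have hs := sqc_ne hy
  have hy' : (y : ℂ) ≠ 0 := by exact_mod_cast hy.ne'
  have e1 := sqc_sq hy
  unfold BK
  set s : ℂ := ((Real.sqrt y : ℝ) : ℂ) with hsdef
  set K0 := KI 0 ν (2 * Real.pi * y)
  set K1 := KI 1 ν (2 * Real.pi * y)
  set K2 := KI 2 ν (2 * Real.pi * y)
  push_cast at hode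
  rw [← e1] at hode ⊢
  field_simp
  linear_combination 4 * hode + 4 * K0 * hν

lemma BK_decay (ν : ℂ) : ∃ A : ℝ, 0 ≤ A ∧ ∀ y : ℝ, 1 ≤ y → ‖BK ν y‖ ≤ A * y * Real.exp (-(2 * y)) ∧
    ‖BK' ν y‖ ≤ A * y * Real.exp (-(2 * y)) := by
  obtain ⟨A0, h0⟩ := KI_decay 0 ν
  obtain ⟨A1, h1⟩ := KI_decay 1 ν
  have hpi := Real.pi_gt_three
  have hA0 : 0 ≤ A0 := by
    have := (norm_nonneg _).trans (h0 1 le_rfl)
    by_contra hcon
    push Not at hcon
    have := mul_neg_of_neg_of_pos hcon (Real.exp_pos (-1))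
    linarith
  have hA1 : 0 ≤ A1 := by
    have := (norm_nonneg _).trans (h1 1 le_rfl)
    by_contra hcon
    push Not at hcon
    have := mul_neg_of_neg_of_pos hcon (Real.exp_pos (-1))
    linarith
  refine ⟨A0 + 2 * Real.pi * A1, by positivity, fun y hy => ?_⟩
  have hx : 1 ≤ 2 * Real.pi * y := by nlinarith
  have he : Real.exp (-(2 * Real.pi * y)) ≤ Real.exp (-(2 * y)) := by
    apply Real.exp_le_exp.2; nlinarith
  have k0 : ‖KI 0 ν (2 * Real.pi * y)‖ ≤ A0 * Real.exp (-(2 * y)) :=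
    (h0 _ hx).trans (by gcongr)
  have k1 : ‖KI 1 ν (2 * Real.pi * y)‖ ≤ A1 * Real.exp (-(2 * y)) :=
    (h1 _ hx).trans (by gcongr)
  have hy0 : 0 < y := by linarith
  have hs1 : 1 ≤ Real.sqrt y := Real.one_le_sqrt.2 hy
  have hs2 : Real.sqrt y ≤ y := by
    rw [Real.sqrt_le_left (by linarith)]; nlinarith
  have hns : ‖((Real.sqrt y : ℝ) : ℂ)‖ = Real.sqrt y := by
    rw [Complex.norm_real, Real.norm_of_nonneg (Real.sqrt_nonneg _)]
  have hE := Real.exp_pos (-(2 * y))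
  constructor
  · unfold BK
    rw [norm_mul, hns]
    calc Real.sqrt y * ‖KI 0 ν (2 * Real.pi * y)‖ ≤ y * (A0 * Real.exp (-(2 * y))) := by gcongr
      _ ≤ (A0 + 2 * Real.pi * A1) * y * Real.exp (-(2 * y)) := by
        have : 0 ≤ 2 * Real.pi * A1 * y * Real.exp (-(2 * y)) := by positivity
        linarith
  · unfold BK'
    refine (norm_sub_le _ _).trans ?_
    rw [norm_div, norm_mul, norm_mul, norm_mul, norm_mul, hns, Complex.norm_real, Real.norm_of_nonneg Real.pi_pos.le]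
    simp only [Complex.norm_ofNat]
    have e1 : ‖KI 0 ν (2 * Real.pi * y)‖ / (2 * Real.sqrt y) ≤ A0 * Real.exp (-(2 * y)) * y := by
      rw [div_le_iff₀ (by positivity)]
      refine k0.trans ?_
      have : 1 ≤ y * (2 * Real.sqrt y) := by nlinarith
      have h3 : 0 ≤ A0 * Real.exp (-(2 * y)) := by positivity
      nlinarith
    have e2 : 2 * Real.pi * Real.sqrt y * ‖KI 1 ν (2 * Real.pi * y)‖ ≤ 2 * Real.pi * y * (A1 * Real.exp (-(2 * y))) := by
      gcongr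
    linarith

lemma KI_ne (ν : ℂ) : ∃ x : ℝ, 0 < x ∧ KI 0 ν x ≠ 0 := by
  by_contra hcon
  push Not at hcon
  set s : ℂ := ((|ν.re| + 1 : ℝ) : ℂ) with hs
  have hre1 : ((s + ν) / 2).re = (|ν.re| + 1 + ν.re) / 2 := by
    have : (2 : ℂ) = ((2 : ℝ) : ℂ) := by norm_num
    rw [this, Complex.div_ofReal_re, Complex.add_re, hs, Complex.ofReal_re]
  have hre2 : ((s - ν) / 2).re = (|ν.re| + 1 - ν.re) / 2 := by
    have : (2 : ℂ) = ((2 : ℝ) : ℂ) := by norm_num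
    rw [this, Complex.div_ofReal_re, Complex.sub_re, hs, Complex.ofReal_re]
  have h1 : 0 < ((s + ν) / 2).re := by
    rw [hre1]; linarith [neg_abs_le ν.re]
  have h2 : 0 < ((s - ν) / 2).re := by
    rw [hre2]; linarith [le_abs_self ν.re]
  have h3 := (KI_mellin h1 h2).2
  have h4 : mellin (KI 0 ν) s = 0 := by
    unfold mellin
    rw [setIntegral_congr_fun measurableSet_Ioi (g := fun _ => (0 : ℂ))]
    · simp
    · intro x hx
      simp only
      rw [hcon x hx, smul_zero]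
  rw [h4] at h3
  have h5 : (2 : ℂ) ^ (s - 1) * Complex.Gamma ((s + ν) / 2) * Complex.Gamma ((s - ν) / 2) ≠ 0 :=
    mul_ne_zero (mul_ne_zero (by
      rw [Complex.cpow_def_of_ne_zero two_ne_zero]; exact Complex.exp_ne_zero _)
      (Complex.Gamma_ne_zero_of_re_pos h1)) (Complex.Gamma_ne_zero_of_re_pos h2)
  exact h5 h3.symm

lemma BK_ne (ν : ℂ) : ∃ y : ℝ, 0 < y ∧ BK ν y ≠ 0 := by
  obtain ⟨x, hx, hne⟩ := KI_ne ν
  refine ⟨x / (2 * Real.pi), by positivity, ?_⟩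
  unfold BK
  have : 2 * Real.pi * (x / (2 * Real.pi)) = x := by field_simp
  rw [this]
  exact mul_ne_zero (sqc_ne (by positivity)) hne

end Q276.OM
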