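import Mathlib

/-!
# Basic geometry for odd Maass forms: the action of `PGL(2, ℤ)` on the upper half-plane,
half of the standard fundamental domain, its finite volume.
-/

set_option autoImplicit false

open scoped MatrixGroups Pointwise
open UpperHalfPlane MeasureTheory
open Matrix hiding J

namespace Q276.OM

/-- The full modular group `PGL(2, ℤ)` acting on the upper half-plane. -/
noncomputable instance actZ : MulAction PGL(2, ℤ) ℍ :=
  MulAction.compHom ℍ (ProjGenLinGroup.map (Int.castRingHom ℝ) : PGL(2, ℤ) →* PGL(2, ℝ))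

lemma mk_smulZ (g : GL (Fin 2) ℤ) (z : ℍ) :
    (ProjGenLinGroup.mk g : PGL(2, ℤ)) • z = (GeneralLinearGroup.map (Int.castRingHom ℝ) g) • z := rfl

lemma dist_smul_GL (g : GL (Fin 2) ℝ) (z w : ℍ) : dist (g • z) (g • w) = dist z w := by
  have h : Real.cosh (dist (g • z) (g • w)) = Real.cosh (dist z w) := by
    rw [cosh_dist, cosh_dist]
    have hd : dist ((g • z : ℍ) : ℂ) (g • w : ℍ) = |g.det.val| * dist (z : ℂ) w / (‖denom g z‖ * ‖denom g w‖) := by
      rw [dist_eq_norm, dist_eq_norm, coe_smul, coe_smul, ← map_sub, norm_σ,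
        div_sub_div _ _ (denom_ne_zero g z) (denom_ne_zero g w), norm_div, norm_mul]
      congr 1
      rw [← Real.norm_eq_abs, ← Complex.norm_real, ← norm_mul]
      congr 1
      simp only [num, denom, GeneralLinearGroup.val_det_apply, Matrix.det_fin_two]
      push_cast
      ring
    rw [hd, im_smul_eq_div_normSq, im_smul_eq_div_normSq, Complex.normSq_eq_norm_sq,
      Complex.normSq_eq_norm_sq]
    have h1 : ‖denom g z‖ ≠ 0 := norm_ne_zero_iff.2 (denom_ne_zero g z)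
    have h2 : ‖denom g w‖ ≠ 0 := norm_ne_zero_iff.2 (denom_ne_zero g w)
    have h3 : |g.det.val| ≠ 0 := abs_ne_zero.2 g.det.ne_zero
    have h4 := z.im_ne_zero
    have h5 := w.im_ne_zero
    field_simp
  exact Real.cosh_strictMonoOn.injOn dist_nonneg dist_nonneg h

instance isoGL : IsIsometricSMul (GL (Fin 2) ℝ) ℍ :=
  ⟨fun g => Isometry.of_dist_eq (dist_smul_GL g)⟩

instance isoZ : IsIsometricSMul PGL(2, ℤ) ℍ := by
  refine ⟨fun g => ?_⟩
  induction g using ProjGenLinGroup.induction_on with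
  | mk g => exact Isometry.of_dist_eq (dist_smul_GL _)

instance measZ : SMulInvariantMeasure PGL(2, ℤ) ℍ volume := by
  constructor
  intro g s hs
  induction g using ProjGenLinGroup.induction_on with
  | mk g => exact SMulInvariantMeasure.measure_preimage_smul (μ := (volume : Measure ℍ)) (GeneralLinearGroup.map (Int.castRingHom ℝ) g) hs

instance : Countable (GL (Fin 2) ℤ) := by
  have : Function.Injective (fun g : GL (Fin 2) ℤ => ((g 0 0, g 0 1), (g 1 0, g 1 1))) := by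
    intro g h hgh
    simp only [Prod.mk.injEq] at hgh
    ext i j
    fin_cases i <;> fin_cases j
    · exact hgh.1.1
    · exact hgh.1.2
    · exact hgh.2.1
    · exact hgh.2.2
  exact this.countable

instance : Countable PGL(2, ℤ) := ProjGenLinGroup.mk_surjective.countable

instance : MeasurableConstSMul PGL(2, ℤ) ℍ := ⟨fun g => (isoZ.isometry_smul g).continuous.measurable⟩

lemma mk_SL_smul (g : SL(2, ℤ)) (z : ℍ) :
    (ProjGenLinGroup.mk (SpecialLinearGroup.toGL g) : PGL(2, ℤ)) • z = g • z := by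
  rw [mk_smulZ, MulAction.compHom_smul_def]
  congr 1
  ext i j
  simp

/-- the reflection `z ↦ -conj z` as an integral matrix -/
def JZ : GL (Fin 2) ℤ := ⟨!![-1, 0; 0, 1], !![-1, 0; 0, 1], by ext i j; fin_cases i <;> fin_cases j <;> simp,
  by ext i j; fin_cases i <;> fin_cases j <;> simp⟩

lemma map_JZ : GeneralLinearGroup.map (Int.castRingHom ℝ) JZ = J := by
  ext i j
  fin_cases i <;> fin_cases j <;> simp [JZ, J]

lemma mk_JZ_smul (z : ℍ) : (ProjGenLinGroup.mk JZ : PGL(2, ℤ)) • z = J • z := by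
  rw [mk_smulZ, map_JZ]

lemma J_re (z : ℍ) : (J • z).re = -z.re := by
  have := congrArg Complex.re (coe_J_smul z)
  simpa using this

lemma J_im (z : ℍ) : (J • z).im = z.im := by
  have := congrArg Complex.im (coe_J_smul z)
  simpa using this

lemma J_normSq (z : ℍ) : Complex.normSq ((J • z : ℍ) : ℂ) = Complex.normSq (z : ℂ) := by
  rw [coe_J_smul]; simp

lemma J_smul_J (z : ℍ) : J • J • z = z := by
  rw [smul_smul, ← sq, J_sq, one_smul]

open scoped Modular

/-- Half of the standard fundamental domain. -/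
def D : Set ℍ := {z | z ∈ 𝒟 ∧ 0 ≤ z.re}

/-- Its interior part. -/
def D0 : Set ℍ := {z | z ∈ 𝒟ᵒ ∧ 0 < z.re}

lemma D0_sub : D0 ⊆ D := fun _ h => ⟨ModularGroup.fdo_subset_fd h.1, h.2.le⟩

lemma exists_smul_D (z : ℍ) : ∃ g : PGL(2, ℤ), g • z ∈ D := by
  obtain ⟨g, hg⟩ := ModularGroup.exists_smul_mem_fd z
  rcases le_total 0 (g • z).re with h | h
  · exact ⟨ProjGenLinGroup.mk (SpecialLinearGroup.toGL g), by rw [mk_SL_smul]; exact ⟨hg, h⟩⟩
  · refine ⟨ProjGenLinGroup.mk JZ * ProjGenLinGroup.mk (SpecialLinearGroup.toGL g), ?_⟩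
    rw [mul_smul, mk_SL_smul, mk_JZ_smul]
    refine ⟨⟨?_, ?_⟩, ?_⟩
    · rw [J_normSq]; exact hg.1
    · rw [J_re, abs_neg]; exact hg.2
    · rw [J_re]; linarith

lemma GL_cases (g : GL (Fin 2) ℤ) :
    (∃ s : SL(2, ℤ), SpecialLinearGroup.toGL s = g) ∨ (∃ s : SL(2, ℤ), JZ * SpecialLinearGroup.toGL s = g) := by
  have hJ : (JZ : Matrix (Fin 2) (Fin 2) ℤ).det = -1 := by simp [JZ, Matrix.det_fin_two]
  have hJ2 : JZ * JZ = 1 := by
    ext i j; fin_cases i <;> fin_cases j <;> simp [JZ, Matrix.mul_apply, Fin.sum_univ_two]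
  rcases Int.units_eq_one_or g.det with h | h
  · left
    refine ⟨⟨g.1, by rw [← GeneralLinearGroup.val_det_apply, h]; rfl⟩, ?_⟩
    ext i j; rfl
  · right
    have hd : (JZ * g : GL (Fin 2) ℤ).1.det = 1 := by
      rw [Units.val_mul, Matrix.det_mul, hJ, ← GeneralLinearGroup.val_det_apply, h]; rfl
    refine ⟨⟨(JZ * g : GL (Fin 2) ℤ).1, hd⟩, ?_⟩
    have : SpecialLinearGroup.toGL ⟨(JZ * g : GL (Fin 2) ℤ).1, hd⟩ = JZ * g := by ext i j; rfl
    rw [this, ← mul_assoc, hJ2, one_mul]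

lemma mk_neg_one : (ProjGenLinGroup.mk (SpecialLinearGroup.toGL (-1 : SL(2, ℤ))) : PGL(2, ℤ)) = 1 := by
  rw [ProjGenLinGroup.mk_eq_one, GeneralLinearGroup.center_eq_range_scalar]
  refine ⟨-1, ?_⟩
  ext i j
  fin_cases i <;> fin_cases j <;> simp

lemma eq_one_of_D0 {g : PGL(2, ℤ)} {z : ℍ} (hz : z ∈ D0) (hg : g • z ∈ D) : g = 1 := by
  induction g using ProjGenLinGroup.induction_on with
  | mk g =>
  rcases GL_cases g with ⟨s, rfl⟩ | ⟨s, rfl⟩
  · rw [mk_SL_smul] at hg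
    rcases ModularGroup.eq_one_or_neg_one_of_mem_fdo_mem_fd hz.1 hg.1 with h | h
    · rw [h]; simp
    · rw [h]; exact mk_neg_one
  · exfalso
    rw [map_mul, mul_smul, mk_SL_smul, mk_JZ_smul] at hg
    have h1 : s • z ∈ 𝒟 := by
      refine ⟨?_, ?_⟩
      · have := hg.1.1; rwa [J_normSq] at this
      · have := hg.1.2; rwa [J_re, abs_neg] at this
    have h2 : s • z = z := by
      rcases ModularGroup.eq_one_or_neg_one_of_mem_fdo_mem_fd hz.1 h1 with h | h
      · rw [h]; simp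
      · rw [h]; simp
    rw [h2] at hg
    have := hg.2
    rw [J_re] at this
    have h3 := hz.2
    linarith


lemma vol_zero_of_coe {s : Set ℍ} {t : Set ℂ} (h : ∀ z ∈ s, (z : ℂ) ∈ t) (ht : volume t = 0) :
    volume s = 0 := by
  rw [volume_eq_lintegral]
  have h1 : volume.restrict ((fun z : ℍ => (z : ℂ)) '' s) = 0 := by
    rw [Measure.restrict_eq_zero]
    exact measure_mono_null (by rintro _ ⟨z, hz, rfl⟩; exact h z hz) ht
  rw [h1, lintegral_zero_measure]

lemma vol_re_eq (c : ℝ) : volume {z : ℂ | z.re = c} = 0 := by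
  have h := Complex.volume_preserving_equiv_real_prod.measure_preimage_equiv (({c} : Set ℝ) ×ˢ Set.univ)
  have h2 : Complex.measurableEquivRealProd ⁻¹' (({c} : Set ℝ) ×ˢ Set.univ) = {z : ℂ | z.re = c} := by
    ext z; simp
  rw [h2] at h
  rw [h, Measure.volume_eq_prod, Measure.prod_prod]
  simp

lemma vol_D_diff : volume (D \ D0) = 0 := by
  have hs : D \ D0 ⊆ ({z : ℍ | z.re = 0} ∪ {z : ℍ | z.re = 1 / 2}) ∪ ({z : ℍ | z.re = -(1 / 2)} ∪
      {z : ℍ | Complex.normSq (z : ℂ) = 1}) := by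
    rintro z ⟨hz, hz0⟩
    by_contra hcon
    simp only [Set.mem_union, Set.mem_ofPred_eq, not_or] at hcon
    obtain ⟨⟨h1, h2⟩, h3, h4⟩ := hcon
    apply hz0
    refine ⟨⟨lt_of_le_of_ne hz.1.1 (Ne.symm h4), lt_of_le_of_ne hz.1.2 ?_⟩, lt_of_le_of_ne hz.2 (Ne.symm h1)⟩
    intro h
    rcases abs_eq (by norm_num : (0 : ℝ) ≤ 1 / 2) |>.1 h with h | h
    · exact h2 h
    · exact h3 h
  refine measure_mono_null hs ?_
  rw [measure_union_null_iff, measure_union_null_iff, measure_union_null_iff]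
  refine ⟨⟨?_, ?_⟩, ?_, ?_⟩
  · exact vol_zero_of_coe (t := {z : ℂ | z.re = 0}) (fun z hz => hz) (vol_re_eq _)
  · exact vol_zero_of_coe (t := {z : ℂ | z.re = 1 / 2}) (fun z hz => hz) (vol_re_eq _)
  · exact vol_zero_of_coe (t := {z : ℂ | z.re = -(1 / 2)}) (fun z hz => hz) (vol_re_eq _)
  · refine vol_zero_of_coe (t := Metric.sphere (0 : ℂ) 1) (fun z hz => ?_) (Measure.addHaar_sphere _ _ _)
    have h : Complex.normSq (z : ℂ) = 1 := hz
    rw [Complex.normSq_eq_norm_sq] at h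
    rw [mem_sphere_zero_iff_norm]
    have := norm_nonneg (z : ℂ)
    nlinarith

lemma meas_D : MeasurableSet D := by
  refine MeasurableSet.inter (ModularGroup.isClosed_fd.measurableSet) ?_
  exact (isClosed_le continuous_const UpperHalfPlane.continuous_re).measurableSet

lemma fund_D : IsFundamentalDomain PGL(2, ℤ) D (volume : Measure ℍ) where
  nullMeasurableSet := meas_D.nullMeasurableSet
  ae_covers := Filter.Eventually.of_forall exists_smul_D
  aedisjoint := by
    intro g h hgh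
    show volume ((g • D) ∩ (h • D)) = 0
    have hsub : (g • D) ∩ (h • D) ⊆ g • (D \ D0) := by
      rintro _ ⟨⟨d, hd, rfl⟩, ⟨e, he, hde⟩⟩
      refine ⟨d, ⟨hd, fun hd0 => hgh ?_⟩, rfl⟩
      have h1 : (h⁻¹ * g) • d ∈ D := by
        have : (h⁻¹ * g) • d = e := by
          rw [mul_smul, inv_smul_eq_iff]; exact hde.symm
        rw [this]; exact he
      have h2 := eq_one_of_D0 hd0 h1
      have h3 : h = g := by
        have := congrArg (h * ·) h2
        simpa using this.symm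
      exact h3.symm
    refine measure_mono_null hsub ?_
    rw [measure_smul]
    exact vol_D_diff

lemma D_abs_re {z : ℍ} (hz : z ∈ D) : |z.re| ≤ 1 / 2 := hz.1.2

lemma D_im {z : ℍ} (hz : z ∈ D) : 3 / 4 ≤ z.im ^ 2 := by
  have := ModularGroup.three_le_four_mul_im_sq_of_mem_fd hz.1
  linarith

lemma D_im' {z : ℍ} (hz : z ∈ D) : 1 / 2 ≤ z.im := by
  have := D_im hz
  have := z.im_pos
  nlinarith

lemma vol_D_lt_top : volume D < ⊤ := by
  rw [volume_eq_lintegral]
  set S : Set (ℝ × ℝ) := (Set.Icc (-(1 / 2)) (1 / 2)) ×ˢ (Set.Ioi (1 / 4)) with hS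
  have h1 : (fun z : ℍ => (z : ℂ)) '' D ⊆ Complex.measurableEquivRealProd ⁻¹' S := by
    rintro _ ⟨z, hz, rfl⟩
    refine ⟨⟨?_, ?_⟩, ?_⟩
    · have := (abs_le.1 (D_abs_re hz)).1; simpa using this
    · have := (abs_le.1 (D_abs_re hz)).2; simpa using this
    · have := D_im' hz
      show (1 / 4 : ℝ) < z.im
      linarith
  refine lt_of_le_of_lt (lintegral_mono_set h1) ?_
  have h2 := Complex.volume_preserving_equiv_real_prod.setLIntegral_comp_preimage_emb
    Complex.measurableEquivRealProd.measurableEmbedding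
    (fun p : ℝ × ℝ => (((1 / ‖p.2‖₊) ^ 2 : NNReal) : ENNReal)) S
  have h3 : (∫⁻ z : ℂ in Complex.measurableEquivRealProd ⁻¹' S, (((1 / ‖z.im‖₊) ^ 2 : NNReal) : ENNReal)) =
      ∫⁻ p in S, (((1 / ‖p.2‖₊) ^ 2 : NNReal) : ENNReal) := by
    rw [← h2]; rfl
  rw [h3, hS, Measure.volume_eq_prod, ← Measure.prod_restrict]
  have h4 : ∫⁻ p, (((1 / ‖p.2‖₊) ^ 2 : NNReal) : ENNReal) ∂((volume.restrict (Set.Icc (-(1 / 2) : ℝ) (1 / 2))).prod
      (volume.restrict (Set.Ioi (1 / 4 : ℝ)))) =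
      (∫⁻ x, 1 ∂(volume.restrict (Set.Icc (-(1 / 2) : ℝ) (1 / 2)))) *
      ∫⁻ y, (((1 / ‖y‖₊) ^ 2 : NNReal) : ENNReal) ∂(volume.restrict (Set.Ioi (1 / 4 : ℝ))) := by
    have := lintegral_prod_mul (μ := volume.restrict (Set.Icc (-(1 / 2) : ℝ) (1 / 2)))
      (ν := volume.restrict (Set.Ioi (1 / 4 : ℝ))) (f := fun _ => 1)
      (g := fun y : ℝ => (((1 / ‖y‖₊) ^ 2 : NNReal) : ENNReal)) (by fun_prop) (by fun_prop)
    simpa using this
  rw [h4]
  refine ENNReal.mul_lt_top (by simp) ?_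
  have h5 : IntegrableOn (fun y : ℝ => y ^ (-2 : ℝ)) (Set.Ioi (1 / 4)) :=
    integrableOn_Ioi_rpow_of_lt (by norm_num) (by norm_num)
  have h6 := h5.2
  refine lt_of_le_of_lt (le_of_eq ?_) h6
  refine setLIntegral_congr_fun measurableSet_Ioi (fun y hy => ?_)
  have hy0 : (0 : ℝ) < y := lt_trans (by norm_num) hy
  show (((1 / ‖y‖₊) ^ 2 : NNReal) : ENNReal) = ((‖y ^ (-2 : ℝ)‖₊ : NNReal) : ENNReal)
  congr 1
  rw [Real.rpow_neg hy0.le]
  have : y ^ (2 : ℝ) = y ^ (2 : ℕ) := by exact_mod_cast Real.rpow_natCast y 2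
  rw [this, nnnorm_inv, nnnorm_pow]
  simp

instance : IsFiniteMeasure ((volume : Measure ℍ).restrict D) := ⟨by simpa using vol_D_lt_top⟩

end Q276.OM
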