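import Pool.Agent.Q276.OM.Eig

/-!
# Point-pair invariants commute with each other and with isometries
-/

set_option autoImplicit false

open scoped MatrixGroups Pointwise
open UpperHalfPlane MeasureTheory Filter Topology
open Matrix hiding J

namespace Q276.OM

variable {φ ψ : ℝ → ℝ} {C C' : ℝ}

/-- an isometry of `ℍ` exchanging two given points -/
lemma exists_swap (z w : ℍ) : ∃ g : GL (Fin 2) ℝ, g • z = w ∧ g • w = z := by
  by_cases hzw : z = w
  · exact ⟨1, by rw [one_smul, hzw], by rw [one_smul, hzw]⟩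
  set x1 := z.re with hx1
  set y1 := z.im with hy1
  set x2 := w.re with hx2
  set y2 := w.im with hy2
  have hy1p : 0 < y1 := z.im_pos
  have hy2p : 0 < y2 := w.im_pos
  set a := x1 * y2 - x2 * y1 with ha
  set c := y2 - y1 with hc
  set b := c * (x1 * x2 + y1 * y2) - a * (x1 + x2) with hb
  have hdet : !![a, b; c, -a].det = -(y1 * y2 * ((x1 - x2) ^ 2 + (y2 - y1) ^ 2)) := by
    rw [Matrix.det_fin_two_of, ha, hc, hb, hc, ha]; ring
  have hpos : 0 < (x1 - x2) ^ 2 + (y2 - y1) ^ 2 := by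
    by_contra hcon
    apply hzw
    have h1 : (x1 - x2) ^ 2 = 0 := by nlinarith [sq_nonneg (x1 - x2), sq_nonneg (y2 - y1)]
    have h2 : (y2 - y1) ^ 2 = 0 := by nlinarith [sq_nonneg (x1 - x2), sq_nonneg (y2 - y1)]
    have h3 : x1 = x2 := by nlinarith [pow_eq_zero_iff (two_ne_zero) |>.1 h1]
    have h4 : y2 = y1 := by nlinarith [pow_eq_zero_iff (two_ne_zero) |>.1 h2]
    exact UpperHalfPlane.ext (Complex.ext h3 h4.symm)
  have hneg : !![a, b; c, -a].det < 0 := by
    rw [hdet]; have := mul_pos (mul_pos hy1p hy2p) hpos; linarith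
  set g : GL (Fin 2) ℝ := .mkOfDetNeZero !![a, b; c, -a] hneg.ne with hg
  have hσ : σ g = Complex.conjCAE := by
    unfold σ
    rw [if_neg]
    rw [not_lt]
    exact hneg.le
  have key : ∀ p q : ℍ, (starRingEnd ℂ) ((a : ℂ) * p + b) = (q : ℂ) * (starRingEnd ℂ) ((c : ℂ) * p + (-a : ℝ)) → g • p = q := by
    intro p q h
    apply UpperHalfPlane.ext
    rw [coe_smul, hσ]
    have hd := denom_ne_zero g p
    have e1 : num g p = (a : ℂ) * p + b := by simp [num, hg]
    have e2 : denom g p = (c : ℂ) * p + (-a : ℝ) := by simp [denom, hg]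
    rw [e2] at hd
    rw [e1, e2]
    show (starRingEnd ℂ) (_ / _) = _
    rw [map_div₀, h, mul_div_assoc, div_self, mul_one]
    exact (map_ne_zero _).2 hd
  have hz : (z : ℂ) = (x1 : ℂ) + y1 * Complex.I := (Complex.re_add_im (z : ℂ)).symm
  have hw : (w : ℂ) = (x2 : ℂ) + y2 * Complex.I := (Complex.re_add_im (w : ℂ)).symm
  refine ⟨g, key z w ?_, key w z ?_⟩
  · rw [hz, hw]
    apply Complex.ext
    · simp; rw [hb, ha, hc]; ring
    · simp; rw [hc, ha]; ring
  · rw [hz, hw]
    apply Complex.ext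
    · simp; rw [hb, ha, hc]; ring
    · simp; rw [hc, ha]; ring

lemma conv_symm (φ ψ : ℝ → ℝ) (z w : ℍ) :
    ∫ v, kk φ z v * kk ψ v w = ∫ v, kk ψ z v * kk φ v w := by
  obtain ⟨g, h1, h2⟩ := exists_swap z w
  rw [← integral_smul_eq_self (μ := (volume : Measure ℍ)) (g := g) (fun v => kk φ z v * kk ψ v w)]
  refine integral_congr_ae (Eventually.of_forall (fun v => ?_))
  simp only
  rw [show kk φ z (g • v) = kk φ w v by
    conv_lhs => rw [← h2]
    rw [kk_smul], show kk ψ (g • v) w = kk ψ v z by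
    conv_lhs => rw [← h1]
    rw [kk_smul], kk_symm w v, kk_symm v z, mul_comm]

lemma prod_integrable (hφ : Prof φ C) (hψ : Prof ψ C') (z : ℍ) {F : ℍ → ℂ} (hF : Measurable F)
    {B : ℝ} (hB : ∀ w, ‖F w‖ ≤ B) :
    Integrable (fun p : ℍ × ℍ => (kk φ z p.1 : ℂ) * ((kk ψ p.1 p.2 : ℂ) * F p.2)) (volume.prod volume) := by
  obtain ⟨A, hA0, hA⟩ := kk_bound hφ
  obtain ⟨A', hA0', hA'⟩ := kk_bound hψ
  set S : Set (ℍ × ℍ) := Metric.closedBall z (2 * C) ×ˢ Metric.closedBall z (2 * C + 2 * C') with hS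
  have hSm : MeasurableSet S := measurableSet_closedBall.prod measurableSet_closedBall
  have hSc : IsCompact S := (isCompact_closedBall _ _).prod (isCompact_closedBall _ _)
  have h1 : Integrable (S.indicator (fun _ : ℍ × ℍ => A * (A' * B))) (volume.prod volume) := by
    rw [integrable_indicator_iff hSm]
    exact integrableOn_const hSc.measure_lt_top.ne
  refine h1.mono' ?_ (Eventually.of_forall (fun p => ?_))
  · refine Measurable.aestronglyMeasurable ?_
    have c1 : Continuous (fun p : ℍ × ℍ => (kk φ z p.1 : ℂ)) := by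
      have := hφ.cont
      unfold kk
      fun_prop
    have c2 : Continuous (fun p : ℍ × ℍ => (kk ψ p.1 p.2 : ℂ)) := by
      have := hψ.cont
      unfold kk
      fun_prop
    exact c1.measurable.mul (c2.measurable.mul (hF.comp measurable_snd))
  · by_cases hp : p ∈ S
    · rw [Set.indicator_of_mem hp, norm_mul, norm_mul, Complex.norm_real, Complex.norm_real, Real.norm_eq_abs, Real.norm_eq_abs]
      have h2 : |kk ψ p.1 p.2| * ‖F p.2‖ ≤ A' * B := mul_le_mul (hA' _ _) (hB _) (norm_nonneg _) hA0'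
      exact mul_le_mul (hA _ _) h2 (by positivity) hA0
    · rw [Set.indicator_of_notMem hp]
      have h3 : kk φ z p.1 = 0 ∨ kk ψ p.1 p.2 = 0 := by
        by_contra hcon
        rw [not_or] at hcon
        apply hp
        have e1 : dist z p.1 < 2 * C := by
          by_contra h; exact hcon.1 (kk_supp hφ _ _ (not_lt.1 h))
        have e2 : dist p.1 p.2 < 2 * C' := by
          by_contra h; exact hcon.2 (kk_supp hψ _ _ (not_lt.1 h))
        refine ⟨?_, ?_⟩
        · rw [Metric.mem_closedBall, dist_comm]; exact e1.le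
        · rw [Metric.mem_closedBall, dist_comm]
          exact (dist_triangle z p.1 p.2).trans (by linarith)
      rcases h3 with h | h <;> rw [h] <;> simp

/-- Point-pair invariants commute. -/
theorem comm_kk (hφ : Prof φ C) (hψ : Prof ψ C') (z : ℍ) {F : ℍ → ℂ} (hF : Measurable F)
    {B : ℝ} (hB : ∀ w, ‖F w‖ ≤ B) :
    ∫ v, (kk φ z v : ℂ) * ∫ w, (kk ψ v w : ℂ) * F w = ∫ v, (kk ψ z v : ℂ) * ∫ w, (kk φ v w : ℂ) * F w := by
  have key : ∀ {φ ψ : ℝ → ℝ} {C C' : ℝ} (hφ : Prof φ C) (hψ : Prof ψ C'),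
      ∫ v, (kk φ z v : ℂ) * ∫ w, (kk ψ v w : ℂ) * F w =
      ∫ w, ((∫ v, kk φ z v * kk ψ v w : ℝ) : ℂ) * F w := by
    intro φ ψ C C' hφ hψ
    have e1 : ∫ v, (kk φ z v : ℂ) * ∫ w, (kk ψ v w : ℂ) * F w = ∫ v, ∫ w, (kk φ z v : ℂ) * ((kk ψ v w : ℂ) * F w) := by
      refine integral_congr_ae (Eventually.of_forall (fun v => ?_))
      simp only
      rw [integral_const_mul]
    rw [e1, integral_integral_swap (prod_integrable hφ hψ z hF hB)]
    refine integral_congr_ae (Eventually.of_forall (fun w => ?_))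
    simp only
    rw [← integral_complex_ofReal, ← integral_mul_const]
    refine integral_congr_ae (Eventually.of_forall (fun v => ?_))
    simp only
    push_cast; ring
  rw [key hφ hψ, key hψ hφ]
  simp only [conv_symm φ ψ]

/-- The action of a point-pair invariant. -/
noncomputable def TK (ψ : ℝ → ℝ) (F : ℍ → ℂ) (z : ℍ) : ℂ := ∫ w, (kk ψ z w : ℂ) * F w

/-- Point-pair invariants commute with isometries. -/
lemma TK_comp (ψ : ℝ → ℝ) (F : ℍ → ℂ) (g : GL (Fin 2) ℝ) (z : ℍ) :
    TK ψ (fun w => F (g • w)) z = TK ψ F (g • z) := by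
  unfold TK
  rw [← integral_smul_eq_self (μ := (volume : Measure ℍ)) (g := g) (fun w => (kk ψ (g • z) w : ℂ) * F w)]
  simp only [kk_smul]

lemma TK_compZ (ψ : ℝ → ℝ) (F : ℍ → ℂ) (g : PGL(2, ℤ)) (z : ℍ) :
    TK ψ (fun w => F (g • w)) z = TK ψ F (g • z) := by
  induction g using ProjGenLinGroup.induction_on with
  | mk g => exact TK_comp ψ F _ z

lemma TK_bound (hψ : Prof ψ C) : ∃ A, 0 ≤ A ∧ ∀ (F : ℍ → ℂ) (B : ℝ), (∀ w, ‖F w‖ ≤ B) → ∀ z, ‖TK ψ F z‖ ≤ A * B := by
  obtain ⟨A, hA0, hA⟩ := kk_bound hψ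
  -- the volume of balls does not depend on the center
  have hvol : ∀ z : ℍ, (volume : Measure ℍ) (Metric.closedBall z (2 * C)) = volume (Metric.closedBall z0 (2 * C)) := by
    intro z
    obtain ⟨g, hg⟩ := MulAction.exists_smul_eq (GL (Fin 2) ℝ) z0 z
    rw [← hg, ← Metric.smul_closedBall, measure_smul]
  refine ⟨A * (volume (Metric.closedBall z0 (2 * C))).toReal, by positivity, fun F B hB z => ?_⟩
  have hB0 : 0 ≤ B := (norm_nonneg _).trans (hB z)
  unfold TK
  have h1 : ∫ w, (kk ψ z w : ℂ) * F w = ∫ w in Metric.closedBall z (2 * C), (kk ψ z w : ℂ) * F w := by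
    rw [← integral_indicator measurableSet_closedBall]
    refine integral_congr_ae (Eventually.of_forall (fun w => ?_))
    simp only
    by_cases hw : w ∈ Metric.closedBall z (2 * C)
    · rw [Set.indicator_of_mem hw]
    · rw [Set.indicator_of_notMem hw, kk_supp hψ z w]
      · simp
      · rw [Metric.mem_closedBall, not_le, dist_comm] at hw; exact hw.le
  rw [h1]
  have h2 := norm_setIntegral_le_of_norm_le_const (μ := (volume : Measure ℍ)) (s := Metric.closedBall z (2 * C))
    (f := fun w => (kk ψ z w : ℂ) * F w) (C := A * B) (isCompact_closedBall _ _).measure_lt_top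
    (fun w _ => by
      rw [norm_mul, Complex.norm_real, Real.norm_eq_abs]
      exact mul_le_mul (hA _ _) (hB _) (norm_nonneg _) hA0)
  refine h2.trans (le_of_eq ?_)
  rw [Measure.real, hvol]; ring

lemma TK_measurable (hψ : Prof ψ C) {F : ℍ → ℂ} (hF : Measurable F) : Measurable (TK ψ F) := by
  have h1 : StronglyMeasurable (fun p : ℍ × ℍ => (kk ψ p.1 p.2 : ℂ) * F p.2) := by
    refine StronglyMeasurable.mul ?_ ?_
    · exact (Complex.continuous_ofReal.comp (kk_cont hψ)).stronglyMeasurable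
    · exact (hF.comp measurable_snd).stronglyMeasurable
  exact (h1.integral_prod_right' (ν := volume)).measurable

/-- Point-pair invariants preserve the spaces `V`. -/
theorem TK_mem (hφ : Prof φ C) (hψ : Prof ψ C') {κ : ℂ} {F : ℍ → ℂ} (h : InV φ κ F) : InV φ κ (TK ψ F) := by
  obtain ⟨B, hB⟩ := h.bdd
  obtain ⟨A, _, hA⟩ := TK_bound hψ
  refine ⟨TK_measurable hψ h.meas, ⟨A * B, hA F B hB⟩, ?_, ?_⟩
  · intro g z
    rw [← TK_compZ]
    unfold TK
    rw [← integral_const_mul]
    refine integral_congr_ae (Eventually.of_forall (fun w => ?_))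
    simp only
    rw [h.equi]; ring
  · intro z
    unfold TK
    rw [comm_kk hφ hψ z h.meas hB, ← integral_const_mul]
    refine integral_congr_ae (Eventually.of_forall (fun w => ?_))
    simp only
    rw [h.eig]; ring

end Q276.OM
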