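import Mathlib

/-!
# Integral operators with bounded measurable kernels on finite measure spaces are compact
-/

set_option autoImplicit false

open MeasureTheory Filter Topology

namespace Q276.OM

section abstract

variable {H F : Type*} [NormedAddCommGroup H] [InnerProductSpace ℂ H] [CompleteSpace H]
  [NormedAddCommGroup F] [NormedSpace ℂ F] [CompleteSpace F]

/-- Hilbert–Schmidt operators are compact. -/
theorem compact_of_hs {ι : Type*} (e : HilbertBasis ι ℂ H) (T : H →L[ℂ] F) (B : ℝ)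
    (hB : ∀ s : Finset ι, ∑ i ∈ s, ‖T (e i)‖ ^ 2 ≤ B) : IsCompactOperator T := by
  classical
  have hsum : Summable (fun i => ‖T (e i)‖ ^ 2) :=
    summable_of_sum_le (fun i => by positivity) hB
  have key : ∀ ε : ℝ, 0 < ε → ∃ A : H →L[ℂ] F, IsCompactOperator A ∧ ‖T - A‖ ≤ ε := by
    intro ε hε
    obtain ⟨s, hs⟩ := summable_iff_vanishing_norm.1 hsum (ε ^ 2) (by positivity)
    let A : H →L[ℂ] F := ∑ i ∈ s, (innerSL ℂ (e i)).smulRight (T (e i))
    refine ⟨A, ?_, ?_⟩
    · have : ∀ t : Finset ι, IsCompactOperator ((∑ i ∈ t, (innerSL ℂ (e i)).smulRight (T (e i)) : H →L[ℂ] F) : H → F) := by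
        intro t
        induction t using Finset.induction_on with
        | empty => simpa using (isCompactOperator_zero : IsCompactOperator (0 : H → F))
        | insert a t ha ih =>
          rw [Finset.sum_insert ha]
          refine IsCompactOperator.add ?_ ih
          have h1 : IsCompactOperator (innerSL ℂ (e a) : H →L[ℂ] ℂ) :=
            isCompactOperator_of_locallyCompactSpace_dom _
          have h2 := h1.clm_comp ((1 : ℂ →L[ℂ] ℂ).smulRight (T (e a)))
          convert h2 using 1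
          ext x
          simp
      exact this s
    · refine ContinuousLinearMap.opNorm_le_bound _ hε.le (fun v => ?_)
      have h1 : HasSum (fun i => (inner ℂ (e i) v : ℂ) • e i) v := by
        have := e.hasSum_repr v
        simpa [e.repr_apply_apply] using this
      have h2 : HasSum (fun i => (inner ℂ (e i) v : ℂ) • T (e i)) (T v) := by
        have := T.hasSum h1
        simpa using this
      have h3 : Tendsto (fun t : Finset ι => ∑ i ∈ t, (inner ℂ (e i) v : ℂ) • T (e i) - A v) atTop (𝓝 ((T - A) v)) := by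
        have := h2.sub_const (b := 0)
        exact Tendsto.sub_const h2 (A v)
      refine le_of_tendsto (h3.norm) ?_
      filter_upwards [eventually_ge_atTop s] with t ht
      have h4 : ∑ i ∈ t, (inner ℂ (e i) v : ℂ) • T (e i) - A v = ∑ i ∈ t \ s, (inner ℂ (e i) v : ℂ) • T (e i) := by
        rw [← Finset.sum_sdiff ht]
        simp [A]
      rw [h4]
      have h5 : ‖∑ i ∈ t \ s, (inner ℂ (e i) v : ℂ) • T (e i)‖ ≤ ∑ i ∈ t \ s, ‖(inner ℂ (e i) v : ℂ)‖ * ‖T (e i)‖ := by
        refine (norm_sum_le _ _).trans (Finset.sum_le_sum (fun i _ => ?_))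
        rw [norm_smul]
      refine h5.trans ?_
      refine abs_le_of_sq_le_sq' ?_ (by positivity) |>.2
      refine (Finset.sum_mul_sq_le_sq_mul_sq _ _ _).trans ?_
      have h6 : ∑ i ∈ t \ s, ‖(inner ℂ (e i) v : ℂ)‖ ^ 2 ≤ ‖v‖ ^ 2 :=
        e.orthonormal.sum_inner_products_le v
      have h7 : ∑ i ∈ t \ s, ‖T (e i)‖ ^ 2 ≤ ε ^ 2 := by
        have := hs (t \ s) Finset.sdiff_disjoint
        rw [Real.norm_of_nonneg (Finset.sum_nonneg (fun _ _ => by positivity))] at this
        exact this.le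
      calc _ ≤ ‖v‖ ^ 2 * ε ^ 2 := by
            apply mul_le_mul h6 h7 (Finset.sum_nonneg (fun _ _ => by positivity)) (by positivity)
        _ = (ε * ‖v‖) ^ 2 := by ring
  have hcl := isClosed_setOfPred_isCompactOperator (𝕜₁ := ℂ) (𝕜₂ := ℂ) (σ₁₂ := RingHom.id ℂ)
    (M₁ := H) (M₂ := F)
  have : T ∈ closure { f : H →L[ℂ] F | IsCompactOperator f } := by
    rw [Metric.mem_closure_iff]
    intro ε hε
    obtain ⟨B, hB, hAB⟩ := key (ε / 2) (by positivity)
    refine ⟨B, hB, ?_⟩
    rw [dist_eq_norm]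
    linarith
  rw [hcl.closure_eq] at this
  exact this

/-- A nonzero compact self-adjoint operator has a nonzero eigenvalue. -/
theorem exists_eigen [Nontrivial H] (T : H →L[ℂ] H) (hT : IsCompactOperator T) (hs : IsSelfAdjoint T) (h0 : T ≠ 0) :
    ∃ (μ : ℂ) (v : H), μ ≠ 0 ∧ v ≠ 0 ∧ T v = μ • v := by
  obtain ⟨μ, hμ1, hμ2⟩ := spectrum.exists_nnnorm_eq_spectralRadius T
  rw [hs.spectralRadius_eq_nnnorm] at hμ2
  have hμ0 : μ ≠ 0 := by
    intro h
    rw [h, nnnorm_zero, ENNReal.coe_inj] at hμ2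
    exact h0 (nnnorm_eq_zero.1 hμ2.symm)
  have hev := (IsCompactOperator.hasEigenvalue_iff_mem_spectrum hT hμ0).2 hμ1
  obtain ⟨v, hv⟩ := hev.exists_hasEigenvector
  exact ⟨μ, v, hμ0, hv.2, by simpa using hv.apply_eq_smul⟩

/-- The eigenspace of a compact operator for a nonzero eigenvalue is finite dimensional. -/
theorem finDim_eigen {E : Type*} [NormedAddCommGroup E] [NormedSpace ℂ E] (K : E →L[ℂ] E) (hK : IsCompactOperator K) {c : ℂ} (hc : c ≠ 0)
    (F : Submodule ℂ E) (hF : ∀ x ∈ F, K x = c • x) (hFc : IsClosed (F : Set E)) :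
    FiniteDimensional ℂ F := by
  have hinv : ∀ x ∈ F, (K : E →ₗ[ℂ] E) x ∈ F := fun x hx => by
    show K x ∈ F
    rw [hF x hx]; exact F.smul_mem c hx
  have h1 : IsCompactOperator ((K : E →ₗ[ℂ] E).restrict hinv) :=
    IsCompactOperator.restrict (f := (K : E →ₗ[ℂ] E)) hK hinv hFc
  have h2 : IsCompactOperator (c⁻¹ • ((K : E →ₗ[ℂ] E).restrict hinv : F → F)) := h1.smul c⁻¹
  have h3 : (c⁻¹ • ((K : E →ₗ[ℂ] E).restrict hinv : F → F)) = (id : F → F) := by
    funext x
    apply Subtype.ext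
    show c⁻¹ • K x = x
    rw [hF x x.2, smul_smul, inv_mul_cancel₀ hc, one_smul]
  rw [h3] at h2
  exact FiniteDimensional.of_isCompactOperator_id (𝕜 := ℂ) h2

end abstract


section integral

variable {X : Type*} [MeasurableSpace X] {ν : Measure X} [IsFiniteMeasure ν]
  {K : X → X → ℝ} {M : ℝ}

lemma ker_memLp (hKm : Measurable (fun p : X × X => K p.1 p.2)) (hKb : ∀ x y, |K x y| ≤ M) (x : X) :
    MemLp (fun y => (K x y : ℂ)) 2 ν := by
  refine MemLp.of_bound (C := M) ?_ (Eventually.of_forall (fun y => ?_))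
  · have h1 : Measurable (fun y => K x y) := hKm.comp measurable_prodMk_left
    exact (Complex.measurable_ofReal.comp h1).aestronglyMeasurable
  · rw [Complex.norm_real, Real.norm_eq_abs]; exact hKb x y

/-- the section of the kernel as an `L²` function -/
noncomputable def kSec (hKm : Measurable (fun p : X × X => K p.1 p.2)) (hKb : ∀ x y, |K x y| ≤ M) (x : X) :
    Lp ℂ 2 ν := (ker_memLp (ν := ν) hKm hKb x).toLp _

lemma kSec_norm (hKm : Measurable (fun p : X × X => K p.1 p.2)) (hKb : ∀ x y, |K x y| ≤ M) (x : X) :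
    ‖kSec (ν := ν) hKm hKb x‖ ≤ (ν.real Set.univ) ^ (1 / 2 : ℝ) * |M| := by
  rw [kSec, Lp.norm_toLp]
  have h := eLpNorm_le_of_ae_bound (p := 2) (μ := ν) (f := fun y => (K x y : ℂ)) (C := |M|)
    (Eventually.of_forall (fun y => by
      rw [Complex.norm_real, Real.norm_eq_abs]; exact (hKb x y).trans (le_abs_self M)))
  have h2 := ENNReal.toReal_mono (by
    refine ENNReal.mul_ne_top ?_ ENNReal.ofReal_ne_top
    exact ENNReal.rpow_ne_top_of_nonneg (by simp) (measure_ne_top _ _)) h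
  refine h2.trans (le_of_eq ?_)
  rw [ENNReal.toReal_mul, ENNReal.toReal_ofReal (abs_nonneg M), ← ENNReal.toReal_rpow]
  simp [Measure.real]

lemma kSec_inner (hKm : Measurable (fun p : X × X => K p.1 p.2)) (hKb : ∀ x y, |K x y| ≤ M) (x : X)
    (f : Lp ℂ 2 ν) : (inner ℂ (kSec (ν := ν) hKm hKb x) f : ℂ) = ∫ y, (K x y : ℂ) * f y ∂ν := by
  rw [L2.inner_def]
  refine integral_congr_ae ?_
  filter_upwards [(ker_memLp (ν := ν) hKm hKb x).coeFn_toLp] with y hy
  rw [kSec, hy]
  simp [mul_comm]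

lemma intOp_norm (hKm : Measurable (fun p : X × X => K p.1 p.2)) (hKb : ∀ x y, |K x y| ≤ M) (x : X)
    (f : Lp ℂ 2 ν) : ‖∫ y, (K x y : ℂ) * f y ∂ν‖ ≤ ((ν.real Set.univ) ^ (1 / 2 : ℝ) * |M|) * ‖f‖ := by
  rw [← kSec_inner hKm hKb]
  refine (norm_inner_le_norm _ _).trans ?_
  gcongr
  exact kSec_norm hKm hKb x

lemma intOp_meas (hKm : Measurable (fun p : X × X => K p.1 p.2)) (f : Lp ℂ 2 ν) :
    AEStronglyMeasurable (fun x => ∫ y, (K x y : ℂ) * f y ∂ν) ν := by
  have h1 : AEStronglyMeasurable (fun p : X × X => (K p.1 p.2 : ℂ) * f p.2) (ν.prod ν) := by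
    refine AEStronglyMeasurable.mul ?_ ?_
    · exact (Complex.measurable_ofReal.comp hKm).aestronglyMeasurable
    · exact (Lp.aestronglyMeasurable f).comp_snd
  exact h1.integral_prod_right'

lemma intOp_memLp (hKm : Measurable (fun p : X × X => K p.1 p.2)) (hKb : ∀ x y, |K x y| ≤ M) (f : Lp ℂ 2 ν) :
    MemLp (fun x => ∫ y, (K x y : ℂ) * f y ∂ν) 2 ν :=
  MemLp.of_bound (intOp_meas hKm f) _ (Eventually.of_forall (fun x => intOp_norm hKm hKb x f))

lemma int_K_integrable (hKm : Measurable (fun p : X × X => K p.1 p.2)) (hKb : ∀ x y, |K x y| ≤ M) (x : X)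
    (f : Lp ℂ 2 ν) : Integrable (fun y => (K x y : ℂ) * f y) ν := by
  have h1 : Integrable f ν := (Lp.memLp f).integrable (by norm_num)
  refine h1.bdd_mul (c := M) ?_ (Eventually.of_forall (fun y => ?_))
  · exact (Complex.measurable_ofReal.comp (hKm.comp measurable_prodMk_left)).aestronglyMeasurable
  · rw [Complex.norm_real, Real.norm_eq_abs]; exact hKb x y

/-- The integral operator on `L²` with a bounded measurable kernel. -/
noncomputable def intOp (hKm : Measurable (fun p : X × X => K p.1 p.2)) (hKb : ∀ x y, |K x y| ≤ M) :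
    Lp ℂ 2 ν →L[ℂ] Lp ℂ 2 ν :=
  LinearMap.mkContinuous
    { toFun := fun f => (intOp_memLp (ν := ν) hKm hKb f).toLp _
      map_add' := by
        intro f g
        rw [← MemLp.toLp_add]
        refine MemLp.toLp_congr _ _ (Eventually.of_forall (fun x => ?_))
        show _ = (∫ y, (K x y : ℂ) * f y ∂ν) + ∫ y, (K x y : ℂ) * g y ∂ν
        rw [← integral_add (int_K_integrable hKm hKb x f) (int_K_integrable hKm hKb x g)]
        refine integral_congr_ae ?_
        filter_upwards [Lp.coeFn_add f g] with y hy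
        rw [hy, Pi.add_apply]; ring
      map_smul' := by
        intro c f
        rw [RingHom.id_apply, ← MemLp.toLp_const_smul]
        refine MemLp.toLp_congr _ _ (Eventually.of_forall (fun x => ?_))
        show _ = c • ∫ y, (K x y : ℂ) * f y ∂ν
        rw [← integral_smul]
        refine integral_congr_ae ?_
        filter_upwards [Lp.coeFn_smul c f] with y hy
        rw [hy, Pi.smul_apply, smul_eq_mul, smul_eq_mul]; ring }
    ((ν.real Set.univ) ^ (1 / 2 : ℝ) * (((ν.real Set.univ) ^ (1 / 2 : ℝ) * |M|)))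
    (by
      intro f
      show ‖(intOp_memLp (ν := ν) hKm hKb f).toLp _‖ ≤ _
      rw [Lp.norm_toLp]
      have h := eLpNorm_le_of_ae_bound (p := 2) (μ := ν) (f := fun x => ∫ y, (K x y : ℂ) * f y ∂ν)
        (C := ((ν.real Set.univ) ^ (1 / 2 : ℝ) * |M|) * ‖f‖)
        (Eventually.of_forall (fun x => intOp_norm hKm hKb x f))
      have h2 := ENNReal.toReal_mono (by
        refine ENNReal.mul_ne_top ?_ ENNReal.ofReal_ne_top
        exact ENNReal.rpow_ne_top_of_nonneg (by simp) (measure_ne_top _ _)) h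
      refine h2.trans (le_of_eq ?_)
      rw [ENNReal.toReal_mul, ENNReal.toReal_ofReal (by positivity), ← ENNReal.toReal_rpow]
      simp [Measure.real, mul_assoc])

lemma intOp_apply (hKm : Measurable (fun p : X × X => K p.1 p.2)) (hKb : ∀ x y, |K x y| ≤ M) (f : Lp ℂ 2 ν) :
    intOp (ν := ν) hKm hKb f =ᵐ[ν] fun x => ∫ y, (K x y : ℂ) * f y ∂ν :=
  (intOp_memLp (ν := ν) hKm hKb f).coeFn_toLp

lemma intOp_selfAdjoint (hKm : Measurable (fun p : X × X => K p.1 p.2)) (hKb : ∀ x y, |K x y| ≤ M)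
    (hsym : ∀ x y, K x y = K y x) : IsSelfAdjoint (intOp (ν := ν) hKm hKb) := by
  rw [ContinuousLinearMap.isSelfAdjoint_iff_isSymmetric]
  intro f g
  have e1 : (inner ℂ (intOp (ν := ν) hKm hKb f) g : ℂ) = ∫ x, ∫ y, (starRingEnd ℂ) (f y) * ((K x y : ℂ) * g x) ∂ν ∂ν := by
    rw [L2.inner_def]
    refine integral_congr_ae ?_
    filter_upwards [intOp_apply hKm hKb f] with x hx
    rw [hx]
    show g x * (starRingEnd ℂ) (∫ y, (K x y : ℂ) * f y ∂ν) = _
    rw [← integral_conj, ← integral_const_mul]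
    refine integral_congr_ae (Eventually.of_forall (fun y => ?_))
    simp only [map_mul, Complex.conj_ofReal]
    ring
  have e2 : (inner ℂ f (intOp (ν := ν) hKm hKb g) : ℂ) = ∫ y, ∫ x, (starRingEnd ℂ) (f y) * ((K x y : ℂ) * g x) ∂ν ∂ν := by
    rw [L2.inner_def]
    refine integral_congr_ae ?_
    filter_upwards [intOp_apply hKm hKb g] with y hy
    rw [hy]
    show (∫ x, (K y x : ℂ) * g x ∂ν) * (starRingEnd ℂ) (f y) = _
    rw [← integral_mul_const]
    refine integral_congr_ae (Eventually.of_forall (fun x => ?_))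
    simp only
    rw [hsym y x]; ring
  show (inner ℂ (intOp (ν := ν) hKm hKb f) g : ℂ) = inner ℂ f (intOp (ν := ν) hKm hKb g)
  rw [e1, e2]
  refine integral_integral_swap ?_
  have hf : Integrable f ν := (Lp.memLp f).integrable (by norm_num)
  have hg : Integrable g ν := (Lp.memLp g).integrable (by norm_num)
  have h1 : Integrable (fun p : X × X => g p.1 * (starRingEnd ℂ) (f p.2)) (ν.prod ν) := by
    have hc : Integrable (fun y => (starRingEnd ℂ) (f y)) ν :=
      (Complex.conjCLE : ℂ →L[ℝ] ℂ).integrable_comp hf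
    exact Integrable.mul_prod (f := (g : X → ℂ)) (g := fun y => (starRingEnd ℂ) (f y)) hg hc
  have h2 : Integrable (fun p : X × X => (K p.1 p.2 : ℂ) * (g p.1 * (starRingEnd ℂ) (f p.2))) (ν.prod ν) := by
    refine h1.bdd_mul (c := M) ?_ (Eventually.of_forall (fun p => ?_))
    · exact (Complex.measurable_ofReal.comp hKm).aestronglyMeasurable
    · rw [Complex.norm_real, Real.norm_eq_abs]; exact hKb _ _
  refine h2.congr (Eventually.of_forall (fun p => ?_))
  simp only [Function.uncurry]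
  ring

theorem intOp_compact (hKm : Measurable (fun p : X × X => K p.1 p.2)) (hKb : ∀ x y, |K x y| ≤ M) :
    IsCompactOperator (intOp (ν := ν) hKm hKb) := by
  obtain ⟨w, b, _⟩ := exists_hilbertBasis ℂ (Lp ℂ 2 ν)
  refine compact_of_hs b _ (((ν.real Set.univ) ^ (1 / 2 : ℝ) * |M|) ^ 2 * ν.real Set.univ) ?_
  intro s
  have h1 : ∀ f : Lp ℂ 2 ν, ‖intOp (ν := ν) hKm hKb f‖ ^ 2 = ∫ x, ‖(inner ℂ (kSec (ν := ν) hKm hKb x) f : ℂ)‖ ^ 2 ∂ν := by
    intro f
    have h := L2.inner_def (𝕜 := ℂ) (intOp (ν := ν) hKm hKb f) (intOp (ν := ν) hKm hKb f)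
    rw [inner_self_eq_norm_sq_to_K] at h
    have h3 : ∫ a, (inner ℂ ((intOp (ν := ν) hKm hKb f) a) ((intOp (ν := ν) hKm hKb f) a) : ℂ) ∂ν =
        ((∫ x, ‖(inner ℂ (kSec (ν := ν) hKm hKb x) f : ℂ)‖ ^ 2 ∂ν : ℝ) : ℂ) := by
      rw [← integral_complex_ofReal]
      refine integral_congr_ae ?_
      filter_upwards [intOp_apply hKm hKb f] with x hx
      rw [hx, ← kSec_inner hKm hKb, inner_self_eq_norm_sq_to_K]
      push_cast
      rfl
    rw [h3] at h
    have h5 : ((‖intOp (ν := ν) hKm hKb f‖ ^ 2 : ℝ) : ℂ) = ((∫ x, ‖(inner ℂ (kSec (ν := ν) hKm hKb x) f : ℂ)‖ ^ 2 ∂ν : ℝ) : ℂ) := by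
      rw [← h]; push_cast; rfl
    exact Complex.ofReal_injective h5
  have hint : ∀ f : Lp ℂ 2 ν, Integrable (fun x => ‖(inner ℂ (kSec (ν := ν) hKm hKb x) f : ℂ)‖ ^ 2) ν := by
    intro f
    have h2 := (intOp_memLp (ν := ν) hKm hKb f).integrable_norm_pow (by norm_num)
    refine h2.congr (Eventually.of_forall (fun x => ?_))
    simp only [kSec_inner]
  simp only [h1]
  rw [← integral_finsetSum _ (fun i _ => hint (b i))]
  have h4 : ∀ x, ∑ i ∈ s, ‖(inner ℂ (kSec (ν := ν) hKm hKb x) (b i) : ℂ)‖ ^ 2 ≤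
      ((ν.real Set.univ) ^ (1 / 2 : ℝ) * |M|) ^ 2 := by
    intro x
    have h5 := b.orthonormal.sum_inner_products_le (s := s) (kSec (ν := ν) hKm hKb x)
    have h6 : ∀ i, ‖(inner ℂ (kSec (ν := ν) hKm hKb x) (b i) : ℂ)‖ = ‖(inner ℂ (b i) (kSec (ν := ν) hKm hKb x) : ℂ)‖ :=
      fun i => norm_inner_symm _ _
    simp only [h6]
    refine h5.trans ?_
    gcongr
    exact kSec_norm hKm hKb x
  calc ∫ x, ∑ i ∈ s, ‖(inner ℂ (kSec (ν := ν) hKm hKb x) (b i) : ℂ)‖ ^ 2 ∂ν
      ≤ ∫ x, ((ν.real Set.univ) ^ (1 / 2 : ℝ) * |M|) ^ 2 ∂ν :=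
        integral_mono (integrable_finsetSum _ (fun i _ => hint (b i))) (integrable_const _) h4
    _ = _ := by
        rw [integral_const, smul_eq_mul, mul_comm]

end integral

end Q276.OM
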