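import Pool.Agent.Q276.OM.Ker
import Pool.Agent.Q276.OM.HS

/-!
# The space of bounded odd automorphic eigenfunctions of a point-pair invariant
-/

set_option autoImplicit false

open scoped MatrixGroups Pointwise
open UpperHalfPlane MeasureTheory Filter Topology
open Matrix hiding J

namespace Q276.OM

variable {φ : ℝ → ℝ} {C : ℝ}

/-- point-pair invariant -/
noncomputable def kk (φ : ℝ → ℝ) (z w : ℍ) : ℝ := φ (Real.cosh (dist z w))

lemma kk_symm (z w : ℍ) : kk φ z w = kk φ w z := by unfold kk; rw [dist_comm]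

lemma kk_smul (g : GL (Fin 2) ℝ) (z w : ℍ) : kk φ (g • z) (g • w) = kk φ z w := by
  unfold kk; rw [dist_smul]

lemma kk_cont (hφ : Prof φ C) : Continuous (fun p : ℍ × ℍ => kk φ p.1 p.2) := by
  have := hφ.cont
  unfold kk
  fun_prop

lemma prof_bound (hφ : Prof φ C) : ∃ B, 0 ≤ B ∧ ∀ t, 1 ≤ t → |φ t| ≤ B := by
  obtain ⟨B, hB⟩ := (isCompact_Icc (a := (1 : ℝ)) (b := C)).exists_bound_of_continuousOn (hφ.cont.continuousOn)
  refine ⟨max B 0, le_max_right _ _, fun t ht => ?_⟩
  rcases le_total t C with h | h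
  · exact (hB t ⟨ht, h⟩).trans (le_max_left _ _)
  · rw [hφ.supp t h]; simp

lemma kk_bound (hφ : Prof φ C) : ∃ B, 0 ≤ B ∧ ∀ z w, |kk φ z w| ≤ B := by
  obtain ⟨B, h0, hB⟩ := prof_bound hφ
  exact ⟨B, h0, fun z w => hB _ (Real.one_le_cosh _)⟩

lemma kk_supp (hφ : Prof φ C) (z w : ℍ) (h : 2 * C ≤ dist z w) : kk φ z w = 0 := by
  apply hφ.supp
  have h1 := exp_le_cosh (dist z w)
  have h2 := Real.add_one_le_exp (dist z w)
  linarith

lemma kk_integrable (hφ : Prof φ C) (z : ℍ) {F : ℍ → ℂ} (hF : AEStronglyMeasurable F volume)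
    {B : ℝ} (hB : ∀ w, ‖F w‖ ≤ B) : Integrable (fun w => (kk φ z w : ℂ) * F w) := by
  obtain ⟨A, hA0, hA⟩ := kk_bound hφ
  have h1 : Integrable ((Metric.closedBall z (2 * C)).indicator (fun _ : ℍ => A * B)) := by
    rw [integrable_indicator_iff measurableSet_closedBall]
    exact integrableOn_const (isCompact_closedBall z _).measure_lt_top.ne
  refine h1.mono' ?_ (Eventually.of_forall (fun w => ?_))
  · refine AEStronglyMeasurable.mul ?_ hF
    have h2 : Continuous (fun w => (kk φ z w : ℂ)) := by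
      have := hφ.cont
      unfold kk
      fun_prop
    exact h2.aestronglyMeasurable
  · by_cases hw : w ∈ Metric.closedBall z (2 * C)
    · rw [Set.indicator_of_mem hw, norm_mul, Complex.norm_real, Real.norm_eq_abs]
      exact mul_le_mul (hA z w) (hB w) (norm_nonneg _) hA0
    · rw [Set.indicator_of_notMem hw, kk_supp hφ z w]
      · simp
      · rw [Metric.mem_closedBall, not_le, dist_comm] at hw
        exact hw.le

/-- Unfolding. -/
lemma unfold_int (hφ : Prof φ C) {F : ℍ → ℂ} (hF : Measurable F) {B : ℝ} (hB : ∀ w, ‖F w‖ ≤ B)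
    (heq : ∀ (g : PGL(2, ℤ)) (z : ℍ), F (g • z) = (sgn g : ℂ) * F z) (z : ℍ) :
    ∫ w, (kk φ z w : ℂ) * F w = ∫ w in D, (K φ z w : ℂ) * F w := by
  have hint := kk_integrable hφ z hF.aestronglyMeasurable hB
  rw [fund_D.integral_eq_tsum'' _ hint]
  have hterm : ∀ (g : PGL(2, ℤ)) (w : ℍ), (kk φ z (g • w) : ℂ) * F (g • w) =
      ((sgn g * φ (Real.cosh (dist z (g • w))) : ℝ) : ℂ) * F w := by
    intro g w
    rw [heq, kk]; push_cast; ring
  have hK : ∀ w, (K φ z w : ℂ) * F w = ∑' g : PGL(2, ℤ), ((sgn g * φ (Real.cosh (dist z (g • w))) : ℝ) : ℂ) * F w := by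
    intro w
    rw [tsum_mul_right, K, Complex.ofReal_tsum]
  simp only [hK, hterm]
  symm
  refine integral_tsum (fun g => ?_) ?_
  · refine Measurable.aestronglyMeasurable ?_
    refine Measurable.mul ?_ hF
    refine Complex.measurable_ofReal.comp ?_
    have h1 : Continuous (fun w : ℍ => sgn g * φ (Real.cosh (dist z (g • w)))) := by
      have := hφ.cont
      have h2 := continuous_smulZ g
      fun_prop
    exact h1.measurable
  · have h2 := fund_D.lintegral_eq_tsum'' (fun w => ‖(kk φ z w : ℂ) * F w‖ₑ)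
    simp only [hterm] at h2
    rw [← h2]
    exact hint.2.ne

/-- the truncated kernel -/
noncomputable def KD (φ : ℝ → ℝ) (z w : ℍ) : ℝ := D.indicator 1 z * D.indicator 1 w * K φ z w

lemma KD_measurable (hφ : Prof φ C) : Measurable (fun p : ℍ × ℍ => KD φ p.1 p.2) := by
  unfold KD
  refine Measurable.mul (Measurable.mul ?_ ?_) (K_measurable hφ)
  · exact (measurable_one.indicator meas_D).comp measurable_fst
  · exact (measurable_one.indicator meas_D).comp measurable_snd

lemma KD_symm (z w : ℍ) : KD φ z w = KD φ w z := by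
  unfold KD; rw [K_symm]; ring

lemma KD_eq {z w : ℍ} (hz : z ∈ D) (hw : w ∈ D) : KD φ z w = K φ z w := by
  unfold KD; rw [Set.indicator_of_mem hz, Set.indicator_of_mem hw]; simp

lemma KD_bound (hφ : Prof φ C) (hpos : ∀ t, 0 ≤ φ t) (hanti : Antitone φ) (z w : ℍ) :
    |KD φ z w| ≤ (2 + ((bigSet C).ncard : ℝ)) * φ 1 := by
  have h0 : 0 ≤ (2 + ((bigSet C).ncard : ℝ)) * φ 1 := mul_nonneg (by positivity) (hpos 1)
  by_cases hz : z ∈ D
  · by_cases hw : w ∈ D
    · rw [KD_eq hz hw]; exact K_bound_D hφ hpos hanti hz hw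
    · unfold KD; rw [Set.indicator_of_notMem hw]; simpa using h0
  · unfold KD; rw [Set.indicator_of_notMem hz]; simpa using h0

/-- Good profiles. -/
structure Good (φ : ℝ → ℝ) (C : ℝ) : Prop extends Prof φ C where
  pos : ∀ t, 0 ≤ φ t
  anti : Antitone φ

/-- The automorphic integral operator on `L²(D)`. -/
noncomputable def TT (h : Good φ C) : Lp ℂ 2 ((volume : Measure ℍ).restrict D) →L[ℂ]
    Lp ℂ 2 ((volume : Measure ℍ).restrict D) :=
  intOp (KD_measurable h.toProf) (KD_bound h.toProf h.pos h.anti)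

lemma TT_apply (h : Good φ C) (f : Lp ℂ 2 ((volume : Measure ℍ).restrict D)) :
    ∀ᵐ z ∂((volume : Measure ℍ).restrict D), TT h f z = ∫ w in D, (K φ z w : ℂ) * f w := by
  filter_upwards [intOp_apply (ν := (volume : Measure ℍ).restrict D) (KD_measurable h.toProf) (KD_bound h.toProf h.pos h.anti) f,
    ae_restrict_mem meas_D] with z hz hzD
  rw [TT, hz]
  refine setIntegral_congr_fun meas_D (fun w hw => ?_)
  show (KD φ z w : ℂ) * f w = _
  rw [KD_eq hzD hw]

/-- The space of bounded odd automorphic functions with `T_k F = κ F`. -/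
structure InV (φ : ℝ → ℝ) (κ : ℂ) (F : ℍ → ℂ) : Prop where
  meas : Measurable F
  bdd : ∃ B, ∀ z, ‖F z‖ ≤ B
  equi : ∀ (g : PGL(2, ℤ)) (z : ℍ), F (g • z) = (sgn g : ℂ) * F z
  eig : ∀ z, ∫ w, (kk φ z w : ℂ) * F w = κ * F z

/-- The corresponding submodule. -/
def VV (hφ : Prof φ C) (κ : ℂ) : Submodule ℂ (ℍ → ℂ) where
  carrier := {F | InV φ κ F}
  add_mem' := by
    rintro F G ⟨m1, ⟨B1, b1⟩, e1, g1⟩ ⟨m2, ⟨B2, b2⟩, e2, g2⟩
    refine ⟨m1.add m2, ⟨B1 + B2, fun z => (norm_add_le _ _).trans (add_le_add (b1 z) (b2 z))⟩, ?_, ?_⟩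
    · intro g z; simp only [Pi.add_apply, e1, e2]; ring
    · intro z
      simp only [Pi.add_apply, mul_add]
      rw [integral_add (kk_integrable hφ z m1.aestronglyMeasurable b1) (kk_integrable hφ z m2.aestronglyMeasurable b2), g1, g2]
  zero_mem' := by
    refine ⟨measurable_const, ⟨0, by simp⟩, by simp, by simp⟩
  smul_mem' := by
    rintro c F ⟨m1, ⟨B1, b1⟩, e1, g1⟩
    refine ⟨m1.const_smul c, ⟨‖c‖ * B1, fun z => ?_⟩, ?_, ?_⟩
    · rw [Pi.smul_apply, norm_smul]; exact mul_le_mul_of_nonneg_left (b1 z) (norm_nonneg c)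
    · intro g z; simp only [Pi.smul_apply, e1, smul_eq_mul]; ring
    · intro z
      have : ∀ w, (kk φ z w : ℂ) * (c • F) w = c * ((kk φ z w : ℂ) * F w) := by
        intro w; simp only [Pi.smul_apply, smul_eq_mul]; ring
      simp only [this]
      rw [integral_const_mul, g1, Pi.smul_apply, smul_eq_mul]; ring

lemma mem_VV (hφ : Prof φ C) (κ : ℂ) (F : ℍ → ℂ) : F ∈ VV hφ κ ↔ InV φ κ F := Iff.rfl

lemma InV.memLp {κ : ℂ} {F : ℍ → ℂ} (h : InV φ κ F) : MemLp F 2 ((volume : Measure ℍ).restrict D) := by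
  obtain ⟨B, hB⟩ := h.bdd
  exact MemLp.of_bound h.meas.aestronglyMeasurable B (Eventually.of_forall hB)

/-- The embedding into `L²(D)`. -/
noncomputable def emb (hφ : Prof φ C) (κ : ℂ) : VV hφ κ →ₗ[ℂ] Lp ℂ 2 ((volume : Measure ℍ).restrict D) where
  toFun F := (InV.memLp F.2).toLp _
  map_add' F G := by rw [← MemLp.toLp_add]; rfl
  map_smul' c F := by rw [RingHom.id_apply, ← MemLp.toLp_const_smul]; rfl

lemma InV.unfold {κ : ℂ} {F : ℍ → ℂ} (hφ : Prof φ C) (h : InV φ κ F) (z : ℍ) :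
    κ * F z = ∫ w in D, (K φ z w : ℂ) * F w := by
  obtain ⟨B, hB⟩ := h.bdd
  rw [← h.eig z, unfold_int hφ h.meas hB h.equi]

lemma emb_inj (hφ : Prof φ C) {κ : ℂ} (hκ : κ ≠ 0) : Function.Injective (emb hφ κ) := by
  rw [← LinearMap.ker_eq_bot, LinearMap.ker_eq_bot']
  intro F hF
  have h1 : (F : ℍ → ℂ) =ᵐ[(volume : Measure ℍ).restrict D] 0 := by
    have h2 : (InV.memLp F.2).toLp _ = (0 : Lp ℂ 2 ((volume : Measure ℍ).restrict D)) := hF
    have h3 := (InV.memLp F.2).coeFn_toLp
    rw [h2] at h3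
    exact h3.symm.trans (Lp.coeFn_zero _ _ _)
  apply Subtype.ext
  funext z
  have h4 := InV.unfold hφ F.2 z
  have h5 : ∫ w in D, (K φ z w : ℂ) * (F : ℍ → ℂ) w = 0 := by
    rw [← integral_zero ℍ ℂ (μ := (volume : Measure ℍ).restrict D)]
    refine integral_congr_ae ?_
    filter_upwards [h1] with w hw
    rw [hw]; simp
  rw [h5] at h4
  exact (mul_eq_zero.1 h4).resolve_left hκ

lemma emb_eig (h : Good φ C) (κ : ℂ) (F : VV h.toProf κ) :
    TT h (emb h.toProf κ F) = κ • emb h.toProf κ F := by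
  refine Lp.ext ?_
  filter_upwards [TT_apply h (emb h.toProf κ F), Lp.coeFn_smul κ (emb h.toProf κ F), (InV.memLp F.2).coeFn_toLp] with z h1 h2 h3
  rw [h1, h2, Pi.smul_apply]
  have h4 : (emb h.toProf κ F : ℍ → ℂ) z = (F : ℍ → ℂ) z := h3
  rw [h4, smul_eq_mul, InV.unfold h.toProf F.2 z]
  refine integral_congr_ae ?_
  filter_upwards [(InV.memLp F.2).coeFn_toLp] with w hw
  have h5 : (emb h.toProf κ F : ℍ → ℂ) w = (F : ℍ → ℂ) w := hw
  rw [h5]

theorem VV_finite (h : Good φ C) {κ : ℂ} (hκ : κ ≠ 0) : FiniteDimensional ℂ (VV h.toProf κ) := by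
  let E : Submodule ℂ (Lp ℂ 2 ((volume : Measure ℍ).restrict D)) :=
    LinearMap.ker ((TT h - κ • (1 : Lp ℂ 2 ((volume : Measure ℍ).restrict D) →L[ℂ] _) : _ →L[ℂ] _) :
      Lp ℂ 2 ((volume : Measure ℍ).restrict D) →ₗ[ℂ] Lp ℂ 2 ((volume : Measure ℍ).restrict D))
  have hE : ∀ x, x ∈ E ↔ TT h x = κ • x := by
    intro x
    rw [LinearMap.mem_ker]
    show TT h x - κ • x = 0 ↔ _
    rw [sub_eq_zero]
  have hEc : IsClosed (E : Set (Lp ℂ 2 ((volume : Measure ℍ).restrict D))) := ContinuousLinearMap.isClosed_ker _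
  have : FiniteDimensional ℂ E := finDim_eigen (TT h) (intOp_compact _ _) hκ E (fun x hx => (hE x).1 hx) hEc
  let L : VV h.toProf κ →ₗ[ℂ] E := (emb h.toProf κ).codRestrict E (fun F => (hE _).2 (emb_eig h κ F))
  refine FiniteDimensional.of_injective L ?_
  intro F G hFG
  exact emb_inj h.toProf hκ (congrArg Subtype.val hFG)


/-- the standard profile -/
noncomputable def phi (C t : ℝ) : ℝ := expNegInvGlue (C - t)

lemma phi_good {C : ℝ} (hC : 1 ≤ C) : Good (phi C) C where
  cont := by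
    unfold phi
    exact (expNegInvGlue.contDiff (n := 0)).continuous.comp (by fun_prop)
  one_le := hC
  supp := fun t ht => expNegInvGlue.zero_of_nonpos (by linarith)
  pos := fun t => expNegInvGlue.nonneg _
  anti := by
    intro a b hab
    unfold phi
    rcases le_or_gt (C - b) 0 with h | h
    · rw [expNegInvGlue.zero_of_nonpos h]; exact expNegInvGlue.nonneg _
    · have h2 : 0 < C - a := by linarith
      unfold expNegInvGlue
      rw [if_neg (not_le.2 h), if_neg (not_le.2 h2)]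
      apply Real.exp_le_exp.2
      rw [neg_le_neg_iff]
      exact inv_anti₀ h (by linarith)

lemma phi_pos {C t : ℝ} (h : t < C) : 0 < phi C t := expNegInvGlue.pos_of_pos (by linarith)

lemma isOpen_D0 : IsOpen D0 :=
  ModularGroup.isOpen_fdo.inter (isOpen_lt continuous_const UpperHalfPlane.continuous_re)

/-- base point -/
noncomputable def z0 : ℍ := ⟨⟨1 / 4, 2⟩, by norm_num⟩

lemma z0_mem : z0 ∈ D0 := by
  have hre : z0.re = 1 / 4 := rfl
  have him : z0.im = 2 := rfl
  refine ⟨⟨?_, ?_⟩, ?_⟩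
  · rw [Complex.normSq_apply]
    show (1 : ℝ) < z0.re * z0.re + z0.im * z0.im
    rw [hre, him]; norm_num
  · rw [hre]; norm_num [abs_of_pos]
  · rw [hre]; norm_num

lemma exists_rho : ∃ ρ : ℝ, 0 < ρ ∧ Metric.ball z0 (2 * ρ) ⊆ D0 := by
  obtain ⟨ε, hε, h⟩ := Metric.isOpen_iff.1 isOpen_D0 z0 z0_mem
  exact ⟨ε / 2, by positivity, by rw [mul_div_cancel₀ _ (two_ne_zero)]; exact h⟩

lemma K_near {ρ : ℝ} (hρ : 0 < ρ) (hb : Metric.ball z0 (2 * ρ) ⊆ D0) {φ : ℝ → ℝ} (hφ : Prof φ (Real.cosh ρ))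
    {z w : ℍ} (hz : z ∈ Metric.ball z0 ρ) (hw : w ∈ D0) : K φ z w = φ (Real.cosh (dist z w)) := by
  unfold K
  rw [tsum_eq_single 1]
  · rw [sgn_one, one_smul, one_mul]
  · intro g hg
    have h1 : g • w ∉ Metric.ball z0 (2 * ρ) := fun hcon =>
      hg (eq_one_of_D0 hw (D0_sub (hb hcon)))
    rw [Metric.mem_ball, not_lt] at h1
    rw [Metric.mem_ball] at hz
    have h2 : ρ ≤ dist z (g • w) := by
      have := dist_triangle (g • w) z z0
      rw [dist_comm (g • w) z] at this
      linarith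
    rw [hφ.supp, mul_zero]
    rw [Real.cosh_le_cosh, abs_of_pos hρ, abs_of_nonneg dist_nonneg]
    exact h2

lemma vol_open_pos {s : Set ℍ} (hs : IsOpen s) (hne : s.Nonempty) : 0 < (volume : Measure ℍ) s := by
  rw [pos_iff_ne_zero]
  intro h0
  rw [volume_eq_lintegral, lintegral_eq_zero_iff (by fun_prop)] at h0
  have h1 : IsOpen ((fun z : ℍ => (z : ℂ)) '' s) := isOpenEmbedding_coe.isOpenMap s hs
  have h2 : (volume : Measure ℂ) ((fun z : ℍ => (z : ℂ)) '' s) = 0 := by
    rw [Filter.EventuallyEq, ae_restrict_iff' h1.measurableSet] at h0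
    refine measure_mono_null ?_ h0
    rintro _ ⟨z, hz, rfl⟩ hcon
    have h3 := hcon ⟨z, hz, rfl⟩
    have h4 : (z : ℂ).im ≠ 0 := z.im_ne_zero
    simp at h3
    exact h4 h3
  exact (h1.measure_pos volume (hne.image _)).ne' h2

/-- Existence of a nonzero bounded odd automorphic function which is an eigenfunction of a smooth
point-pair invariant with nonzero eigenvalue. -/
theorem exists_eigenfunction : ∃ (C : ℝ) (hC : 1 ≤ C) (κ : ℂ), κ ≠ 0 ∧ ∃ F ∈ VV (phi_good hC).toProf κ, F ≠ 0 := by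
  obtain ⟨ρ, hρ, hb⟩ := exists_rho
  have hC : 1 ≤ Real.cosh ρ := Real.one_le_cosh ρ
  set C := Real.cosh ρ with hCdef
  have hg : Good (phi C) C := phi_good hC
  set ν := (volume : Measure ℍ).restrict D with hν
  -- the operator is nonzero
  have hball : Metric.ball z0 (ρ / 2) ⊆ D := fun w hw => D0_sub (hb (Metric.ball_subset_ball (by linarith) hw))
  have hBm : MeasurableSet (Metric.ball z0 (ρ / 2)) := measurableSet_ball
  have hvolpos : 0 < (volume : Measure ℍ) (Metric.ball z0 (ρ / 2)) :=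
    vol_open_pos Metric.isOpen_ball ⟨z0, Metric.mem_ball_self (by positivity)⟩
  have hT0 : TT hg ≠ 0 := by
    intro h0
    let f : Lp ℂ 2 ν := indicatorConstLp 2 hBm (measure_ne_top ν _) (1 : ℂ)
    have h1 := TT_apply hg f
    have h2 : TT hg f = 0 := by rw [h0]; rfl
    rw [h2] at h1
    have h3 : ∀ᵐ z ∂ν, (∫ w in D, (K (phi C) z w : ℂ) * f w) = 0 := by
      filter_upwards [h1, Lp.coeFn_zero ℂ 2 ν] with z hz1 hz2
      rw [← hz1, hz2]; rfl
    have h4 : ∀ z ∈ Metric.ball z0 (ρ / 2), (∫ w in D, (K (phi C) z w : ℂ) * f w) ≠ 0 := by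
      intro z hz
      have e1 : (∫ w in D, (K (phi C) z w : ℂ) * f w) = ∫ w in D, (Metric.ball z0 (ρ / 2)).indicator (fun w => (K (phi C) z w : ℂ)) w := by
        refine integral_congr_ae ?_
        filter_upwards [indicatorConstLp_coeFn (μ := ν) (p := 2) (hs := hBm) (hμs := measure_ne_top ν _) (c := (1 : ℂ))] with w hw
        rw [hw]
        by_cases hwb : w ∈ Metric.ball z0 (ρ / 2)
        · rw [Set.indicator_of_mem hwb, Set.indicator_of_mem hwb, mul_one]
        · rw [Set.indicator_of_notMem hwb, Set.indicator_of_notMem hwb, mul_zero]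
      rw [e1, setIntegral_indicator hBm, Set.inter_eq_self_of_subset_right hball]
      have e2 : ∫ w in Metric.ball z0 (ρ / 2), (K (phi C) z w : ℂ) = ((∫ w in Metric.ball z0 (ρ / 2), kk (phi C) z w : ℝ) : ℂ) := by
        rw [← integral_complex_ofReal]
        refine setIntegral_congr_fun hBm (fun w hw => ?_)
        show (K (phi C) z w : ℂ) = ((kk (phi C) z w : ℝ) : ℂ)
        rw [K_near hρ hb hg.toProf (Metric.ball_subset_ball (by linarith) hz)
          (hb (Metric.ball_subset_ball (by linarith) hw))]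
        rfl
      rw [e2]
      norm_cast
      apply ne_of_gt
      have hcont : Continuous (fun w => kk (phi C) z w) := by
        have := hg.toProf.cont
        unfold kk
        fun_prop
      have hintg : IntegrableOn (fun w => kk (phi C) z w) (Metric.ball z0 (ρ / 2)) :=
        (hcont.continuousOn.integrableOn_compact (isCompact_closedBall z0 (ρ / 2))).mono_set Metric.ball_subset_closedBall
      refine (setIntegral_pos_iff_support_of_nonneg_ae (f := fun w => kk (phi C) z w)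
        (Eventually.of_forall (fun w => hg.pos _)) hintg).2 ?_
      refine lt_of_lt_of_le hvolpos (measure_mono (fun w hw => ⟨?_, hw⟩))
      apply ne_of_gt
      apply phi_pos
      rw [hCdef, Real.cosh_lt_cosh, abs_of_pos hρ, abs_of_nonneg dist_nonneg]
      rw [Metric.mem_ball] at hz hw
      have := dist_triangle z z0 w
      rw [dist_comm z0 w] at this
      linarith
    have h5 : ν (Metric.ball z0 (ρ / 2)) = 0 := by
      refine measure_mono_null ?_ h3
      intro z hz hcon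
      exact h4 z hz hcon
    rw [hν, Measure.restrict_apply hBm, Set.inter_eq_self_of_subset_left hball] at h5
    exact hvolpos.ne' h5
  have : Nontrivial (Lp ℂ 2 ν) := by
    by_contra hcon
    rw [not_nontrivial_iff_subsingleton] at hcon
    exact hT0 (ContinuousLinearMap.ext (fun x => Subsingleton.elim _ _))
  obtain ⟨κ, v, hκ, hv, hTv⟩ := exists_eigen (TT hg) (intOp_compact _ _) (intOp_selfAdjoint _ _ KD_symm) hT0
  refine ⟨C, hC, κ, hκ, fun z => κ⁻¹ * ∫ w in D, (K (phi C) z w : ℂ) * v w, ?_, ?_⟩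
  · set F : ℍ → ℂ := fun z => κ⁻¹ * ∫ w in D, (K (phi C) z w : ℂ) * v w with hF
    have hmeas : Measurable F := by
      have h1 : StronglyMeasurable (fun p : ℍ × ℍ => (K (phi C) p.1 p.2 : ℂ) * v p.2) := by
        refine StronglyMeasurable.mul ?_ ?_
        · exact (Complex.measurable_ofReal.comp (K_measurable hg.toProf)).stronglyMeasurable
        · exact (Lp.stronglyMeasurable v).comp_measurable measurable_snd
      exact (h1.integral_prod_right' (ν := ν)).measurable.const_mul _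
    have hequi : ∀ (g : PGL(2, ℤ)) (z : ℍ), F (g • z) = (sgn g : ℂ) * F z := by
      intro g z
      rw [hF]
      simp only
      have : ∀ w, (K (phi C) (g • z) w : ℂ) * v w = (sgn g : ℂ) * ((K (phi C) z w : ℂ) * v w) := by
        intro w; rw [K_smul_left]; push_cast; ring
      simp only [this]
      rw [integral_const_mul]; ring
    have hvi : Integrable v ν := (Lp.memLp v).integrable (by norm_num)
    have hbdD : ∀ z ∈ D, ‖F z‖ ≤ ‖κ⁻¹‖ * (((2 + ((bigSet C).ncard : ℝ)) * phi C 1) * ∫ w, ‖v w‖ ∂ν) := by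
      intro z hz
      rw [hF]
      simp only
      rw [norm_mul]
      refine mul_le_mul_of_nonneg_left ?_ (norm_nonneg _)
      rw [← integral_const_mul]
      refine (norm_integral_le_integral_norm _).trans ?_
      refine integral_mono_of_nonneg (Eventually.of_forall (fun w => norm_nonneg _)) (hvi.norm.const_mul _) ?_
      filter_upwards [ae_restrict_mem meas_D] with w hw
      rw [norm_mul, Complex.norm_real, Real.norm_eq_abs]
      exact mul_le_mul_of_nonneg_right (K_bound_D hg.toProf hg.pos hg.anti hz hw) (norm_nonneg _)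
    have hbd : ∀ z, ‖F z‖ ≤ ‖κ⁻¹‖ * (((2 + ((bigSet C).ncard : ℝ)) * phi C 1) * ∫ w, ‖v w‖ ∂ν) := by
      intro z
      obtain ⟨g, hg⟩ := exists_smul_D z
      have := hbdD _ hg
      rw [hequi, norm_mul, Complex.norm_real, Real.norm_eq_abs, abs_sgn, one_mul] at this
      exact this
    have hFv : ∀ᵐ z ∂ν, F z = v z := by
      filter_upwards [TT_apply hg v, Lp.coeFn_smul κ v] with z h1 h2
      rw [hTv, h2, Pi.smul_apply, smul_eq_mul] at h1
      rw [hF]
      simp only
      rw [← h1, ← mul_assoc, inv_mul_cancel₀ hκ, one_mul]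
    refine ⟨hmeas, ⟨_, hbd⟩, hequi, ?_⟩
    intro z
    rw [unfold_int hg.toProf hmeas hbd hequi z]
    have h1 : ∫ w in D, (K (phi C) z w : ℂ) * F w = ∫ w in D, (K (phi C) z w : ℂ) * v w := by
      refine integral_congr_ae ?_
      filter_upwards [hFv] with w hw
      rw [hw]
    rw [h1, hF]
    simp only
    rw [← mul_assoc, mul_inv_cancel₀ hκ, one_mul]
  · intro h0
    apply hv
    refine Lp.ext ?_
    filter_upwards [TT_apply hg v, Lp.coeFn_smul κ v, Lp.coeFn_zero ℂ 2 ν] with z h1 h2 h3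
    rw [hTv, h2, Pi.smul_apply, smul_eq_mul] at h1
    rw [h3]
    have h4 := congrFun h0 z
    simp only [Pi.zero_apply] at h4
    rw [← h1] at h4
    rw [← mul_assoc, inv_mul_cancel₀ hκ, one_mul] at h4
    exact h4

end Q276.OM
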