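import Pool.Agent.Q276.OM.QuadHom

/-!
# The quadratic Dirichlet character of a quadratic field
-/

set_option autoImplicit false

open NumberField

namespace Q276.OM

lemma exists_chi0 (d : ℤ) (hd : d ≠ 0) : ∃ χ : DirichletCharacter ℂ (4 * d.natAbs),
    ∀ n : ℕ, n.Coprime (4 * d.natAbs) → χ n = ((jacobiSym d n : ℤ) : ℂ) := by
  have hN : NeZero (4 * d.natAbs) := ⟨by positivity⟩
  have hN1 : 1 < 4 * d.natAbs := by have := Int.natAbs_pos.2 hd; omega
  have hfact : Fact (1 < 4 * d.natAbs) := ⟨hN1⟩
  have hodd : ∀ n : ℕ, n.Coprime (4 * d.natAbs) → Odd n := by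
    intro n hn
    rw [← Nat.not_even_iff_odd]
    intro he
    have h2 : 2 ∣ n := he.two_dvd
    have h3 : 2 ∣ 4 * d.natAbs := Dvd.intro_left (2 * d.natAbs) (by ring) 
    have := Nat.dvd_gcd h2 h3
    rw [hn] at this
    omega
  have hval : ∀ n : ℕ, n.Coprime (4 * d.natAbs) → jacobiSym d n = jacobiSym d ((n : ZMod (4 * d.natAbs)).val) := by
    intro n hn
    rw [ZMod.val_natCast]
    exact jacobiSym.mod_right d (hodd n hn)
  have hcop : ∀ x : ZMod (4 * d.natAbs), IsUnit x → x.val.Coprime (4 * d.natAbs) := by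
    rintro x ⟨u, rfl⟩
    exact ZMod.val_coe_unit_coprime u
  classical
  let χ : DirichletCharacter ℂ (4 * d.natAbs) :=
    { toFun := fun x => if IsUnit x then ((jacobiSym d x.val : ℤ) : ℂ) else 0
      map_one' := by
        rw [if_pos isUnit_one, ZMod.val_one]
        simp
      map_mul' := by
        intro x y
        by_cases hx : IsUnit x
        · by_cases hy : IsUnit y
          · rw [if_pos (hx.mul hy), if_pos hx, if_pos hy]
            have h1 : x * y = ((x.val * y.val : ℕ) : ZMod (4 * d.natAbs)) := by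
              push_cast
              rw [ZMod.natCast_zmod_val, ZMod.natCast_zmod_val]
            have h2 := hval (x.val * y.val) ((hcop x hx).mul_left (hcop y hy))
            rw [← h1] at h2
            have hx0 : x.val ≠ 0 := by
              intro h0
              have := hcop x hx
              rw [h0, Nat.coprime_zero_left] at this
              omega
            have hy0 : y.val ≠ 0 := by
              intro h0
              have := hcop y hy
              rw [h0, Nat.coprime_zero_left] at this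
              omega
            rw [← h2, jacobiSym.mul_right' d hx0 hy0]
            push_cast; rfl
          · rw [if_neg hy, mul_zero, if_neg]
            intro h; exact hy (isUnit_of_mul_isUnit_right h)
        · rw [if_neg hx, zero_mul, if_neg]
          intro h; exact hx (isUnit_of_mul_isUnit_left h)
      map_nonunit' := by
        intro x hx
        show (if IsUnit x then ((jacobiSym d x.val : ℤ) : ℂ) else 0) = 0
        exact if_neg hx }
  refine ⟨χ, fun n hn => ?_⟩
  show (if IsUnit (n : ZMod (4 * d.natAbs)) then ((jacobiSym d (n : ZMod (4 * d.natAbs)).val : ℤ) : ℂ) else 0) = _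
  rw [if_pos ((ZMod.isUnit_iff_coprime n _).2 hn), ← hval n hn]

/-- Existence of the quadratic character of a quadratic field. -/
theorem exists_eta_aux (K : Type*) [Field K] [NumberField K] (h2 : Module.finrank ℚ K = 2) :
    ∃ (q : ℕ) (χ : DirichletCharacter ℂ q), 0 < q ∧ χ.IsPrimitive ∧ ∃ N : ℕ, ∀ p : ℕ, p.Prime → N ≤ p →
      χ p = (Nat.card (𝓞 K →+* ZMod p) : ℂ) - 1 ∧ χ p ^ 2 = 1 := by
  obtain ⟨d, α, hd, hα⟩ := exists_sqrt h2
  have hd0 : d ≠ 0 := by
    rintro rfl
    apply hα 0
    rw [Int.cast_zero] at hd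
    rw [pow_eq_zero_iff two_ne_zero] at hd
    rw [hd]; simp
  have hN : NeZero (4 * d.natAbs) := ⟨by positivity⟩
  obtain ⟨χ₀, hχ₀⟩ := exists_chi0 d hd0
  refine ⟨χ₀.conductor, χ₀.primitiveCharacter, Nat.pos_of_ne_zero χ₀.conductor_ne_zero, χ₀.primitiveCharacter_isPrimitive,
    4 * d.natAbs + 1, fun p hp hpN => ?_⟩
  have hpf : Fact p.Prime := ⟨hp⟩
  have hdpos := Int.natAbs_pos.2 hd0
  have hp2 : p ≠ 2 := by omega
  have hcop : p.Coprime (4 * d.natAbs) := by
    rw [hp.coprime_iff_not_dvd]
    intro hdvd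
    have := Nat.le_of_dvd (by positivity) hdvd
    omega
  have hpd : ((d : ℤ) : ZMod p) ≠ 0 := by
    rw [Ne, ZMod.intCast_zmod_eq_zero_iff_dvd]
    intro hdvd
    have h3 := Int.natAbs_dvd_natAbs.2 hdvd
    rw [Int.natAbs_natCast] at h3
    have := Nat.le_of_dvd hdpos h3
    omega
  have h3 : χ₀.primitiveCharacter (p : ZMod χ₀.conductor) = χ₀ (p : ZMod (4 * d.natAbs)) := by
    have := χ₀.primitiveCharacter_apply_of_isCoprime (a := (p : ℤ)) (by
      exact Nat.isCoprime_iff_coprime.2 hcop)
    rw [Int.cast_natCast, Int.cast_natCast] at this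
    exact this
  have h4 := card_hom h2 hd hα hp2 hpd
  have h5 : jacobiSym d p = legendreSym p d := (jacobiSym.legendreSym.to_jacobiSym p d).symm
  rw [h3, hχ₀ p hcop, h5]
  constructor
  · have : (Nat.card (𝓞 K →+* ZMod p) : ℂ) = ((legendreSym p d : ℤ) : ℂ) + 1 := by
      exact_mod_cast congrArg (fun t : ℤ => (t : ℂ)) h4
    rw [this]; ring
  · have h6 := legendreSym.sq_one p (a := d) hpd
    exact_mod_cast congrArg (fun t : ℤ => (t : ℂ)) h6

end Q276.OM
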