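import Mathlib

/-!
# Mellin transforms: odd functions under inversion and series
-/

set_option autoImplicit false

open MeasureTheory Filter Topology Set

namespace Q276.OM

theorem mellin_odd {H : ℝ → ℂ} (hc : ContinuousOn H (Ioi 0))
    (hd : ∀ N : ℝ, H =O[atTop] (fun y : ℝ => y ^ (-N)))
    (hH : ∀ y, 0 < y → H y⁻¹ = - H y) :
    Differentiable ℂ (mellin H) ∧ ∀ s, mellin H (-s) = - mellin H s := by
  have hloc : LocallyIntegrableOn H (Ioi 0) := hc.locallyIntegrableOn measurableSet_Ioi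
  have h0 : ∀ N : ℝ, H =O[𝓝[>] 0] (fun y : ℝ => y ^ (-N)) := by
    intro N
    have h1 := (hd (-N)).comp_tendsto tendsto_inv_nhdsGT_zero
    have h2 : (H ∘ fun y : ℝ => y⁻¹) =ᶠ[𝓝[>] 0] fun y => - H y := by
      filter_upwards [self_mem_nhdsWithin] with y hy
      exact hH y hy
    have h3 : ((fun y : ℝ => y ^ (-(-N))) ∘ fun y : ℝ => y⁻¹) =ᶠ[𝓝[>] 0] fun y => y ^ (-N) := by
      filter_upwards [self_mem_nhdsWithin] with y hy
      have hy' : (0:ℝ) < y := hy
      simp only [Function.comp]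
      rw [Real.inv_rpow hy'.le, neg_neg, Real.rpow_neg hy'.le]
    have h4 := (h1.congr' h2 h3).neg_left
    simpa using h4
  constructor
  · intro s
    exact mellin_differentiableAt_of_isBigO_rpow (a := s.re + 1) (b := s.re - 1) hloc (hd _) (by linarith) (h0 _) (by linarith)
  · intro s
    rw [← mellin_comp_inv]
    unfold mellin
    rw [← integral_neg]
    refine setIntegral_congr_fun measurableSet_Ioi (fun y hy => ?_)
    simp only
    rw [hH y hy, smul_neg]

lemma summable_coef {a : ℕ → ℂ} {Ca : ℝ} {δ : ℕ} (ha : ∀ n, ‖a n‖ ≤ Ca * n ^ δ) {σ : ℝ} (hσ : δ + 1 < σ) :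
    Summable (fun n : ℕ => ‖a n‖ * (n : ℝ) ^ (-σ)) := by
  have h1 : Summable (fun n : ℕ => Ca * (n : ℝ) ^ ((δ : ℝ) - σ)) :=
    (Real.summable_nat_rpow.2 (by linarith)).mul_left Ca
  refine Summable.of_nonneg_of_le (fun n => by positivity) (fun n => ?_) h1
  rcases Nat.eq_zero_or_pos n with rfl | hn
  · have h2 : -σ ≠ 0 := by
      have : (0:ℝ) ≤ δ := Nat.cast_nonneg _
      linarith
    have h3 : (δ : ℝ) - σ ≠ 0 := by linarith
    rw [Nat.cast_zero, Real.zero_rpow h2, Real.zero_rpow h3, mul_zero, mul_zero]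
  · have hn' : (0:ℝ) < n := by exact_mod_cast hn
    calc ‖a n‖ * (n : ℝ) ^ (-σ) ≤ (Ca * n ^ δ) * (n : ℝ) ^ (-σ) := by
          gcongr
          exact ha n
      _ = Ca * (n : ℝ) ^ ((δ : ℝ) - σ) := by
          rw [sub_eq_add_neg, Real.rpow_add hn', Real.rpow_natCast]; ring

theorem mellin_series {a : ℕ → ℂ} {w h : ℝ → ℂ} {Ca Cw : ℝ} {δ : ℕ} (ha0 : a 0 = 0)
    (ha : ∀ n, ‖a n‖ ≤ Ca * n ^ δ) (hw : ∀ y, 0 < y → ‖w y‖ ≤ Cw * Real.exp (-y))
    (hwc : ContinuousOn w (Ioi 0))
    (hh : ∀ y, 0 < y → HasSum (fun n : ℕ => a n * w (n * y)) (h y)) {z : ℂ} (hz : δ + 1 < z.re) :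
    mellin h z = (∑' n : ℕ, a n * (n : ℂ) ^ (-z)) * mellin w z := by
  have hz0 : 0 < z.re := by
    have : (0:ℝ) ≤ δ := Nat.cast_nonneg _
    linarith
  have hCw : 0 ≤ Cw := by
    have h1 := (norm_nonneg _).trans (hw 1 one_pos)
    by_contra hcon
    push Not at hcon
    have := mul_neg_of_neg_of_pos hcon (Real.exp_pos (-1))
    linarith
  have hwm : MellinConvergent w z := by
    refine mellinConvergent_of_isBigO_rpow_exp (a := 1) (b := 0) one_pos (hwc.locallyIntegrableOn measurableSet_Ioi) ?_ ?_ hz0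
    · refine Asymptotics.IsBigO.of_bound Cw ?_
      filter_upwards [eventually_gt_atTop 0] with y hy
      rw [Real.norm_of_nonneg (Real.exp_pos _).le]
      have := hw y hy
      rwa [neg_one_mul]
    · refine Asymptotics.IsBigO.of_bound Cw ?_
      filter_upwards [self_mem_nhdsWithin] with y hy
      have hy' : (0:ℝ) < y := hy
      rw [neg_zero, Real.rpow_zero, norm_one, mul_one]
      refine (hw y hy').trans ?_
      have : Real.exp (-y) ≤ 1 := Real.exp_le_one_iff.2 (by linarith)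
      nlinarith
  set F : ℕ → ℝ → ℂ := fun n y => (y : ℂ) ^ (z - 1) • (a n * w (n * y)) with hF
  have hFint : ∀ n, Integrable (F n) (volume.restrict (Ioi 0)) := by
    intro n
    rcases Nat.eq_zero_or_pos n with rfl | hn
    · have : F 0 = fun _ => 0 := by funext y; simp [hF, ha0]
      rw [this]; exact integrable_zero _ _ _
    · have hn' : (0:ℝ) < n := by exact_mod_cast hn
      have h1 : MellinConvergent (fun y => w (n * y)) z := (MellinConvergent.comp_mul_left hn').2 hwm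
      have h2 := h1.const_smul (a n)
      exact h2
  have hmF : ∀ n, ∫ y in Ioi (0:ℝ), F n y = a n * (n : ℂ) ^ (-z) * mellin w z := by
    intro n
    rcases Nat.eq_zero_or_pos n with rfl | hn
    · simp [hF, ha0]
    · have hn' : (0:ℝ) < n := by exact_mod_cast hn
      have h1 := mellin_const_smul (fun y => w (n * y)) z (a n)
      rw [mellin_comp_mul_left w z hn'] at h1
      have h2 : ∫ y in Ioi (0:ℝ), F n y = mellin (fun t => a n • w (n * t)) z := rfl
      rw [h2, h1]
      simp only [smul_eq_mul, Complex.ofReal_natCast]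
      ring
  set K : ℝ := ∫ t in Ioi (0:ℝ), ‖(t : ℂ) ^ (z - 1) • w t‖ with hK
  have hnF : ∀ n, ∫ y in Ioi (0:ℝ), ‖F n y‖ = (‖a n‖ * (n : ℝ) ^ (-z.re)) * K := by
    intro n
    rcases Nat.eq_zero_or_pos n with rfl | hn
    · simp [hF, ha0]
    · have hn' : (0:ℝ) < n := by exact_mod_cast hn
      have h1 := integral_comp_mul_left_Ioi (fun t : ℝ => ‖(t : ℂ) ^ (z - 1) • w t‖) 0 hn'
      rw [mul_zero, ← hK] at h1
      have h2 : ∀ y ∈ Ioi (0:ℝ), ‖F n y‖ = (‖a n‖ * (n : ℝ) ^ (1 - z.re)) * ‖(((n * y : ℝ) : ℝ) : ℂ) ^ (z - 1) • w (n * y)‖ := by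
        intro y hy
        have hy' : (0:ℝ) < y := hy
        simp only [hF]
        rw [norm_smul, norm_smul, norm_mul, Complex.norm_cpow_eq_rpow_re_of_pos hy', Complex.norm_cpow_eq_rpow_re_of_pos (by positivity),
          Real.mul_rpow hn'.le hy'.le]
        have h3 : (n : ℝ) ^ (1 - z.re) * (n : ℝ) ^ (z - 1).re = 1 := by
          rw [← Real.rpow_add hn']
          simp
        linear_combination (-(‖a n‖ * y ^ (z - 1).re * ‖w (n * y)‖)) * h3
      rw [setIntegral_congr_fun measurableSet_Ioi h2, integral_const_mul, h1, smul_eq_mul]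
      have h4 : (n : ℝ) ^ (1 - z.re) = (n : ℝ) * (n : ℝ) ^ (-z.re) := by
        rw [sub_eq_add_neg, Real.rpow_add hn', Real.rpow_one]
      rw [h4]
      field_simp
  have hsum : Summable (fun n => ∫ y in Ioi (0:ℝ), ‖F n y‖) := by
    simp only [hnF]
    exact (summable_coef ha hz).mul_right K
  have key := hasSum_integral_of_summable_integral_norm hFint hsum
  have h1 : ∫ y in Ioi (0:ℝ), ∑' n, F n y = mellin h z := by
    unfold mellin
    refine setIntegral_congr_fun measurableSet_Ioi (fun y hy => ?_)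
    have h2 := (hh y hy).const_smul ((y : ℂ) ^ (z - 1))
    exact h2.tsum_eq
  rw [h1] at key
  simp only [hmF] at key
  have h3 := key.tsum_eq
  rw [← h3, tsum_mul_right]

lemma series_decay {a : ℕ → ℂ} {w h : ℝ → ℂ} {Ca Cw : ℝ} {δ : ℕ} (ha0 : a 0 = 0)
    (ha : ∀ n, ‖a n‖ ≤ Ca * n ^ δ) (hw : ∀ y, 0 < y → ‖w y‖ ≤ Cw * Real.exp (-y))
    (hh : ∀ y, 0 < y → HasSum (fun n : ℕ => a n * w (n * y)) (h y)) :
    ∃ K, ∀ y, 1 ≤ y → ‖h y‖ ≤ K * Real.exp (-y) := by
  have hCw : 0 ≤ Cw := by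
    have h1 := (norm_nonneg _).trans (hw 1 one_pos)
    by_contra hcon
    push Not at hcon
    have := mul_neg_of_neg_of_pos hcon (Real.exp_pos (-1))
    linarith
  have hCa : 0 ≤ Ca := by
    have := (norm_nonneg _).trans (ha 1)
    simpa using this
  have hS : Summable (fun n : ℕ => (n : ℝ) ^ δ * Real.exp (-(n : ℝ))) := by
    have := Real.summable_pow_mul_exp_neg_nat_mul δ one_pos
    refine this.congr (fun n => ?_)
    rw [neg_one_mul]
  refine ⟨Ca * Cw * Real.exp 1 * ∑' n : ℕ, (n : ℝ) ^ δ * Real.exp (-(n : ℝ)), fun y hy => ?_⟩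
  have hb : ∀ n : ℕ, ‖a n * w (n * y)‖ ≤ (Ca * Cw * Real.exp 1 * Real.exp (-y)) * ((n : ℝ) ^ δ * Real.exp (-(n : ℝ))) := by
    intro n
    rcases Nat.eq_zero_or_pos n with rfl | hn
    · rw [ha0, zero_mul, norm_zero]
      positivity
    · have hn' : (1:ℝ) ≤ n := by exact_mod_cast hn
      rw [norm_mul]
      have h1 := hw (n * y) (by nlinarith)
      have h2 : Real.exp (-(n * y)) ≤ Real.exp 1 * Real.exp (-y) * Real.exp (-(n : ℝ)) := by
        rw [← Real.exp_add, ← Real.exp_add]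
        apply Real.exp_le_exp.2
        nlinarith
      calc ‖a n‖ * ‖w (n * y)‖ ≤ (Ca * n ^ δ) * (Cw * (Real.exp 1 * Real.exp (-y) * Real.exp (-(n : ℝ)))) := by
            gcongr
            · exact ha n
            · exact h1.trans (by gcongr)
        _ = _ := by ring
  have h1 := (hh y (by linarith)).tsum_eq
  rw [← h1]
  refine (tsum_of_norm_bounded (hS.mul_left (Ca * Cw * Real.exp 1 * Real.exp (-y))).hasSum hb).trans ?_
  rw [tsum_mul_left]
  apply le_of_eq
  ring

end Q276.OM
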