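import Pool.Agent.Q276.OM.Wone
import Pool.Agent.Q276.OM.Mell

/-!
# Fourier expansions of an odd Maass form and of its horizontal derivative
-/

set_option autoImplicit false

open MeasureTheory Filter Topology Set

namespace Q276.OM

variable {f : ℂ → ℂ} {Λ : ℂ} {c : ℕ → ℂ}

lemma exists_nu (Λ : ℂ) : ∃ ν : ℂ, ν ^ 2 = 1 / 4 - Λ := IsAlgClosed.exists_pow_nat_eq _ two_pos

lemma MF.c_bound (h : MF f Λ c) : ∃ C : ℝ, 0 ≤ C ∧ ∀ n : ℕ, 0 < n → ‖c n‖ ≤ C * n := by
  obtain ⟨M, hM⟩ := h.W_bound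
  obtain ⟨ν, hν⟩ := exists_nu Λ
  obtain ⟨c₀, hc0, hW⟩ := h.W_one hν
  obtain ⟨y, hy, hne⟩ := BK_ne ν
  have hWne : W f 1 y ≠ 0 := by rw [hW y hy]; exact mul_ne_zero hc0 hne
  have hM0 : 0 ≤ M := (norm_nonneg _).trans (hM 1 1 one_pos)
  refine ⟨M / ‖W f 1 y‖, by positivity, fun n hn => ?_⟩
  have hn' : (0:ℝ) < n := by exact_mod_cast hn
  have h1 := congrArg norm (h.hecke_W hn hy)
  rw [norm_mul, norm_mul, Complex.norm_natCast] at h1
  have h2 := hM n (y / n) (by positivity)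
  have h3 : 0 < ‖W f 1 y‖ := norm_pos_iff.2 hWne
  rw [div_mul_eq_mul_div, le_div_iff₀ h3, ← h1, mul_comm]
  gcongr

lemma MF.W1_exp (h : MF f Λ c) : ∃ C : ℝ, 0 ≤ C ∧ ∀ y : ℝ, 0 < y → ‖W f 1 y‖ ≤ C * Real.exp (-y) := by
  obtain ⟨M, hM⟩ := h.W_bound
  obtain ⟨ν, hν⟩ := exists_nu Λ
  obtain ⟨c₀, hc0, hW⟩ := h.W_one hν
  obtain ⟨A, hA0, hA⟩ := BK_decay ν
  have hM0 : 0 ≤ M := (norm_nonneg _).trans (hM 1 1 one_pos)
  refine ⟨M * Real.exp 1 + ‖c₀‖ * A, by positivity, fun y hy => ?_⟩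
  have hE := Real.exp_pos (-y)
  rcases le_or_gt 1 y with h1 | h1
  · rw [hW y hy, norm_mul]
    have h2 := (hA y h1).1
    have h3 : y * Real.exp (-(2 * y)) ≤ Real.exp (-y) := by
      have e1 : Real.exp (-(2 * y)) = Real.exp (-y) * Real.exp (-y) := by
        rw [← Real.exp_add]; congr 1; ring
      have e2 : y * Real.exp (-y) ≤ 1 := by
        have := Real.add_one_le_exp y
        rw [Real.exp_neg, ← div_eq_mul_inv, div_le_one (Real.exp_pos y)]
        linarith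
      rw [e1]; nlinarith
    calc ‖c₀‖ * ‖BK ν y‖ ≤ ‖c₀‖ * (A * y * Real.exp (-(2 * y))) := by gcongr
      _ = ‖c₀‖ * A * (y * Real.exp (-(2 * y))) := by ring
      _ ≤ ‖c₀‖ * A * Real.exp (-y) := by gcongr
      _ ≤ (M * Real.exp 1 + ‖c₀‖ * A) * Real.exp (-y) := by
        have : 0 ≤ M * Real.exp 1 * Real.exp (-y) := by positivity
        linarith
  · have h2 := hM 1 y hy
    have h3 : 1 ≤ Real.exp 1 * Real.exp (-y) := by
      rw [← Real.exp_add]
      exact Real.one_le_exp (by linarith)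
    have h4 : M ≤ M * (Real.exp 1 * Real.exp (-y)) := le_mul_of_one_le_right hM0 h3
    have h5 : 0 ≤ ‖c₀‖ * A * Real.exp (-y) := by positivity
    linarith

lemma MF.Wn_exp (h : MF f Λ c) : ∃ C : ℝ, 0 ≤ C ∧ ∀ (n : ℕ) (y : ℝ), 0 < y → ‖W f n y‖ ≤ C * Real.exp (-(n * y)) := by
  obtain ⟨C1, h10, h1⟩ := h.c_bound
  obtain ⟨C2, h20, h2⟩ := h.W1_exp
  refine ⟨C1 * C2, by positivity, fun n y hy => ?_⟩
  rcases Nat.eq_zero_or_pos n with rfl | hn
  · have := h.W_zero hy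
    rw [Nat.cast_zero, this, norm_zero]
    positivity
  · have hn' : (0:ℝ) < n := by exact_mod_cast hn
    rw [h.W_nat n hy, norm_mul, norm_div, Complex.norm_natCast]
    have h3 := h1 n hn
    have h4 := h2 (n * y) (by positivity)
    have h5 : ‖c n‖ / n ≤ C1 := by rwa [div_le_iff₀ hn']
    calc ‖c n‖ / n * ‖W f 1 (n * y)‖ ≤ C1 * (C2 * Real.exp (-(n * y))) := by gcongr
      _ = C1 * C2 * Real.exp (-(n * y)) := by ring

lemma summable_exp_pow (k : ℕ) {y : ℝ} (hy : 0 < y) : Summable (fun n : ℕ => (n : ℝ) ^ k * Real.exp (-(n * y))) := by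
  have := Real.summable_pow_mul_exp_neg_nat_mul k hy
  refine this.congr (fun n => ?_)
  congr 2; ring

lemma MF.summable_W (h : MF f Λ c) {y : ℝ} (hy : 0 < y) (k : ℕ) : Summable (fun m : ℤ => (m : ℂ) ^ k * W f m y) := by
  obtain ⟨C, hC0, hC⟩ := h.Wn_exp
  have h1 : Summable (fun n : ℕ => ‖((n : ℤ) : ℂ) ^ k * W f (n : ℤ) y‖) := by
    refine Summable.of_nonneg_of_le (fun _ => norm_nonneg _) (fun n => ?_) ((summable_exp_pow k hy).mul_left C)
    rw [norm_mul, norm_pow, Int.cast_natCast, Complex.norm_natCast]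
    calc (n : ℝ) ^ k * ‖W f n y‖ ≤ (n : ℝ) ^ k * (C * Real.exp (-(n * y))) := by
          gcongr; exact hC n y hy
      _ = C * ((n : ℝ) ^ k * Real.exp (-(n * y))) := by ring
  have h2 : Summable (fun n : ℕ => ‖((-(n : ℤ) : ℤ) : ℂ) ^ k * W f (-(n : ℤ)) y‖) := by
    refine h1.congr (fun n => ?_)
    rw [h.W_neg _ hy, Int.cast_neg, norm_mul, norm_mul, norm_neg, norm_pow, norm_pow, norm_neg]
  exact Summable.of_nat_of_neg h1.of_norm h2.of_norm

/-- Fourier expansion of `f`. -/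
lemma MF.exp_f (h : MF f Λ c) (x : ℝ) {y : ℝ} (hy : 0 < y) :
    HasSum (fun n : ℕ => W f n y * (Complex.exp (2 * Real.pi * Complex.I * n * x) - Complex.exp (-(2 * Real.pi * Complex.I * n * x))))
      (f (x + y * Complex.I)) := by
  have hs : Summable (co fun x : ℝ => f ((x : ℂ) + y * Complex.I)) := by
    have := h.summable_W hy 0
    refine this.congr (fun m => ?_)
    rw [pow_zero, one_mul]; rfl
  have h1 := co_hasSum (cont_x h.smooth hy) (h.periodic hy) hs x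
  have h2 := h1.nat_add_neg
  have e0 : co (fun x : ℝ => f ((x : ℂ) + y * Complex.I)) 0 = 0 := h.W_zero hy
  rw [e0, zero_mul, add_zero] at h2
  convert h2 using 1
  funext n
  have e1 : co (fun x : ℝ => f ((x : ℂ) + y * Complex.I)) (n : ℤ) = W f n y := rfl
  have e2 : co (fun x : ℝ => f ((x : ℂ) + y * Complex.I)) (-(n : ℤ)) = - W f n y := h.W_neg n hy
  rw [e1, e2]
  have e3 : 2 * Real.pi * Complex.I * ((-(n : ℤ) : ℤ) : ℂ) * x = -(2 * Real.pi * Complex.I * n * x) := by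
    push_cast; ring
  have e4 : 2 * Real.pi * Complex.I * ((n : ℤ) : ℂ) * x = 2 * Real.pi * Complex.I * n * x := by
    push_cast; ring
  rw [e3, e4]
  ring

/-- Fourier expansion of the horizontal derivative of `f`. -/
lemma MF.exp_Dx (h : MF f Λ c) (x : ℝ) {y : ℝ} (hy : 0 < y) :
    HasSum (fun n : ℕ => 2 * Real.pi * Complex.I * n * W f n y * (Complex.exp (2 * Real.pi * Complex.I * n * x) + Complex.exp (-(2 * Real.pi * Complex.I * n * x))))
      (Dx f (x + y * Complex.I)) := by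
  have hco : ∀ m, co (fun x : ℝ => Dx f ((x : ℂ) + y * Complex.I)) m = 2 * Real.pi * Complex.I * m * W f m y := fun m =>
    co_deriv (g := fun x : ℝ => f ((x : ℂ) + y * Complex.I)) (hasDerivAt_x h.smooth hy)
        (cont_x (smooth_Dx h.smooth) hy) (h.periodic hy) m
  have hs : Summable (co fun x : ℝ => Dx f ((x : ℂ) + y * Complex.I)) := by
    have := (h.summable_W hy 1).mul_left (2 * Real.pi * Complex.I)
    refine this.congr (fun m => ?_)
    rw [hco, pow_one, mul_assoc (2 * Real.pi * Complex.I)]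
  have h1 := co_hasSum (cont_x (smooth_Dx h.smooth) hy) (periodic_Dx h.smooth hy (h.periodic hy)) hs x
  have h2 := h1.nat_add_neg
  simp only [hco] at h2
  rw [Int.cast_zero, mul_zero, zero_mul, zero_mul, add_zero] at h2
  convert h2 using 1
  funext n
  rw [h.W_neg n hy]
  have e3 : 2 * Real.pi * Complex.I * ((-(n : ℤ) : ℤ) : ℂ) * x = -(2 * Real.pi * Complex.I * n * x) := by
    push_cast; ring
  have e4 : 2 * Real.pi * Complex.I * ((n : ℤ) : ℂ) * x = 2 * Real.pi * Complex.I * n * x := by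
    push_cast; ring
  rw [e3, e4]
  push_cast
  ring

end Q276.OM
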