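import Pool.Agent.Q276.OM.FE

/-!
# The functional equation of the even twists, including the trivial one
-/

set_option autoImplicit false

open MeasureTheory Filter Topology Set

namespace Q276.OM

variable {q : ℕ} [NeZero q] {χ : DirichletCharacter ℂ q}
variable {f : ℂ → ℂ} {Λ : ℂ} {c : ℕ → ℂ}

lemma MF.Sg_series_Dx0 (h : MF f Λ c) (hc00 : c 0 = 0) (hp : χ.IsPrimitive) (h2 : χ ^ 2 = 1) {y : ℝ} (hy : 0 < y) :
    HasSum (fun n : ℕ => (2 * Real.pi * Complex.I * (1 + χ (-1)) * gaussSum χ ZMod.stdAddChar * (χ n * c n)) * W f 1 (n * y)) (Sg (Dx f) χ (q * y)) := by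
  have hq : (0:ℝ) < q := by exact_mod_cast Nat.pos_of_ne_zero (NeZero.ne q)
  have hyq : (q * y) / q = y := by field_simp
  have h1 : HasSum (fun n : ℕ => ∑ u : ZMod q, χ u * (2 * Real.pi * Complex.I * n * W f n y * (Complex.exp (2 * Real.pi * Complex.I * n * ((u.val / q : ℝ) : ℂ)) +
      Complex.exp (-(2 * Real.pi * Complex.I * n * ((u.val / q : ℝ) : ℂ)))))) (Sg (Dx f) χ (q * y)) := by
    unfold Sg
    refine hasSum_sum (fun u _ => ?_)
    have e : Gs (Dx f) q (((q * y : ℝ) : ℂ) * Complex.I) u = Dx f (((u.val / q : ℝ) : ℂ) + (y : ℂ) * Complex.I) := by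
      unfold Gs; rw [pt_eq, hyq]
    rw [e]
    exact (h.exp_Dx (u.val / q : ℝ) hy).mul_left (χ u)
  convert h1 using 1
  funext n
  simp only [exp_std, exp_std_neg]
  have e1 := gsum hp h2 (n : ZMod q)
  have e2 := gsum hp h2 (-n : ZMod q)
  have e3 : ∑ u : ZMod q, χ u * (2 * Real.pi * Complex.I * n * W f n y * (ZMod.stdAddChar ((n : ZMod q) * u) + ZMod.stdAddChar ((-n : ZMod q) * u))) =
      2 * Real.pi * Complex.I * n * W f n y * (∑ u : ZMod q, χ u * ZMod.stdAddChar ((n : ZMod q) * u) + ∑ u : ZMod q, χ u * ZMod.stdAddChar ((-n : ZMod q) * u)) := by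
    rw [← Finset.sum_add_distrib, Finset.mul_sum]
    refine Finset.sum_congr rfl (fun u _ => ?_)
    ring
  have e4 : χ (-(n : ZMod q)) = χ (-1) * χ n := by
    rw [← map_mul]; congr 1; ring
  rw [e3, e1, e2, h.W_nat n hy, e4]
  rcases Nat.eq_zero_or_pos n with rfl | hn
  · rw [hc00]; ring
  · have hn' : (n : ℂ) ≠ 0 := by exact_mod_cast hn.ne'
    field_simp

theorem MF.twist_even0 (h : MF f Λ c) (hc00 : c 0 = 0) {ν c₀ : ℂ} (hc₀ : c₀ ≠ 0) (hW : ∀ y : ℝ, 0 < y → W f 1 y = c₀ * BK ν y)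
    (hp : χ.IsPrimitive) (h2 : χ ^ 2 = 1) (hm : χ (-1) = 1) :
    Concl (tc c χ) (q / Real.pi) 1 ν := by
  have hq := qpos (q := q)
  have hqc := qne (q := q)
  obtain ⟨Cc, hCc0, hCc⟩ := h.c_bound
  obtain ⟨Cw, hCw0, hCw⟩ := h.W1_exp
  set τ := gaussSum χ ZMod.stdAddChar with hτ
  have hτ0 : τ ≠ 0 := tau_ne hp
  have hpi : (Real.pi : ℂ) ≠ 0 := by exact_mod_cast Real.pi_ne_zero
  set a : ℕ → ℂ := fun n => 2 * Real.pi * Complex.I * (1 + χ (-1)) * τ * (χ n * c n) with ha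
  have ha0 : a 0 = 0 := by
    simp only [ha]
    rw [hc00]; ring
  have hab : ∀ n, ‖a n‖ ≤ (4 * Real.pi * ‖τ‖ * Cc) * (n : ℝ) ^ 1 := by
    intro n
    rw [pow_one]
    rcases Nat.eq_zero_or_pos n with rfl | hn
    · rw [ha0, norm_zero]; positivity
    · have hn' : (0:ℝ) < n := by exact_mod_cast hn
      simp only [ha]
      rw [hm, norm_mul, norm_mul, norm_mul (2 * Real.pi * Complex.I : ℂ), norm_mul (χ n)]
      have e1 : ‖(1 + 1 : ℂ)‖ = 2 := by norm_num
      have e0 : ‖(2 * Real.pi * Complex.I : ℂ)‖ = 2 * Real.pi := by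
        rw [norm_mul, norm_mul, Complex.norm_I, Complex.norm_real, Real.norm_of_nonneg Real.pi_pos.le]
        simp
      rw [e1, e0]
      have e2 := hCc n hn
      have e3 := chi_norm (χ := χ) (n : ZMod q)
      calc 2 * Real.pi * 2 * ‖τ‖ * (‖χ n‖ * ‖c n‖) ≤ 2 * Real.pi * 2 * ‖τ‖ * (1 * (Cc * n)) := by gcongr
        _ = 4 * Real.pi * ‖τ‖ * Cc * n := by ring
  have hser : ∀ y, 0 < y → HasSum (fun n : ℕ => a n * W f 1 (n * y)) (Sg (Dx f) χ (q * y)) := fun y hy => h.Sg_series_Dx0 hc00 hp h2 hy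
  obtain ⟨K, hK⟩ := series_decay ha0 hab hCw hser
  set H : ℝ → ℂ := fun t => (t : ℂ) ^ (1 : ℂ) • Sg (Dx f) χ t with hH
  have hHe : ∀ t, H t = t * Sg (Dx f) χ t := by
    intro t; simp [hH]
  have hHc : ContinuousOn H (Ioi 0) := by
    have : H = fun t : ℝ => (t : ℂ) * Sg (Dx f) χ t := funext hHe
    rw [this]
    exact (Complex.continuous_ofReal.continuousOn).mul (cont_Sg (χ := χ) (smooth_Dx h.smooth))
  have hHd : ∀ N : ℝ, H =O[atTop] (fun y : ℝ => y ^ (-N)) := by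
    intro N
    have h3 := decay_of (q := q) hK (N + 1)
    have h4 : (fun t : ℝ => (t : ℂ)) =O[atTop] (fun t : ℝ => t) := by
      refine Asymptotics.IsBigO.of_bound 1 (Eventually.of_forall fun t => ?_)
      rw [Complex.norm_real, one_mul]
    have h5 := h4.mul h3
    refine (h5.congr_left (fun t => (hHe t).symm)).trans_eventuallyEq ?_
    filter_upwards [eventually_gt_atTop 0] with t ht
    rw [neg_add, Real.rpow_add ht, Real.rpow_neg_one]
    field_simp
  have hHi : ∀ y, 0 < y → H y⁻¹ = - H y := by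
    intro y hy
    have h3 := h.Sg_inv_Dx h2 (inv_pos.2 hy)
    rw [inv_inv, hm, one_mul] at h3
    rw [hHe, hHe, h3]
    have hy' : (y : ℂ) ≠ 0 := by exact_mod_cast hy.ne'
    push_cast
    field_simp
  have hmell := mellin_odd hHc hHd hHi
  have hqhalf : (q : ℂ) ^ (1 / 2 : ℂ) ≠ 0 := by rw [Complex.cpow_def_of_ne_zero hqc]; exact Complex.exp_ne_zero _
  have hν := h.nu_re hc₀ hW
  refine finish (K := 2 * Complex.I * τ * c₀ * (q : ℂ) ^ (1 / 2 : ℂ))
    (mul_ne_zero (mul_ne_zero (mul_ne_zero (mul_ne_zero two_ne_zero Complex.I_ne_zero) hτ0) hc₀) hqhalf) (by positivity)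
    hmell.1 hmell.2 (fun s hs => h.summable_tc hs) (fun s hs => ?_) (fun s hs => ?_)
  · have := gamma_ok hν (zero_le_one (α := ℝ)) hs
    simpa using this
  · have hz : 2 < (s + 1 / 2).re := by
      have hhalf : (1 / 2 : ℂ).re = 1 / 2 := by norm_num
      rw [Complex.add_re, hhalf]; linarith
    have e0 : mellin H (s - 1 / 2) = mellin (Sg (Dx f) χ) (s + 1 / 2) := by
      rw [hH, mellin_cpow_smul]
      congr 1; ring
    rw [e0, mellin_scale (q := q), mellin_series (δ := 1) ha0 hab hCw h.W1_cont hser (by push_cast; linarith), h.mellin_W1 hc₀ hW (by linarith)]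
    have e1 : ∑' n : ℕ, a n * (n : ℂ) ^ (-(s + 1 / 2)) = 4 * Real.pi * Complex.I * τ * LSeries (tc c χ) s := by
      unfold LSeries
      rw [← tsum_mul_left]
      refine tsum_congr (fun n => ?_)
      rcases Nat.eq_zero_or_pos n with rfl | hn
      · rw [ha0]; simp
      · rw [LSeries.term_of_ne_zero hn.ne']
        simp only [ha, hm, tc]
        have := term_even hn s (c n)
        linear_combination (4 * Real.pi * Complex.I * τ * χ n) * this
    rw [e1, Q_pow hq, ← pow_simp]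
    have e2 : s + 1 / 2 + 1 / 2 = s + 1 := by ring
    rw [e2]
    have e3 : (q : ℂ) ^ (s + 1 / 2) = (q : ℂ) ^ s * (q : ℂ) ^ (1 / 2 : ℂ) := by
      rw [← Complex.cpow_add _ _ hqc]
    have e4 : (2 : ℂ) ^ (s + 1 - 1) = (2 : ℂ) ^ s := by
      congr 1; ring
    have e5 : (2 * Real.pi : ℂ) ^ (-(s + 1)) = (2 * Real.pi : ℂ) ^ (-s) / (2 * Real.pi) := by
      have : -(s + 1) = -s - 1 := by ring
      rw [this, Complex.cpow_sub _ _ (by simp [Real.pi_ne_zero]), Complex.cpow_one]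
    rw [e3, e4, e5]
    field_simp
    ring

end Q276.OM
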