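import Pool.Agent.Q276.OM.Maass

/-!
# Odd Hecke–Maass forms of level one as functions of a complex variable
-/

set_option autoImplicit false

open scoped MatrixGroups Pointwise
open UpperHalfPlane MeasureTheory Filter Topology
open Matrix hiding J

namespace Q276.OM

/-- Odd Hecke–Maass cusp forms of level one. -/
structure MF (f : ℂ → ℂ) (Λ : ℂ) (c : ℕ → ℂ) : Prop where
  smooth : ContDiffOn ℝ (⊤ : ℕ∞) f {z : ℂ | 0 < z.im}
  sl : ∀ (g : SL(2, ℤ)) (z : ℂ), 0 < z.im → f ((((g 0 0 : ℤ) : ℂ) * z + ((g 0 1 : ℤ) : ℂ)) / (((g 1 0 : ℤ) : ℂ) * z + ((g 1 1 : ℤ) : ℂ))) = f z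
  odd : ∀ z : ℂ, 0 < z.im → f (-(starRingEnd ℂ) z) = - f z
  lap : ∀ z : ℂ, 0 < z.im → -(z.im : ℂ) ^ 2 * (deriv (deriv (fun t : ℝ => f (z + (t : ℂ)))) 0 +
      deriv (deriv (fun t : ℝ => f (z + (t : ℂ) * Complex.I))) 0) = Λ * f z
  bdd : ∃ B, ∀ z : ℂ, 0 < z.im → ‖f z‖ ≤ B
  ne : ∃ z : ℂ, 0 < z.im ∧ f z ≠ 0
  hecke : ∀ n : ℕ, 0 < n → ∀ z : ℂ, 0 < z.im → To n f z = c n * f z

theorem exists_MF : ∃ (f : ℂ → ℂ) (Λ : ℂ) (c : ℕ → ℂ), MF f Λ c := by
  obtain ⟨φ, C, κ, F, μ, hφ, hκ, hF, hF0, hp, hμ⟩ := exists_maass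
  obtain ⟨B, hB⟩ := hF.bdd
  have hTK : ext (TK φ F) = fun z => κ * ext F z := by
    funext z
    exact hF.eig _
  have hTK' : ext F = fun z => κ⁻¹ * ext (TK φ F) z := by
    rw [hTK]
    funext z
    rw [← mul_assoc, inv_mul_cancel₀ hκ, one_mul]
  have hall := eigen_all hF.per (by
    intro p hpp
    obtain ⟨c, hc⟩ := hp p hpp
    refine ⟨c, fun z hz => ?_⟩
    have := hc (ofComplex z)
    unfold HT at this
    rw [ofComplex_coe' z hz] at this
    exact this)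
  choose! c hc using hall
  refine ⟨ext F, -(μ / κ), c, ?_, ?_, ?_, ?_, ?_, ?_, hc⟩
  · rw [hTK']
    exact contDiffOn_const.mul (smooth_TK hφ hF.meas hB)
  · intro g z hz
    have e1 : ext F ((((g 0 0 : ℤ) : ℂ) * z + ((g 0 1 : ℤ) : ℂ)) / (((g 1 0 : ℤ) : ℂ) * z + ((g 1 1 : ℤ) : ℂ))) =
        F (g • (⟨z, hz⟩ : ℍ)) := by
      apply ext_of
      rw [coe_specialLinearGroup_apply]
      simp
    rw [e1, hF.SL]
    exact (ext_of _ _ rfl).symm
  · intro z hz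
    exact hF.Jinv z hz
  · intro z hz
    have h1 := laplacian_TK hφ hF.meas hB z hz
    rw [hTK] at h1
    have h2 : ext (TK (Lap φ) F) z = μ * ext F z := hμ _
    rw [h2] at h1
    simp only [deriv_const_mul_field'] at h1
    field_simp
    linear_combination (-1 : ℂ) * h1
  · exact ⟨B, fun z _ => hB _⟩
  · by_contra hcon
    push Not at hcon
    apply hF0
    funext z
    have := hcon z z.im_pos
    rwa [ext_coe] at this

end Q276.OM
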