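import Pool.Agent.Q276.OM.Four
import Pool.Agent.Q276.OM.Form

/-!
# Differentiation in the upper half plane and the differential equation of the Fourier coefficients
-/

set_option autoImplicit false

open MeasureTheory Filter Topology Set

namespace Q276.OM

/-- the upper half plane as a set -/
def Up : Set ℂ := {z : ℂ | 0 < z.im}

lemma isOpen_Up : IsOpen Up := isOpen_lt continuous_const Complex.continuous_im

lemma mem_Up {x y : ℝ} (hy : 0 < y) : (x : ℂ) + y * Complex.I ∈ Up := by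
  simp [Up, hy]

/-- horizontal derivative -/
noncomputable def Dx (g : ℂ → ℂ) (z : ℂ) : ℂ := fderiv ℝ g z 1

/-- vertical derivative -/
noncomputable def Dy (g : ℂ → ℂ) (z : ℂ) : ℂ := fderiv ℝ g z Complex.I

lemma smooth_Dv {g : ℂ → ℂ} (hg : ContDiffOn ℝ (⊤ : ℕ∞) g Up) (v : ℂ) :
    ContDiffOn ℝ (⊤ : ℕ∞) (fun z => fderiv ℝ g z v) Up := by
  have h1 : ContDiffOn ℝ (⊤ : ℕ∞) (fderiv ℝ g) Up :=
    hg.fderiv_of_isOpen isOpen_Up (by simp)
  exact h1.clm_apply contDiffOn_const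

lemma smooth_Dx {g : ℂ → ℂ} (hg : ContDiffOn ℝ (⊤ : ℕ∞) g Up) : ContDiffOn ℝ (⊤ : ℕ∞) (Dx g) Up :=
  smooth_Dv hg 1

lemma smooth_Dy {g : ℂ → ℂ} (hg : ContDiffOn ℝ (⊤ : ℕ∞) g Up) : ContDiffOn ℝ (⊤ : ℕ∞) (Dy g) Up :=
  smooth_Dv hg Complex.I

lemma hasFDerivAt_of {g : ℂ → ℂ} (hg : ContDiffOn ℝ (⊤ : ℕ∞) g Up) {z : ℂ} (hz : z ∈ Up) :
    HasFDerivAt g (fderiv ℝ g z) z :=
  ((hg.contDiffAt (isOpen_Up.mem_nhds hz)).differentiableAt (by simp)).hasFDerivAt

lemma hasDerivAt_line {g : ℂ → ℂ} (hg : ContDiffOn ℝ (⊤ : ℕ∞) g Up) (z v : ℂ) {t : ℝ}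
    (hz : z + t * v ∈ Up) : HasDerivAt (fun t : ℝ => g (z + t * v)) (fderiv ℝ g (z + t * v) v) t := by
  have h1 : HasDerivAt (fun t : ℝ => z + t * v) v t := by
    have := ((Complex.ofRealCLM.hasDerivAt (x := t)).mul_const v).const_add z
    simp only [Complex.ofRealCLM_apply, Complex.ofReal_one, one_mul] at this
    exact this
  exact (hasFDerivAt_of hg hz).comp_hasDerivAt t h1

lemma hasDerivAt_x {g : ℂ → ℂ} (hg : ContDiffOn ℝ (⊤ : ℕ∞) g Up) {y : ℝ} (hy : 0 < y) (x : ℝ) :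
    HasDerivAt (fun x : ℝ => g ((x : ℂ) + y * Complex.I)) (Dx g (x + y * Complex.I)) x := by
  have h1 := hasDerivAt_line hg (y * Complex.I) 1 (t := x) (by
    rw [mul_one, add_comm]; exact mem_Up hy)
  simp only [mul_one] at h1
  have h2 : (fun x : ℝ => g ((x : ℂ) + y * Complex.I)) = fun t : ℝ => g (y * Complex.I + t) := by
    funext t; rw [add_comm]
  rw [h2]
  convert h1 using 1
  rw [add_comm (y * Complex.I)]; rfl

lemma hasDerivAt_y {g : ℂ → ℂ} (hg : ContDiffOn ℝ (⊤ : ℕ∞) g Up) {y : ℝ} (hy : 0 < y) (x : ℝ) :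
    HasDerivAt (fun y : ℝ => g ((x : ℂ) + y * Complex.I)) (Dy g (x + y * Complex.I)) y :=
  hasDerivAt_line hg x Complex.I (mem_Up hy)

lemma cont_x {g : ℂ → ℂ} (hg : ContDiffOn ℝ (⊤ : ℕ∞) g Up) {y : ℝ} (hy : 0 < y) :
    Continuous (fun x : ℝ => g ((x : ℂ) + y * Complex.I)) :=
  continuous_iff_continuousAt.2 fun x => (hasDerivAt_x hg hy x).continuousAt

lemma cont_y {g : ℂ → ℂ} (hg : ContDiffOn ℝ (⊤ : ℕ∞) g Up) (x : ℝ) :
    ContinuousOn (fun y : ℝ => g ((x : ℂ) + y * Complex.I)) (Ioi 0) :=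
  fun _ hy => (hasDerivAt_y hg hy x).continuousAt.continuousWithinAt

lemma Dx_Dx {g : ℂ → ℂ} (hg : ContDiffOn ℝ (⊤ : ℕ∞) g Up) {z : ℂ} (hz : z ∈ Up) :
    deriv (deriv (fun t : ℝ => g (z + (t : ℂ)))) 0 = Dx (Dx g) z := by
  have h1 : deriv (fun t : ℝ => g (z + (t : ℂ))) = fun t : ℝ => Dx g (z + (t : ℂ)) := by
    funext t
    have := hasDerivAt_line hg z 1 (t := t) (by
      rw [mul_one]
      simpa [Up] using hz)
    simp only [mul_one] at this
    exact this.deriv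
  rw [h1]
  have := hasDerivAt_line (smooth_Dx hg) z 1 (t := 0) (by simpa using hz)
  simp only [mul_one, Complex.ofReal_zero, add_zero] at this
  exact this.deriv

lemma Dy_Dy {g : ℂ → ℂ} (hg : ContDiffOn ℝ (⊤ : ℕ∞) g Up) {z : ℂ} (hz : z ∈ Up) :
    deriv (deriv (fun t : ℝ => g (z + (t : ℂ) * Complex.I))) 0 = Dy (Dy g) z := by
  have h1 : deriv (fun t : ℝ => g (z + (t : ℂ) * Complex.I)) =ᶠ[𝓝 0] fun t : ℝ => Dy g (z + (t : ℂ) * Complex.I) := by
    have h2 : ∀ᶠ t : ℝ in 𝓝 0, z + (t : ℂ) * Complex.I ∈ Up := by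
      have hc : Continuous fun t : ℝ => z + (t : ℂ) * Complex.I := by fun_prop
      exact hc.continuousAt.eventually_mem (by simpa using isOpen_Up.mem_nhds hz)
    filter_upwards [h2] with t ht
    exact (hasDerivAt_line hg z Complex.I ht).deriv
  rw [h1.deriv_eq]
  have := hasDerivAt_line (smooth_Dy hg) z Complex.I (t := 0) (by simpa using hz)
  simp only [Complex.ofReal_zero, zero_mul, add_zero] at this
  exact this.deriv

lemma hasDerivAt_co {g : ℂ → ℂ} (hg : ContDiffOn ℝ (⊤ : ℕ∞) g Up) (m : ℤ) {y : ℝ} (hy : 0 < y) :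
    HasDerivAt (fun y : ℝ => co (fun x : ℝ => g ((x : ℂ) + y * Complex.I)) m)
      (co (fun x : ℝ => Dy g ((x : ℂ) + y * Complex.I)) m) y := by
  have hDc : ContinuousOn (Dy g) Up := (smooth_Dy hg).continuousOn
  obtain ⟨M, hM⟩ : ∃ M, ∀ p ∈ (Icc (0:ℝ) 1) ×ˢ (Icc (y / 2) (2 * y)), ‖Dy g ((p.1 : ℂ) + p.2 * Complex.I)‖ ≤ M := by
    have hK : IsCompact ((Icc (0:ℝ) 1) ×ˢ (Icc (y / 2) (2 * y))) := isCompact_Icc.prod isCompact_Icc
    have hc : ContinuousOn (fun p : ℝ × ℝ => Dy g ((p.1 : ℂ) + p.2 * Complex.I)) ((Icc (0:ℝ) 1) ×ˢ (Icc (y / 2) (2 * y))) := by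
      refine hDc.comp (by fun_prop) ?_
      intro p hp
      have := hp.2.1
      exact mem_Up (by linarith)
    exact hK.exists_bound_of_continuousOn hc
  have hs : Ioo (y / 2) (2 * y) ∈ 𝓝 y := Ioo_mem_nhds (by linarith) (by linarith)
  have hcE : ∀ m : ℤ, Continuous fun x : ℝ => Complex.exp (-(2 * Real.pi * Complex.I * m * x)) := by
    intro m; fun_prop
  have hnE : ∀ (m : ℤ) (x : ℝ), ‖Complex.exp (-(2 * Real.pi * Complex.I * m * x))‖ = 1 := by
    intro m x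
    have : -(2 * Real.pi * Complex.I * m * x) = ((-(2 * Real.pi * m * x) : ℝ) : ℂ) * Complex.I := by
      push_cast; ring
    rw [this, Complex.norm_exp_ofReal_mul_I]
  have key := intervalIntegral.hasDerivAt_integral_of_dominated_loc_of_deriv_le (μ := (volume : Measure ℝ))
    (F := fun (y x : ℝ) => g ((x : ℂ) + y * Complex.I) * Complex.exp (-(2 * Real.pi * Complex.I * m * x)))
    (F' := fun (y x : ℝ) => Dy g ((x : ℂ) + y * Complex.I) * Complex.exp (-(2 * Real.pi * Complex.I * m * x)))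
    (x₀ := y) (a := 0) (b := 1) (s := Ioo (y / 2) (2 * y)) (bound := fun _ => M) hs ?_ ?_ ?_ ?_ ?_ ?_
  · exact key.2
  · filter_upwards [hs] with t ht
    have ht0 : 0 < t := by linarith [ht.1]
    exact ((cont_x hg ht0).mul (hcE m)).aestronglyMeasurable
  · exact ((cont_x hg hy).mul (hcE m)).intervalIntegrable _ _
  · exact ((cont_x (smooth_Dy hg) hy).mul (hcE m)).aestronglyMeasurable
  · refine Eventually.of_forall (fun x hx t ht => ?_)
    rw [norm_mul, hnE, mul_one]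
    rw [uIoc_of_le zero_le_one] at hx
    exact hM (x, t) ⟨⟨hx.1.le, hx.2⟩, ⟨ht.1.le, ht.2.le⟩⟩
  · exact intervalIntegrable_const
  · refine Eventually.of_forall (fun x _ t ht => ?_)
    have ht0 : 0 < t := by linarith [ht.1]
    exact (hasDerivAt_y hg ht0 x).mul_const _

variable {f : ℂ → ℂ} {Λ : ℂ} {c : ℕ → ℂ}

lemma MF.trans (h : MF f Λ c) {z : ℂ} (hz : 0 < z.im) : f (z + 1) = f z := by
  have := h.sl (ModularGroup.T) z hz
  simpa [ModularGroup.T] using this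

lemma MF.per (h : MF f Λ c) : Per f := fun _ hz => h.trans hz

lemma MF.periodic (h : MF f Λ c) {y : ℝ} (hy : 0 < y) : Function.Periodic (fun x : ℝ => f ((x : ℂ) + y * Complex.I)) 1 := by
  intro x
  have : ((x + 1 : ℝ) : ℂ) + y * Complex.I = ((x : ℂ) + y * Complex.I) + 1 := by push_cast; ring
  simp only [this]
  exact h.trans (mem_Up hy)

lemma periodic_Dx {g : ℂ → ℂ} (hg : ContDiffOn ℝ (⊤ : ℕ∞) g Up) {y : ℝ} (hy : 0 < y)
    (hp : Function.Periodic (fun x : ℝ => g ((x : ℂ) + y * Complex.I)) 1) :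
    Function.Periodic (fun x : ℝ => Dx g ((x : ℂ) + y * Complex.I)) 1 := by
  intro x
  have h1 := hasDerivAt_x hg hy (x + 1)
  have h2 := hasDerivAt_x hg hy x
  have h3 := h1.comp_add_const x 1
  have h4 : (fun x : ℝ => g (((x + 1 : ℝ) : ℂ) + y * Complex.I)) = fun x : ℝ => g ((x : ℂ) + y * Complex.I) := by
    funext t; exact hp t
  rw [h4] at h3
  exact h3.unique h2

/-- Fourier coefficients along horizontal lines -/
noncomputable def W (f : ℂ → ℂ) (m : ℤ) (y : ℝ) : ℂ := co (fun x : ℝ => f ((x : ℂ) + y * Complex.I)) m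

/-- Vertical derivative of the Fourier coefficient. -/
noncomputable def W' (f : ℂ → ℂ) (m : ℤ) (y : ℝ) : ℂ := co (fun x : ℝ => Dy f ((x : ℂ) + y * Complex.I)) m

lemma MF.hW (h : MF f Λ c) (m : ℤ) {y : ℝ} (hy : 0 < y) : HasDerivAt (W f m) (W' f m y) y :=
  hasDerivAt_co h.smooth m hy

lemma MF.lap' (h : MF f Λ c) {x y : ℝ} (hy : 0 < y) :
    Dy (Dy f) ((x : ℂ) + y * Complex.I) = -(Λ / (y : ℂ) ^ 2) * f ((x : ℂ) + y * Complex.I) - Dx (Dx f) ((x : ℂ) + y * Complex.I) := by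
  have h1 := h.lap _ (mem_Up (x := x) hy)
  rw [Dx_Dx h.smooth (mem_Up hy), Dy_Dy h.smooth (mem_Up hy)] at h1
  have h2 : ((x : ℂ) + y * Complex.I).im = y := by simp
  rw [h2] at h1
  have hy' : (y : ℂ) ≠ 0 := by exact_mod_cast hy.ne'
  field_simp
  linear_combination -h1

lemma MF.hW' (h : MF f Λ c) (m : ℤ) {y : ℝ} (hy : 0 < y) :
    HasDerivAt (W' f m) ((4 * Real.pi ^ 2 * m ^ 2 - Λ / (y : ℂ) ^ 2) * W f m y) y := by
  have h1 := hasDerivAt_co (smooth_Dy h.smooth) m hy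
  have h2 : co (fun x : ℝ => Dy (Dy f) ((x : ℂ) + y * Complex.I)) m = (4 * Real.pi ^ 2 * m ^ 2 - Λ / (y : ℂ) ^ 2) * W f m y := by
    have e1 : co (fun x : ℝ => Dx (Dx f) ((x : ℂ) + y * Complex.I)) m = (2 * Real.pi * Complex.I * m) * ((2 * Real.pi * Complex.I * m) * W f m y) := by
      rw [co_deriv (g := fun x : ℝ => Dx f ((x : ℂ) + y * Complex.I)) (hasDerivAt_x (smooth_Dx h.smooth) hy)
        (cont_x (smooth_Dx (smooth_Dx h.smooth)) hy) (periodic_Dx h.smooth hy (h.periodic hy)) m,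
        co_deriv (g := fun x : ℝ => f ((x : ℂ) + y * Complex.I)) (hasDerivAt_x h.smooth hy)
        (cont_x (smooth_Dx h.smooth) hy) (h.periodic hy) m]
      rfl
    have e2 : co (fun x : ℝ => Dy (Dy f) ((x : ℂ) + y * Complex.I)) m =
        -(Λ / (y : ℂ) ^ 2) * W f m y - co (fun x : ℝ => Dx (Dx f) ((x : ℂ) + y * Complex.I)) m := by
      unfold W co
      rw [← intervalIntegral.integral_const_mul, ← intervalIntegral.integral_sub]
      · refine intervalIntegral.integral_congr (fun x _ => ?_)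
        simp only
        rw [h.lap' hy]; ring
      · apply Continuous.intervalIntegrable
        exact ((cont_x h.smooth hy).mul (by fun_prop)).const_mul _
      · apply Continuous.intervalIntegrable
        exact (cont_x (smooth_Dx (smooth_Dx h.smooth)) hy).mul (by fun_prop)
    rw [e2, e1]
    linear_combination (4 * Real.pi ^ 2 * m ^ 2 * W f m y) * (-Complex.I_sq)
  rw [← h2]
  exact h1

end Q276.OM
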