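import Mathlib

/-!
# Fourier coefficients of periodic functions
-/

set_option autoImplicit false

open MeasureTheory Filter Topology Set

namespace Q276.OM

/-- Fourier coefficient of a `1`-periodic function -/
noncomputable def co (g : ℝ → ℂ) (m : ℤ) : ℂ :=
  ∫ x in (0:ℝ)..1, g x * Complex.exp (-(2 * Real.pi * Complex.I * m * x))

lemma exp_shift (m : ℤ) (x : ℝ) : Complex.exp (-(2 * Real.pi * Complex.I * m * ((x + 1 : ℝ) : ℂ))) =
    Complex.exp (-(2 * Real.pi * Complex.I * m * x)) := by
  have h : -(2 * Real.pi * Complex.I * m * ((x + 1 : ℝ) : ℂ)) = -(2 * Real.pi * Complex.I * m * x) +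
      ((-m : ℤ) : ℂ) * (2 * Real.pi * Complex.I) := by
    push_cast
    ring
  rw [h]
  exact Complex.exp_periodic.int_mul (-m) _

lemma co_eq {g : ℝ → ℂ} (hp : Function.Periodic g 1) (m : ℤ) :
    fourierCoeff (T := 1) hp.lift m = co g m := by
  rw [fourierCoeff_eq_intervalIntegral _ _ 0]
  unfold co
  simp only [div_one, zero_add, one_smul]
  refine intervalIntegral.integral_congr (fun x _ => ?_)
  have e1 : fourier (T := 1) (-m) (x : AddCircle (1:ℝ)) = Complex.exp (-(2 * Real.pi * Complex.I * m * x)) := by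
    rw [fourier_coe_apply]
    congr 1
    push_cast
    ring
  simp only [smul_eq_mul, Function.Periodic.lift_coe]
  rw [e1, mul_comm]

lemma co_hasSum {g : ℝ → ℂ} (hg : Continuous g) (hp : Function.Periodic g 1) (hs : Summable (co g)) (x : ℝ) :
    HasSum (fun m : ℤ => co g m * Complex.exp (2 * Real.pi * Complex.I * m * x)) (g x) := by
  have : Fact (0 < (1:ℝ)) := ⟨one_pos⟩
  let G : C(AddCircle (1:ℝ), ℂ) := ⟨hp.lift, continuous_coinduced_dom.mpr hg⟩
  have hG : ∀ m, fourierCoeff G m = co g m := co_eq hp
  have hs' : Summable (fourierCoeff G) := by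
    have : fourierCoeff G = co g := funext hG
    rw [this]; exact hs
  have := has_pointwise_sum_fourier_series_of_summable hs' (x : AddCircle (1:ℝ))
  have h2 : G (x : AddCircle (1:ℝ)) = g x := rfl
  rw [h2] at this
  convert this using 1
  funext m
  rw [hG, smul_eq_mul, fourier_coe_apply]
  congr 2
  push_cast
  ring

lemma co_eq_zero {g : ℝ → ℂ} (hg : Continuous g) (hp : Function.Periodic g 1) (h : ∀ m, co g m = 0) (x : ℝ) :
    g x = 0 := by
  have hs : Summable (co g) := by
    have : co g = fun _ => 0 := funext h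
    rw [this]; exact summable_zero
  have h1 := co_hasSum hg hp hs x
  have h2 : (fun m : ℤ => co g m * Complex.exp (2 * Real.pi * Complex.I * m * x)) = fun _ => 0 := by
    funext m; rw [h m, zero_mul]
  rw [h2] at h1
  exact h1.unique hasSum_zero

lemma co_deriv {g g' : ℝ → ℂ} (h : ∀ x, HasDerivAt g (g' x) x) (hc : Continuous g')
    (hp : Function.Periodic g 1) (m : ℤ) : co g' m = 2 * Real.pi * Complex.I * m * co g m := by
  have hgc : Continuous g := continuous_iff_continuousAt.2 fun x => (h x).continuousAt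
  set E : ℝ → ℂ := fun x => Complex.exp (-(2 * Real.pi * Complex.I * m * x)) with hE
  have hEc : Continuous E := by fun_prop
  have hE' : ∀ x : ℝ, HasDerivAt E (-(2 * Real.pi * Complex.I * m) * E x) x := by
    intro x
    have h1 : HasDerivAt (fun x : ℝ => -(2 * Real.pi * Complex.I * m * (x : ℂ))) (-(2 * Real.pi * Complex.I * m)) x := by
      have := ((Complex.ofRealCLM.hasDerivAt (x := x)).const_mul (2 * Real.pi * Complex.I * m : ℂ)).neg
      simp only [Complex.ofRealCLM_apply, Complex.ofReal_one, mul_one] at this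
      exact this
    have := h1.cexp
    rw [mul_comm]
    exact this
  have h1 : ∫ x in (0:ℝ)..1, (g' x * E x + g x * (-(2 * Real.pi * Complex.I * m) * E x)) = g 1 * E 1 - g 0 * E 0 := by
    refine intervalIntegral.integral_eq_sub_of_hasDerivAt (f := fun x => g x * E x) (fun x _ => ?_) ?_
    · exact (h x).mul (hE' x)
    · apply Continuous.intervalIntegrable
      fun_prop
  have h2 : g 1 * E 1 = g 0 * E 0 := by
    have e1 : g 1 = g 0 := by have := hp 0; rwa [zero_add] at this
    have e2 : E 1 = E 0 := by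
      have := exp_shift m 0
      rw [zero_add] at this
      exact this
    rw [e1, e2]
  rw [h2, sub_self, intervalIntegral.integral_add, ] at h1
  · have h3 : ∫ x in (0:ℝ)..1, g x * (-(2 * Real.pi * Complex.I * m) * E x) = -(2 * Real.pi * Complex.I * m) * co g m := by
      unfold co
      rw [← intervalIntegral.integral_const_mul]
      refine intervalIntegral.integral_congr (fun x _ => ?_)
      simp only [hE]; ring
    rw [h3] at h1
    have h4 : co g' m = ∫ x in (0:ℝ)..1, g' x * E x := rfl
    rw [h4]
    linear_combination h1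
  · apply Continuous.intervalIntegrable; fun_prop
  · apply Continuous.intervalIntegrable; fun_prop

lemma co_period_zero {g : ℝ → ℂ} {a : ℕ} (ha : 2 ≤ a) (hp : ∀ x, g (x + 1 / a) = g x) :
    co g 1 = 0 := by
  have ha0 : (a : ℝ) ≠ 0 := by positivity
  have hp1 : Function.Periodic g 1 := by
    have h1 : Function.Periodic g (1 / a) := hp
    have := h1.nat_mul a
    rwa [mul_one_div_cancel ha0] at this
  set G : ℝ → ℂ := fun x => g x * Complex.exp (-(2 * Real.pi * Complex.I * (1 : ℤ) * x)) with hG
  have hGp : Function.Periodic G 1 := by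
    intro x
    simp only [hG]
    rw [hp1 x, exp_shift]
  have h1 : ∫ x in (0:ℝ)..1, G x = ∫ x in (1 / a : ℝ)..(1 / a + 1), G x := by
    have := hGp.intervalIntegral_add_eq 0 (1 / a)
    rwa [zero_add] at this
  have h2 : ∫ x in (1 / a : ℝ)..(1 / a + 1), G x = ∫ x in (0:ℝ)..1, G (x + 1 / a) := by
    rw [intervalIntegral.integral_comp_add_right, zero_add, add_comm (1 : ℝ)]
  have h3 : ∫ x in (0:ℝ)..1, G (x + 1 / a) = Complex.exp (-(2 * Real.pi * Complex.I / a)) * ∫ x in (0:ℝ)..1, G x := by
    rw [← intervalIntegral.integral_const_mul]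
    refine intervalIntegral.integral_congr (fun x _ => ?_)
    simp only [hG]
    rw [hp x, mul_left_comm, ← Complex.exp_add]
    congr 2
    push_cast
    ring
  have h4 : co g 1 = ∫ x in (0:ℝ)..1, G x := rfl
  rw [← h4] at h1 h3
  rw [h2, h3] at h1
  have h5 : (1 - Complex.exp (-(2 * Real.pi * Complex.I / a))) * co g 1 = 0 := by
    linear_combination h1
  rcases mul_eq_zero.1 h5 with h6 | h6
  · exfalso
    have h7 : Complex.exp (-(2 * Real.pi * Complex.I / a)) = 1 := by linear_combination -h6
    rw [Complex.exp_eq_one_iff] at h7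
    obtain ⟨n, hn⟩ := h7
    have hpi : (Real.pi : ℂ) ≠ 0 := by exact_mod_cast Real.pi_ne_zero
    have ha' : (a : ℂ) ≠ 0 := by exact_mod_cast ha0
    have h8 : (-1 : ℂ) = n * a := by
      field_simp at hn
      have h9 : (2 * Real.pi * Complex.I : ℂ) ≠ 0 := by simp [Real.pi_ne_zero]
      apply mul_left_cancel₀ h9
      linear_combination hn * (2 * Real.pi * Complex.I)
    have h10 : (-1 : ℤ) = n * a := by exact_mod_cast h8
    have h11 : (a : ℤ) ∣ -1 := ⟨n, by linarith⟩
    have h12 := Int.natAbs_dvd_natAbs.2 h11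
    simp at h12
    omega
  · exact h6

end Q276.OM
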