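import Mathlib

/-!
# Hecke operators on periodic functions
-/

set_option autoImplicit false

open Finset

namespace Q276.OM

/-- `1`-periodicity on the upper half-plane. -/
def Per (f : ℂ → ℂ) : Prop := ∀ z : ℂ, 0 < z.im → f (z + 1) = f z

/-- `f (a z)` -/
def Uo (a : ℕ) (f : ℂ → ℂ) (z : ℂ) : ℂ := f (a * z)

/-- `∑ f ((z + b) / d)` -/
noncomputable def Vo (d : ℕ) (f : ℂ → ℂ) (z : ℂ) : ℂ := ∑ b ∈ range d, f ((z + b) / d)

/-- The (unnormalised) Hecke operator. -/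
noncomputable def To (n : ℕ) (f : ℂ → ℂ) (z : ℂ) : ℂ := ∑ d ∈ n.divisors, Uo (n / d) (Vo d f) z

lemma To_eq (n : ℕ) (f : ℂ → ℂ) (z : ℂ) :
    To n f z = ∑ d ∈ n.divisors, ∑ b ∈ range d, f ((((n / d : ℕ) : ℂ) * z + (b : ℂ)) / (d : ℂ)) := rfl

variable {f : ℂ → ℂ}

lemma Per.nat (h : Per f) (n : ℕ) (z : ℂ) (hz : 0 < z.im) : f (z + n) = f z := by
  induction n with
  | zero => simp
  | succ n ih =>
    push_cast
    rw [← add_assoc, h _ (by simpa using hz), ih]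

lemma Per.int (h : Per f) (n : ℤ) (z : ℂ) (hz : 0 < z.im) : f (z + n) = f z := by
  obtain ⟨m, rfl | rfl⟩ := n.eq_nat_or_neg
  · exact_mod_cast h.nat m z hz
  · have h2 := h.nat m (z + ((-(m : ℤ) : ℤ) : ℂ)) (by simpa using hz)
    rw [← h2]
    congr 1
    push_cast; ring

lemma im_div_pos {z : ℂ} (hz : 0 < z.im) (c : ℂ) (hc : c.im = 0) {d : ℕ} (hd : 0 < d) : 0 < ((z + c) / d).im := by
  rw [Complex.div_natCast_im, Complex.add_im, hc, add_zero]
  have : (0 : ℝ) < d := by exact_mod_cast hd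
  positivity

lemma im_mul_pos {z : ℂ} (hz : 0 < z.im) {a : ℕ} (ha : 0 < a) : 0 < ((a : ℂ) * z).im := by
  have h : ((a : ℂ) * z).im = a * z.im := by simp
  rw [h]
  have : (0 : ℝ) < a := by exact_mod_cast ha
  positivity

/-- the section over residues -/
noncomputable def Gs (f : ℂ → ℂ) (d : ℕ) (w : ℂ) (x : ZMod d) : ℂ := f ((w + x.val) / d)

lemma Gs_int (h : Per f) {d : ℕ} (hd : 0 < d) (w : ℂ) (hw : 0 < w.im) (n : ℤ) :
    f ((w + n) / d) = Gs f d w (n : ZMod d) := by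
  have : NeZero d := ⟨hd.ne'⟩
  unfold Gs
  have h1 : ((((n : ZMod d).val : ℕ) : ℤ) : ZMod d) = (n : ZMod d) := by simp
  rw [ZMod.intCast_eq_intCast_iff] at h1
  obtain ⟨k, hk⟩ := h1.symm.dvd
  -- val = n + d * k
  have h2 : (((n : ZMod d).val : ℕ) : ℂ) = (n : ℂ) + d * k := by
    have : (((n : ZMod d).val : ℕ) : ℤ) = n + d * k := by linarith
    exact_mod_cast congrArg (fun t : ℤ => (t : ℂ)) this
  have hd' : (d : ℂ) ≠ 0 := by exact_mod_cast hd.ne'
  have h3 : (w + (((n : ZMod d).val : ℕ) : ℂ)) / d = (w + n) / d + k := by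
    rw [h2]; field_simp; ring
  rw [h3, h.int k _ (im_div_pos hw _ (by simp) hd)]

lemma Vo_eq_sum (f : ℂ → ℂ) (d : ℕ) [NeZero d] (w : ℂ) :
    Vo d f w = ∑ x : ZMod d, Gs f d w x := by
  have hd : 0 < d := Nat.pos_of_ne_zero (NeZero.ne d)
  unfold Vo
  rw [← Fin.sum_univ_eq_sum_range (fun b => f ((w + b) / d)) d]
  obtain ⟨n, rfl⟩ : ∃ n, d = n + 1 := ⟨d - 1, by omega⟩
  rfl

lemma Per.Uo {a : ℕ} (ha : 0 < a) (h : Per f) : Per (Uo a f) := by
  intro z hz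
  unfold OM.Uo
  rw [mul_add, mul_one]
  exact h.nat a _ (im_mul_pos hz ha)

lemma Per.Vo {d : ℕ} (hd : 0 < d) (h : Per f) : Per (Vo d f) := by
  intro z hz
  have : NeZero d := ⟨hd.ne'⟩
  rw [Vo_eq_sum f d, Vo_eq_sum f d, ← Equiv.sum_comp (Equiv.addRight (1 : ZMod d)) (Gs f d z)]
  refine Finset.sum_congr rfl (fun x _ => ?_)
  have hx : (((x.val : ℕ) : ℤ) : ZMod d) = x := by rw [Int.cast_natCast, ZMod.natCast_zmod_val]
  have h0 : (((x.val : ℤ) + 1 : ℤ) : ZMod d) = x + 1 := by rw [Int.cast_add, hx, Int.cast_one]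
  have h1 := Gs_int h hd z hz ((x.val : ℤ) + 1)
  rw [h0] at h1
  simp only [Equiv.coe_addRight]
  rw [← h1]
  unfold Gs
  congr 1
  push_cast
  ring

lemma Uo_Uo (a b : ℕ) (f : ℂ → ℂ) : Uo a (Uo b f) = Uo (a * b) f := by
  funext z
  unfold Uo
  push_cast
  congr 1; ring

lemma Vo_Vo {d e : ℕ} (hd : 0 < d) (he : 0 < e) (f : ℂ → ℂ) : Vo d (Vo e f) = Vo (d * e) f := by
  funext z
  unfold Vo
  rw [mul_comm d e, ← Fin.sum_univ_eq_sum_range (fun b => f ((z + b) / ((e * d : ℕ) : ℂ))) (e * d),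
    ← finProdFinEquiv.sum_comp, Fintype.sum_prod_type_right,
    ← Fin.sum_univ_eq_sum_range (fun b => ∑ c ∈ range e, f (((z + b) / d + c) / e)) d]
  refine Finset.sum_congr rfl (fun b _ => ?_)
  rw [← Fin.sum_univ_eq_sum_range (fun c => f (((z + (b : ℕ)) / d + c) / e)) e]
  refine Finset.sum_congr rfl (fun c _ => ?_)
  congr 1
  have h1 : (d : ℂ) ≠ 0 := by exact_mod_cast hd.ne'
  have h2 : (e : ℂ) ≠ 0 := by exact_mod_cast he.ne'
  simp only [finProdFinEquiv_apply_val]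
  push_cast
  field_simp
  ring

lemma Vo_Uo_coprime {a d : ℕ} (ha : 0 < a) (hd : 0 < d) (had : a.Coprime d) (h : Per f) (z : ℂ) (hz : 0 < z.im) :
    Vo d (Uo a f) z = Uo a (Vo d f) z := by
  have : NeZero d := ⟨hd.ne'⟩
  have e1 : Uo a (Vo d f) z = ∑ x : ZMod d, Gs f d (a * z) x := Vo_eq_sum f d _
  have e2 : Vo d (Uo a f) z = ∑ x : ZMod d, Gs f d (a * z) ((a : ZMod d) * x) := by
    rw [Vo_eq_sum _ d]
    refine Finset.sum_congr rfl (fun x _ => ?_)
    have hx : (((x.val : ℕ) : ℤ) : ZMod d) = x := by rw [Int.cast_natCast, ZMod.natCast_zmod_val]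
    have h0 : (((a : ℤ) * (x.val : ℤ) : ℤ) : ZMod d) = (a : ZMod d) * x := by rw [Int.cast_mul, hx, Int.cast_natCast]
    have h1 := Gs_int h hd (a * z) (im_mul_pos hz ha) ((a : ℤ) * (x.val : ℤ))
    rw [h0] at h1
    rw [← h1]
    unfold Gs Uo
    congr 1
    push_cast
    ring
  rw [e1, e2]
  have hu : IsUnit (a : ZMod d) := (ZMod.isUnit_iff_coprime a d).2 had
  exact Equiv.sum_comp (Units.mulLeft hu.unit) (Gs f d (a * z))

lemma Vo_Uo_self {d : ℕ} (hd : 0 < d) (h : Per f) (z : ℂ) (hz : 0 < z.im) :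
    Vo d (Uo d f) z = d * f z := by
  unfold Vo Uo
  have h1 : ∀ b ∈ range d, f ((d : ℂ) * ((z + b) / d)) = f z := by
    intro b _
    have hd' : (d : ℂ) ≠ 0 := by exact_mod_cast hd.ne'
    rw [mul_div_cancel₀ _ hd']
    exact h.nat b z hz
  rw [Finset.sum_congr rfl h1]
  simp

lemma To_congr {f g : ℂ → ℂ} (h : ∀ z : ℂ, 0 < z.im → f z = g z) (n : ℕ) (z : ℂ) (hz : 0 < z.im) :
    To n f z = To n g z := by
  unfold To
  refine Finset.sum_congr rfl (fun d hd => ?_)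
  have hd' := Nat.mem_divisors.1 hd
  have hdpos : 0 < d := Nat.pos_of_mem_divisors hd
  have hnd : 0 < n / d := Nat.div_pos (Nat.le_of_dvd (Nat.pos_of_ne_zero hd'.2) hd'.1) hdpos
  unfold Uo Vo
  refine Finset.sum_congr rfl (fun b _ => ?_)
  exact h _ (im_div_pos (im_mul_pos hz hnd) _ (by simp) hdpos)

lemma To_smul (c : ℂ) (f : ℂ → ℂ) (n : ℕ) (z : ℂ) : To n (fun z => c * f z) z = c * To n f z := by
  simp only [To, Uo, Vo, Finset.mul_sum]

lemma To_one (f : ℂ → ℂ) (z : ℂ) : To 1 f z = f z := by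
  simp [To, Uo, Vo]

lemma Uo_congr {f g : ℂ → ℂ} (h : ∀ z : ℂ, 0 < z.im → f z = g z) {a : ℕ} (ha : 0 < a) (z : ℂ) (hz : 0 < z.im) :
    Uo a f z = Uo a g z := h _ (im_mul_pos hz ha)

lemma Vo_congr {f g : ℂ → ℂ} (h : ∀ z : ℂ, 0 < z.im → f z = g z) {a : ℕ} (ha : 0 < a) (z : ℂ) (hz : 0 < z.im) :
    Vo a f z = Vo a g z := by
  unfold Vo
  exact Finset.sum_congr rfl (fun b _ => h _ (im_div_pos hz _ (by simp) ha))

lemma Vo_sum {ι : Type*} (s : Finset ι) (F : ι → ℂ → ℂ) (d : ℕ) (z : ℂ) :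
    Vo d (fun z => ∑ i ∈ s, F i z) z = ∑ i ∈ s, Vo d (F i) z := by
  unfold Vo
  rw [Finset.sum_comm]

lemma Uo_sum {ι : Type*} (s : Finset ι) (F : ι → ℂ → ℂ) (d : ℕ) (z : ℂ) :
    Uo d (fun z => ∑ i ∈ s, F i z) z = ∑ i ∈ s, Uo d (F i) z := rfl

/-- Multiplicativity. -/
theorem To_mul {m n : ℕ} (hm : 0 < m) (hn : 0 < n) (hmn : m.Coprime n) (h : Per f) (z : ℂ) (hz : 0 < z.im) :
    To m (To n f) z = To (m * n) f z := by
  have e1 : To (m * n) f z = ∑ d ∈ m.divisors, ∑ e ∈ n.divisors, Uo ((m * n) / (d * e)) (Vo (d * e) f) z := by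
    rw [← Finset.sum_product' m.divisors n.divisors (fun d e => Uo ((m * n) / (d * e)) (Vo (d * e) f) z)]
    unfold To
    have h1 : (m * n).divisors = (m.divisors ×ˢ n.divisors).image (fun p => p.1 * p.2) := by
      rw [Nat.divisors_mul, Finset.mul_def]
    rw [h1, Finset.sum_image]
    intro x hx y hy hxy
    exact hmn.mul_injOn_divisors hx hy hxy
  rw [e1]
  unfold To
  refine Finset.sum_congr rfl (fun d hd => ?_)
  have hd' := Nat.mem_divisors.1 hd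
  have hdpos : 0 < d := Nat.pos_of_mem_divisors hd
  have hmd : 0 < m / d := Nat.div_pos (Nat.le_of_dvd hm hd'.1) hdpos
  have e2 : Uo (m / d) (Vo d (fun z => ∑ e ∈ n.divisors, Uo (n / e) (Vo e f) z)) z =
      ∑ e ∈ n.divisors, Uo (m / d) (Vo d (Uo (n / e) (Vo e f))) z := by
    unfold Uo
    exact Vo_sum _ _ _ _
  rw [e2]
  refine Finset.sum_congr rfl (fun e he => ?_)
  have he' := Nat.mem_divisors.1 he
  have hepos : 0 < e := Nat.pos_of_mem_divisors he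
  have hne : 0 < n / e := Nat.div_pos (Nat.le_of_dvd hn he'.1) hepos
  have hcop : (n / e).Coprime d := by
    have h1 : (n / e).Coprime m := (hmn.symm).coprime_dvd_left (Nat.div_dvd_of_dvd he'.1)
    exact h1.coprime_dvd_right hd'.1
  have e3 : Uo (m / d) (Vo d (Uo (n / e) (Vo e f))) z = Uo (m / d) (Uo (n / e) (Vo d (Vo e f))) z := by
    apply Uo_congr _ hmd z hz
    intro w hw
    exact Vo_Uo_coprime hne hdpos hcop (h.Vo hepos) w hw
  rw [e3, Uo_Uo, Vo_Vo hdpos hepos, Nat.div_mul_div_comm hd'.1 he'.1]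

lemma Uo_one (f : ℂ → ℂ) : Uo 1 f = f := by
  funext z; simp [Uo]

lemma Vo_one (f : ℂ → ℂ) : Vo 1 f = f := by
  funext z; simp [Vo]

lemma To_prime {p : ℕ} (hp : p.Prime) (g : ℂ → ℂ) (z : ℂ) : To p g z = Uo p g z + Vo p g z := by
  unfold To
  rw [hp.sum_divisors, Nat.div_self hp.pos, Nat.div_one, Uo_one, Vo_one]
  ring

lemma To_prime_pow {p : ℕ} (hp : p.Prime) (k : ℕ) (f : ℂ → ℂ) (z : ℂ) :
    To (p ^ k) f z = ∑ j ∈ range (k + 1), Uo (p ^ (k - j)) (Vo (p ^ j) f) z := by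
  unfold To
  rw [Nat.sum_divisors_prime_pow hp]
  refine Finset.sum_congr rfl (fun j hj => ?_)
  have : j ≤ k := by simpa [Nat.lt_succ_iff] using hj
  rw [Nat.pow_div this hp.pos]

lemma Per.To {n : ℕ} (h : Per f) : Per (To n f) := by
  intro z hz
  unfold OM.To
  refine Finset.sum_congr rfl (fun d hd => ?_)
  have hd' := Nat.mem_divisors.1 hd
  have hdpos : 0 < d := Nat.pos_of_mem_divisors hd
  have hnd : 0 < n / d := Nat.div_pos (Nat.le_of_dvd (Nat.pos_of_ne_zero hd'.2) hd'.1) hdpos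
  exact (h.Vo hdpos).Uo hnd z hz

theorem To_hecke {p : ℕ} (hp : p.Prime) (k : ℕ) (h : Per f) (z : ℂ) (hz : 0 < z.im) :
    To p (To (p ^ (k + 1)) f) z = To (p ^ (k + 2)) f z + p * To (p ^ k) f z := by
  have hpp : ∀ j : ℕ, 0 < p ^ j := fun j => pow_pos hp.pos j
  rw [To_prime hp]
  have e1 : Uo p (To (p ^ (k + 1)) f) z = ∑ j ∈ range (k + 2), Uo (p ^ (k + 2 - j)) (Vo (p ^ j) f) z := by
    unfold Uo
    rw [To_prime_pow hp]
    refine Finset.sum_congr rfl (fun j hj => ?_)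
    have hj' : j ≤ k + 1 := by simpa [Nat.lt_succ_iff] using hj
    unfold Uo
    have : p ^ (k + 2 - j) = p ^ (k + 1 - j) * p := by
      rw [← pow_succ]; congr 1; omega
    rw [this]
    push_cast
    congr 1
    ring
  have e2 : Vo p (To (p ^ (k + 1)) f) z = ∑ j ∈ range (k + 2), Vo p (Uo (p ^ (k + 1 - j)) (Vo (p ^ j) f)) z := by
    rw [← Vo_sum]
    congr 1
    funext w
    exact To_prime_pow hp _ _ _
  have e3 : Vo p (Uo (p ^ (k + 1 - (k + 1))) (Vo (p ^ (k + 1)) f)) z = Vo (p ^ (k + 2)) f z := by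
    rw [Nat.sub_self, pow_zero, Uo_one, Vo_Vo hp.pos (hpp _)]
    congr 1
    rw [← pow_succ']
  have e4 : ∀ j ∈ range (k + 1), Vo p (Uo (p ^ (k + 1 - j)) (Vo (p ^ j) f)) z = p * Uo (p ^ (k - j)) (Vo (p ^ j) f) z := by
    intro j hj
    have hj' : j ≤ k := by simpa [Nat.lt_succ_iff] using hj
    have h1 : p ^ (k + 1 - j) = p * p ^ (k - j) := by
      rw [← pow_succ']; congr 1; omega
    rw [h1, ← Uo_Uo]
    exact Vo_Uo_self hp.pos ((h.Vo (hpp j)).Uo (hpp _)) z hz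
  rw [e1, e2, To_prime_pow hp (k + 2), To_prime_pow hp k, Finset.sum_range_succ (fun j => Vo p (Uo (p ^ (k + 1 - j)) (Vo (p ^ j) f)) z),
    e3, Finset.sum_congr rfl e4, ← Finset.mul_sum, Finset.sum_range_succ (fun j => Uo (p ^ (k + 2 - j)) (Vo (p ^ j) f) z) (k + 2),
    Nat.sub_self, pow_zero, Uo_one]
  ring

/-- A common eigenfunction of the prime Hecke operators is an eigenfunction of all Hecke operators. -/
theorem eigen_all (h : Per f) (hp : ∀ p : ℕ, p.Prime → ∃ c : ℂ, ∀ z : ℂ, 0 < z.im → To p f z = c * f z) :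
    ∀ n : ℕ, 0 < n → ∃ c : ℂ, ∀ z : ℂ, 0 < z.im → To n f z = c * f z := by
  have hpow : ∀ p : ℕ, p.Prime → ∀ k : ℕ, (∃ c : ℂ, ∀ z : ℂ, 0 < z.im → To (p ^ k) f z = c * f z) ∧
      ∃ c : ℂ, ∀ z : ℂ, 0 < z.im → To (p ^ (k + 1)) f z = c * f z := by
    intro p hpp k
    induction k with
    | zero =>
      refine ⟨⟨1, fun z _ => by rw [pow_zero, To_one, one_mul]⟩, ?_⟩
      obtain ⟨c, hc⟩ := hp p hpp
      exact ⟨c, fun z hz => by rw [zero_add, pow_one]; exact hc z hz⟩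
    | succ k ih =>
      refine ⟨ih.2, ?_⟩
      obtain ⟨⟨c0, h0⟩, ⟨c1, h1⟩⟩ := ih
      obtain ⟨c, hc⟩ := hp p hpp
      refine ⟨c1 * c - p * c0, fun z hz => ?_⟩
      have e1 := To_hecke hpp k h z hz
      have e2 : To p (To (p ^ (k + 1)) f) z = c1 * (c * f z) := by
        rw [To_congr (g := fun z => c1 * f z) h1 p z hz, To_smul, hc z hz]
      rw [e2, h0 z hz] at e1
      have : To (p ^ (k + 1 + 1)) f z = To (p ^ (k + 2)) f z := rfl
      rw [this]
      linear_combination -e1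
  intro n
  induction n using Nat.recOnPrimeCoprime with
  | zero => intro h0; exact absurd h0 (lt_irrefl 0)
  | prime_pow p n hpp => intro _; exact (hpow p hpp n).1
  | coprime a b ha hb hab iha ihb =>
    intro _
    obtain ⟨ca, hca⟩ := iha (by omega)
    obtain ⟨cb, hcb⟩ := ihb (by omega)
    refine ⟨cb * ca, fun z hz => ?_⟩
    rw [← To_mul (by omega) (by omega) hab h z hz, To_congr (g := fun z => cb * f z) hcb a z hz, To_smul, hca z hz]
    ring

/-- Hecke operators at different primes commute. -/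
theorem To_comm {p q : ℕ} (hp : p.Prime) (hq : q.Prime) (h : Per f) (z : ℂ) (hz : 0 < z.im) :
    To p (To q f) z = To q (To p f) z := by
  by_cases hpq : p = q
  · rw [hpq]
  · have hc : p.Coprime q := (Nat.coprime_primes hp hq).2 hpq
    rw [To_mul hp.pos hq.pos hc h z hz, To_mul hq.pos hp.pos hc.symm h z hz, mul_comm]

end Q276.OM
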