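import Pool.Agent.Q276.OM.Basic

set_option autoImplicit false

open scoped MatrixGroups Pointwise
open UpperHalfPlane MeasureTheory
open Matrix hiding J

namespace Q276.OM

/-- The determinant character of `PGL(2, ℤ)`. -/
noncomputable def sgnHom : PGL(2, ℤ) →* ℤˣ :=
  ProjGenLinGroup.lift (GeneralLinearGroup.det) (by
    ext u
    rcases Int.units_eq_one_or u with rfl | rfl <;> simp)

/-- The determinant character with real values. -/
noncomputable def sgn (g : PGL(2, ℤ)) : ℝ := ((sgnHom g : ℤ) : ℝ)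

lemma sgnHom_mk (g : GL (Fin 2) ℤ) : sgnHom (ProjGenLinGroup.mk g) = g.det := rfl

lemma sgn_mul (g h : PGL(2, ℤ)) : sgn (g * h) = sgn g * sgn h := by
  simp [sgn]

lemma sgn_one : sgn 1 = 1 := by simp [sgn]

lemma sgn_sq (g : PGL(2, ℤ)) : sgn g * sgn g = 1 := by
  unfold sgn
  rcases Int.units_eq_one_or (sgnHom g) with h | h <;> simp [h]

lemma sgn_inv (g : PGL(2, ℤ)) : sgn g⁻¹ = sgn g := by
  unfold sgn
  rw [map_inv]
  rcases Int.units_eq_one_or (sgnHom g) with h | h <;> simp [h]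

lemma abs_sgn (g : PGL(2, ℤ)) : |sgn g| = 1 := by
  unfold sgn
  rcases Int.units_eq_one_or (sgnHom g) with h | h <;> simp [h]

/-- basic inequality: exp of the distance is controlled by its cosh -/
lemma exp_le_cosh (t : ℝ) : Real.exp t ≤ 2 * Real.cosh t := by
  rw [Real.cosh_eq]; have := Real.exp_pos (-t); linarith

lemma im_le_cosh (z w : ℍ) : z.im ≤ w.im * (2 * Real.cosh (dist z w)) :=
  (im_le_im_mul_exp_dist z w).trans (mul_le_mul_of_nonneg_left (exp_le_cosh _) w.im_pos.le)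

lemma mkZ_im (g : GL (Fin 2) ℤ) (w : ℍ) :
    ((ProjGenLinGroup.mk g : PGL(2, ℤ)) • w).im * (((g 1 0 : ℝ) * w.re + g 1 1) ^ 2 + ((g 1 0 : ℝ) * w.im) ^ 2) = w.im := by
  rw [mk_smulZ, im_smul_eq_div_normSq]
  have h1 : |(GeneralLinearGroup.map (Int.castRingHom ℝ) g).det.val| = 1 := by
    rw [GeneralLinearGroup.map_det]
    rcases Int.units_eq_one_or g.det with h | h <;> simp [h]
  have h2 : Complex.normSq (denom (GeneralLinearGroup.map (Int.castRingHom ℝ) g) w) =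
      ((g 1 0 : ℝ) * w.re + g 1 1) ^ 2 + ((g 1 0 : ℝ) * w.im) ^ 2 := by
    simp only [denom, Complex.normSq_apply, GeneralLinearGroup.map_apply]
    simp
    ring
  have h3 := normSq_denom_ne_zero (GeneralLinearGroup.map (Int.castRingHom ℝ) g) w.im_ne_zero
  rw [h1, one_mul, ← h2]
  field_simp

lemma count_aux (g : GL (Fin 2) ℤ) (z w : ℍ) (C : ℝ)
    (h : Real.cosh (dist z ((ProjGenLinGroup.mk g : PGL(2, ℤ)) • w)) < C) :
    z.im * (((g 1 0 : ℝ) * w.re + g 1 1) ^ 2 + ((g 1 0 : ℝ) * w.im) ^ 2) ≤ 2 * C * w.im := by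
  have h1 := im_le_cosh z ((ProjGenLinGroup.mk g : PGL(2, ℤ)) • w)
  have h2 := mkZ_im g w
  set X := ((g 1 0 : ℝ) * w.re + g 1 1) ^ 2 + ((g 1 0 : ℝ) * w.im) ^ 2 with hX
  have hX0 : 0 ≤ X := by positivity
  set v := ((ProjGenLinGroup.mk g : PGL(2, ℤ)) • w).im with hv
  have hv0 : 0 < v := ((ProjGenLinGroup.mk g : PGL(2, ℤ)) • w).im_pos
  calc z.im * X ≤ (v * (2 * Real.cosh (dist z ((ProjGenLinGroup.mk g : PGL(2, ℤ)) • w)))) * X :=
        mul_le_mul_of_nonneg_right h1 hX0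
    _ = 2 * Real.cosh (dist z ((ProjGenLinGroup.mk g : PGL(2, ℤ)) • w)) * (v * X) := by ring
    _ ≤ 2 * C * (v * X) := by
        apply mul_le_mul_of_nonneg_right _ (by positivity)
        linarith
    _ = 2 * C * w.im := by rw [h2]

lemma count_bound (g : GL (Fin 2) ℤ) {z w : ℍ} (hz : z ∈ D) (hw : w ∈ D) {C : ℝ} (hC : 1 ≤ C) (hg : g 1 0 ≠ 0)
    (h : Real.cosh (dist z ((ProjGenLinGroup.mk g : PGL(2, ℤ)) • w)) < C) :
    z.im ≤ 4 * C ∧ w.im ≤ 4 * C ∧ |(g 1 0 : ℝ)| ≤ 4 * C ∧ |(g 1 1 : ℝ)| ≤ 8 * C := by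
  have h1 := count_aux g z w C h
  have hy := D_im' hz
  have hv := D_im' hw
  have hc1 : (1 : ℝ) ≤ (g 1 0 : ℝ) ^ 2 := by
    have : (1 : ℤ) ≤ (g 1 0) ^ 2 := by
      have := sq_pos_of_ne_zero (a := g 1 0) hg
      omega
    exact_mod_cast this
  have hvp := w.im_pos
  have hyp := z.im_pos
  set c := (g 1 0 : ℝ) with hc
  set d := (g 1 1 : ℝ) with hd
  have h2 : z.im * c ^ 2 * w.im ≤ 2 * C := by
    have : (z.im * c ^ 2 * w.im) * w.im ≤ 2 * C * w.im := by
      have h3 : 0 ≤ z.im * (c * w.re + d) ^ 2 := by positivity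
      nlinarith
    exact le_of_mul_le_mul_right this hvp
  have h3 : z.im * w.im ≤ 2 * C := by
    have : z.im * w.im * 1 ≤ z.im * w.im * c ^ 2 := by gcongr
    nlinarith
  have hz4 : z.im ≤ 4 * C := by nlinarith
  have hw4 : w.im ≤ 4 * C := by nlinarith
  have hc2 : c ^ 2 ≤ 8 * C := by
    have : (1 / 4) * c ^ 2 ≤ z.im * c ^ 2 * w.im := by
      have : (1 / 2 : ℝ) * c ^ 2 * (1 / 2) ≤ z.im * c ^ 2 * w.im := by gcongr
      linarith
    linarith
  have hcb : |c| ≤ 4 * C := by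
    apply abs_le_of_sq_le_sq _ (by positivity)
    nlinarith
  refine ⟨hz4, hw4, hcb, ?_⟩
  have h5 : (c * w.re + d) ^ 2 ≤ 16 * C ^ 2 := by
    have h6 : z.im * (c * w.re + d) ^ 2 ≤ 2 * C * w.im := by
      have : 0 ≤ z.im * (c * w.im) ^ 2 := by positivity
      linarith
    have h7 : (1 / 2) * (c * w.re + d) ^ 2 ≤ z.im * (c * w.re + d) ^ 2 := by gcongr
    nlinarith
  have h6 : |c * w.re + d| ≤ 4 * C := by
    apply abs_le_of_sq_le_sq _ (by positivity)
    linarith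
  have h7 : |c * w.re| ≤ 4 * C * (1 / 2) := by
    rw [abs_mul]
    exact mul_le_mul hcb (D_abs_re hw) (abs_nonneg _) (by positivity)
  calc |d| = |(c * w.re + d) - c * w.re| := by congr 1; ring
    _ ≤ |c * w.re + d| + |c * w.re| := abs_sub _ _
    _ ≤ 8 * C := by linarith


lemma dist_mk_inv (g : PGL(2, ℤ)) (z w : ℍ) : dist w (g⁻¹ • z) = dist z (g • w) := by
  rw [dist_comm, ← dist_smul g, smul_inv_smul]

lemma inv_entries (g : GL (Fin 2) ℤ) :
    (g⁻¹ 1 0 = - (g.det : ℤ) * g 1 0) ∧ (g⁻¹ 1 1 = (g.det : ℤ) * g 0 0) := by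
  have h : (g : Matrix (Fin 2) (Fin 2) ℤ) * (g⁻¹ : GL (Fin 2) ℤ) = 1 := by
    rw [← Units.val_mul, mul_inv_cancel]; rfl
  have h00 := congrFun (congrFun h 0) 0
  have h01 := congrFun (congrFun h 0) 1
  have h10 := congrFun (congrFun h 1) 0
  have h11 := congrFun (congrFun h 1) 1
  simp only [Matrix.mul_apply, Fin.sum_univ_two, Matrix.one_apply_eq, ne_eq, zero_ne_one,
    not_false_eq_true, Matrix.one_apply_ne, one_ne_zero] at h00 h01 h10 h11
  have hdet : (g.det : ℤ) = g 0 0 * g 1 1 - g 0 1 * g 1 0 := by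
    rw [GeneralLinearGroup.val_det_apply, Matrix.det_fin_two]
  have hsq : (g.det : ℤ) * (g.det : ℤ) = 1 := by
    rcases Int.units_eq_one_or g.det with h | h <;> simp [h]
  set e := (g.det : ℤ) with he
  set a := g 0 0
  set b := g 0 1
  set c := g 1 0
  set d := g 1 1
  set p := g⁻¹ 0 0
  set q := g⁻¹ 0 1
  set r := g⁻¹ 1 0
  set s := g⁻¹ 1 1
  change a * p + b * r = 1 at h00
  change a * q + b * s = 0 at h01
  change c * p + d * r = 0 at h10
  change c * q + d * s = 1 at h11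
  constructor
  · have : e * r = -c := by rw [hdet]; linear_combination a * h10 - c * h00
    calc r = (e * e) * r := by rw [hsq, one_mul]
      _ = e * (e * r) := by ring
      _ = -e * c := by rw [this]; ring
  · have : e * s = a := by rw [hdet]; linear_combination a * h11 - c * h01
    calc s = (e * e) * s := by rw [hsq, one_mul]
      _ = e * (e * s) := by ring
      _ = e * a := by rw [this]

lemma abs_det (g : GL (Fin 2) ℤ) : |((g.det : ℤ) : ℝ)| = 1 := by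
  rcases Int.units_eq_one_or g.det with h | h <;> simp [h]

lemma count_bound' (g : GL (Fin 2) ℤ) {z w : ℍ} (hz : z ∈ D) (hw : w ∈ D) {C : ℝ} (hC : 1 ≤ C) (hg : g 1 0 ≠ 0)
    (h : Real.cosh (dist z ((ProjGenLinGroup.mk g : PGL(2, ℤ)) • w)) < C) :
    |(g 0 0 : ℝ)| ≤ 8 * C ∧ |(g 0 1 : ℝ)| ≤ 64 * C ^ 2 + 1 := by
  obtain ⟨h1, h2, h3, h4⟩ := count_bound g hz hw hC hg h
  obtain ⟨i1, i2⟩ := inv_entries g
  have hne : g⁻¹ 1 0 ≠ 0 := by
    rw [i1]
    refine mul_ne_zero (neg_ne_zero.2 ?_) hg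
    exact Units.ne_zero _
  have h' : Real.cosh (dist w ((ProjGenLinGroup.mk g⁻¹ : PGL(2, ℤ)) • z)) < C := by
    rw [map_inv, dist_mk_inv]; exact h
  obtain ⟨_, _, _, h8⟩ := count_bound g⁻¹ hw hz hC hne h'
  have ha : |(g 0 0 : ℝ)| ≤ 8 * C := by
    have : |((g⁻¹ 1 1 : ℤ) : ℝ)| = |(g 0 0 : ℝ)| := by
      rw [i2, Int.cast_mul, abs_mul, abs_det, one_mul]
    rw [← this]; exact h8
  refine ⟨ha, ?_⟩
  have hdet : (g.det : ℤ) = g 0 0 * g 1 1 - g 0 1 * g 1 0 := by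
    rw [GeneralLinearGroup.val_det_apply, Matrix.det_fin_two]
  have hdetR : ((g.det : ℤ) : ℝ) = (g 0 0 : ℝ) * g 1 1 - (g 0 1 : ℝ) * g 1 0 := by
    rw [hdet]; push_cast; ring
  have hc1 : (1 : ℝ) ≤ |(g 1 0 : ℝ)| := by
    have : (1 : ℤ) ≤ |g 1 0| := Int.one_le_abs hg
    exact_mod_cast this
  have hbc : |(g 0 1 : ℝ)| * |(g 1 0 : ℝ)| ≤ 8 * C * (8 * C) + 1 := by
    rw [← abs_mul]
    have : (g 0 1 : ℝ) * g 1 0 = (g 0 0 : ℝ) * g 1 1 - ((g.det : ℤ) : ℝ) := by linarith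
    rw [this]
    refine (abs_sub _ _).trans ?_
    rw [abs_mul, abs_det]
    gcongr
  have hb0 := abs_nonneg (g 0 1 : ℝ)
  nlinarith

/-- The finitely many elements not fixing the cusp which can contribute to the automorphic kernel. -/
def bigSet (C : ℝ) : Set PGL(2, ℤ) :=
  ProjGenLinGroup.mk '' {g : GL (Fin 2) ℤ | (∀ i j, |(g i j : ℝ)| ≤ 64 * C ^ 2 + 8 * C + 1)}

lemma bigSet_finite (C : ℝ) : (bigSet C).Finite := by
  refine Set.Finite.image _ ?_
  set M : ℤ := ⌊64 * C ^ 2 + 8 * C + 1⌋ with hM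
  have hinj : Function.Injective (fun g : GL (Fin 2) ℤ => ((g 0 0, g 0 1), (g 1 0, g 1 1))) := by
    intro g h hgh
    simp only [Prod.mk.injEq] at hgh
    ext i j
    fin_cases i <;> fin_cases j
    · exact hgh.1.1
    · exact hgh.1.2
    · exact hgh.2.1
    · exact hgh.2.2
  have hfin : (((Set.Icc (-M) M) ×ˢ (Set.Icc (-M) M)) ×ˢ ((Set.Icc (-M) M) ×ˢ (Set.Icc (-M) M)) :
      Set ((ℤ × ℤ) × (ℤ × ℤ))).Finite :=
    ((Set.finite_Icc _ _).prod (Set.finite_Icc _ _)).prod ((Set.finite_Icc _ _).prod (Set.finite_Icc _ _))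
  refine Set.Finite.subset (hfin.preimage hinj.injOn) ?_
  intro g hg
  have h1 : ∀ i j, g i j ∈ Set.Icc (-M) M := by
    intro i j
    have := hg i j
    have h2 : |g i j| ≤ M := by
      rw [hM, Int.le_floor]
      push_cast
      exact this
    exact abs_le.1 h2
  exact ⟨⟨h1 0 0, h1 0 1⟩, ⟨h1 1 0, h1 1 1⟩⟩

lemma mem_bigSet {g : GL (Fin 2) ℤ} {z w : ℍ} (hz : z ∈ D) (hw : w ∈ D) {C : ℝ} (hC : 1 ≤ C) (hg : g 1 0 ≠ 0)
    (h : Real.cosh (dist z ((ProjGenLinGroup.mk g : PGL(2, ℤ)) • w)) < C) :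
    ProjGenLinGroup.mk g ∈ bigSet C := by
  obtain ⟨_, _, h3, h4⟩ := count_bound g hz hw hC hg h
  obtain ⟨h5, h6⟩ := count_bound' g hz hw hC hg h
  refine ⟨g, ?_, rfl⟩
  have hC2 : 0 ≤ C ^ 2 := sq_nonneg C
  intro i j
  fin_cases i <;> fin_cases j
  · show |(g 0 0 : ℝ)| ≤ _
    linarith
  · show |(g 0 1 : ℝ)| ≤ _
    linarith
  · show |(g 1 0 : ℝ)| ≤ _
    linarith
  · show |(g 1 1 : ℝ)| ≤ _
    linarith

/-- The elements fixing the cusp: `w ↦ s w + n` (up to conjugation). -/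
def pm (n : ℤ) (s : ℤˣ) : GL (Fin 2) ℤ :=
  ⟨!![(s : ℤ), n; 0, 1], !![(s : ℤ), -s * n; 0, 1], by
    ext i j; fin_cases i <;> fin_cases j <;> simp [← mul_assoc, Int.units_coe_mul_self],
   by ext i j; fin_cases i <;> fin_cases j <;> simp [Int.units_coe_mul_self]⟩

/-- The cusp embedding. -/
noncomputable def P (x : ℤ × ℤˣ) : PGL(2, ℤ) := ProjGenLinGroup.mk (pm x.1 x.2)

lemma mul_scalar_apply (A : GL (Fin 2) ℤ) (u : ℤˣ) (i j : Fin 2) :
    (A * GeneralLinearGroup.scalar (Fin 2) u : GL (Fin 2) ℤ) i j = A i j * u := by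
  rw [Units.val_mul, GeneralLinearGroup.coe_scalar, Matrix.scalar_apply, Matrix.mul_diagonal]

lemma P_inj : Function.Injective P := by
  rintro ⟨n, s⟩ ⟨m, t⟩ h
  unfold P at h
  rw [ProjGenLinGroup.mk_eq_mk_iff] at h
  obtain ⟨u, hu⟩ := h
  have hu' : ∀ i j, (pm n s) i j * u = (pm m t) i j := fun i j => by
    rw [← mul_scalar_apply]; exact congrArg (fun A : GL (Fin 2) ℤ => A i j) hu
  have h11 := hu' 1 1
  have h01 := hu' 0 1
  have h00 := hu' 0 0
  simp only [pm, Matrix.of_apply, Matrix.cons_val', Matrix.cons_val_zero, Matrix.cons_val_one,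
    Matrix.cons_val_fin_one] at h11 h01 h00
  rw [one_mul] at h11
  rw [h11, mul_one] at h01 h00
  have : s = t := Units.ext h00
  rw [h01, this]

lemma eq_P_of_c_zero (g : GL (Fin 2) ℤ) (hg : g 1 0 = 0) : ∃ x, P x = ProjGenLinGroup.mk g := by
  have hdet : (g.det : ℤ) = g 0 0 * g 1 1 := by
    rw [GeneralLinearGroup.val_det_apply, Matrix.det_fin_two, hg]; ring
  have hu : IsUnit (g 1 1) := by
    have : IsUnit (g 0 0 * g 1 1) := by rw [← hdet]; exact g.det.isUnit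
    exact isUnit_of_mul_isUnit_right this
  obtain ⟨u, hu⟩ := hu
  have hu2 : (u : ℤ) * u = 1 := Int.units_coe_mul_self u
  refine ⟨(g 0 1 * u, g.det), ?_⟩
  unfold P
  rw [ProjGenLinGroup.mk_eq_mk_iff]
  refine ⟨u, ?_⟩
  ext i j
  rw [mul_scalar_apply]
  fin_cases i <;> fin_cases j
  · show (g.det : ℤ) * u = g 0 0
    rw [hdet, ← hu, mul_assoc, hu2, mul_one]
  · show (g 0 1 * u) * (u : ℤ) = g 0 1
    rw [mul_assoc, hu2, mul_one]
  · show (0 : ℤ) * u = g 1 0
    rw [zero_mul, hg]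
  · show (1 : ℤ) * u = g 1 1
    rw [one_mul, hu]

lemma not_P {g : GL (Fin 2) ℤ} (h : ProjGenLinGroup.mk g ∉ Set.range P) : g 1 0 ≠ 0 := by
  intro h0
  obtain ⟨x, hx⟩ := eq_P_of_c_zero g h0
  exact h ⟨x, hx⟩

lemma P_smul_im (x : ℤ × ℤˣ) (w : ℍ) : (P x • w).im = w.im := by
  have := mkZ_im (pm x.1 x.2) w
  simpa [pm, P] using this

lemma P_smul_re (x : ℤ × ℤˣ) (w : ℍ) : (P x • w).re = ((x.2 : ℤ) : ℝ) * w.re + x.1 := by
  obtain ⟨n, s⟩ := x
  unfold P
  rw [mk_smulZ, re_smul]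
  simp [num, denom, pm]

lemma sgn_P (x : ℤ × ℤˣ) : sgn (P x) = ((x.2 : ℤ) : ℝ) := by
  unfold sgn P
  rw [sgnHom_mk, GeneralLinearGroup.val_det_apply, Matrix.det_fin_two]
  simp [pm]

lemma cosh_dist_re_im (z w : ℍ) :
    Real.cosh (dist z w) = 1 + ((z.re - w.re) ^ 2 + (z.im - w.im) ^ 2) / (2 * z.im * w.im) := by
  rw [cosh_dist, Complex.dist_eq, Complex.sq_norm, Complex.normSq_apply]
  simp [sq]


section unimodal

variable {g : ℝ → ℝ}

lemma finite_shift {B : ℝ} (hs : ∀ t, B ≤ |t| → g t = 0) (t : ℝ) :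
    (Function.support (fun n : ℤ => g (t + n))).Finite := by
  refine Set.Finite.subset (Set.finite_Icc ⌊-B - t⌋ ⌈B - t⌉) ?_
  intro n hn
  have h1 : |t + n| < B := by
    by_contra hcon
    exact hn (hs _ (not_lt.1 hcon))
  rw [abs_lt] at h1
  constructor
  · have : (⌊-B - t⌋ : ℝ) ≤ -B - t := Int.floor_le _
    have h2 : (⌊-B - t⌋ : ℝ) < n := by linarith
    exact_mod_cast h2.le
  · have : B - t ≤ (⌈B - t⌉ : ℝ) := Int.le_ceil _
    have h2 : (n : ℝ) < ⌈B - t⌉ := by linarith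
    exact_mod_cast h2.le

lemma summable_shift {B : ℝ} (hs : ∀ t, B ≤ |t| → g t = 0) (t : ℝ) :
    Summable (fun n : ℤ => g (t + n)) := summable_of_hasFiniteSupport (finite_shift hs t)

lemma summable_nat {B : ℝ} (hs : ∀ t, B ≤ |t| → g t = 0) (a : ℝ) :
    Summable (fun n : ℕ => g (a + n)) := by
  have := (summable_shift hs a).comp_injective (Nat.cast_injective (R := ℤ))
  refine this.congr (fun n => ?_)
  simp

lemma unimodal_bound (h0 : ∀ t, 0 ≤ g t) (he : ∀ t, g (-t) = g t) (ha : AntitoneOn g (Set.Ici 0))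
    {B : ℝ} (hs : ∀ t, B ≤ |t| → g t = 0) (t : ℝ) :
    2 * (∑' n : ℕ, g (1 + n)) ≤ ∑' n : ℤ, g (t + n) ∧
    ∑' n : ℤ, g (t + n) ≤ 2 * (∑' n : ℕ, g (1 + n)) + 2 * g 0 := by
  -- reduce to `0 ≤ t < 1`
  have hred : ∑' n : ℤ, g (t + n) = ∑' n : ℤ, g (Int.fract t + n) := by
    rw [← (Equiv.addRight (-⌊t⌋)).tsum_eq]
    refine tsum_congr (fun n => ?_)
    congr 1
    simp only [Equiv.coe_addRight, Int.cast_add, Int.cast_neg]
    rw [Int.fract]; ring
  rw [hred]
  set r := Int.fract t with hr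
  have hr0 : 0 ≤ r := Int.fract_nonneg t
  have hr1 : r < 1 := Int.fract_lt_one t
  have hsum := summable_shift hs r
  have hsplit : ∑' n : ℤ, g (r + n) = ∑' n : ℕ, g (r + n) + ∑' n : ℕ, g (r - (1 + n)) := by
    have h1 : Summable (fun n : ℕ => g (r + ((n : ℤ) : ℝ))) := hsum.comp_injective (Nat.cast_injective (R := ℤ))
    have h2 : Summable (fun n : ℕ => g (r + ((-(n + 1 : ℤ) : ℤ) : ℝ))) := by
      refine hsum.comp_injective (i := fun n : ℕ => (-(n + 1 : ℤ))) ?_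
      intro a b hab
      have : (a : ℤ) = b := by
        simp only at hab; omega
      exact_mod_cast this
    have := tsum_of_nat_of_neg_add_one (f := fun n : ℤ => g (r + n)) h1 h2
    rw [this]
    congr 1
    refine tsum_congr (fun n => ?_)
    congr 1
    push_cast
    ring
  rw [hsplit]
  have hA : Summable (fun n : ℕ => g (1 + n)) := summable_nat hs 1
  have hr' : Summable (fun n : ℕ => g (r + n)) := summable_nat hs r
  have h0' : Summable (fun n : ℕ => g (0 + n)) := summable_nat hs 0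
  have hm : Summable (fun n : ℕ => g (r - (1 + n))) := by
    have := summable_nat hs (1 - r)
    refine this.congr (fun n => ?_)
    rw [← he]; congr 1; ring
  have h0s : ∑' n : ℕ, g (0 + n) = g 0 + ∑' n : ℕ, g (1 + n) := by
    rw [h0'.tsum_eq_zero_add]
    congr 1
    · simp
    · refine tsum_congr (fun n => ?_)
      congr 1; push_cast; ring
  constructor
  · have e1 : ∑' n : ℕ, g (1 + n) ≤ ∑' n : ℕ, g (r + n) := by
      refine Summable.tsum_le_tsum (fun n => ?_) hA hr'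
      have hn : (0 : ℝ) ≤ n := Nat.cast_nonneg n
      exact ha (by simp only [Set.mem_Ici]; linarith) (by simp only [Set.mem_Ici]; linarith) (by linarith)
    have e2 : ∑' n : ℕ, g (1 + n) ≤ ∑' n : ℕ, g (r - (1 + n)) := by
      refine Summable.tsum_le_tsum (fun n => ?_) hA hm
      have hn : (0 : ℝ) ≤ n := Nat.cast_nonneg n
      rw [← he (r - (1 + n))]
      exact ha (by simp only [Set.mem_Ici]; linarith) (by simp only [Set.mem_Ici]; linarith) (by linarith)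
    linarith
  · have e1 : ∑' n : ℕ, g (r + n) ≤ ∑' n : ℕ, g (0 + n) := by
      refine Summable.tsum_le_tsum (fun n => ?_) hr' h0'
      have hn : (0 : ℝ) ≤ n := Nat.cast_nonneg n
      exact ha (by simp only [Set.mem_Ici]; linarith) (by simp only [Set.mem_Ici]; linarith) (by linarith)
    have e2 : ∑' n : ℕ, g (r - (1 + n)) ≤ ∑' n : ℕ, g (0 + n) := by
      refine Summable.tsum_le_tsum (fun n => ?_) hm h0'
      have hn : (0 : ℝ) ≤ n := Nat.cast_nonneg n
      rw [← he (r - (1 + n))]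
      exact ha (by simp only [Set.mem_Ici]; linarith) (by simp only [Set.mem_Ici]; linarith) (by linarith)
    linarith

lemma unimodal_diff (h0 : ∀ t, 0 ≤ g t) (he : ∀ t, g (-t) = g t) (ha : AntitoneOn g (Set.Ici 0))
    {B : ℝ} (hs : ∀ t, B ≤ |t| → g t = 0) (t t' : ℝ) :
    |∑' n : ℤ, g (t + n) - ∑' n : ℤ, g (t' + n)| ≤ 2 * g 0 := by
  have h1 := unimodal_bound h0 he ha hs t
  have h2 := unimodal_bound h0 he ha hs t'
  rw [abs_le]; constructor <;> linarith [h1.1, h1.2, h2.1, h2.2]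

end unimodal

/-- A profile of a point-pair invariant. -/
structure Prof (φ : ℝ → ℝ) (C : ℝ) : Prop where
  cont : Continuous φ
  one_le : 1 ≤ C
  supp : ∀ t, C ≤ t → φ t = 0

/-- The automorphic kernel twisted by the determinant character. -/
noncomputable def K (φ : ℝ → ℝ) (z w : ℍ) : ℝ :=
  ∑' g : PGL(2, ℤ), sgn g * φ (Real.cosh (dist z (g • w)))

variable {φ : ℝ → ℝ} {C : ℝ}

lemma K_smul_left (h : PGL(2, ℤ)) (z w : ℍ) : K φ (h • z) w = sgn h * K φ z w := by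
  unfold K
  rw [← tsum_mul_left, ← (Equiv.mulLeft h).tsum_eq]
  refine tsum_congr (fun g => ?_)
  simp only [Equiv.coe_mulLeft, sgn_mul, mul_smul, dist_smul]
  ring

lemma K_smul_right (h : PGL(2, ℤ)) (z w : ℍ) : K φ z (h • w) = sgn h * K φ z w := by
  unfold K
  rw [← tsum_mul_left, ← (Equiv.mulRight h).tsum_eq (fun g => sgn h * (sgn g * φ (Real.cosh (dist z (g • w)))))]
  refine tsum_congr (fun g => ?_)
  simp only [Equiv.coe_mulRight, sgn_mul, mul_smul]
  linear_combination (-1 : ℝ) * (sgn g * φ (Real.cosh (dist z (g • h • w)))) * (sgn_sq h)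

lemma K_symm (z w : ℍ) : K φ z w = K φ w z := by
  unfold K
  rw [← (Equiv.inv PGL(2, ℤ)).tsum_eq]
  refine tsum_congr (fun g => ?_)
  simp only [Equiv.inv_apply, sgn_inv, dist_mk_inv]


/-- the profile along the cusp translations -/
noncomputable def Gf (φ : ℝ → ℝ) (y v t : ℝ) : ℝ := φ (1 + (t ^ 2 + (y - v) ^ 2) / (2 * y * v))

lemma Gf_supp (hφ : Prof φ C) {y v : ℝ} (hy : 0 < y) (hv : 0 < v) (t : ℝ)
    (ht : √(2 * y * v * C) ≤ |t|) : Gf φ y v t = 0 := by
  apply hφ.supp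
  have hC := hφ.one_le
  have h1 : 2 * y * v * C ≤ t ^ 2 := by
    rw [← sq_abs]
    exact (Real.sqrt_le_left (abs_nonneg _)).1 ht
  have h2 : C ≤ (t ^ 2 + (y - v) ^ 2) / (2 * y * v) := by
    rw [le_div_iff₀ (by positivity)]
    nlinarith [sq_nonneg (y - v)]
  linarith

lemma Gf_even (y v t : ℝ) : Gf φ y v (-t) = Gf φ y v t := by
  unfold Gf; rw [neg_sq]

lemma Gf_anti (hanti : Antitone φ) {y v : ℝ} (hy : 0 < y) (hv : 0 < v) :
    AntitoneOn (Gf φ y v) (Set.Ici 0) := by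
  intro a ha b hb hab
  apply hanti
  have ha' : (0 : ℝ) ≤ a := ha
  gcongr

lemma phi_P (x : ℤ × ℤˣ) (z w : ℍ) :
    φ (Real.cosh (dist z (P x • w))) = Gf φ z.im w.im (z.re - ((x.2 : ℤ) : ℝ) * w.re - x.1) := by
  rw [cosh_dist_re_im, P_smul_im, P_smul_re, Gf]
  congr 4
  ring

lemma finite_P (C : ℝ) (hC : 1 ≤ C) (z w : ℍ) : {x : ℤ × ℤˣ | Real.cosh (dist z (P x • w)) < C}.Finite := by
  set B := √(2 * z.im * w.im * C) with hB
  have hy := z.im_pos
  have hv := w.im_pos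
  have hsub : {x : ℤ × ℤˣ | Real.cosh (dist z (P x • w)) < C} ⊆
      (Set.Icc ⌊z.re - |w.re| - B⌋ ⌈z.re + |w.re| + B⌉) ×ˢ (Set.univ : Set ℤˣ) := by
    rintro ⟨n, s⟩ hx
    have hx' : Real.cosh (dist z (P (n, s) • w)) < C := hx
    rw [cosh_dist_re_im, P_smul_im, P_smul_re] at hx'
    simp only at hx'
    set T := z.re - (((s : ℤ) : ℝ) * w.re + n) with hT
    have h1 : T ^ 2 < 2 * z.im * w.im * C := by
      have h2 : (T ^ 2 + (z.im - w.im) ^ 2) / (2 * z.im * w.im) < C - 1 := by linarith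
      rw [div_lt_iff₀ (by positivity)] at h2
      nlinarith [sq_nonneg (z.im - w.im), mul_pos hy hv]
    have h2 : |T| < B := by
      rw [hB]; apply Real.lt_sqrt_of_sq_lt; rw [sq_abs]; exact h1
    rw [abs_lt] at h2
    have hs : |((s : ℤ) : ℝ) * w.re| = |w.re| := by
      rcases Int.units_eq_one_or s with h | h <;> simp [h]
    have hs1 := abs_le.1 hs.le
    refine ⟨⟨?_, ?_⟩, trivial⟩
    · have h3 : (⌊z.re - |w.re| - B⌋ : ℝ) ≤ z.re - |w.re| - B := Int.floor_le _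
      have h4 : (⌊z.re - |w.re| - B⌋ : ℝ) < n := by linarith [hs1.2]
      exact_mod_cast h4.le
    · have h3 : z.re + |w.re| + B ≤ (⌈z.re + |w.re| + B⌉ : ℝ) := Int.le_ceil _
      have h4 : (n : ℝ) < ⌈z.re + |w.re| + B⌉ := by linarith [hs1.1]
      exact_mod_cast h4.le
  exact Set.Finite.subset ((Set.finite_Icc _ _).prod Set.finite_univ) hsub

lemma mem_big_of_not_P {g : PGL(2, ℤ)} (hg : g ∉ Set.range P) {z w : ℍ} (hz : z ∈ D) (hw : w ∈ D)
    {C : ℝ} (hC : 1 ≤ C) (h : Real.cosh (dist z (g • w)) < C) : g ∈ bigSet C := by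
  induction g using ProjGenLinGroup.induction_on with
  | mk g => exact mem_bigSet hz hw hC (not_P hg) h

lemma finite_D (C : ℝ) (hC : 1 ≤ C) {z w : ℍ} (hz : z ∈ D) (hw : w ∈ D) :
    {g : PGL(2, ℤ) | Real.cosh (dist z (g • w)) < C}.Finite := by
  refine Set.Finite.subset (((finite_P C hC z w).image P).union (bigSet_finite C)) ?_
  intro g hg
  by_cases h : g ∈ Set.range P
  · obtain ⟨x, rfl⟩ := h
    exact Or.inl ⟨x, hg, rfl⟩
  · exact Or.inr (mem_big_of_not_P h hz hw hC hg)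

lemma finite_all (C : ℝ) (hC : 1 ≤ C) (z w : ℍ) :
    {g : PGL(2, ℤ) | Real.cosh (dist z (g • w)) < C}.Finite := by
  obtain ⟨h1, hz⟩ := exists_smul_D z
  obtain ⟨h2, hw⟩ := exists_smul_D w
  have hinj : Function.Injective (fun g : PGL(2, ℤ) => h1 * g * h2⁻¹) := by
    intro a b hab
    simpa using hab
  refine Set.Finite.subset ((finite_D C hC hz hw).preimage hinj.injOn) ?_
  intro g hg
  show Real.cosh (dist (h1 • z) ((h1 * g * h2⁻¹) • h2 • w)) < C
  rw [mul_smul, inv_smul_smul, mul_smul, dist_smul]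
  exact hg

lemma term_supp (hφ : Prof φ C) (z w : ℍ) :
    (Function.support (fun g : PGL(2, ℤ) => sgn g * φ (Real.cosh (dist z (g • w))))).Finite := by
  refine (finite_all C hφ.one_le z w).subset ?_
  intro g hg
  by_contra hcon
  apply hg
  have : φ (Real.cosh (dist z (g • w))) = 0 := hφ.supp _ (not_lt.1 hcon)
  simp [this]

lemma K_summable (hφ : Prof φ C) (z w : ℍ) :
    Summable (fun g : PGL(2, ℤ) => sgn g * φ (Real.cosh (dist z (g • w)))) :=
  summable_of_hasFiniteSupport (term_supp hφ z w)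

lemma continuous_smulZ (g : PGL(2, ℤ)) : Continuous (fun w : ℍ => g • w) :=
  (isoZ.isometry_smul g).continuous

lemma K_measurable (hφ : Prof φ C) : Measurable (fun p : ℍ × ℍ => K φ p.1 p.2) := by
  refine measurable_of_tendsto_metrizable' (Filter.atTop : Filter (Finset PGL(2, ℤ)))
    (f := fun s => fun p : ℍ × ℍ => ∑ g ∈ s, sgn g * φ (Real.cosh (dist p.1 (g • p.2)))) ?_ ?_
  · intro s
    refine Finset.measurable_sum s (fun g _ => ?_)
    have h1 : Continuous (fun p : ℍ × ℍ => sgn g * φ (Real.cosh (dist p.1 (g • p.2)))) := by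
      have := hφ.cont
      have h2 := continuous_smulZ g
      have h3 : Continuous (fun p : ℍ × ℍ => g • p.2) := h2.comp continuous_snd
      fun_prop
    exact h1.measurable
  · rw [tendsto_pi_nhds]
    intro p
    exact (K_summable hφ p.1 p.2).hasSum

/-- The key bound: oddness kills the contribution of the cusp. -/
lemma K_bound_D (hφ : Prof φ C) (hpos : ∀ t, 0 ≤ φ t) (hanti : Antitone φ) {z w : ℍ} (hz : z ∈ D) (hw : w ∈ D) :
    |K φ z w| ≤ (2 + ((bigSet C).ncard : ℝ)) * φ 1 := by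
  classical
  have hy := z.im_pos
  have hv := w.im_pos
  set f : PGL(2, ℤ) → ℝ := fun g => sgn g * φ (Real.cosh (dist z (g • w))) with hf
  have hsum : Summable f := K_summable hφ z w
  have hle : ∀ g, |f g| ≤ φ 1 := by
    intro g
    rw [hf]
    simp only
    rw [abs_mul, abs_sgn, one_mul, abs_of_nonneg (hpos _)]
    exact hanti (Real.one_le_cosh _)
  have hsplit : K φ z w = ∑' x : ℤ × ℤˣ, f (P x) + ∑' g : PGL(2, ℤ), (Set.range P)ᶜ.indicator f g := by
    unfold K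
    rw [← tsum_range f P_inj, tsum_subtype, ← Summable.tsum_add (hsum.indicator _) (hsum.indicator _)]
    refine tsum_congr (fun g => ?_)
    exact (Set.indicator_self_add_compl_apply (Set.range P) f g).symm
  have h2 : |∑' g : PGL(2, ℤ), (Set.range P)ᶜ.indicator f g| ≤ ((bigSet C).ncard : ℝ) * φ 1 := by
    rw [tsum_eq_sum (s := (bigSet_finite C).toFinset)]
    · refine (Finset.abs_sum_le_sum_abs _ _).trans ?_
      rw [Set.ncard_eq_toFinset_card _ (bigSet_finite C), ← nsmul_eq_mul]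
      refine Finset.sum_le_card_nsmul _ _ _ (fun g _ => ?_)
      by_cases hg : g ∈ (Set.range P)ᶜ
      · rw [Set.indicator_of_mem hg]; exact hle g
      · rw [Set.indicator_of_notMem hg]; simp [hpos 1]
    · intro g hg
      by_cases hg' : g ∈ (Set.range P)ᶜ
      · rw [Set.indicator_of_mem hg']
        have h3 : ¬ Real.cosh (dist z (g • w)) < C := fun h =>
          hg ((Set.Finite.mem_toFinset _).2 (mem_big_of_not_P hg' hz hw hφ.one_le h))
        rw [hf]; simp only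
        rw [hφ.supp _ (not_lt.1 h3), mul_zero]
      · rw [Set.indicator_of_notMem hg']
  have h1 : |∑' x : ℤ × ℤˣ, f (P x)| ≤ 2 * φ 1 := by
    have hsP : Summable (fun x : ℤ × ℤˣ => f (P x)) := hsum.comp_injective P_inj
    have e1 : ∑' x : ℤ × ℤˣ, f (P x) = ∑' n : ℤ, f (P (n, 1)) + ∑' n : ℤ, f (P (n, -1)) := by
      rw [← (Equiv.prodComm ℤˣ ℤ).tsum_eq]
      have hs' : Summable (fun x : ℤˣ × ℤ => f (P ((Equiv.prodComm ℤˣ ℤ) x))) :=
        (Equiv.prodComm ℤˣ ℤ).summable_iff.2 hsP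
      rw [hs'.tsum_prod, tsum_fintype]
      have : (Finset.univ : Finset ℤˣ) = {1, -1} := UnitsInt.univ
      rw [this, Finset.sum_pair (by decide)]
      rfl
    have e2 : ∀ s : ℤˣ, ∑' n : ℤ, f (P (n, s)) = ((s : ℤ) : ℝ) * ∑' n : ℤ, Gf φ z.im w.im ((-z.re + ((s : ℤ) : ℝ) * w.re) + n) := by
      intro s
      rw [← tsum_mul_left]
      refine tsum_congr (fun n => ?_)
      rw [hf]; simp only
      rw [sgn_P, phi_P (φ := φ), ← Gf_even]
      congr 2
      simp only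
      ring
    rw [e1, e2, e2]
    have h3 := unimodal_diff (g := Gf φ z.im w.im) (fun t => hpos _) (Gf_even z.im w.im) (Gf_anti hanti hy hv)
      (Gf_supp hφ hy hv) (-z.re + w.re) (-z.re - w.re)
    have h4 : Gf φ z.im w.im 0 ≤ φ 1 := by
      unfold Gf
      apply hanti
      have : 0 ≤ ((0 : ℝ) ^ 2 + (z.im - w.im) ^ 2) / (2 * z.im * w.im) := by positivity
      linarith
    have h5 : (((1 : ℤˣ) : ℤ) : ℝ) = 1 := by simp
    have h6 : (((-1 : ℤˣ) : ℤ) : ℝ) = -1 := by simp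
    rw [h5, h6, one_mul, one_mul, neg_one_mul, neg_one_mul, ← sub_eq_add_neg]
    rw [← sub_eq_add_neg (-z.re) w.re]
    linarith
  calc |K φ z w| = |∑' x : ℤ × ℤˣ, f (P x) + ∑' g : PGL(2, ℤ), (Set.range P)ᶜ.indicator f g| := by rw [hsplit]
    _ ≤ _ := abs_add_le _ _
    _ ≤ 2 * φ 1 + ((bigSet C).ncard : ℝ) * φ 1 := add_le_add h1 h2
    _ = _ := by ring

end Q276.OM
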