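import Pool.Agent.Q276.OM.Comm

/-!
# Regularity and the Laplacian
-/

set_option autoImplicit false

open scoped MatrixGroups Pointwise
open UpperHalfPlane MeasureTheory Filter Topology
open Matrix hiding J

namespace Q276.OM

variable {φ ψ : ℝ → ℝ} {C C' : ℝ}

/-- Differentiation under the integral sign. -/
lemma diff_int {h h' : ℝ → ℍ → ℝ} {r0 δ : ℝ} (hδ : 0 < δ) {K : Set ℍ} (hK : IsCompact K)
    (hcont : ContinuousOn (fun p : ℝ × ℍ => h p.1 p.2) (Set.Icc (r0 - δ) (r0 + δ) ×ˢ Set.univ))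
    (hcont' : ContinuousOn (fun p : ℝ × ℍ => h' p.1 p.2) (Set.Icc (r0 - δ) (r0 + δ) ×ˢ Set.univ))
    (hd : ∀ r ∈ Set.Icc (r0 - δ) (r0 + δ), ∀ w, HasDerivAt (fun r => h r w) (h' r w) r)
    (hs : ∀ r ∈ Set.Icc (r0 - δ) (r0 + δ), ∀ w, w ∉ K → h r w = 0)
    (hs' : ∀ r ∈ Set.Icc (r0 - δ) (r0 + δ), ∀ w, w ∉ K → h' r w = 0)
    {F : ℍ → ℂ} (hF : Measurable F) {B : ℝ} (hB : ∀ w, ‖F w‖ ≤ B) :
    HasDerivAt (fun r => ∫ w, (h r w : ℂ) * F w) (∫ w, (h' r0 w : ℂ) * F w) r0 := by
  have hr0 : r0 ∈ Set.Icc (r0 - δ) (r0 + δ) := ⟨by linarith, by linarith⟩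
  have hmem : Set.Icc (r0 - δ) (r0 + δ) ∈ 𝓝 r0 := Icc_mem_nhds (by linarith) (by linarith)
  have hKm : MeasurableSet K := hK.measurableSet
  have hcs : ∀ r ∈ Set.Icc (r0 - δ) (r0 + δ), Continuous (fun w => h r w) := by
    intro r hr
    rw [← continuousOn_univ]
    exact hcont.comp (f := fun w : ℍ => (r, w)) (by fun_prop) (fun w _ => ⟨hr, trivial⟩)
  have hcs' : ∀ r ∈ Set.Icc (r0 - δ) (r0 + δ), Continuous (fun w => h' r w) := by
    intro r hr
    rw [← continuousOn_univ]
    exact hcont'.comp (f := fun w : ℍ => (r, w)) (by fun_prop) (fun w _ => ⟨hr, trivial⟩)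
  obtain ⟨A, hA⟩ := ((isCompact_Icc (a := r0 - δ) (b := r0 + δ)).prod hK).exists_bound_of_continuousOn
    (hcont'.mono (Set.prod_mono_right (Set.subset_univ _)))
  obtain ⟨A0, hA0⟩ := ((isCompact_Icc (a := r0 - δ) (b := r0 + δ)).prod hK).exists_bound_of_continuousOn
    (hcont.mono (Set.prod_mono_right (Set.subset_univ _)))
  have hintK : ∀ c : ℝ, Integrable (K.indicator (fun _ : ℍ => c)) := by
    intro c
    rw [integrable_indicator_iff hKm]
    exact integrableOn_const hK.measure_lt_top.ne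
  have hmeas : ∀ {g : ℍ → ℝ}, Continuous g → AEStronglyMeasurable (fun w => (g w : ℂ) * F w) volume := by
    intro g hg
    exact ((Complex.continuous_ofReal.comp hg).measurable.mul hF).aestronglyMeasurable
  have key := hasDerivAt_integral_of_dominated_loc_of_deriv_le (μ := (volume : Measure ℍ))
    (F := fun r w => (h r w : ℂ) * F w) (F' := fun r w => (h' r w : ℂ) * F w) (x₀ := r0)
    (s := Set.Icc (r0 - δ) (r0 + δ)) (bound := K.indicator (fun _ => A * B)) hmem ?_ ?_ ?_ ?_ ?_ ?_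
  · exact key.2
  · filter_upwards [hmem] with r hr
    exact hmeas (hcs r hr)
  · refine (hintK (A0 * B)).mono' (hmeas (hcs r0 hr0)) (Eventually.of_forall (fun w => ?_))
    by_cases hw : w ∈ K
    · rw [Set.indicator_of_mem hw, norm_mul, Complex.norm_real]
      have h1 := hA0 (r0, w) ⟨hr0, hw⟩
      exact mul_le_mul h1 (hB w) (norm_nonneg _) ((norm_nonneg _).trans h1)
    · rw [Set.indicator_of_notMem hw, hs r0 hr0 w hw]; simp
  · exact hmeas (hcs' r0 hr0)
  · refine Eventually.of_forall (fun w r hr => ?_)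
    by_cases hw : w ∈ K
    · rw [Set.indicator_of_mem hw, norm_mul, Complex.norm_real]
      have h1 := hA (r, w) ⟨hr, hw⟩
      exact mul_le_mul h1 (hB w) (norm_nonneg _) ((norm_nonneg _).trans h1)
    · rw [Set.indicator_of_notMem hw, hs' r hr w hw]; simp
  · exact hintK _
  · refine Eventually.of_forall (fun w r hr => ?_)
    exact ((hd r hr w).ofReal_comp).mul_const _

/-- the hyperbolic cosine of the distance in coordinates -/
noncomputable def cc (x y : ℝ) (w : ℍ) : ℝ := ((x - w.re) ^ 2 + y ^ 2 + w.im ^ 2) / (2 * y * w.im)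

/-- the point with given coordinates -/
def pt (x y : ℝ) (hy : 0 < y) : ℍ := ⟨⟨x, y⟩, hy⟩

lemma cosh_pt (x y : ℝ) (hy : 0 < y) (w : ℍ) : Real.cosh (dist (pt x y hy) w) = cc x y w := by
  rw [cosh_dist_re_im, cc]
  have h1 : (pt x y hy).re = x := rfl
  have h2 : (pt x y hy).im = y := rfl
  rw [h1, h2]
  have := w.im_pos
  field_simp
  ring

lemma cc_supp (hψ : Prof ψ C) {x y x' y' : ℝ} (hy : 0 < y) (hy' : 0 < y')
    (h : (x' = x ∧ |y' - y| ≤ y / 2) ∨ (|x' - x| ≤ y / 2 ∧ y' = y)) {w : ℍ}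
    (hw : w ∉ Metric.closedBall (pt x y hy) (2 * C + 1)) : ψ (cc x' y' w) = 0 := by
  rw [← cosh_pt x' y' hy']
  apply kk_supp hψ
  have hd : dist (pt x' y' hy') (pt x y hy) ≤ 1 := by
    refine (dist_le_dist_coe_div_sqrt _ _).trans ?_
    have him1 : (pt x' y' hy').im = y' := rfl
    have him2 : (pt x y hy).im = y := rfl
    rw [him1, him2, div_le_one (Real.sqrt_pos.2 (mul_pos hy' hy))]
    have h1 : dist ((pt x' y' hy' : ℍ) : ℂ) (pt x y hy : ℍ) ≤ y / 2 := by
      rw [Complex.dist_eq]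
      have e : ((pt x' y' hy' : ℍ) : ℂ) - (pt x y hy : ℍ) = ⟨x' - x, y' - y⟩ := by
        apply Complex.ext <;> simp [pt]
      rw [e]
      rcases h with ⟨h1, h2⟩ | ⟨h1, h2⟩
      · have : (⟨x' - x, y' - y⟩ : ℂ) = ((y' - y : ℝ) : ℂ) * Complex.I := by
          apply Complex.ext <;> simp [h1]
        rw [this, norm_mul, Complex.norm_I, mul_one, Complex.norm_real]
        exact h2
      · have : (⟨x' - x, y' - y⟩ : ℂ) = ((x' - x : ℝ) : ℂ) := by
          apply Complex.ext <;> simp [h2]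
        rw [this, Complex.norm_real]
        exact h1
    refine h1.trans ?_
    apply Real.le_sqrt_of_sq_le
    have hy2 : y / 2 ≤ y' := by
      rcases h with ⟨_, h2⟩ | ⟨_, h2⟩
      · have := (abs_le.1 h2).1; linarith
      · rw [h2]; linarith
    nlinarith
  rw [Metric.mem_closedBall, not_le] at hw
  have := dist_triangle w (pt x' y' hy') (pt x y hy)
  rw [dist_comm w (pt x' y' hy')] at this
  linarith

lemma cc_hasDeriv_x (x y : ℝ) (w : ℍ) (hy : 0 < y) :
    HasDerivAt (fun x => cc x y w) ((x - w.re) / (y * w.im)) x := by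
  unfold cc
  have h1 : HasDerivAt (fun x => ((x - w.re) ^ 2 + y ^ 2 + w.im ^ 2)) (2 * (x - w.re)) x := by
    have := (((hasDerivAt_id x).sub_const w.re).pow 2).add_const (y ^ 2) |>.add_const (w.im ^ 2)
    simpa using this
  have h2 := h1.div_const (2 * y * w.im)
  have := w.im_pos
  refine h2.congr_deriv ?_
  field_simp

lemma cc_hasDeriv_y (x y : ℝ) (w : ℍ) (hy : 0 < y) :
    HasDerivAt (fun y => cc x y w) (1 / w.im - cc x y w / y) y := by
  have hv := w.im_pos
  unfold cc
  have h1 : HasDerivAt (fun y => ((x - w.re) ^ 2 + y ^ 2 + w.im ^ 2)) (2 * y) y := by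
    have := ((hasDerivAt_id y).pow 2).const_add ((x - w.re) ^ 2) |>.add_const (w.im ^ 2)
    simpa using this
  have h2 : HasDerivAt (fun y => 2 * y * w.im) (2 * w.im) y := by
    have := ((hasDerivAt_id y).const_mul 2).mul_const w.im
    simpa using this
  have h3 := h1.div h2 (by positivity)
  refine h3.congr_deriv ?_
  field_simp

/-- Smooth profiles. -/
structure SProf (φ : ℝ → ℝ) (C : ℝ) : Prop where
  smooth : ContDiff ℝ (⊤ : ℕ∞) φ
  one_le : 1 ≤ C
  supp : ∀ t, C ≤ t → φ t = 0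

lemma SProf.toProf (h : SProf φ C) : Prof φ C := ⟨h.smooth.continuous, h.one_le, h.supp⟩

lemma SProf.hasDerivAt (h : SProf φ C) (t : ℝ) : HasDerivAt φ (_root_.deriv φ t) t :=
  (h.smooth.differentiable (by simp)).differentiableAt.hasDerivAt

lemma SProf.derivP (h : SProf φ C) : SProf (_root_.deriv φ) C where
  smooth := (contDiff_infty_iff_deriv.1 h.smooth).2
  one_le := h.one_le
  supp := by
    have hc : Continuous (_root_.deriv φ) := (contDiff_infty_iff_deriv.1 h.smooth).2.continuous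
    have h1 : Set.Ioi C ⊆ {t | _root_.deriv φ t = 0} := by
      intro t ht
      have h2 : φ =ᶠ[𝓝 t] fun _ => 0 := by
        filter_upwards [Ioi_mem_nhds ht] with s hs
        exact h.supp s (le_of_lt hs)
      show _root_.deriv φ t = 0
      rw [h2.deriv_eq, deriv_const]
    have h3 : IsClosed {t | _root_.deriv φ t = 0} := isClosed_eq hc continuous_const
    have h4 := closure_minimal h1 h3
    rw [closure_Ioi] at h4
    intro t ht
    exact h4 ht

/-- second derivative in the `x` direction -/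
noncomputable def kxx (φ : ℝ → ℝ) (x y : ℝ) (w : ℍ) : ℝ :=
  deriv (deriv φ) (cc x y w) * ((x - w.re) / (y * w.im)) ^ 2 + deriv φ (cc x y w) * (1 / (y * w.im))

/-- second derivative in the `y` direction -/
noncomputable def kyy (φ : ℝ → ℝ) (x y : ℝ) (w : ℍ) : ℝ :=
  deriv (deriv φ) (cc x y w) * (1 / w.im - cc x y w / y) ^ 2 +
    deriv φ (cc x y w) * (2 * cc x y w / y ^ 2 - 1 / (y * w.im))

lemma cc_continuousOn_x (y : ℝ) (hy : 0 < y) : Continuous (fun p : ℝ × ℍ => cc p.1 y p.2) := by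
  unfold cc
  refine Continuous.div ?_ ?_ ?_
  · fun_prop
  · fun_prop
  · intro p
    have := p.2.im_pos
    positivity

lemma cc_continuousOn_y (x : ℝ) : ContinuousOn (fun p : ℝ × ℍ => cc x p.1 p.2) (Set.Ioi 0 ×ˢ Set.univ) := by
  unfold cc
  refine ContinuousOn.div ?_ ?_ ?_
  · fun_prop
  · fun_prop
  · rintro p ⟨hp, _⟩
    have := p.2.im_pos
    have hp' : 0 < p.1 := hp
    positivity

variable {F : ℍ → ℂ} {B : ℝ}

lemma deriv_x (hφ : SProf φ C) (hF : Measurable F) (hB : ∀ w, ‖F w‖ ≤ B) (x y : ℝ) (hy : 0 < y) :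
    HasDerivAt (fun x => ∫ w, (φ (cc x y w) : ℂ) * F w)
      (∫ w, ((deriv φ (cc x y w) * ((x - w.re) / (y * w.im)) : ℝ) : ℂ) * F w) x := by
  have hc := cc_continuousOn_x y hy
  have hφc := hφ.smooth.continuous
  have hφc' := hφ.derivP.smooth.continuous
  refine diff_int (h := fun x w => φ (cc x y w)) (h' := fun x w => deriv φ (cc x y w) * ((x - w.re) / (y * w.im)))
    (δ := y / 2) (by positivity) (isCompact_closedBall (pt x y hy) (2 * C + 1)) ?_ ?_ ?_ ?_ ?_ hF hB
  · exact (hφc.comp hc).continuousOn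
  · refine Continuous.continuousOn ?_
    refine (hφc'.comp hc).mul (Continuous.div (by fun_prop) (by fun_prop) ?_)
    intro p
    have := p.2.im_pos
    positivity
  · intro r _ w
    exact (hφ.hasDerivAt _).comp r (cc_hasDeriv_x r y w hy)
  · intro r hr w hw
    exact cc_supp hφ.toProf hy hy (Or.inr ⟨by rw [abs_le]; constructor <;> linarith [hr.1, hr.2], rfl⟩) hw
  · intro r hr w hw
    rw [cc_supp hφ.derivP.toProf hy hy (Or.inr ⟨by rw [abs_le]; constructor <;> linarith [hr.1, hr.2], rfl⟩) hw, zero_mul]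

lemma deriv_xx (hφ : SProf φ C) (hF : Measurable F) (hB : ∀ w, ‖F w‖ ≤ B) (x y : ℝ) (hy : 0 < y) :
    HasDerivAt (fun x => ∫ w, ((deriv φ (cc x y w) * ((x - w.re) / (y * w.im)) : ℝ) : ℂ) * F w)
      (∫ w, (kxx φ x y w : ℂ) * F w) x := by
  have hc := cc_continuousOn_x y hy
  have hφc' := hφ.derivP.smooth.continuous
  have hφc'' := hφ.derivP.derivP.smooth.continuous
  refine diff_int (h := fun x w => deriv φ (cc x y w) * ((x - w.re) / (y * w.im))) (h' := fun x w => kxx φ x y w)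
    (δ := y / 2) (by positivity) (isCompact_closedBall (pt x y hy) (2 * C + 1)) ?_ ?_ ?_ ?_ ?_ hF hB
  · refine Continuous.continuousOn ?_
    refine (hφc'.comp hc).mul (Continuous.div (by fun_prop) (by fun_prop) ?_)
    intro p
    have := p.2.im_pos
    positivity
  · refine Continuous.continuousOn ?_
    unfold kxx
    refine ((hφc''.comp hc).mul ((Continuous.div (by fun_prop) (by fun_prop) ?_).pow 2)).add
      ((hφc'.comp hc).mul (Continuous.div (by fun_prop) (by fun_prop) ?_)) <;>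
    · intro p
      have := p.2.im_pos
      positivity
  · intro r _ w
    have h1 := (hφ.derivP.hasDerivAt (cc r y w)).comp r (cc_hasDeriv_x r y w hy)
    have h2 : HasDerivAt (fun r => (r - w.re) / (y * w.im)) (1 / (y * w.im)) r :=
      ((hasDerivAt_id r).sub_const w.re).div_const _
    have h3 := h1.mul h2
    refine h3.congr_deriv ?_
    unfold kxx
    simp only [Function.comp]
    ring
  · intro r hr w hw
    rw [cc_supp hφ.derivP.toProf hy hy (Or.inr ⟨by rw [abs_le]; constructor <;> linarith [hr.1, hr.2], rfl⟩) hw, zero_mul]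
  · intro r hr w hw
    simp only [kxx]
    rw [cc_supp hφ.derivP.toProf hy hy (Or.inr ⟨by rw [abs_le]; constructor <;> linarith [hr.1, hr.2], rfl⟩) hw,
      cc_supp hφ.derivP.derivP.toProf hy hy (Or.inr ⟨by rw [abs_le]; constructor <;> linarith [hr.1, hr.2], rfl⟩) hw]
    ring

lemma deriv_y (hφ : SProf φ C) (hF : Measurable F) (hB : ∀ w, ‖F w‖ ≤ B) (x y : ℝ) (hy : 0 < y) :
    HasDerivAt (fun y => ∫ w, (φ (cc x y w) : ℂ) * F w)
      (∫ w, ((deriv φ (cc x y w) * (1 / w.im - cc x y w / y) : ℝ) : ℂ) * F w) y := by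
  have hsub : Set.Icc (y - y / 2) (y + y / 2) ×ˢ (Set.univ : Set ℍ) ⊆ Set.Ioi 0 ×ˢ Set.univ :=
    Set.prod_mono_left (fun r hr => by have := hr.1; show (0 : ℝ) < r; linarith)
  have hc := (cc_continuousOn_y x).mono hsub
  have hφc := hφ.smooth.continuous
  have hφc' := hφ.derivP.smooth.continuous
  have hcoord : ContinuousOn (fun p : ℝ × ℍ => 1 / p.2.im - cc x p.1 p.2 / p.1) (Set.Icc (y - y / 2) (y + y / 2) ×ˢ (Set.univ : Set ℍ)) := by
    refine ContinuousOn.sub (ContinuousOn.div (by fun_prop) (by fun_prop) (fun p _ => p.2.im_ne_zero)) ?_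
    refine ContinuousOn.div hc (by fun_prop) (fun p hp => ?_)
    have := (hsub hp).1
    exact ne_of_gt this
  refine diff_int (h := fun y w => φ (cc x y w)) (h' := fun y w => deriv φ (cc x y w) * (1 / w.im - cc x y w / y))
    (δ := y / 2) (by positivity) (isCompact_closedBall (pt x y hy) (2 * C + 1)) ?_ ?_ ?_ ?_ ?_ hF hB
  · exact hφc.comp_continuousOn hc
  · exact (hφc'.comp_continuousOn hc).mul hcoord
  · intro r hr w
    have hr0 : 0 < r := by linarith [hr.1]
    exact (hφ.hasDerivAt _).comp r (cc_hasDeriv_y x r w hr0)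
  · intro r hr w hw
    have hr0 : 0 < r := by linarith [hr.1]
    exact cc_supp hφ.toProf hy hr0 (Or.inl ⟨rfl, by rw [abs_le]; constructor <;> linarith [hr.1, hr.2]⟩) hw
  · intro r hr w hw
    have hr0 : 0 < r := by linarith [hr.1]
    rw [cc_supp hφ.derivP.toProf hy hr0 (Or.inl ⟨rfl, by rw [abs_le]; constructor <;> linarith [hr.1, hr.2]⟩) hw, zero_mul]

lemma deriv_yy (hφ : SProf φ C) (hF : Measurable F) (hB : ∀ w, ‖F w‖ ≤ B) (x y : ℝ) (hy : 0 < y) :
    HasDerivAt (fun y => ∫ w, ((deriv φ (cc x y w) * (1 / w.im - cc x y w / y) : ℝ) : ℂ) * F w)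
      (∫ w, (kyy φ x y w : ℂ) * F w) y := by
  have hsub : Set.Icc (y - y / 2) (y + y / 2) ×ˢ (Set.univ : Set ℍ) ⊆ Set.Ioi 0 ×ˢ Set.univ :=
    Set.prod_mono_left (fun r hr => by have := hr.1; show (0 : ℝ) < r; linarith)
  have hc := (cc_continuousOn_y x).mono hsub
  have hφc' := hφ.derivP.smooth.continuous
  have hφc'' := hφ.derivP.derivP.smooth.continuous
  have hcoord : ContinuousOn (fun p : ℝ × ℍ => 1 / p.2.im - cc x p.1 p.2 / p.1) (Set.Icc (y - y / 2) (y + y / 2) ×ˢ (Set.univ : Set ℍ)) := by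
    refine ContinuousOn.sub (ContinuousOn.div (by fun_prop) (by fun_prop) (fun p _ => p.2.im_ne_zero)) ?_
    refine ContinuousOn.div hc (by fun_prop) (fun p hp => ?_)
    have := (hsub hp).1
    exact ne_of_gt this
  refine diff_int (h := fun y w => deriv φ (cc x y w) * (1 / w.im - cc x y w / y)) (h' := fun y w => kyy φ x y w)
    (δ := y / 2) (by positivity) (isCompact_closedBall (pt x y hy) (2 * C + 1)) ?_ ?_ ?_ ?_ ?_ hF hB
  · exact (hφc'.comp_continuousOn hc).mul hcoord
  · unfold kyy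
    refine ((hφc''.comp_continuousOn hc).mul (hcoord.pow 2)).add ((hφc'.comp_continuousOn hc).mul ?_)
    refine ContinuousOn.sub (ContinuousOn.div (ContinuousOn.mul continuousOn_const hc) (by fun_prop) (fun p hp => ?_))
      (ContinuousOn.div (by fun_prop) (by fun_prop) (fun p hp => ?_))
    · have : (0 : ℝ) < p.1 := (hsub hp).1
      positivity
    · have h1 : (0 : ℝ) < p.1 := (hsub hp).1
      have h2 := p.2.im_pos
      positivity
  · intro r hr w
    have hr0 : 0 < r := by linarith [hr.1]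
    have hv := w.im_pos
    have h1 := (hφ.derivP.hasDerivAt (cc x r w)).comp r (cc_hasDeriv_y x r w hr0)
    have h2 : HasDerivAt (fun r => 1 / w.im - cc x r w / r) (2 * cc x r w / r ^ 2 - 1 / (r * w.im)) r := by
      have h4 := ((cc_hasDeriv_y x r w hr0).div (hasDerivAt_id r) hr0.ne').const_sub (1 / w.im)
      refine h4.congr_deriv ?_
      simp only [id]
      field_simp
      ring
    have h3 := h1.mul h2
    refine h3.congr_deriv ?_
    unfold kyy
    simp only [Function.comp]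
    ring
  · intro r hr w hw
    have hr0 : 0 < r := by linarith [hr.1]
    rw [cc_supp hφ.derivP.toProf hy hr0 (Or.inl ⟨rfl, by rw [abs_le]; constructor <;> linarith [hr.1, hr.2]⟩) hw, zero_mul]
  · intro r hr w hw
    have hr0 : 0 < r := by linarith [hr.1]
    simp only [kyy]
    rw [cc_supp hφ.derivP.toProf hy hr0 (Or.inl ⟨rfl, by rw [abs_le]; constructor <;> linarith [hr.1, hr.2]⟩) hw,
      cc_supp hφ.derivP.derivP.toProf hy hr0 (Or.inl ⟨rfl, by rw [abs_le]; constructor <;> linarith [hr.1, hr.2]⟩) hw]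
    ring

/-- The radial part of the Laplacian. -/
noncomputable def Lap (φ : ℝ → ℝ) (t : ℝ) : ℝ := (t ^ 2 - 1) * deriv (deriv φ) t + 2 * t * deriv φ t

lemma SProf.lap (h : SProf φ C) : SProf (Lap φ) C where
  smooth := by
    have h1 := h.derivP.smooth
    have h2 := h.derivP.derivP.smooth
    unfold Lap
    fun_prop
  one_le := h.one_le
  supp := by
    intro t ht
    unfold Lap
    rw [h.derivP.supp t ht, h.derivP.derivP.supp t ht]; ring

lemma lap_identity (x y : ℝ) (hy : 0 < y) (w : ℍ) :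
    y ^ 2 * (kxx φ x y w + kyy φ x y w) = Lap φ (cc x y w) := by
  have hv := w.im_pos
  set c := cc x y w with hc
  have hcc : (x - w.re) ^ 2 = 2 * y * w.im * c - y ^ 2 - w.im ^ 2 := by
    rw [hc, cc]; field_simp; ring
  unfold kxx kyy Lap
  rw [← hc]
  have e1 : y ^ 2 * (((x - w.re) / (y * w.im)) ^ 2 + (1 / w.im - c / y) ^ 2) = c ^ 2 - 1 := by
    rw [div_pow, hcc]
    field_simp
    ring
  have e2 : y ^ 2 * ((1 / (y * w.im)) + (2 * c / y ^ 2 - 1 / (y * w.im))) = 2 * c := by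
    field_simp
    ring
  linear_combination (deriv (deriv φ) c) * e1 + (deriv φ c) * e2

/-- the extension of a function on `ℍ` to `ℂ` -/
noncomputable def ext (F : ℍ → ℂ) (z : ℂ) : ℂ := F (ofComplex z)

lemma ext_pt (F : ℍ → ℂ) (x y : ℝ) (hy : 0 < y) : ext F ⟨x, y⟩ = F (pt x y hy) := by
  unfold ext
  rw [ofComplex_apply_of_im_pos (z := (⟨x, y⟩ : ℂ)) hy]
  rfl

lemma TK_pt (φ : ℝ → ℝ) (F : ℍ → ℂ) (x y : ℝ) (hy : 0 < y) :
    TK φ F (pt x y hy) = ∫ w, (φ (cc x y w) : ℂ) * F w := by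
  unfold TK kk
  simp only [cosh_pt]

lemma int_of_compact {g : ℍ → ℝ} (hg : Continuous g) {K : Set ℍ} (hK : IsCompact K) (hs : ∀ w, w ∉ K → g w = 0)
    (hF : Measurable F) (hB : ∀ w, ‖F w‖ ≤ B) : Integrable (fun w => (g w : ℂ) * F w) := by
  obtain ⟨A, hA⟩ := hK.exists_bound_of_continuousOn hg.continuousOn
  have h1 : Integrable (K.indicator (fun _ : ℍ => A * B)) := by
    rw [integrable_indicator_iff hK.measurableSet]
    exact integrableOn_const hK.measure_lt_top.ne
  refine h1.mono' ((Complex.continuous_ofReal.comp hg).measurable.mul hF).aestronglyMeasurable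
    (Eventually.of_forall (fun w => ?_))
  by_cases hw : w ∈ K
  · rw [Set.indicator_of_mem hw, norm_mul, Complex.norm_real]
    have h1 := hA w hw
    exact mul_le_mul h1 (hB w) (norm_nonneg _) ((norm_nonneg _).trans h1)
  · rw [Set.indicator_of_notMem hw, hs w hw]; simp

lemma cc_cont (x y : ℝ) (hy : 0 < y) : Continuous (fun w => cc x y w) := by
  unfold cc
  refine Continuous.div (by fun_prop) (by fun_prop) (fun w => ?_)
  have := w.im_pos
  positivity

lemma kxx_integrable (hφ : SProf φ C) (hF : Measurable F) (hB : ∀ w, ‖F w‖ ≤ B) (x y : ℝ) (hy : 0 < y) :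
    Integrable (fun w => (kxx φ x y w : ℂ) * F w) := by
  have hc := cc_cont x y hy
  have hφc' := hφ.derivP.smooth.continuous
  have hφc'' := hφ.derivP.derivP.smooth.continuous
  refine int_of_compact ?_ (isCompact_closedBall (pt x y hy) (2 * C + 1)) ?_ hF hB
  · unfold kxx
    refine ((hφc''.comp hc).mul ((Continuous.div (by fun_prop) (by fun_prop) ?_).pow 2)).add
      ((hφc'.comp hc).mul (Continuous.div (by fun_prop) (by fun_prop) ?_)) <;>
    · intro p
      have := p.im_pos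
      positivity
  · intro w hw
    rw [kxx, cc_supp hφ.derivP.toProf hy hy (Or.inl ⟨rfl, by simp; positivity⟩) hw,
      cc_supp hφ.derivP.derivP.toProf hy hy (Or.inl ⟨rfl, by simp; positivity⟩) hw]
    ring

lemma kyy_integrable (hφ : SProf φ C) (hF : Measurable F) (hB : ∀ w, ‖F w‖ ≤ B) (x y : ℝ) (hy : 0 < y) :
    Integrable (fun w => (kyy φ x y w : ℂ) * F w) := by
  have hc := cc_cont x y hy
  have hφc' := hφ.derivP.smooth.continuous
  have hφc'' := hφ.derivP.derivP.smooth.continuous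
  refine int_of_compact ?_ (isCompact_closedBall (pt x y hy) (2 * C + 1)) ?_ hF hB
  · unfold kyy
    refine ((hφc''.comp hc).mul (((Continuous.div (by fun_prop) (by fun_prop) ?_).sub (hc.div_const y)).pow 2)).add
      ((hφc'.comp hc).mul (((continuous_const.mul hc).div_const _).sub (Continuous.div (by fun_prop) (by fun_prop) ?_)))
    · intro p
      have := p.im_pos
      positivity
    · intro p
      have := p.im_pos
      positivity
  · intro w hw
    rw [kyy, cc_supp hφ.derivP.toProf hy hy (Or.inl ⟨rfl, by simp; positivity⟩) hw,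
      cc_supp hφ.derivP.derivP.toProf hy hy (Or.inl ⟨rfl, by simp; positivity⟩) hw]
    ring

/-- The Laplacian of `T_k F`. -/
theorem laplacian_TK (hφ : SProf φ C) (hF : Measurable F) (hB : ∀ w, ‖F w‖ ≤ B) (z : ℂ) (hz : 0 < z.im) :
    (z.im : ℂ) ^ 2 * (deriv (deriv (fun t : ℝ => ext (TK φ F) (z + (t : ℂ)))) 0 +
      deriv (deriv (fun t : ℝ => ext (TK φ F) (z + (t : ℂ) * Complex.I))) 0) = ext (TK (Lap φ) F) z := by
  obtain ⟨x, y⟩ := z
  have hy : 0 < y := hz
  have e1 : (fun t : ℝ => ext (TK φ F) ((⟨x, y⟩ : ℂ) + (t : ℂ))) = fun t : ℝ => ∫ w, (φ (cc (x + t) y w) : ℂ) * F w := by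
    funext t
    have : (⟨x, y⟩ : ℂ) + (t : ℂ) = ⟨x + t, y⟩ := by apply Complex.ext <;> simp
    rw [this, ext_pt _ _ _ hy, TK_pt]
  have e2 : deriv (fun t : ℝ => ext (TK φ F) ((⟨x, y⟩ : ℂ) + (t : ℂ))) = fun t : ℝ =>
      ∫ w, ((deriv φ (cc (x + t) y w) * (((x + t) - w.re) / (y * w.im)) : ℝ) : ℂ) * F w := by
    rw [e1]
    funext t
    exact ((deriv_x hφ hF hB (x + t) y hy).comp_const_add x t).deriv
  have e3 : deriv (deriv (fun t : ℝ => ext (TK φ F) ((⟨x, y⟩ : ℂ) + (t : ℂ)))) 0 = ∫ w, (kxx φ x y w : ℂ) * F w := by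
    rw [e2]
    have := ((deriv_xx hφ hF hB (x + 0) y hy).comp_const_add x 0).deriv
    rw [add_zero] at this
    exact this
  have e4 : ∀ t : ℝ, -y < t → ext (TK φ F) ((⟨x, y⟩ : ℂ) + (t : ℂ) * Complex.I) = ∫ w, (φ (cc x (y + t) w) : ℂ) * F w := by
    intro t ht
    have h1 : (⟨x, y⟩ : ℂ) + (t : ℂ) * Complex.I = ⟨x, y + t⟩ := by apply Complex.ext <;> simp
    have h2 : 0 < y + t := by linarith
    rw [h1, ext_pt _ _ _ h2, TK_pt]
  have e5 : ∀ t : ℝ, -y < t → deriv (fun t : ℝ => ext (TK φ F) ((⟨x, y⟩ : ℂ) + (t : ℂ) * Complex.I)) t =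
      ∫ w, ((deriv φ (cc x (y + t) w) * (1 / w.im - cc x (y + t) w / (y + t)) : ℝ) : ℂ) * F w := by
    intro t ht
    have h2 : 0 < y + t := by linarith
    have h3 : (fun t : ℝ => ext (TK φ F) ((⟨x, y⟩ : ℂ) + (t : ℂ) * Complex.I)) =ᶠ[𝓝 t] fun t => ∫ w, (φ (cc x (y + t) w) : ℂ) * F w := by
      filter_upwards [Ioi_mem_nhds ht] with s hs
      exact e4 s hs
    rw [h3.deriv_eq]
    exact ((deriv_y hφ hF hB x (y + t) h2).comp_const_add y t).deriv
  have e6 : deriv (deriv (fun t : ℝ => ext (TK φ F) ((⟨x, y⟩ : ℂ) + (t : ℂ) * Complex.I))) 0 = ∫ w, (kyy φ x y w : ℂ) * F w := by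
    have h3 : deriv (fun t : ℝ => ext (TK φ F) ((⟨x, y⟩ : ℂ) + (t : ℂ) * Complex.I)) =ᶠ[𝓝 0]
        fun t => ∫ w, ((deriv φ (cc x (y + t) w) * (1 / w.im - cc x (y + t) w / (y + t)) : ℝ) : ℂ) * F w := by
      filter_upwards [Ioi_mem_nhds (show -y < (0 : ℝ) by linarith)] with s hs
      exact e5 s hs
    rw [h3.deriv_eq]
    have := ((deriv_yy hφ hF hB x (y + 0) (by simpa using hy)).comp_const_add y 0).deriv
    rw [add_zero] at this
    exact this
  rw [e3, e6, ext_pt _ _ _ hy, TK_pt]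
  rw [← integral_add (kxx_integrable hφ hF hB x y hy) (kyy_integrable hφ hF hB x y hy), ← integral_const_mul]
  refine integral_congr_ae (Eventually.of_forall (fun w => ?_))
  simp only
  rw [← lap_identity x y hy w]
  push_cast
  ring

section smooth

/-- integrals over `ℍ` as integrals over `ℂ` -/
lemma integral_ℍ (G : ℍ → ℂ) :
    ∫ w, G w = ∫ t : ℂ in {t : ℂ | 0 < t.im}, ((1 / t.im ^ 2 : ℝ) : ℂ) * G (ofComplex t) := by
  rw [volume_def, integral_withDensity_eq_integral_smul]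
  · have hmp : MeasurePreserving UpperHalfPlane.coe (volume.comap UpperHalfPlane.coe)
      (volume.restrict (.range UpperHalfPlane.coe)) :=
      ⟨measurable_coe, by rw [measurableEmbedding_coe.map_comap]⟩
    have hr : Set.range UpperHalfPlane.coe = {t : ℂ | 0 < t.im} := by
      ext t
      constructor
      · rintro ⟨z, rfl⟩; exact z.im_pos
      · intro ht; exact ⟨⟨t, ht⟩, rfl⟩
    rw [hr] at hmp
    rw [← hmp.integral_comp measurableEmbedding_coe]
    refine integral_congr_ae (Eventually.of_forall (fun z => ?_))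
    simp only [ofComplex_apply]
    rw [NNReal.smul_def, Complex.real_smul]
    congr 2
    push_cast
    rw [div_pow, one_pow]
    rfl
  · refine Measurable.pow_const ?_ 2
    refine Measurable.div measurable_const ?_
    exact (UpperHalfPlane.continuous_im.measurable).subtype_mk


/-- the kernel in Euclidean coordinates -/
noncomputable def GG (ψ : ℝ → ℝ) (z t : ℂ) : ℝ :=
  if 0 < t.im then ψ (((z.re - t.re) ^ 2 + z.im ^ 2 + t.im ^ 2) / (2 * z.im * t.im)) / t.im ^ 2 else 0

lemma GG_smooth (hs : ContDiff ℝ (⊤ : ℕ∞) ψ) (hC : 1 ≤ C) (hsupp : ∀ t, C ≤ t → ψ t = 0) :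
    ContDiffOn ℝ (⊤ : ℕ∞) (fun p : ℂ × ℂ => GG ψ p.1 p.2) ({z : ℂ | 0 < z.im} ×ˢ Set.univ) := by
  rintro ⟨z, t⟩ ⟨hz, _⟩
  have hz' : 0 < z.im := hz
  apply ContDiffAt.contDiffWithinAt
  rcases lt_or_ge 0 t.im with ht | ht
  · have h1 : (fun p : ℂ × ℂ => GG ψ p.1 p.2) =ᶠ[𝓝 (z, t)] fun p =>
        ψ (((p.1.re - p.2.re) ^ 2 + p.1.im ^ 2 + p.2.im ^ 2) / (2 * p.1.im * p.2.im)) / p.2.im ^ 2 := by
      have : {p : ℂ × ℂ | 0 < p.2.im} ∈ 𝓝 (z, t) :=
        (isOpen_lt continuous_const (by fun_prop)).mem_nhds ht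
      filter_upwards [this] with p hp
      have hp' : 0 < p.2.im := hp
      rw [GG, if_pos hp']
    refine ContDiffAt.congr_of_eventuallyEq ?_ h1
    have hre : ContDiff ℝ (⊤ : ℕ∞) Complex.re := Complex.reCLM.contDiff
    have him : ContDiff ℝ (⊤ : ℕ∞) Complex.im := Complex.imCLM.contDiff
    have h2 : ContDiffAt ℝ (⊤ : ℕ∞) (fun p : ℂ × ℂ => ((p.1.re - p.2.re) ^ 2 + p.1.im ^ 2 + p.2.im ^ 2) / (2 * p.1.im * p.2.im)) (z, t) := by
      refine ContDiffAt.div ?_ ?_ ?_
      · exact ContDiff.contDiffAt (by fun_prop)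
      · exact ContDiff.contDiffAt (by fun_prop)
      · positivity
    refine ContDiffAt.div (hs.contDiffAt.comp (z, t) h2) (ContDiff.contDiffAt (by fun_prop)) (by positivity)
  · have h1 : (fun p : ℂ × ℂ => GG ψ p.1 p.2) =ᶠ[𝓝 (z, t)] fun _ => 0 := by
      have h2 : {p : ℂ × ℂ | 2 * C * p.2.im < p.1.im} ∈ 𝓝 (z, t) := by
        refine (isOpen_lt (by fun_prop) (by fun_prop)).mem_nhds ?_
        show 2 * C * t.im < z.im
        nlinarith
      have h3 : {p : ℂ × ℂ | 0 < p.1.im} ∈ 𝓝 (z, t) :=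
        (isOpen_lt continuous_const (by fun_prop)).mem_nhds hz'
      filter_upwards [h2, h3] with p hp hp1
      have hp' : 2 * C * p.2.im < p.1.im := hp
      have hp1' : 0 < p.1.im := hp1
      unfold GG
      split_ifs with h
      · rw [hsupp, zero_div]
        rw [le_div_iff₀ (by positivity)]
        nlinarith [sq_nonneg (p.1.re - p.2.re), sq_nonneg p.2.im, mul_pos hp1' h]
      · rfl
    exact contDiffAt_const.congr_of_eventuallyEq h1

lemma TK_eq_GG (F : ℍ → ℂ) (z : ℂ) (hz : 0 < z.im) :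
    ext (TK ψ F) z = ∫ t : ℂ, GG ψ z t • (({t : ℂ | 0 < t.im}).indicator (fun t => F (ofComplex t)) t) := by
  obtain ⟨x, y⟩ := z
  have hy : 0 < y := hz
  rw [ext_pt _ _ _ hy, TK_pt, integral_ℍ, ← integral_indicator (measurableSet_lt measurable_const Complex.measurable_im)]
  refine integral_congr_ae (Eventually.of_forall (fun t => ?_))
  by_cases ht : 0 < t.im
  · simp only
    rw [Set.indicator_of_mem (show t ∈ {t : ℂ | 0 < t.im} from ht),
      Set.indicator_of_mem (show t ∈ {t : ℂ | 0 < t.im} from ht), GG, if_pos ht, cc]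
    have e1 : (ofComplex t).re = t.re := by rw [ofComplex_apply_of_im_pos ht]; rfl
    have e2 : (ofComplex t).im = t.im := by rw [ofComplex_apply_of_im_pos ht]; rfl
    rw [e1, e2, Complex.real_smul]
    push_cast
    ring
  · simp only
    rw [Set.indicator_of_notMem (show t ∉ {t : ℂ | 0 < t.im} from ht),
      Set.indicator_of_notMem (show t ∉ {t : ℂ | 0 < t.im} from ht), smul_zero]

theorem smooth_TK (hψ : SProf ψ C) (hF : Measurable F) (hB : ∀ w, ‖F w‖ ≤ B) :
    ContDiffOn ℝ (⊤ : ℕ∞) (ext (TK ψ F)) {z : ℂ | 0 < z.im} := by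
  intro z0 hz0
  have hz0' : 0 < z0.im := hz0
  apply ContDiffAt.contDiffWithinAt
  -- a bounded neighbourhood
  obtain ⟨R, hR⟩ : ∃ R : ℝ, ‖z0‖ < R := ⟨‖z0‖ + 1, by linarith⟩
  set s : Set ℂ := {z : ℂ | 0 < z.im ∧ ‖z‖ < R} with hs
  have hsopen : IsOpen s := (isOpen_lt continuous_const Complex.continuous_im).inter (isOpen_lt continuous_norm continuous_const)
  have hzs : z0 ∈ s := ⟨hz0', hR⟩
  have hR0 : 0 < R := (norm_nonneg _).trans_lt hR
  have hC := hψ.one_le
  set f : ℂ → ℂ := ({t : ℂ | 0 < t.im}).indicator (fun t => F (ofComplex t)) with hf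
  have hfm : Measurable f := by
    have h1 := measurableEmbedding_coe.measurable_extend hF (measurable_const (a := (0 : ℂ)))
    have h2 : f = Function.extend UpperHalfPlane.coe F (fun _ => 0) := by
      funext t
      by_cases ht : 0 < t.im
      · rw [hf, Set.indicator_of_mem (show t ∈ {t : ℂ | 0 < t.im} from ht), ofComplex_apply_of_im_pos ht]
        exact (measurableEmbedding_coe.injective.extend_apply F _ (⟨t, ht⟩ : ℍ)).symm
      · rw [hf, Set.indicator_of_notMem (show t ∉ {t : ℂ | 0 < t.im} from ht), Function.extend_apply']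
        rintro ⟨z, rfl⟩
        exact ht z.im_pos
    rw [h2]
    exact h1
  have hB0 : 0 ≤ B := (norm_nonneg _).trans (hB I)
  have hfl : LocallyIntegrable f := by
    refine (locallyIntegrable_const (B : ℂ)).mono hfm.aestronglyMeasurable (Eventually.of_forall (fun t => ?_))
    rw [Complex.norm_real, Real.norm_of_nonneg hB0, hf]
    refine (norm_indicator_le_norm_self _ _).trans (hB _)
  let g : ℂ → ℂ → ℝ := fun z t => GG ψ z (-t)
  have hg : ContDiffOn ℝ (⊤ : ℕ∞) (↿g) (s ×ˢ Set.univ) := by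
    have h1 := GG_smooth hψ.smooth hψ.one_le hψ.supp
    refine h1.comp (g := fun p : ℂ × ℂ => GG ψ p.1 p.2) (f := fun p : ℂ × ℂ => (p.1, -p.2)) ?_ ?_
    · exact ContDiff.contDiffOn (by fun_prop)
    · rintro p ⟨hp, _⟩
      exact ⟨hp.1, trivial⟩
  have hsupp : ∀ p, ∀ x, p ∈ s → x ∉ Metric.closedBall (0 : ℂ) (6 * C * R) → g p x = 0 := by
    intro p x hp hx
    show GG ψ p (-x) = 0
    set t := -x with ht
    have hxt : ‖t‖ = ‖x‖ := norm_neg x
    rw [mem_closedBall_zero_iff, ← hxt, not_le] at hx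
    obtain ⟨hp1, hp2⟩ := hp
    unfold GG
    split_ifs with h
    · rw [hψ.supp, zero_div]
      by_contra hcon
      rw [not_le, div_lt_iff₀ (by positivity)] at hcon
      have hpim : p.im ≤ R := (Complex.im_le_norm p).trans hp2.le
      have hpre : |p.re| ≤ R := (Complex.abs_re_le_norm p).trans hp2.le
      have h1 : t.im < 2 * C * p.im := by
        have : t.im * t.im < (2 * C * p.im) * t.im := by
          nlinarith [sq_nonneg (p.re - t.re), sq_nonneg p.im]
        exact lt_of_mul_lt_mul_right this h.le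
      have h1' : t.im ≤ 2 * C * R := by nlinarith
      have h2 : (p.re - t.re) ^ 2 ≤ (2 * C * R) ^ 2 := by
        have h3 : (p.re - t.re) ^ 2 ≤ C * (2 * p.im * t.im) := by
          nlinarith [sq_nonneg t.im, sq_nonneg p.im]
        have h4 : p.im * t.im ≤ R * (2 * C * R) := mul_le_mul hpim h1' h.le hR0.le
        nlinarith
      have h3 : |p.re - t.re| ≤ 2 * C * R := abs_le_of_sq_le_sq h2 (by positivity)
      have h4 : |t.re| ≤ R + 2 * C * R := by
        calc |t.re| = |p.re - (p.re - t.re)| := by congr 1; ring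
          _ ≤ |p.re| + |p.re - t.re| := abs_sub _ _
          _ ≤ _ := add_le_add hpre h3
      have h5 : ‖t‖ ≤ |t.re| + |t.im| := Complex.norm_le_abs_re_add_abs_im t
      rw [abs_of_pos h] at h5
      nlinarith
    · rfl
  have key := contDiffOn_convolution_right_with_param_comp (n := ⊤) (μ := (volume : Measure ℂ))
    ((ContinuousLinearMap.lsmul ℝ ℝ).flip : ℂ →L[ℝ] ℝ →L[ℝ] ℂ) (v := fun _ : ℂ => (0 : ℂ)) (s := s)
    contDiffOn_const (f := f) (g := g) hsopen (isCompact_closedBall (0 : ℂ) (6 * C * R)) hsupp hfl hg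
  have heq : ∀ z ∈ s, ext (TK ψ F) z = convolution f (g z) ((ContinuousLinearMap.lsmul ℝ ℝ).flip : ℂ →L[ℝ] ℝ →L[ℝ] ℂ) (volume : Measure ℂ) 0 := by
    intro z hz
    rw [TK_eq_GG F z hz.1, convolution]
    refine integral_congr_ae (Eventually.of_forall (fun t => ?_))
    simp [g, hf]
  refine (key.contDiffAt (hsopen.mem_nhds hzs)).congr_of_eventuallyEq ?_
  filter_upwards [hsopen.mem_nhds hzs] with z hz
  exact heq z hz

end smooth

end Q276.OM
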