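import Pool.Agent.Q276.OM.Tw2

/-!
# The twisted L-function: entire continuation and functional equation with sign `-1`
-/

set_option autoImplicit false

open MeasureTheory Filter Topology Set

namespace Q276.OM

variable {q : ℕ} [NeZero q] {χ : DirichletCharacter ℂ q}
variable {f : ℂ → ℂ} {Λ : ℂ} {c : ℕ → ℂ}

/-- The conclusion for the Dirichlet series with coefficients `a`: entire continuation, completed function with
conductor parameter `Q` and Gamma factors with shifts `δ ± ν`, and sign `-1`. -/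
def Concl (a : ℕ → ℂ) (Q : ℝ) (δ ν : ℂ) : Prop :=
  ∃ L Ξ : ℂ → ℂ, Differentiable ℂ L ∧ Differentiable ℂ Ξ ∧
    (∀ s : ℂ, 3 / 2 < s.re → LSeriesSummable a s ∧ L s = LSeries a s) ∧
    (∀ s : ℂ, Complex.Gamma ((s + δ + ν) / 2) ≠ 0 → Complex.Gamma ((s + δ - ν) / 2) ≠ 0 →
      Ξ s = (Q : ℂ) ^ s * (Complex.Gamma ((s + δ + ν) / 2) * Complex.Gamma ((s + δ - ν) / 2)) * L s) ∧
    (∀ s : ℂ, Ξ (1 - s) = - Ξ s) ∧ L (1 / 2) = 0

lemma finish {H : ℝ → ℂ} {K : ℂ} (hK : K ≠ 0) {ν δ : ℂ} {a : ℕ → ℂ} {Q : ℝ} (hQ : 0 < Q)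
    (hH : Differentiable ℂ (mellin H)) (hodd : ∀ s, mellin H (-s) = - mellin H s)
    (hS : ∀ s : ℂ, 3 / 2 < s.re → LSeriesSummable a s)
    (hΓ : ∀ s : ℂ, 3 / 2 < s.re → Complex.Gamma ((s + δ + ν) / 2) ≠ 0 ∧ Complex.Gamma ((s + δ - ν) / 2) ≠ 0)
    (hM : ∀ s : ℂ, 3 / 2 < s.re → mellin H (s - 1 / 2) =
      K * ((Q : ℂ) ^ s * (Complex.Gamma ((s + δ + ν) / 2) * Complex.Gamma ((s + δ - ν) / 2)) * LSeries a s)) :
    Concl a Q δ ν := by
  have hQ' : (Q : ℂ) ≠ 0 := by exact_mod_cast hQ.ne'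
  have hpow : ∀ s : ℂ, (Q : ℂ) ^ s ≠ 0 := by
    intro s
    rw [Complex.cpow_def_of_ne_zero hQ']; exact Complex.exp_ne_zero _
  refine ⟨fun s => K⁻¹ * mellin H (s - 1 / 2) * ((Q : ℂ) ^ s)⁻¹ *
    ((Complex.Gamma ((s + δ + ν) / 2))⁻¹ * (Complex.Gamma ((s + δ - ν) / 2))⁻¹), fun s => K⁻¹ * mellin H (s - 1 / 2), ?_, ?_, ?_, ?_, ?_, ?_⟩
  · have h1 : Differentiable ℂ fun s : ℂ => mellin H (s - 1 / 2) := hH.comp (by fun_prop)
    have h2 : Differentiable ℂ fun s : ℂ => (Complex.Gamma ((s + δ + ν) / 2))⁻¹ :=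
      Complex.differentiable_one_div_Gamma.comp (f := fun s : ℂ => (s + δ + ν) / 2) (by fun_prop)
    have h3 : Differentiable ℂ fun s : ℂ => (Complex.Gamma ((s + δ - ν) / 2))⁻¹ :=
      Complex.differentiable_one_div_Gamma.comp (f := fun s : ℂ => (s + δ - ν) / 2) (by fun_prop)
    have h4 : Differentiable ℂ fun s : ℂ => ((Q : ℂ) ^ s)⁻¹ := by
      intro s
      exact (DifferentiableAt.const_cpow differentiableAt_id (Or.inl hQ')).inv (hpow s)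
    exact ((h1.const_mul K⁻¹).mul h4).mul (h2.mul h3)
  · have h1 : Differentiable ℂ fun s : ℂ => mellin H (s - 1 / 2) := hH.comp (by fun_prop)
    exact h1.const_mul K⁻¹
  · intro s hs
    refine ⟨hS s hs, ?_⟩
    obtain ⟨g1, g2⟩ := hΓ s hs
    simp only
    rw [hM s hs]
    generalize Complex.Gamma ((s + δ + ν) / 2) = A at g1 ⊢
    generalize Complex.Gamma ((s + δ - ν) / 2) = B at g2 ⊢
    have g3 := hpow s
    generalize (Q : ℂ) ^ s = E at g3 ⊢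
    field_simp
  · intro s g1 g2
    simp only
    generalize Complex.Gamma ((s + δ + ν) / 2) = A at g1 ⊢
    generalize Complex.Gamma ((s + δ - ν) / 2) = B at g2 ⊢
    have g3 := hpow s
    generalize (Q : ℂ) ^ s = E at g3 ⊢
    field_simp
  · intro s
    simp only
    have : (1 : ℂ) - s - 1 / 2 = -(s - 1 / 2) := by ring
    rw [this, hodd]; ring
  · simp only
    have h1 : mellin H 0 = 0 := by
      have := hodd 0
      rw [neg_zero] at this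
      linear_combination this / 2
    rw [sub_self, h1]
    ring

lemma sqrt_cpow (n : ℕ) : ((Real.sqrt n : ℝ) : ℂ) = (n : ℂ) ^ (1 / 2 : ℂ) := by
  rw [Real.sqrt_eq_rpow, Complex.ofReal_cpow (Nat.cast_nonneg n)]
  push_cast
  rfl

lemma sqrtc_ne {n : ℕ} (hn : 0 < n) : ((Real.sqrt n : ℝ) : ℂ) ≠ 0 := by
  have : (0:ℝ) < n := by exact_mod_cast hn
  exact_mod_cast (Real.sqrt_pos.2 this).ne'

lemma sqrtc_mul (n : ℕ) : ((Real.sqrt n : ℝ) : ℂ) * ((Real.sqrt n : ℝ) : ℂ) = n := by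
  rw [← Complex.ofReal_mul, Real.mul_self_sqrt (Nat.cast_nonneg n)]
  simp

lemma term_odd {n : ℕ} (hn : 0 < n) (s x : ℂ) : x / n * (n : ℂ) ^ (-(s - 1 / 2)) = x / ((Real.sqrt n : ℝ) : ℂ) / (n : ℂ) ^ s := by
  have hn' : (n : ℂ) ≠ 0 := by exact_mod_cast hn.ne'
  have e1 : -(s - 1 / 2) = -s + 1 / 2 := by ring
  rw [e1, Complex.cpow_add _ _ hn', Complex.cpow_neg, ← sqrt_cpow]
  have h1 := sqrtc_ne hn
  have h2 := sqrtc_mul n
  have h3 : (n : ℂ) ^ s ≠ 0 := by rw [Complex.cpow_def_of_ne_zero hn']; exact Complex.exp_ne_zero _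
  generalize (n : ℂ) ^ s = E at h3 ⊢
  rw [← h2]
  generalize ((Real.sqrt n : ℝ) : ℂ) = r at h1 ⊢
  field_simp

lemma term_even {n : ℕ} (hn : 0 < n) (s x : ℂ) : x * (n : ℂ) ^ (-(s + 1 / 2)) = x / ((Real.sqrt n : ℝ) : ℂ) / (n : ℂ) ^ s := by
  have hn' : (n : ℂ) ≠ 0 := by exact_mod_cast hn.ne'
  have e1 : -(s + 1 / 2) = -s + -(1 / 2) := by ring
  rw [e1, Complex.cpow_add _ _ hn', Complex.cpow_neg, Complex.cpow_neg, ← sqrt_cpow]
  have h1 := sqrtc_ne hn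
  have h3 : (n : ℂ) ^ s ≠ 0 := by rw [Complex.cpow_def_of_ne_zero hn']; exact Complex.exp_ne_zero _
  generalize (n : ℂ) ^ s = E at h3 ⊢
  generalize ((Real.sqrt n : ℝ) : ℂ) = r at h1 ⊢
  field_simp

/-- the normalised coefficients of the twist -/
noncomputable def tc (c : ℕ → ℂ) (χ : DirichletCharacter ℂ q) (n : ℕ) : ℂ := c n / ((Real.sqrt n : ℝ) : ℂ) * χ n

lemma chi_norm (n : ZMod q) : ‖χ n‖ ≤ 1 := DirichletCharacter.norm_le_one χ n

lemma MF.summable_tc (h : MF f Λ c) {s : ℂ} (hs : 3 / 2 < s.re) : LSeriesSummable (tc c χ) s := by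
  obtain ⟨C, hC0, hC⟩ := h.c_bound
  refine LSeriesSummable_of_le_const_mul_rpow (x := 3 / 2) hs ⟨C, fun n hn => ?_⟩
  have hn0 : 0 < n := Nat.pos_of_ne_zero hn
  have hn' : (0:ℝ) < n := by exact_mod_cast hn0
  unfold tc
  rw [norm_mul, norm_div, Complex.norm_real, Real.norm_of_nonneg (Real.sqrt_nonneg _)]
  have h1 := hC n hn0
  have h2 := chi_norm (χ := χ) (n : ZMod q)
  have hs0 : 0 < Real.sqrt n := Real.sqrt_pos.2 hn'
  have h3 : ‖c n‖ / Real.sqrt n ≤ C * Real.sqrt n := by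
    rw [div_le_iff₀ hs0, mul_assoc, Real.mul_self_sqrt hn'.le]
    exact h1
  have h4 : Real.sqrt n = (n : ℝ) ^ (3 / 2 - 1 : ℝ) := by
    rw [Real.sqrt_eq_rpow]; norm_num
  calc ‖c n‖ / Real.sqrt n * ‖χ n‖ ≤ (C * Real.sqrt n) * 1 := by gcongr
    _ = C * (n : ℝ) ^ (3 / 2 - 1 : ℝ) := by rw [mul_one, h4]

lemma pow_simp (s : ℂ) : (2 * Real.pi : ℂ) ^ (-s) * (2 : ℂ) ^ s = (Real.pi : ℂ) ^ (-s) := by
  have hpi : (2 * Real.pi : ℝ) = 2 * Real.pi := rfl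
  have h1 : (2 * Real.pi : ℂ) ^ (-s) = (2 : ℂ) ^ (-s) * (Real.pi : ℂ) ^ (-s) := by
    have := Complex.mul_cpow_ofReal_nonneg (a := 2) (b := Real.pi) (by norm_num) Real.pi_pos.le (-s)
    push_cast at this
    exact this
  have h2 : (2 : ℂ) ^ (-s) * (2 : ℂ) ^ s = 1 := by
    rw [← Complex.cpow_add _ _ two_ne_zero, neg_add_cancel, Complex.cpow_zero]
  rw [h1]
  linear_combination (Real.pi : ℂ) ^ (-s) * h2

lemma Q_pow (hq : (0 : ℝ) < q) (s : ℂ) : (((q / Real.pi : ℝ) : ℝ) : ℂ) ^ s = (q : ℂ) ^ s * (Real.pi : ℂ) ^ (-s) := by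
  have h1 : ((q / Real.pi : ℝ) : ℂ) = ((q : ℝ) : ℂ) * ((Real.pi⁻¹ : ℝ) : ℂ) := by push_cast; rw [div_eq_mul_inv]
  rw [h1, Complex.mul_cpow_ofReal_nonneg hq.le (inv_pos.2 Real.pi_pos).le, Complex.ofReal_inv, Complex.inv_cpow _ _ (by
    rw [Complex.arg_ofReal_of_nonneg Real.pi_pos.le]; exact Real.pi_pos.ne), Complex.cpow_neg]
  push_cast
  rfl

end Q276.OM
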