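import Pool.Agent.Q276.OM.Lap
import Pool.Agent.Q276.OM.Hecke

/-!
# Hecke operators on the eigenspaces; simultaneous eigenfunctions
-/

set_option autoImplicit false

open scoped MatrixGroups Pointwise
open UpperHalfPlane MeasureTheory Filter Topology
open Matrix hiding J

namespace Q276.OM

variable {φ ψ : ℝ → ℝ} {C C' : ℝ} {κ : ℂ} {F : ℍ → ℂ}

/-- Commuting endomorphisms of a nonzero finite dimensional complex space have a common eigenvector. -/
theorem common_eigenvector {V : Type*} [AddCommGroup V] [Module ℂ V] [FiniteDimensional ℂ V] [Nontrivial V]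
    (A : Set (V →ₗ[ℂ] V)) (hA : ∀ a ∈ A, ∀ b ∈ A, ∀ v, a (b v) = b (a v)) :
    ∃ v : V, v ≠ 0 ∧ ∀ a ∈ A, ∃ c : ℂ, a v = c • v := by
  let S : Set (Submodule ℂ V) := {W | W ≠ ⊥ ∧ ∀ a ∈ A, ∀ w ∈ W, a w ∈ W}
  have hS : S.Nonempty := ⟨⊤, top_ne_bot, fun a _ w _ => Submodule.mem_top⟩
  obtain ⟨W, hW, hmin⟩ := WellFounded.has_min (IsWellFounded.wf (r := ((· < ·) : Submodule ℂ V → Submodule ℂ V → Prop))) S hS
  obtain ⟨hW0, hWA⟩ := hW
  obtain ⟨v, hv, hv0⟩ := Submodule.exists_mem_ne_zero_of_ne_bot hW0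
  refine ⟨v, hv0, fun a ha => ?_⟩
  -- eigenvalue of `a` on `W`
  have : Nontrivial W := Submodule.nontrivial_iff_ne_bot.2 hW0
  obtain ⟨c, hc⟩ := Module.End.exists_eigenvalue (a.restrict (hWA a ha))
  obtain ⟨w, hw⟩ := hc.exists_hasEigenvector
  have hw1 : a (w : V) = c • (w : V) := by
    have := hw.apply_eq_smul
    exact congrArg Subtype.val this
  let W' : Submodule ℂ V := W ⊓ LinearMap.ker (a - c • (LinearMap.id : V →ₗ[ℂ] V))
  have hW'mem : ∀ x, x ∈ W' ↔ x ∈ W ∧ a x = c • x := by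
    intro x
    simp only [W', Submodule.mem_inf, LinearMap.mem_ker, LinearMap.sub_apply, LinearMap.smul_apply, LinearMap.id_apply, sub_eq_zero]
  have hW'S : W' ∈ S := by
    refine ⟨?_, ?_⟩
    · intro h
      have : (w : V) ∈ W' := (hW'mem _).2 ⟨w.2, hw1⟩
      rw [h, Submodule.mem_bot] at this
      exact hw.2 (Subtype.ext this)
    · intro b hb x hx
      rw [hW'mem] at hx ⊢
      refine ⟨hWA b hb x hx.1, ?_⟩
      rw [hA a ha b hb, hx.2, map_smul]
  have hle : W' ≤ W := inf_le_left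
  have hWW : W' = W := by
    by_contra hne
    exact hmin W' hW'S (lt_of_le_of_ne hle hne)
  have : v ∈ W' := by rw [hWW]; exact hv
  exact ⟨c, ((hW'mem v).1 this).2⟩

lemma ofComplex_coe' (z : ℂ) (hz : 0 < z.im) : ((ofComplex z : ℍ) : ℂ) = z := by
  rw [ofComplex_apply_of_im_pos hz]

lemma ext_coe (F : ℍ → ℂ) (z : ℍ) : ext F (z : ℂ) = F z := by
  unfold ext; rw [ofComplex_apply]

lemma ext_of (F : ℍ → ℂ) {w : ℂ} (z : ℍ) (h : (z : ℂ) = w) : ext F w = F z := by
  rw [← h, ext_coe]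

lemma P_smul_coe (n : ℤ) (z : ℍ) : ((P (n, 1) • z : ℍ) : ℂ) = z + n := by
  apply Complex.ext
  · have := P_smul_re (n, 1) z
    simpa using this
  · have := P_smul_im (n, 1) z
    simpa using this

lemma sgn_SL (g : SL(2, ℤ)) : sgn (ProjGenLinGroup.mk (SpecialLinearGroup.toGL g)) = 1 := by
  unfold sgn
  rw [sgnHom_mk, GeneralLinearGroup.val_det_apply]
  simp

lemma sgn_JZ : sgn (ProjGenLinGroup.mk JZ) = -1 := by
  unfold sgn
  rw [sgnHom_mk, GeneralLinearGroup.val_det_apply]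
  simp [JZ, Matrix.det_fin_two]

lemma InV.SL (h : InV φ κ F) (g : SL(2, ℤ)) (z : ℍ) : F (g • z) = F z := by
  have := h.equi (ProjGenLinGroup.mk (SpecialLinearGroup.toGL g)) z
  rwa [sgn_SL, mk_SL_smul, Complex.ofReal_one, one_mul] at this

lemma InV.Jodd (h : InV φ κ F) (z : ℍ) : F (J • z) = - F z := by
  have := h.equi (ProjGenLinGroup.mk JZ) z
  rwa [sgn_JZ, mk_JZ_smul, Complex.ofReal_neg, Complex.ofReal_one, neg_one_mul] at this

lemma InV.per (h : InV φ κ F) : Per (ext F) := by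
  intro w hw
  have e1 : ext F (w + 1) = F (P (1, 1) • (⟨w, hw⟩ : ℍ)) := by
    apply ext_of
    rw [P_smul_coe]; simp
  have e2 : ext F w = F (⟨w, hw⟩ : ℍ) := ext_of _ _ rfl
  rw [e1, e2, h.equi, sgn_P]
  simp

lemma InV.Sinv (h : InV φ κ F) (w : ℂ) (hw : 0 < w.im) : ext F (-1 / w) = ext F w := by
  have e1 : ext F (-1 / w) = F (ModularGroup.S • (⟨w, hw⟩ : ℍ)) := by
    apply ext_of
    rw [modular_S_smul]
    show (-w : ℂ)⁻¹ = -1 / w
    rw [inv_neg, neg_div, one_div]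
  rw [e1, h.SL]
  exact (ext_of _ _ rfl).symm

lemma InV.Jinv (h : InV φ κ F) (w : ℂ) (hw : 0 < w.im) : ext F (-(starRingEnd ℂ) w) = - ext F w := by
  have e1 : ext F (-(starRingEnd ℂ) w) = F (J • (⟨w, hw⟩ : ℍ)) := by
    apply ext_of
    rw [coe_J_smul]
  rw [e1, h.Jodd]
  congr 1
  exact (ext_of _ _ rfl).symm

/-- equivariance from generators -/
lemma equi_of_gen (F : ℍ → ℂ) (hT : ∀ z, F (ModularGroup.T • z) = F z) (hS : ∀ z, F (ModularGroup.S • z) = F z)
    (hJ : ∀ z, F (J • z) = - F z) (g : PGL(2, ℤ)) (z : ℍ) : F (g • z) = (sgn g : ℂ) * F z := by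
  let H : Subgroup SL(2, ℤ) :=
    { carrier := {g | ∀ z, F (g • z) = F z}
      mul_mem' := by
        intro a b ha hb z
        rw [mul_smul, ha, hb]
      one_mem' := fun z => by rw [one_smul]
      inv_mem' := by
        intro a ha z
        rw [← ha (a⁻¹ • z), smul_inv_smul] }
  have hH : H = ⊤ := by
    rw [eq_top_iff, ← SpecialLinearGroup.SL2Z_generators, Subgroup.closure_le]
    intro x hx
    rcases hx with rfl | rfl
    · exact hS
    · exact hT
  have hSL : ∀ (s : SL(2, ℤ)) (z : ℍ), F (s • z) = F z := by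
    intro s z
    have : s ∈ H := by rw [hH]; trivial
    exact this z
  induction g using ProjGenLinGroup.induction_on with
  | mk g =>
  rcases GL_cases g with ⟨s, rfl⟩ | ⟨s, rfl⟩
  · rw [mk_SL_smul, hSL, sgn_SL]; simp
  · rw [map_mul, mul_smul, mk_SL_smul, mk_JZ_smul, hJ, hSL, sgn_mul, sgn_SL, sgn_JZ]; simp

/-- Hecke operator on functions on `ℍ`. -/
noncomputable def HT (p : ℕ) (F : ℍ → ℂ) (z : ℍ) : ℂ := To p (ext F) z

lemma ext_HT (p : ℕ) (F : ℍ → ℂ) (w : ℂ) (hw : 0 < w.im) : ext (HT p F) w = To p (ext F) w := by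
  unfold HT
  rw [ext, ofComplex_coe' w hw]

lemma HT_S (h : InV φ κ F) {p : ℕ} (hp : p.Prime) (w : ℂ) (hw : 0 < w.im) :
    To p (ext F) (-1 / w) = To p (ext F) w := by
  have : Fact p.Prime := ⟨hp⟩
  have hp0 : (p : ℂ) ≠ 0 := by exact_mod_cast hp.ne_zero
  have hw0 : w ≠ 0 := by rintro rfl; simp at hw
  have hS := h.Sinv
  have hw' : 0 < (-1 / w).im := by
    have : -1 / w = ((ModularGroup.S • (⟨w, hw⟩ : ℍ) : ℍ) : ℂ) := by
      rw [modular_S_smul]
      show -1 / w = (-w : ℂ)⁻¹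
      rw [inv_neg, neg_div, one_div]
    rw [this]
    exact UpperHalfPlane.im_pos _
  rw [To_prime hp, To_prime hp, Vo_eq_sum _ p, Vo_eq_sum _ p, ← Finset.add_sum_erase _ _ (Finset.mem_univ (0 : ZMod p)),
    ← Finset.add_sum_erase _ _ (Finset.mem_univ (0 : ZMod p))]
  have e1 : Uo p (ext F) (-1 / w) = Gs (ext F) p w 0 := by
    unfold Uo Gs
    rw [ZMod.val_zero, Nat.cast_zero, add_zero]
    have h1 : 0 < (w / p).im := by
      have := im_div_pos hw 0 rfl hp.pos
      rwa [add_zero] at this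
    rw [← hS _ h1]
    congr 1
    field_simp
  have e2 : Gs (ext F) p (-1 / w) 0 = Uo p (ext F) w := by
    unfold Uo Gs
    rw [ZMod.val_zero, Nat.cast_zero, add_zero, ← hS _ (im_mul_pos hw hp.pos)]
    congr 1
    field_simp
  have e3 : ∑ b ∈ Finset.univ.erase (0 : ZMod p), Gs (ext F) p (-1 / w) b =
      ∑ b ∈ Finset.univ.erase (0 : ZMod p), Gs (ext F) p w b := by
    refine Finset.sum_nbij' (fun b => -b⁻¹) (fun b => -b⁻¹) ?_ ?_ ?_ ?_ ?_
    · intro b hb
      simp only [Finset.mem_erase, Finset.mem_univ, and_true] at hb ⊢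
      simpa using hb
    · intro b hb
      simp only [Finset.mem_erase, Finset.mem_univ, and_true] at hb ⊢
      simpa using hb
    · intro b hb
      simp [inv_neg]
    · intro b hb
      simp [inv_neg]
    · intro b hb
      simp only [Finset.mem_erase, Finset.mem_univ, and_true] at hb
      -- the matrix
      set B : ℤ := (b.val : ℤ) with hB
      set B' : ℤ := ((-b⁻¹ : ZMod p).val : ℤ) with hB'
      have hBc : ((B : ℤ) : ZMod p) = b := by rw [hB, Int.cast_natCast, ZMod.natCast_zmod_val]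
      have hBc' : ((B' : ℤ) : ZMod p) = -b⁻¹ := by rw [hB', Int.cast_natCast, ZMod.natCast_zmod_val]
      have hdvd : (p : ℤ) ∣ B * B' + 1 := by
        rw [← ZMod.intCast_zmod_eq_zero_iff_dvd, Int.cast_add, Int.cast_mul, hBc, hBc', Int.cast_one,
          mul_neg, mul_inv_cancel₀ hb]
        ring
      obtain ⟨k, hk⟩ := hdvd
      let γ : SL(2, ℤ) := ⟨!![B, -k; (p : ℤ), -B'], by rw [Matrix.det_fin_two_of]; linarith⟩
      have hz' : 0 < ((w + B') / p).im := im_div_pos hw _ (by simp) hp.pos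
      have e4 : ext F ((-1 / w + B) / p) = F (γ • (⟨(w + B') / p, hz'⟩ : ℍ)) := by
        apply ext_of
        rw [coe_specialLinearGroup_apply]
        have g00 : γ 0 0 = B := rfl
        have g01 : γ 0 1 = -k := rfl
        have g10 : γ 1 0 = (p : ℤ) := rfl
        have g11 : γ 1 1 = -B' := rfl
        rw [g00, g01, g10, g11]
        have hkC : (B : ℂ) * B' + 1 = p * k := by exact_mod_cast congrArg (fun t : ℤ => (t : ℂ)) hk
        simp only [algebraMap_int_eq, eq_intCast]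
        push_cast
        have hden : (p : ℂ) * ((w + B') / p) + -B' = w := by field_simp; ring
        rw [hden]
        field_simp
        linear_combination hkC
      have e5 : ext F ((w + B') / p) = F (⟨(w + B') / p, hz'⟩ : ℍ) := ext_of _ _ rfl
      have e6 : Gs (ext F) p (-1 / w) b = ext F ((-1 / w + B) / p) := by
        unfold Gs; rw [hB, Int.cast_natCast]
      have e7 : Gs (ext F) p w (-b⁻¹) = ext F ((w + B') / p) := by
        unfold Gs; rw [hB', Int.cast_natCast]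
      rw [e6, e7, e4, e5, h.SL]
  rw [e1, e2, e3]
  ring


lemma HT_J (h : InV φ κ F) {p : ℕ} (hp : p.Prime) (w : ℂ) (hw : 0 < w.im) :
    To p (ext F) (-(starRingEnd ℂ) w) = - To p (ext F) w := by
  have : Fact p.Prime := ⟨hp⟩
  have hJ := h.Jinv
  rw [To_prime hp, To_prime hp, Vo_eq_sum _ p, Vo_eq_sum _ p]
  have e1 : Uo p (ext F) (-(starRingEnd ℂ) w) = - Uo p (ext F) w := by
    unfold Uo
    rw [← hJ _ (im_mul_pos hw hp.pos)]
    congr 1
    simp
  have e2 : ∀ b : ZMod p, Gs (ext F) p (-(starRingEnd ℂ) w) b = - Gs (ext F) p w (-b) := by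
    intro b
    have hb : (((-(b.val : ℤ)) : ℤ) : ZMod p) = -b := by
      rw [Int.cast_neg, Int.cast_natCast, ZMod.natCast_zmod_val]
    rw [← hb, ← Gs_int h.per hp.pos w hw, ← hJ _ (im_div_pos hw _ (Complex.intCast_im _) hp.pos)]
    unfold Gs
    congr 1
    generalize b.val = m
    simp
    ring
  rw [e1, Finset.sum_congr rfl (fun b _ => e2 b), Finset.sum_neg_distrib]
  have h9 : ∑ x : ZMod p, Gs (ext F) p w (-x) = ∑ x : ZMod p, Gs (ext F) p w x :=
    Equiv.sum_comp (Equiv.neg (ZMod p)) (Gs (ext F) p w)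
  rw [h9]
  ring

/-- `z ↦ (a z + b) / d` as a real matrix. -/
noncomputable def affM (a b d : ℕ) : GL (Fin 2) ℝ :=
  if h : 0 < a ∧ 0 < d then .mkOfDetNeZero !![(a : ℝ), b; 0, d] (by
    rw [Matrix.det_fin_two_of]
    have h1 : (0 : ℝ) < a := by exact_mod_cast h.1
    have h2 : (0 : ℝ) < d := by exact_mod_cast h.2
    have : (a : ℝ) * d - b * 0 = a * d := by ring
    rw [this]; positivity) else 1

lemma affM_smul {a b d : ℕ} (ha : 0 < a) (hd : 0 < d) (z : ℍ) :
    ((affM a b d • z : ℍ) : ℂ) = ((a : ℂ) * z + b) / d := by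
  have hdet : 0 < (affM a b d).det.val := by
    unfold affM
    rw [dif_pos ⟨ha, hd⟩]
    show 0 < Matrix.det !![(a : ℝ), b; 0, d]
    rw [Matrix.det_fin_two_of]
    have h1 : (0 : ℝ) < a := by exact_mod_cast ha
    have h2 : (0 : ℝ) < d := by exact_mod_cast hd
    have : (a : ℝ) * d - b * 0 = a * d := by ring
    rw [this]; positivity
  rw [coe_smul_of_det_pos hdet]
  unfold affM
  rw [dif_pos ⟨ha, hd⟩]
  simp [num, denom]

lemma HT_eq {p : ℕ} (hp : p.Prime) (F : ℍ → ℂ) (z : ℍ) :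
    HT p F z = F (affM p 0 1 • z) + ∑ b ∈ Finset.range p, F (affM 1 b p • z) := by
  unfold HT
  rw [To_prime hp]
  congr 1
  · unfold Uo
    apply ext_of
    rw [affM_smul hp.pos one_pos]; simp
  · unfold Vo
    refine Finset.sum_congr rfl (fun b _ => ?_)
    apply ext_of
    rw [affM_smul one_pos hp.pos]; simp

lemma TK_add (hψ : Prof ψ C) {F G : ℍ → ℂ} (hF : Measurable F) (hG : Measurable G) (bF : ∃ B, ∀ z, ‖F z‖ ≤ B)
    (bG : ∃ B, ∀ z, ‖G z‖ ≤ B) (z : ℍ) : TK ψ (fun w => F w + G w) z = TK ψ F z + TK ψ G z := by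
  obtain ⟨B1, b1⟩ := bF
  obtain ⟨B2, b2⟩ := bG
  unfold TK
  rw [← integral_add (kk_integrable hψ z hF.aestronglyMeasurable b1) (kk_integrable hψ z hG.aestronglyMeasurable b2)]
  refine integral_congr_ae (Eventually.of_forall (fun w => ?_))
  simp only; ring

lemma TK_sum (hψ : Prof ψ C) {ι : Type*} (s : Finset ι) (G : ι → ℍ → ℂ) (hG : ∀ i, Measurable (G i))
    (bG : ∀ i, ∃ B, ∀ z, ‖G i z‖ ≤ B) (z : ℍ) : TK ψ (fun w => ∑ i ∈ s, G i w) z = ∑ i ∈ s, TK ψ (G i) z := by
  unfold TK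
  rw [← integral_finsetSum]
  · refine integral_congr_ae (Eventually.of_forall (fun w => ?_))
    simp only
    rw [Finset.mul_sum]
  · intro i _
    obtain ⟨B, hB⟩ := bG i
    exact kk_integrable hψ z (hG i).aestronglyMeasurable hB

lemma measurable_smulGL (g : GL (Fin 2) ℝ) : Measurable (fun z : ℍ => g • z) :=
  (isoGL.isometry_smul g).continuous.measurable

/-- Point-pair invariants commute with Hecke operators. -/
theorem TK_HT (hψ : Prof ψ C) {p : ℕ} (hp : p.Prime) (hF : Measurable F) (bF : ∃ B, ∀ z, ‖F z‖ ≤ B) (z : ℍ) :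
    TK ψ (HT p F) z = HT p (TK ψ F) z := by
  have hb : ∀ g : GL (Fin 2) ℝ, ∃ B, ∀ z : ℍ, ‖F (g • z)‖ ≤ B := by
    obtain ⟨B, hB⟩ := bF
    exact fun g => ⟨B, fun z => hB _⟩
  have hm : ∀ g : GL (Fin 2) ℝ, Measurable (fun z : ℍ => F (g • z)) := fun g => hF.comp (measurable_smulGL g)
  have e1 : HT p F = fun z => F (affM p 0 1 • z) + ∑ b ∈ Finset.range p, F (affM 1 b p • z) := by
    funext z; exact HT_eq hp F z
  rw [e1, TK_add hψ (hm _) (Finset.measurable_sum _ (fun b _ => hm _)) (hb _), TK_comp, TK_sum hψ _ _ (fun b => hm _) (fun b => hb _), HT_eq hp]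
  · congr 1
    refine Finset.sum_congr rfl (fun b _ => ?_)
    rw [TK_comp]
  · obtain ⟨B, hB⟩ := bF
    refine ⟨p * B, fun z => ?_⟩
    refine (norm_sum_le _ _).trans ?_
    refine (Finset.sum_le_card_nsmul _ _ B (fun b _ => hB _)).trans ?_
    rw [Finset.card_range, nsmul_eq_mul]

/-- Hecke operators preserve the spaces `V`. -/
theorem HT_mem (hφ : Prof φ C) (h : InV φ κ F) {p : ℕ} (hp : p.Prime) : InV φ κ (HT p F) := by
  have hb : ∀ g : GL (Fin 2) ℝ, ∃ B, ∀ z : ℍ, ‖F (g • z)‖ ≤ B := by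
    obtain ⟨B, hB⟩ := h.bdd
    exact fun g => ⟨B, fun z => hB _⟩
  have hm : ∀ g : GL (Fin 2) ℝ, Measurable (fun z : ℍ => F (g • z)) := fun g => h.meas.comp (measurable_smulGL g)
  have e1 : HT p F = fun z => F (affM p 0 1 • z) + ∑ b ∈ Finset.range p, F (affM 1 b p • z) := by
    funext z; exact HT_eq hp F z
  refine ⟨?_, ?_, ?_, ?_⟩
  · rw [e1]
    exact (hm _).add (Finset.measurable_sum _ (fun b _ => hm _))
  · obtain ⟨B, hB⟩ := h.bdd
    refine ⟨B + p * B, fun z => ?_⟩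
    rw [e1]
    refine (norm_add_le _ _).trans (add_le_add (hB _) ?_)
    refine (norm_sum_le _ _).trans ?_
    refine (Finset.sum_le_card_nsmul _ _ B (fun b _ => hB _)).trans ?_
    rw [Finset.card_range, nsmul_eq_mul]
  · apply equi_of_gen
    · intro z
      have hz : 0 < (z : ℂ).im := z.im_pos
      have h1 := (h.per.To (n := p)) (z : ℂ) hz
      unfold HT
      rw [← h1]
      congr 1
      have := modular_T_smul z
      rw [this, coe_vadd]
      push_cast
      ring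
    · intro z
      have hz : 0 < (z : ℂ).im := z.im_pos
      have h1 := HT_S h hp (z : ℂ) hz
      unfold HT
      rw [← h1]
      congr 1
      rw [modular_S_smul]
      show (-(z : ℂ))⁻¹ = -1 / z
      rw [inv_neg, neg_div, one_div]
    · intro z
      have hz : 0 < (z : ℂ).im := z.im_pos
      have h1 := HT_J h hp (z : ℂ) hz
      unfold HT
      rw [← h1, coe_J_smul]
  · intro z
    have h1 := TK_HT hφ hp h.meas h.bdd z
    have h2 : TK φ (HT p F) z = ∫ w, (kk φ z w : ℂ) * HT p F w := rfl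
    rw [← h2, h1, HT_eq hp, HT_eq hp, mul_add, Finset.mul_sum]
    have h3 : ∀ z, TK φ F z = κ * F z := h.eig
    simp only [h3]

/-- The Hecke operator as an endomorphism. -/
noncomputable def HV (hφ : Prof φ C) (κ : ℂ) {p : ℕ} (hp : p.Prime) : VV hφ κ →ₗ[ℂ] VV hφ κ where
  toFun F := ⟨HT p F, HT_mem hφ F.2 hp⟩
  map_add' F G := by
    apply Subtype.ext
    funext z
    show HT p (fun w => (F : ℍ → ℂ) w + (G : ℍ → ℂ) w) z = HT p F z + HT p G z
    rw [HT_eq hp, HT_eq hp, HT_eq hp, Finset.sum_add_distrib]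
    ring
  map_smul' c F := by
    apply Subtype.ext
    funext z
    show HT p (fun w => c * (F : ℍ → ℂ) w) z = c * HT p F z
    rw [HT_eq hp, HT_eq hp, mul_add, Finset.mul_sum]

/-- A point-pair invariant as an endomorphism. -/
noncomputable def TV (hφ : Prof φ C) (κ : ℂ) (hψ : Prof ψ C') : VV hφ κ →ₗ[ℂ] VV hφ κ where
  toFun F := ⟨TK ψ F, TK_mem hφ hψ F.2⟩
  map_add' F G := by
    apply Subtype.ext
    funext z
    exact TK_add hψ F.2.meas G.2.meas F.2.bdd G.2.bdd z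
  map_smul' c F := by
    apply Subtype.ext
    funext z
    show ∫ w, (kk ψ z w : ℂ) * (c * (F : ℍ → ℂ) w) = c * ∫ w, (kk ψ z w : ℂ) * (F : ℍ → ℂ) w
    rw [← integral_const_mul]
    refine integral_congr_ae (Eventually.of_forall (fun w => ?_))
    simp only; ring

lemma phi_sprof {C : ℝ} (hC : 1 ≤ C) : SProf (phi C) C where
  smooth := by
    unfold phi
    exact expNegInvGlue.contDiff.comp (by fun_prop)
  one_le := hC
  supp := fun t ht => expNegInvGlue.zero_of_nonpos (by linarith)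

/-- Existence of odd Maass forms of level one, abstract form. -/
theorem exists_maass : ∃ (φ : ℝ → ℝ) (C : ℝ) (κ : ℂ) (F : ℍ → ℂ) (μ : ℂ), SProf φ C ∧ κ ≠ 0 ∧ InV φ κ F ∧ F ≠ 0 ∧
    (∀ p : ℕ, p.Prime → ∃ c : ℂ, ∀ z, HT p F z = c * F z) ∧ (∀ z, TK (Lap φ) F z = μ * F z) := by
  obtain ⟨C, hC, κ, hκ, F0, hF0, hF0'⟩ := exists_eigenfunction
  have hs := phi_sprof hC
  have hfin := VV_finite (phi_good hC) hκ
  have hnt : Nontrivial (VV (phi_good hC).toProf κ) := ⟨⟨F0, hF0⟩, 0, fun h => hF0' (congrArg Subtype.val h)⟩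
  have hL := hs.lap.toProf
  let A : Set (VV (phi_good hC).toProf κ →ₗ[ℂ] VV (phi_good hC).toProf κ) :=
    {a | (∃ (p : ℕ) (hp : p.Prime), a = HV (phi_good hC).toProf κ hp) ∨ a = TV (phi_good hC).toProf κ hL}
  have hcomm : ∀ a ∈ A, ∀ b ∈ A, ∀ v, a (b v) = b (a v) := by
    have h1 : ∀ (p : ℕ) (hp : p.Prime) (v : VV (phi_good hC).toProf κ),
        TV (phi_good hC).toProf κ hL (HV (phi_good hC).toProf κ hp v) = HV (phi_good hC).toProf κ hp (TV (phi_good hC).toProf κ hL v) := by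
      intro p hp v
      apply Subtype.ext
      funext z
      exact TK_HT hL hp v.2.meas v.2.bdd z
    rintro a (⟨p, hp, rfl⟩ | rfl) b (⟨q, hq, rfl⟩ | rfl) v
    · apply Subtype.ext
      funext z
      show To p (ext (HT q v)) z = To q (ext (HT p v)) z
      rw [To_congr (ext_HT q v) p z z.im_pos, To_congr (ext_HT p v) q z z.im_pos]
      exact To_comm hp hq (InV.per v.2) z z.im_pos
    · exact (h1 p hp v).symm
    · exact h1 q hq v
    · rfl
  obtain ⟨v, hv0, hv⟩ := common_eigenvector A hcomm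
  obtain ⟨μ, hμ⟩ := hv _ (Or.inr rfl)
  refine ⟨phi C, C, κ, v, μ, hs, hκ, v.2, ?_, ?_, ?_⟩
  · intro h
    exact hv0 (Subtype.ext h)
  · intro p hp
    obtain ⟨c, hc⟩ := hv _ (Or.inl ⟨p, hp, rfl⟩)
    exact ⟨c, fun z => congrFun (congrArg Subtype.val hc) z⟩
  · intro z
    exact congrFun (congrArg Subtype.val hμ) z

end Q276.OM
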