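import Pool.Agent.Q276.OM.Expn

/-!
# The Mellin transform of the first Fourier coefficient
-/

set_option autoImplicit false

open MeasureTheory Filter Topology Set

namespace Q276.OM

variable {f : ℂ → ℂ} {Λ : ℂ} {c : ℕ → ℂ}

lemma re_half (z : ℂ) : (z / 2).re = z.re / 2 := by
  have : (2 : ℂ) = ((2 : ℝ) : ℂ) := by norm_num
  rw [this, Complex.div_ofReal_re]

lemma mellin_BK {ν z : ℂ} (h1 : 0 < ((z + 1 / 2 + ν) / 2).re) (h2 : 0 < ((z + 1 / 2 - ν) / 2).re) :
    mellin (BK ν) z = (2 * Real.pi : ℂ) ^ (-(z + 1 / 2)) * ((2 : ℂ) ^ (z + 1 / 2 - 1) * Complex.Gamma ((z + 1 / 2 + ν) / 2) *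
      Complex.Gamma ((z + 1 / 2 - ν) / 2)) := by
  have e1 : mellin (BK ν) z = mellin (fun y : ℝ => (y : ℂ) ^ (1 / 2 : ℂ) • KI 0 ν (2 * Real.pi * y)) z := by
    unfold mellin
    refine setIntegral_congr_fun measurableSet_Ioi (fun y hy => ?_)
    have hy' : (0 : ℝ) ≤ y := le_of_lt hy
    simp only
    unfold BK
    rw [Real.sqrt_eq_rpow, Complex.ofReal_cpow hy']
    push_cast
    rfl
  rw [e1, mellin_cpow_smul, mellin_comp_mul_left (KI 0 ν) _ (by positivity : (0:ℝ) < 2 * Real.pi), (KI_mellin h1 h2).2, smul_eq_mul]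
  push_cast
  rfl

lemma MF.W1_conv (h : MF f Λ c) {z : ℂ} (hz : 0 < z.re) : MellinConvergent (W f 1) z ∧ DifferentiableAt ℂ (mellin (W f 1)) z := by
  obtain ⟨C, hC0, hC⟩ := h.W1_exp
  have hloc : LocallyIntegrableOn (W f 1) (Ioi 0) := by
    have : ContinuousOn (W f 1) (Ioi 0) := fun y hy => (h.hW 1 hy).continuousAt.continuousWithinAt
    exact this.locallyIntegrableOn measurableSet_Ioi
  have h1 : W f 1 =O[atTop] fun t => Real.exp (-1 * t) := by
    refine Asymptotics.IsBigO.of_bound C ?_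
    filter_upwards [eventually_gt_atTop 0] with y hy
    rw [Real.norm_of_nonneg (Real.exp_pos _).le]
    have := hC y hy
    rwa [neg_one_mul]
  have h2 : W f 1 =O[𝓝[>] 0] fun t => t ^ (-(0:ℝ)) := by
    refine Asymptotics.IsBigO.of_bound C ?_
    filter_upwards [self_mem_nhdsWithin] with y hy
    have hy' : (0:ℝ) < y := hy
    rw [neg_zero, Real.rpow_zero, norm_one, mul_one]
    refine (hC y hy').trans ?_
    have : Real.exp (-y) ≤ 1 := Real.exp_le_one_iff.2 (by linarith)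
    nlinarith
  exact ⟨mellinConvergent_of_isBigO_rpow_exp one_pos hloc h1 h2 hz,
    mellin_differentiableAt_of_isBigO_rpow_exp one_pos hloc h1 h2 hz⟩

lemma MF.mellin_key (h : MF f Λ c) {ν : ℂ} {c₀ : ℂ} (hW : ∀ y : ℝ, 0 < y → W f 1 y = c₀ * BK ν y) {z : ℂ} (hz : 0 < z.re) :
    mellin (W f 1) z * ((Complex.Gamma ((z + 1 / 2 + ν) / 2))⁻¹ * (Complex.Gamma ((z + 1 / 2 - ν) / 2))⁻¹) =
      c₀ * ((2 * Real.pi : ℂ) ^ (-(z + 1 / 2)) * (2 : ℂ) ^ (z + 1 / 2 - 1)) := by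
  set U : Set ℂ := {z : ℂ | 0 < z.re} with hU
  have hUo : IsOpen U := isOpen_lt continuous_const Complex.continuous_re
  have hUc : IsPreconnected U := (convex_halfSpace_re_gt 0).isPreconnected
  set G1 : ℂ → ℂ := fun z => mellin (W f 1) z * ((Complex.Gamma ((z + 1 / 2 + ν) / 2))⁻¹ * (Complex.Gamma ((z + 1 / 2 - ν) / 2))⁻¹)
  set G2 : ℂ → ℂ := fun z => c₀ * ((2 * Real.pi : ℂ) ^ (-(z + 1 / 2)) * (2 : ℂ) ^ (z + 1 / 2 - 1))
  have hpi : (2 * Real.pi : ℂ) ≠ 0 := by simp [Real.pi_ne_zero]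
  have hG1 : AnalyticOnNhd ℂ G1 U := by
    apply DifferentiableOn.analyticOnNhd _ hUo
    intro z hz
    apply DifferentiableAt.differentiableWithinAt
    refine (h.W1_conv hz).2.mul (DifferentiableAt.mul ?_ ?_)
    · exact (Complex.differentiable_one_div_Gamma _).comp z (f := fun z : ℂ => (z + 1 / 2 + ν) / 2) (by fun_prop)
    · exact (Complex.differentiable_one_div_Gamma _).comp z (f := fun z : ℂ => (z + 1 / 2 - ν) / 2) (by fun_prop)
  have hG2 : AnalyticOnNhd ℂ G2 U := by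
    apply DifferentiableOn.analyticOnNhd _ hUo
    intro z hz
    apply DifferentiableAt.differentiableWithinAt
    refine DifferentiableAt.const_mul (DifferentiableAt.mul ?_ ?_) _
    · exact DifferentiableAt.const_cpow (by fun_prop) (Or.inl hpi)
    · exact DifferentiableAt.const_cpow (by fun_prop) (Or.inl two_ne_zero)
  set z0 : ℂ := ((|ν.re| + 1 : ℝ) : ℂ) with hz0
  have hz0U : z0 ∈ U := by
    show 0 < z0.re
    rw [hz0, Complex.ofReal_re]; positivity
  have hev : G1 =ᶠ[𝓝 z0] G2 := by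
    have hV : {z : ℂ | |ν.re| < z.re} ∈ 𝓝 z0 := by
      apply (isOpen_lt continuous_const Complex.continuous_re).mem_nhds
      show |ν.re| < z0.re
      rw [hz0, Complex.ofReal_re]; linarith
    filter_upwards [hV] with z hz
    have hz' : |ν.re| < z.re := hz
    have h1 : 0 < ((z + 1 / 2 + ν) / 2).re := by
      rw [re_half]
      simp only [Complex.add_re]
      have : (1 / 2 : ℂ).re = 1 / 2 := by norm_num
      rw [this]
      linarith [neg_abs_le ν.re]
    have h2 : 0 < ((z + 1 / 2 - ν) / 2).re := by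
      rw [re_half]
      simp only [Complex.add_re, Complex.sub_re]
      have : (1 / 2 : ℂ).re = 1 / 2 := by norm_num
      rw [this]
      linarith [le_abs_self ν.re]
    have g1 := Complex.Gamma_ne_zero_of_re_pos h1
    have g2 := Complex.Gamma_ne_zero_of_re_pos h2
    have h3 : mellin (W f 1) z = c₀ * mellin (BK ν) z := by
      have := mellin_const_smul (BK ν) z c₀
      rw [smul_eq_mul] at this
      rw [← this]
      unfold mellin
      refine setIntegral_congr_fun measurableSet_Ioi (fun y hy => ?_)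
      simp only
      rw [hW y hy, smul_eq_mul (a := c₀)]
    show mellin (W f 1) z * ((Complex.Gamma ((z + 1 / 2 + ν) / 2))⁻¹ * (Complex.Gamma ((z + 1 / 2 - ν) / 2))⁻¹) =
      c₀ * ((2 * Real.pi : ℂ) ^ (-(z + 1 / 2)) * (2 : ℂ) ^ (z + 1 / 2 - 1))
    rw [h3, mellin_BK h1 h2]
    generalize Complex.Gamma ((z + 1 / 2 + ν) / 2) = A at g1 ⊢
    generalize Complex.Gamma ((z + 1 / 2 - ν) / 2) = B at g2 ⊢
    generalize (2 * Real.pi : ℂ) ^ (-(z + 1 / 2)) = E1
    generalize (2 : ℂ) ^ (z + 1 / 2 - 1) = E2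
    field_simp
  exact hG1.eqOn_of_preconnected_of_eventuallyEq hG2 hUc hz0U hev hz

lemma MF.nu_re (h : MF f Λ c) {ν : ℂ} {c₀ : ℂ} (hc₀ : c₀ ≠ 0) (hW : ∀ y : ℝ, 0 < y → W f 1 y = c₀ * BK ν y) :
    |ν.re| ≤ 1 / 2 := by
  have hpi : (2 * Real.pi : ℂ) ≠ 0 := by simp [Real.pi_ne_zero]
  have hR : ∀ z : ℂ, c₀ * ((2 * Real.pi : ℂ) ^ (-(z + 1 / 2)) * (2 : ℂ) ^ (z + 1 / 2 - 1)) ≠ 0 := by
    intro z
    refine mul_ne_zero hc₀ (mul_ne_zero ?_ ?_)
    · rw [Complex.cpow_def_of_ne_zero hpi]; exact Complex.exp_ne_zero _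
    · rw [Complex.cpow_def_of_ne_zero two_ne_zero]; exact Complex.exp_ne_zero _
  have hhalf : (1 / 2 : ℂ).re = 1 / 2 := by norm_num
  rw [abs_le]
  constructor
  · by_contra hcon
    push Not at hcon
    have h1 := h.mellin_key hW (z := -ν - 1 / 2) (by
      rw [Complex.sub_re, Complex.neg_re, hhalf]; linarith)
    have h2 : (-ν - 1 / 2 + 1 / 2 + ν) / 2 = 0 := by ring
    rw [h2, Complex.Gamma_zero, inv_zero, zero_mul, mul_zero] at h1
    exact hR _ h1.symm
  · by_contra hcon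
    push Not at hcon
    have h1 := h.mellin_key hW (z := ν - 1 / 2) (by
      rw [Complex.sub_re, hhalf]; linarith)
    have h2 : (ν - 1 / 2 + 1 / 2 - ν) / 2 = 0 := by ring
    rw [h2, Complex.Gamma_zero, inv_zero, mul_zero, mul_zero] at h1
    exact hR _ h1.symm

lemma MF.mellin_W1 (h : MF f Λ c) {ν : ℂ} {c₀ : ℂ} (hc₀ : c₀ ≠ 0) (hW : ∀ y : ℝ, 0 < y → W f 1 y = c₀ * BK ν y) {z : ℂ} (hz : 0 < z.re) :
    mellin (W f 1) z = c₀ * ((2 * Real.pi : ℂ) ^ (-(z + 1 / 2)) * (2 : ℂ) ^ (z + 1 / 2 - 1)) *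
      (Complex.Gamma ((z + 1 / 2 + ν) / 2) * Complex.Gamma ((z + 1 / 2 - ν) / 2)) := by
  have hν := abs_le.1 (h.nu_re hc₀ hW)
  have hhalf : (1 / 2 : ℂ).re = 1 / 2 := by norm_num
  have h1 : 0 < ((z + 1 / 2 + ν) / 2).re := by
    rw [re_half, Complex.add_re, Complex.add_re, hhalf]
    linarith [hν.1]
  have h2 : 0 < ((z + 1 / 2 - ν) / 2).re := by
    rw [re_half, Complex.sub_re, Complex.add_re, hhalf]
    linarith [hν.2]
  have g1 := Complex.Gamma_ne_zero_of_re_pos h1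
  have g2 := Complex.Gamma_ne_zero_of_re_pos h2
  rw [← h.mellin_key hW hz]
  generalize Complex.Gamma ((z + 1 / 2 + ν) / 2) = A at g1 ⊢
  generalize Complex.Gamma ((z + 1 / 2 - ν) / 2) = B at g2 ⊢
  field_simp

end Q276.OM
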