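import Mathlib

/-!
# Quadratic fields: the number of homomorphisms of the ring of integers to a prime field
-/

set_option autoImplicit false

open NumberField

namespace Q276.OM

variable {K : Type*} [Field K] [NumberField K]

lemma dep3 (h2 : Module.finrank ℚ K = 2) (u v w : K) :
    ∃ x y z : ℚ, (x ≠ 0 ∨ y ≠ 0 ∨ z ≠ 0) ∧ (x : K) * u + (y : K) * v + (z : K) * w = 0 := by
  have h1 : ¬ LinearIndependent ℚ ![u, v, w] := by
    intro hli
    have := hli.fintype_card_le_finrank
    rw [h2] at this
    simp at this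
  rw [Fintype.not_linearIndependent_iff] at h1
  obtain ⟨g, hg, i, hi⟩ := h1
  refine ⟨g 0, g 1, g 2, ?_, ?_⟩
  · fin_cases i
    · left; exact hi
    · right; left; exact hi
    · right; right; exact hi
  · rw [Fin.sum_univ_three] at hg
    simp only [Rat.smul_def] at hg
    exact hg

lemma exists_irr (h2 : Module.finrank ℚ K = 2) : ∃ θ : K, ∀ q : ℚ, θ ≠ q := by
  by_contra hcon
  push Not at hcon
  have h3 : Module.finrank ℚ K = 1 := by
    rw [finrank_eq_one_iff']
    refine ⟨1, one_ne_zero, fun w => ?_⟩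
    obtain ⟨q, hq⟩ := hcon w
    exact ⟨q, by rw [hq, Rat.smul_def, mul_one]⟩
  omega

lemma exists_sqrt (h2 : Module.finrank ℚ K = 2) : ∃ (d : ℤ) (α : K), α ^ 2 = d ∧ ∀ q : ℚ, α ≠ q := by
  obtain ⟨θ, hθ⟩ := exists_irr h2
  obtain ⟨x, y, z, hne, h⟩ := dep3 h2 1 θ (θ ^ 2)
  have hz : z ≠ 0 := by
    rintro rfl
    rw [Rat.cast_zero, zero_mul, add_zero, mul_one] at h
    by_cases hy : y = 0
    · subst hy
      rw [Rat.cast_zero, zero_mul, add_zero, Rat.cast_eq_zero] at h
      simp [h] at hne
    · apply hθ (-x / y)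
      have hy' : (y : K) ≠ 0 := Rat.cast_ne_zero.2 hy
      push_cast
      field_simp
      linear_combination h
  set D : ℚ := y ^ 2 - 4 * x * z with hD
  have hα : (2 * (z : K) * θ + y) ^ 2 = (D : K) := by
    rw [hD]; push_cast
    linear_combination 4 * (z : K) * h
  have hden : (D.den : K) ≠ 0 := by exact_mod_cast D.den_ne_zero
  refine ⟨D.den * D.num, (D.den : K) * (2 * (z : K) * θ + y), ?_, ?_⟩
  · rw [mul_pow, hα]
    have h3 : (D : K) * (D.den : K) = (D.num : K) := by
      have := Rat.mul_den_eq_num D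
      exact_mod_cast congrArg (fun t : ℚ => (t : K)) this
    push_cast
    linear_combination (D.den : K) * h3
  · intro q hq
    apply hθ ((q / D.den - y) / (2 * z))
    have hz' : (z : K) ≠ 0 := Rat.cast_ne_zero.2 hz
    push_cast
    rw [eq_div_iff (mul_ne_zero two_ne_zero hz'), eq_sub_iff_add_eq, eq_div_iff hden]
    linear_combination hq

lemma uniq {α : K} (hα : ∀ q : ℚ, α ≠ q) {a b a' b' : ℚ} (h : (a : K) + b * α = a' + b' * α) : a = a' ∧ b = b' := by
  have hb : b = b' := by
    by_contra hne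
    apply hα ((a' - a) / (b - b'))
    have h1 : ((b - b' : ℚ) : K) ≠ 0 := Rat.cast_ne_zero.2 (sub_ne_zero.2 hne)
    push_cast at h1 ⊢
    field_simp
    linear_combination h
  subst hb
  refine ⟨?_, rfl⟩
  have h2 : (a : K) = a' := by linear_combination h
  exact_mod_cast h2

lemma coords (h2 : Module.finrank ℚ K = 2) {α : K} (hα : ∀ q : ℚ, α ≠ q) (β : K) :
    ∃ r s : ℚ, β = r + s * α := by
  obtain ⟨x, y, z, hne, h⟩ := dep3 h2 1 α β
  have hz : z ≠ 0 := by
    rintro rfl
    rw [Rat.cast_zero, zero_mul, add_zero, mul_one] at h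
    have h3 := uniq hα (a := x) (b := y) (a' := 0) (b' := 0) (by simpa using h)
    simp [h3.1, h3.2] at hne
  have hz' : (z : K) ≠ 0 := Rat.cast_ne_zero.2 hz
  refine ⟨-x / z, -y / z, ?_⟩
  push_cast
  field_simp
  linear_combination h

lemma rat_int {x : ℚ} {k : ℤ} (h : x ^ 2 = k) : ∃ m : ℤ, x = m := by
  have h1 : IsIntegral ℤ x := by
    apply IsIntegral.of_pow (n := 2) two_pos
    rw [h]
    exact isIntegral_algebraMap (R := ℤ) (A := ℚ) (x := k)
  obtain ⟨m, hm⟩ := IsIntegrallyClosed.isIntegral_iff.1 h1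
  exact ⟨m, hm.symm⟩

lemma coeff_quad (A B : ℚ) : (Polynomial.X ^ 2 - Polynomial.C A * Polynomial.X + Polynomial.C B : Polynomial ℚ).coeff 1 = -A ∧
    (Polynomial.X ^ 2 - Polynomial.C A * Polynomial.X + Polynomial.C B : Polynomial ℚ).coeff 0 = B := by
  constructor
  · simp [Polynomial.coeff_X, Polynomial.coeff_C]
  · simp

lemma int_coords (h2 : Module.finrank ℚ K = 2) {d : ℤ} {α : K} (hd : α ^ 2 = d) (hα : ∀ q : ℚ, α ≠ q)
    {β : K} (hβ : IsIntegral ℤ β) : ∃ a b : ℤ, 2 * (d : K) * β = a + b * α := by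
  obtain ⟨r, s, hrs⟩ := coords h2 hα β
  by_cases hs : s = 0
  · subst hs
    rw [Rat.cast_zero, zero_mul, add_zero] at hrs
    have h3 : IsIntegral ℤ r := by
      rw [hrs] at hβ
      have e : (r : K) = algebraMap ℚ K r := rfl
      rw [e] at hβ
      exact (isIntegral_algebraMap_iff (algebraMap ℚ K).injective).1 hβ
    obtain ⟨m, hm⟩ := IsIntegrallyClosed.isIntegral_iff.1 h3
    refine ⟨2 * d * m, 0, ?_⟩
    have hm' : (r : K) = m := by rw [← hm]; simp
    rw [hrs, hm']; push_cast; ring
  · -- the minimal polynomial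
    set f : Polynomial ℚ := Polynomial.X ^ 2 - Polynomial.C (2 * r) * Polynomial.X + Polynomial.C (r ^ 2 - d * s ^ 2) with hf
    have hdeg : f.natDegree = 2 := by rw [hf]; compute_degree!
    have hmon : f.Monic := by rw [hf]; monicity!
    have hroot : Polynomial.aeval β f = 0 := by
      rw [hf]
      simp only [map_add, map_sub, map_pow, Polynomial.aeval_X, map_mul, Polynomial.aeval_C, map_ofNat]
      have e1 : algebraMap ℚ K r = (r : K) := rfl
      have e2 : algebraMap ℚ K s = (s : K) := rfl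
      have e3 : algebraMap ℚ K (d : ℚ) = (d : K) := by simp
      rw [e1, e2, e3, hrs]
      linear_combination (s : K) ^ 2 * hd
    have hir : Irreducible f := by
      refine Polynomial.irreducible_of_degree_le_three_of_not_isRoot (by rw [hdeg]; simp) ?_
      intro q hq
      rw [Polynomial.IsRoot.def, hf] at hq
      simp only [Polynomial.eval_add, Polynomial.eval_sub, Polynomial.eval_pow, Polynomial.eval_X, Polynomial.eval_mul,
        Polynomial.eval_C] at hq
      have h4 : (q - r) ^ 2 = d * s ^ 2 := by linear_combination hq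
      have h5 : ((q - r) / s) ^ 2 = d := by
        rw [div_pow, h4]; field_simp
      have h6 : α ^ 2 = (((q - r) / s : ℚ) : K) ^ 2 := by
        rw [hd]
        exact_mod_cast congrArg (fun t : ℚ => (t : K)) h5.symm
      rcases sq_eq_sq_iff_eq_or_eq_neg.1 h6 with h7 | h7
      · exact hα _ h7
      · exact hα (-((q - r) / s)) (by rw [h7]; push_cast; ring)
    have hmin := minpoly.eq_of_irreducible_of_monic hir hroot hmon
    have hmin2 := minpoly.isIntegrallyClosed_eq_field_fractions' ℚ hβ
    rw [← hmin] at hmin2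
    have c1 := congrArg (fun g => Polynomial.coeff g 1) hmin2
    have c0 := congrArg (fun g => Polynomial.coeff g 0) hmin2
    simp only [Polynomial.coeff_map] at c1 c0
    have k1 : f.coeff 1 = -(2 * r) := (coeff_quad _ _).1
    have k0 : f.coeff 0 = r ^ 2 - d * s ^ 2 := (coeff_quad _ _).2
    rw [k1] at c1
    rw [k0] at c0
    set t : ℤ := (minpoly ℤ β).coeff 1
    set n : ℤ := (minpoly ℤ β).coeff 0
    have c1' : 2 * r = ((-t : ℤ) : ℚ) := by
      have : algebraMap ℤ ℚ t = (t : ℚ) := rfl
      rw [this] at c1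
      push_cast; linarith
    have c0' : r ^ 2 - d * s ^ 2 = (n : ℚ) := c0
    obtain ⟨m, hm⟩ := rat_int (x := 2 * d * s) (k := d * (t ^ 2 - 4 * n)) (by
      push_cast
      have : (2 * r) ^ 2 = (t : ℚ) ^ 2 := by rw [c1']; push_cast; ring
      linear_combination (-4 * (d : ℚ)) * c0' + (d : ℚ) * this)
    refine ⟨d * (-t), m, ?_⟩
    have e1 : (2 : K) * (r : K) = ((-t : ℤ) : K) := by
      have := congrArg (fun q : ℚ => (q : K)) c1'
      push_cast at this ⊢
      exact this
    have e2 : (2 : K) * (d : K) * (s : K) = (m : K) := by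
      have := congrArg (fun q : ℚ => (q : K)) hm
      push_cast at this ⊢
      exact this
    rw [hrs]
    push_cast at e1 ⊢
    linear_combination (d : K) * e1 + α * e2

/-- The homomorphisms of the ring of integers to `ZMod p` correspond to the square roots of `d` modulo `p`. -/
lemma card_hom (h2 : Module.finrank ℚ K = 2) {d : ℤ} {α : K} (hd : α ^ 2 = d) (hα : ∀ q : ℚ, α ≠ q)
    {p : ℕ} [Fact p.Prime] (hp2 : p ≠ 2) (hpd : ((d : ℤ) : ZMod p) ≠ 0) :
    (Nat.card (𝓞 K →+* ZMod p) : ℤ) = legendreSym p d + 1 := by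
  have hαi : IsIntegral ℤ α := by
    apply IsIntegral.of_pow (n := 2) two_pos
    rw [hd]
    exact isIntegral_algebraMap (R := ℤ) (A := K) (x := d)
  set w : 𝓞 K := ⟨α, hαi⟩ with hw
  have hwα : (w : K) = α := rfl
  have hw2 : w ^ 2 = (d : 𝓞 K) := by
    apply RingOfIntegers.ext
    have e1 : ((w ^ 2 : 𝓞 K) : K) = (w : K) ^ 2 := rfl
    rw [e1, hwα, hd]
    simp
  have hex : ∀ β : 𝓞 K, ∃ a b : ℤ, 2 * (d : 𝓞 K) * β = a + b * w := by
    intro β
    obtain ⟨a, b, hab⟩ := int_coords h2 hd hα β.isIntegral_coe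
    refine ⟨a, b, ?_⟩
    apply RingOfIntegers.ext
    simp only [map_mul, map_add, map_intCast, map_ofNat, hwα]
    exact hab
  choose A B hAB using hex
  have huniq : ∀ a b a' b' : ℤ, (a : 𝓞 K) + b * w = a' + b' * w → a = a' ∧ b = b' := by
    intro a b a' b' h
    have h3 := congrArg (fun t : 𝓞 K => (t : K)) h
    simp only [map_mul, map_add, map_intCast, hwα] at h3
    have h4 := uniq hα (a := a) (b := b) (a' := a') (b' := b') (by push_cast; exact h3)
    exact ⟨by exact_mod_cast h4.1, by exact_mod_cast h4.2⟩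
  have h2d : (2 : ZMod p) * (d : ZMod p) ≠ 0 := by
    refine mul_ne_zero ?_ hpd
    have : ((2 : ℕ) : ZMod p) ≠ 0 := by
      rw [Ne, ZMod.natCast_eq_zero_iff]
      intro h
      have := (Nat.prime_dvd_prime_iff_eq (Fact.out : p.Prime) Nat.prime_two).1 h
      exact hp2 this
    simpa using this
  have hone := huniq (A 1) (B 1) (2 * d) 0 (by rw [← hAB 1]; push_cast; ring)
  have hzero := huniq (A 0) (B 0) 0 0 (by rw [← hAB 0]; push_cast; ring)
  have hadd : ∀ x y, A (x + y) = A x + A y ∧ B (x + y) = B x + B y := by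
    intro x y
    apply huniq
    rw [← hAB]
    push_cast
    linear_combination hAB x + hAB y
  have hmul : ∀ x y, 2 * d * A (x * y) = A x * A y + d * (B x * B y) ∧ 2 * d * B (x * y) = A x * B y + A y * B x := by
    intro x y
    apply huniq
    push_cast
    have h3 := hAB (x * y)
    linear_combination (-2 * (d : 𝓞 K)) * h3 + (2 * (d : 𝓞 K) * y) * hAB x + ((A x : 𝓞 K) + B x * w) * hAB y + ((B x : 𝓞 K) * B y) * hw2
  set e : ZMod p := 2 * (d : ZMod p) with he
  have hee : e⁻¹ * e = 1 := inv_mul_cancel₀ h2d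
  -- the homomorphism attached to a root
  let mk : {x : ZMod p // x ^ 2 = (d : ZMod p)} → (𝓞 K →+* ZMod p) := fun x =>
    { toFun := fun β => e⁻¹ * ((A β : ZMod p) + (B β : ZMod p) * x.1)
      map_one' := by
        rw [hone.1, hone.2]; push_cast
        rw [zero_mul, add_zero]
        exact hee
      map_zero' := by rw [hzero.1, hzero.2]; push_cast; ring
      map_add' := by
        intro a b
        rw [(hadd a b).1, (hadd a b).2]; push_cast; ring
      map_mul' := by
        intro a b
        have e1 := congrArg (fun t : ℤ => (t : ZMod p)) (hmul a b).1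
        have e2 := congrArg (fun t : ℤ => (t : ZMod p)) (hmul a b).2
        push_cast at e1 e2
        rw [← he] at e1 e2
        have hx := x.2
        have hP : ((A a : ZMod p) + (B a : ZMod p) * x.1) * ((A b : ZMod p) + (B b : ZMod p) * x.1) =
            e * ((A (a * b) : ZMod p) + (B (a * b) : ZMod p) * x.1) := by
          linear_combination (-1 : ZMod p) * e1 - (x.1 : ZMod p) * e2 + ((B a : ZMod p) * B b) * hx
        linear_combination (-(e⁻¹ * ((A (a * b) : ZMod p) + (B (a * b) : ZMod p) * x.1))) * hee - e⁻¹ * e⁻¹ * hP }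
  have hmk : ∀ x, mk x w = x.1 := by
    intro x
    have h3 := huniq (A w) (B w) 0 (2 * d) (by rw [← hAB w]; push_cast; ring)
    show e⁻¹ * ((A w : ZMod p) + (B w : ZMod p) * x.1) = x.1
    rw [h3.1, h3.2]
    push_cast
    rw [← he]
    linear_combination x.1 * hee
  have hequiv : (𝓞 K →+* ZMod p) ≃ {x : ZMod p // x ^ 2 = (d : ZMod p)} :=
    { toFun := fun φ => ⟨φ w, by rw [← map_pow, hw2, map_intCast]⟩
      invFun := mk
      left_inv := by
        intro φ
        ext β
        show e⁻¹ * ((A β : ZMod p) + (B β : ZMod p) * φ w) = φ β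
        have h3 := congrArg φ (hAB β)
        simp only [map_mul, map_add, map_intCast, map_ofNat] at h3
        rw [← he] at h3
        rw [← h3]
        linear_combination φ β * hee
      right_inv := by
        intro x
        exact Subtype.ext (hmk x) }
  rw [Nat.card_congr hequiv]
  have h3 := legendreSym.card_sqrts p hp2 d
  rw [← h3]
  congr 1
  rw [Nat.card_eq_fintype_card, Set.toFinset_card]
  apply Fintype.card_congr
  exact Equiv.refl _

end Q276.OM
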