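import Mathlib

/-!
# Level one Hecke–Maass cusp forms and their twisted L-functions: definitions
-/

set_option autoImplicit false

open MeasureTheory
open scoped MatrixGroups

namespace Q276.OM

/-- A Hecke–Maass cusp form of level one (weight `0`, trivial character). -/
structure HeckeMaassForm where
  /-- the function on the upper half plane -/
  f : UpperHalfPlane → ℂ
  /-- the spectral parameter: the Laplace eigenvalue is `1/4 - ν ^ 2` -/
  ν : ℂ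
  /-- the normalised Hecke eigenvalues -/
  lam : ℕ → ℂ
  /-- `f` is not identically zero -/
  ne_zero : ∃ τ, f τ ≠ 0
  /-- `f` is smooth -/
  smooth : ContDiffOn ℝ (⊤ : ℕ∞) (fun z : ℂ => f (UpperHalfPlane.ofComplex z)) {z : ℂ | 0 < z.im}
  /-- `f` is invariant under `SL(2, ℤ)` -/
  invariant : ∀ (γ : SL(2, ℤ)) (τ : UpperHalfPlane), f (γ • τ) = f τ
  /-- `f` is an eigenfunction of the hyperbolic Laplace operator `-y² (∂²/∂x² + ∂²/∂y²)` -/
  laplace : ∀ x y : ℝ, 0 < y →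
    -(y : ℂ) ^ 2 * (iteratedDeriv 2 (fun t : ℝ => f (UpperHalfPlane.ofComplex (t + y * Complex.I))) x +
      iteratedDeriv 2 (fun t : ℝ => f (UpperHalfPlane.ofComplex (x + t * Complex.I))) y) =
    (1 / 4 - ν ^ 2) * f (UpperHalfPlane.ofComplex (x + y * Complex.I))
  /-- `f` is bounded -/
  bounded : ∃ B : ℝ, ∀ τ, ‖f τ‖ ≤ B
  /-- the constant term of the Fourier expansion of `f` vanishes -/
  cuspidal : ∀ y : ℝ, 0 < y → ∫ x in (0 : ℝ)..1, f (UpperHalfPlane.ofComplex (x + y * Complex.I)) = 0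
  /-- `f` is an eigenfunction of all Hecke operators `T_n`, `n ≥ 1`, with eigenvalue `lam n`, where
  `(T_n f)(τ) = n^{-1/2} ∑_{d ∣ n} ∑_{0 ≤ b < d} f (((n/d) τ + b) / d)` -/
  hecke : ∀ n : ℕ, 0 < n → ∀ τ : UpperHalfPlane,
    ((Real.sqrt n : ℝ) : ℂ)⁻¹ * ∑ d ∈ n.divisors, ∑ b ∈ Finset.range d,
      f (UpperHalfPlane.ofComplex ((((n / d : ℕ) : ℂ) * τ + b) / d)) = lam n * f τ

/-- `f` is odd: `f(-x + iy) = -f(x + iy)`. -/
def HeckeMaassForm.IsOdd (φ : HeckeMaassForm) : Prop :=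
  ∀ x y : ℝ, 0 < y → φ.f (UpperHalfPlane.ofComplex (-x + y * Complex.I)) = - φ.f (UpperHalfPlane.ofComplex (x + y * Complex.I))

/-- `L` is the twisted `L`-function `L(s, φ ⊗ χ)`: an entire function which for `Re s > 3/2` is the sum of the absolutely
convergent Dirichlet series `∑ lam(n) χ(n) n^{-s}`. -/
def IsTwist (φ : HeckeMaassForm) {q : ℕ} (χ : DirichletCharacter ℂ q) (L : ℂ → ℂ) : Prop :=
  Differentiable ℂ L ∧ ∀ s : ℂ, 3 / 2 < s.re →
    LSeriesSummable (fun n : ℕ => φ.lam n * χ n) s ∧ L s = LSeries (fun n : ℕ => φ.lam n * χ n) s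

/-- The functional equation of the twisted `L`-function with root number `-1`: with `δ = 0` if `χ(-1) = -1` and `δ = 1` if
`χ(-1) = 1`, the function `(q/π)^s Γ((s+δ+ν)/2) Γ((s+δ-ν)/2) L(s)` is (outside the poles of the Gamma factors) the
restriction of an entire function `Ξ` with `Ξ(1 - s) = -Ξ(s)`. -/
def FunEqMinus (φ : HeckeMaassForm) {q : ℕ} (χ : DirichletCharacter ℂ q) (L : ℂ → ℂ) : Prop :=
  ∀ δ : ℂ, (χ (-1) = -1 ∧ δ = 0) ∨ (χ (-1) = 1 ∧ δ = 1) →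
  ∃ Ξ : ℂ → ℂ, Differentiable ℂ Ξ ∧ (∀ s : ℂ, Ξ (1 - s) = - Ξ s) ∧
    ∀ s : ℂ, (∀ m : ℕ, (s + δ + φ.ν) / 2 ≠ -m ∧ (s + δ - φ.ν) / 2 ≠ -m) →
      Ξ s = ((q / Real.pi : ℝ) : ℂ) ^ s * (Complex.Gamma ((s + δ + φ.ν) / 2) * Complex.Gamma ((s + δ - φ.ν) / 2)) * L s

end Q276.OM
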