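import Pool.Agent.Q276.OM.Stmt

/-!
# Quadratic extensions of the rationals and their quadratic characters: definitions
-/

set_option autoImplicit false

open NumberField

namespace Q276.OM

/-- The set `X` of the quadratic extensions of `ℚ` (every quadratic extension of `ℚ` is isomorphic to exactly one subfield
of `ℂ`). -/
abbrev QuadExt := {E : IntermediateField ℚ ℂ // Module.finrank ℚ E = 2}

noncomputable instance (E : QuadExt) : NumberField E.1 where
  to_charZero := inferInstance
  to_finiteDimensional := FiniteDimensional.of_finrank_pos (by rw [E.2]; norm_num)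

/-- `|Δ_E|`, the absolute value of the discriminant of `E` -/
noncomputable def absDisc (E : QuadExt) : ℝ := |(discr E.1 : ℝ)|

/-- `χ` (a Dirichlet character modulo `q`) is the quadratic character `η_E` attached to `E` by class field theory: it is
primitive and for almost all primes `p` we have `χ(p) = 1` if `p` splits in `E` and `χ(p) = -1` if `p` is inert in `E`; in
other words `1 + χ(p)` is the number of the prime ideals of `𝓞 E` of norm `p`, which is the number of the ring homomorphisms
from `𝓞 E` to the field with `p` elements. -/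
def IsEta (E : QuadExt) {q : ℕ} (χ : DirichletCharacter ℂ q) : Prop :=
  0 < q ∧ χ.IsPrimitive ∧ ∃ N : ℕ, ∀ p : ℕ, p.Prime → N ≤ p → χ p = (Nat.card (𝓞 E.1 →+* ZMod p) : ℂ) - 1

/-- The central value `L(1/2, φ ⊗ η_E)` is not zero. -/
def CentralNonzero (φ : HeckeMaassForm) (E : QuadExt) : Prop :=
  ∃ (q : ℕ) (χ : DirichletCharacter ℂ q) (L : ℂ → ℂ), IsEta E χ ∧ IsTwist φ χ L ∧ L (1 / 2) ≠ 0

/-- `N(x)`, the number of the quadratic extensions `E` of `ℚ` with `|Δ_E| < x` -/
noncomputable def countAll (x : ℝ) : ℕ := Nat.card {E : QuadExt // absDisc E < x}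

/-- `N_φ(x)`, the number of the quadratic extensions `E` of `ℚ` with `|Δ_E| < x` and `L(1/2, φ ⊗ η_E) ≠ 0` -/
noncomputable def countNonzero (φ : HeckeMaassForm) (x : ℝ) : ℕ :=
  Nat.card {E : QuadExt // absDisc E < x ∧ CentralNonzero φ E}

end Q276.OM
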