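import Pool.Agent.Q276.OM.FE
import Pool.Agent.Q276.OM.Stmt

/-!
# Level one odd Hecke–Maass forms: existence, and all quadratic twists have root number `-1`
-/

set_option autoImplicit false

open MeasureTheory Filter Topology Set
open UpperHalfPlane
open scoped MatrixGroups

namespace Q276.OM

lemma iter_two (g : ℝ → ℂ) : iteratedDeriv 2 g = deriv (deriv g) := by
  rw [iteratedDeriv_succ, iteratedDeriv_one]

lemma deriv2_shift (g : ℝ → ℂ) (a : ℝ) : deriv (deriv (fun t : ℝ => g (a + t))) 0 = deriv (deriv g) a := by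
  have h1 : deriv (fun t : ℝ => g (a + t)) = fun t => deriv g (a + t) := by
    funext t; exact deriv_comp_const_add g a t
  rw [h1, deriv_comp_const_add, add_zero]

lemma lap_iff {g : ℂ → ℂ} (x y : ℝ) :
    iteratedDeriv 2 (fun t : ℝ => g (t + y * Complex.I)) x + iteratedDeriv 2 (fun t : ℝ => g (x + t * Complex.I)) y =
    deriv (deriv (fun t : ℝ => g (((x : ℂ) + y * Complex.I) + t))) 0 + deriv (deriv (fun t : ℝ => g (((x : ℂ) + y * Complex.I) + t * Complex.I))) 0 := by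
  have h1 : (fun t : ℝ => g (((x : ℂ) + y * Complex.I) + t)) = fun t : ℝ => (fun s : ℝ => g (s + y * Complex.I)) (x + t) := by
    funext t
    simp only
    congr 1
    push_cast; ring
  have h2 : (fun t : ℝ => g (((x : ℂ) + y * Complex.I) + t * Complex.I)) = fun t : ℝ => (fun s : ℝ => g (x + s * Complex.I)) (y + t) := by
    funext t
    simp only
    congr 1
    push_cast; ring
  rw [h1, h2, deriv2_shift (fun s : ℝ => g (s + y * Complex.I)) x, deriv2_shift (fun s : ℝ => g (x + s * Complex.I)) y, iter_two, iter_two]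

lemma smul_formula (γ : SL(2, ℤ)) (τ : ℍ) : ((γ • τ : ℍ) : ℂ) =
    (((γ 0 0 : ℤ) : ℂ) * τ + ((γ 0 1 : ℤ) : ℂ)) / (((γ 1 0 : ℤ) : ℂ) * τ + ((γ 1 1 : ℤ) : ℂ)) := by
  rw [coe_specialLinearGroup_apply]
  simp

/-- from `HeckeMaassForm` to the working structure -/
theorem HeckeMaassForm.toMF (φ : HeckeMaassForm) (hodd : φ.IsOdd) :
    MF (ext φ.f) (1 / 4 - φ.ν ^ 2) (fun n => ((Real.sqrt n : ℝ) : ℂ) * φ.lam n) := by
  refine ⟨φ.smooth, ?_, ?_, ?_, ?_, ?_, ?_⟩
  · intro g z hz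
    have h1 := φ.invariant g ⟨z, hz⟩
    have h2 := ext_of φ.f (g • (⟨z, hz⟩ : ℍ)) (smul_formula g ⟨z, hz⟩)
    have h3 := ext_of φ.f (⟨z, hz⟩ : ℍ) (w := z) rfl
    rw [h3, ← h1, ← h2]
  · intro z hz
    have h1 := hodd z.re z.im hz
    have h2 : -(starRingEnd ℂ) z = -(z.re : ℂ) + z.im * Complex.I := by
      apply Complex.ext <;> simp
    have h3 : ((z.re : ℝ) : ℂ) + z.im * Complex.I = z := Complex.re_add_im z
    unfold ext
    rw [h2, h1, h3]
  · intro z hz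
    have h1 := φ.laplace z.re z.im hz
    have h2 := lap_iff (g := ext φ.f) z.re z.im
    unfold ext at h2
    rw [h2] at h1
    have h3 : ((z.re : ℝ) : ℂ) + z.im * Complex.I = z := Complex.re_add_im z
    rw [h3] at h1
    exact h1
  · obtain ⟨B, hB⟩ := φ.bounded
    exact ⟨B, fun z _ => hB _⟩
  · obtain ⟨τ, hτ⟩ := φ.ne_zero
    refine ⟨τ, τ.im_pos, ?_⟩
    rw [ext_coe]; exact hτ
  · intro n hn z hz
    have h1 := φ.hecke n hn ⟨z, hz⟩
    have h3 := ext_of φ.f (⟨z, hz⟩ : ℍ) (w := z) rfl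
    have h4 : To n (ext φ.f) z = ∑ d ∈ n.divisors, ∑ b ∈ Finset.range d,
      φ.f (UpperHalfPlane.ofComplex ((((n / d : ℕ) : ℂ) * z + b) / d)) := To_eq _ _ _
    have h5 := sqrtc_ne hn
    rw [h4, h3, mul_assoc, ← h1, mul_inv_cancel_left₀ h5]

/-- existence of odd forms -/
theorem exists_odd : ∃ φ : HeckeMaassForm, φ.IsOdd := by
  obtain ⟨f, Λ, c, h⟩ := exists_MF
  obtain ⟨ν, hν⟩ := exists_nu Λ
  set F : ℍ → ℂ := fun τ => f τ with hF
  have hext : ∀ z : ℂ, 0 < z.im → F (ofComplex z) = f z := by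
    intro z hz
    simp only [hF]
    rw [ofComplex_coe' z hz]
  have hxy : ∀ x y : ℝ, 0 < y → F (ofComplex (x + y * Complex.I)) = f (x + y * Complex.I) := fun x y hy =>
    hext _ (mem_Up hy)
  refine ⟨⟨F, ν, fun n => c n / ((Real.sqrt n : ℝ) : ℂ), ?_, ?_, ?_, ?_, ?_, ?_, ?_⟩, ?_⟩
  · obtain ⟨z, hz, hz0⟩ := h.ne
    exact ⟨⟨z, hz⟩, hz0⟩
  · exact h.smooth.congr (fun z hz => hext z hz)
  · intro γ τ
    simp only [hF]
    rw [smul_formula]
    exact h.sl γ τ τ.im_pos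
  · intro x y hy
    have e1 : (fun t : ℝ => F (ofComplex (t + y * Complex.I))) = fun t : ℝ => f (t + y * Complex.I) := by
      funext t; exact hxy t y hy
    have e2 : iteratedDeriv 2 (fun t : ℝ => F (ofComplex (x + t * Complex.I))) y = iteratedDeriv 2 (fun t : ℝ => f (x + t * Complex.I)) y := by
      rw [iter_two, iter_two]
      apply Filter.EventuallyEq.deriv_eq
      apply Filter.EventuallyEq.deriv
      filter_upwards [Ioi_mem_nhds hy] with t ht
      exact hxy x t ht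
    rw [e1, e2, lap_iff, hxy x y hy]
    have h1 := h.lap _ (mem_Up (x := x) hy)
    have h2 : ((x : ℂ) + y * Complex.I).im = y := by simp
    rw [h2] at h1
    have h3 : (1 : ℂ) / 4 - ν ^ 2 = Λ := by rw [hν]; ring
    rw [h3]
    exact h1
  · obtain ⟨B, hB⟩ := h.bdd
    exact ⟨B, fun τ => hB τ τ.im_pos⟩
  · intro y hy
    have h1 := h.W_zero hy
    unfold W co at h1
    rw [← h1]
    refine intervalIntegral.integral_congr (fun x _ => ?_)
    simp only
    rw [hxy x y hy]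
    simp
  · intro n hn τ
    have h1 := h.hecke n hn τ τ.im_pos
    have h4 : ∑ d ∈ n.divisors, ∑ b ∈ Finset.range d, F (ofComplex ((((n / d : ℕ) : ℂ) * τ + b) / d)) = To n f τ := by
      rw [To_eq]
      refine Finset.sum_congr rfl (fun d hd => Finset.sum_congr rfl (fun b _ => ?_))
      have hd' := Nat.mem_divisors.1 hd
      have hdpos : 0 < d := Nat.pos_of_mem_divisors hd
      have hnd : 0 < n / d := Nat.div_pos (Nat.le_of_dvd hn hd'.1) hdpos
      exact hext _ (im_div_pos (im_mul_pos τ.im_pos hnd) _ (by simp) hdpos)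
    rw [h4, h1]
    simp only [hF]
    ring
  · intro x y hy
    show F _ = - F _
    have e1 : (-(x : ℂ) + y * Complex.I) = (((-x : ℝ) : ℂ) + y * Complex.I) := by push_cast; ring
    rw [e1, hxy _ y hy, hxy x y hy]
    have e2 := h.odd _ (mem_Up (x := x) hy)
    rw [← e2]
    congr 1
    simp only [map_add, map_mul, Complex.conj_ofReal, Complex.conj_I]
    push_cast; ring

/-- Every quadratic twist of an odd form of level one has root number `-1`. -/
theorem twist_main (φ : HeckeMaassForm) (hodd : φ.IsOdd) {q : ℕ} (hq : 0 < q) (χ : DirichletCharacter ℂ q)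
    (hp : χ.IsPrimitive) (h2 : χ ^ 2 = 1) (hne : χ ≠ 1) :
    ∃ L : ℂ → ℂ, IsTwist φ χ L ∧ FunEqMinus φ χ L ∧ L (1 / 2) = 0 := by
  have : NeZero q := ⟨hq.ne'⟩
  have h := φ.toMF hodd
  obtain ⟨c₀, hc₀, hW⟩ := h.W_one (ν := φ.ν) (by ring)
  have hcoef : ∀ s : ℂ, (LSeriesSummable (tc (fun n => ((Real.sqrt n : ℝ) : ℂ) * φ.lam n) χ) s ↔
      LSeriesSummable (fun n : ℕ => φ.lam n * χ n) s) ∧
      LSeries (tc (fun n => ((Real.sqrt n : ℝ) : ℂ) * φ.lam n) χ) s = LSeries (fun n : ℕ => φ.lam n * χ n) s := by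
    intro s
    have e : ∀ {n : ℕ}, n ≠ 0 → tc (fun n => ((Real.sqrt n : ℝ) : ℂ) * φ.lam n) χ n = φ.lam n * χ n := by
      intro n hn
      unfold tc
      rw [mul_div_cancel_left₀ _ (sqrtc_ne (Nat.pos_of_ne_zero hn))]
    exact ⟨LSeriesSummable_congr s e, LSeries_congr e s⟩
  have hsgn : χ (-1) = -1 ∨ χ (-1) = 1 := by
    have h3 : χ (-1) * χ (-1) = 1 := by
      rw [← map_mul]; simp
    have h4 : (χ (-1) + 1) * (χ (-1) - 1) = 0 := by linear_combination h3
    rcases mul_eq_zero.1 h4 with h5 | h5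
    · left; linear_combination h5
    · right; linear_combination h5
  have hΓ : ∀ w : ℂ, (∀ m : ℕ, w ≠ -m) → Complex.Gamma w ≠ 0 := fun w hw => Complex.Gamma_ne_zero hw
  rcases hsgn with hm | hm
  · obtain ⟨L, Ξ, h1, h2', h3, h4, h5, h6⟩ := h.twist_odd hc₀ hW hp h2 hm
    refine ⟨L, ⟨h1, fun s hs => ⟨(hcoef s).1.1 (h3 s hs).1, (h3 s hs).2.trans (hcoef s).2⟩⟩, ?_, h6⟩
    rintro δ (⟨_, rfl⟩ | ⟨hm', _⟩)
    · exact ⟨Ξ, h2', h5, fun s hs => h4 s (hΓ _ fun m => (hs m).1) (hΓ _ fun m => (hs m).2)⟩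
    · rw [hm] at hm'
      norm_num at hm'
  · obtain ⟨L, Ξ, h1, h2', h3, h4, h5, h6⟩ := h.twist_even hc₀ hW hp h2 hne hm
    refine ⟨L, ⟨h1, fun s hs => ⟨(hcoef s).1.1 (h3 s hs).1, (h3 s hs).2.trans (hcoef s).2⟩⟩, ?_, h6⟩
    rintro δ (⟨hm', _⟩ | ⟨_, rfl⟩)
    · rw [hm] at hm'
      norm_num at hm'
    · exact ⟨Ξ, h2', h5, fun s hs => h4 s (hΓ _ fun m => (hs m).1) (hΓ _ fun m => (hs m).2)⟩

end Q276.OM
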