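import Pool.Agent.Q276.OM.Top
import Pool.Agent.Q276.OM.FE2
import Pool.Agent.Q276.OM.StmtF
import Pool.Agent.Q276.OM.Eta

/-!
# All twists of odd forms of level one by characters of quadratic fields vanish at the centre
-/

set_option autoImplicit false

open MeasureTheory Filter Topology Set NumberField
open UpperHalfPlane
open scoped MatrixGroups

namespace Q276.OM

/-- Every twist of an odd form of level one by a character `χ` with `χ² = 1` has root number `-1`. -/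
theorem twist_main' (φ : HeckeMaassForm) (hodd : φ.IsOdd) {q : ℕ} (hq : 0 < q) (χ : DirichletCharacter ℂ q)
    (hp : χ.IsPrimitive) (h2 : χ ^ 2 = 1) :
    ∃ L : ℂ → ℂ, IsTwist φ χ L ∧ FunEqMinus φ χ L ∧ L (1 / 2) = 0 := by
  have : NeZero q := ⟨hq.ne'⟩
  have h := φ.toMF hodd
  obtain ⟨c₀, hc₀, hW⟩ := h.W_one (ν := φ.ν) (by ring)
  have hcoef : ∀ s : ℂ, (LSeriesSummable (tc (fun n => ((Real.sqrt n : ℝ) : ℂ) * φ.lam n) χ) s ↔
      LSeriesSummable (fun n : ℕ => φ.lam n * χ n) s) ∧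
      LSeries (tc (fun n => ((Real.sqrt n : ℝ) : ℂ) * φ.lam n) χ) s = LSeries (fun n : ℕ => φ.lam n * χ n) s := by
    intro s
    have e : ∀ {n : ℕ}, n ≠ 0 → tc (fun n => ((Real.sqrt n : ℝ) : ℂ) * φ.lam n) χ n = φ.lam n * χ n := by
      intro n hn
      unfold tc
      rw [mul_div_cancel_left₀ _ (sqrtc_ne (Nat.pos_of_ne_zero hn))]
    exact ⟨LSeriesSummable_congr s e, LSeries_congr e s⟩
  have hsgn : χ (-1) = -1 ∨ χ (-1) = 1 := by
    have h3 : χ (-1) * χ (-1) = 1 := by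
      rw [← map_mul]; simp
    have h4 : (χ (-1) + 1) * (χ (-1) - 1) = 0 := by linear_combination h3
    rcases mul_eq_zero.1 h4 with h5 | h5
    · left; linear_combination h5
    · right; linear_combination h5
  have hΓ : ∀ w : ℂ, (∀ m : ℕ, w ≠ -m) → Complex.Gamma w ≠ 0 := fun w hw => Complex.Gamma_ne_zero hw
  rcases hsgn with hm | hm
  · obtain ⟨L, Ξ, h1, h2', h3, h4, h5, h6⟩ := h.twist_odd hc₀ hW hp h2 hm
    refine ⟨L, ⟨h1, fun s hs => ⟨(hcoef s).1.1 (h3 s hs).1, (h3 s hs).2.trans (hcoef s).2⟩⟩, ?_, h6⟩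
    rintro δ (⟨_, rfl⟩ | ⟨hm', _⟩)
    · exact ⟨Ξ, h2', h5, fun s hs => h4 s (hΓ _ fun m => (hs m).1) (hΓ _ fun m => (hs m).2)⟩
    · rw [hm] at hm'
      norm_num at hm'
  · obtain ⟨L, Ξ, h1, h2', h3, h4, h5, h6⟩ := h.twist_even0 (by simp) hc₀ hW hp h2 hm
    refine ⟨L, ⟨h1, fun s hs => ⟨(hcoef s).1.1 (h3 s hs).1, (h3 s hs).2.trans (hcoef s).2⟩⟩, ?_, h6⟩
    rintro δ (⟨hm', _⟩ | ⟨_, rfl⟩)
    · rw [hm] at hm'
      norm_num at hm'
    · exact ⟨Ξ, h2', h5, fun s hs => h4 s (hΓ _ fun m => (hs m).1) (hΓ _ fun m => (hs m).2)⟩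

lemma IsTwist.unique {φ : HeckeMaassForm} {q : ℕ} {χ : DirichletCharacter ℂ q} {L L' : ℂ → ℂ} (h : IsTwist φ χ L)
    (h' : IsTwist φ χ L') : L = L' := by
  have h1 : AnalyticOnNhd ℂ L univ := fun z _ => h.1.analyticAt z
  have h2 : AnalyticOnNhd ℂ L' univ := fun z _ => h'.1.analyticAt z
  apply h1.eq_of_eventuallyEq h2 (z₀ := (2 : ℂ))
  have h3 : {z : ℂ | 3 / 2 < z.re} ∈ 𝓝 (2 : ℂ) := by
    apply (isOpen_lt continuous_const Complex.continuous_re).mem_nhds
    show (3 / 2 : ℝ) < (2 : ℂ).re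
    norm_num
  filter_upwards [h3] with z hz
  rw [(h.2 z hz).2, (h'.2 z hz).2]

lemma eta_sq {E : QuadExt} {q : ℕ} {χ : DirichletCharacter ℂ q} (h : IsEta E χ) : χ ^ 2 = 1 := by
  obtain ⟨hq, -, N, hN⟩ := h
  have : NeZero q := ⟨hq.ne'⟩
  obtain ⟨q', χ', -, -, N', hN'⟩ := exists_eta_aux E.1 E.2
  apply MulChar.ext
  intro a
  obtain ⟨p, hp1, hp2, hp3⟩ := Nat.forall_exists_prime_gt_and_eq_mod a.isUnit (max N N')
  have e1 := hN p hp2 ((le_max_left _ _).trans hp1.le)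
  obtain ⟨e2, e3⟩ := hN' p hp2 ((le_max_right _ _).trans hp1.le)
  rw [MulChar.pow_apply_coe, MulChar.one_apply_coe, ← hp3, e1, ← e2, e3]

theorem exists_eta (E : QuadExt) : ∃ (q : ℕ) (χ : DirichletCharacter ℂ q), IsEta E χ := by
  obtain ⟨q, χ, h1, h2, N, hN⟩ := exists_eta_aux E.1 E.2
  exact ⟨q, χ, h1, h2, N, fun p hp hpN => (hN p hp hpN).1⟩

theorem twist_eta (φ : HeckeMaassForm) (hodd : φ.IsOdd) (E : QuadExt) (q : ℕ) (χ : DirichletCharacter ℂ q) (h : IsEta E χ) :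
    ∃ L : ℂ → ℂ, IsTwist φ χ L ∧ FunEqMinus φ χ L ∧ L (1 / 2) = 0 :=
  twist_main' φ hodd h.1 χ h.2.1 (eta_sq h)

theorem not_centralNonzero (φ : HeckeMaassForm) (hodd : φ.IsOdd) (E : QuadExt) : ¬ CentralNonzero φ E := by
  rintro ⟨q, χ, L, h1, h2, h3⟩
  obtain ⟨L', h4, -, h5⟩ := twist_eta φ hodd E q χ h1
  rw [h2.unique h4] at h3
  exact h3 h5

theorem countNonzero_eq (φ : HeckeMaassForm) (hodd : φ.IsOdd) (x : ℝ) : countNonzero φ x = 0 := by
  unfold countNonzero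
  have : IsEmpty {E : QuadExt // absDisc E < x ∧ CentralNonzero φ E} :=
    ⟨fun E => not_centralNonzero φ hodd E.1 E.2.2⟩
  exact Nat.card_of_isEmpty

theorem finite_quad (x : ℝ) : Finite {E : QuadExt // absDisc E < x} := by
  have h1 := NumberField.finite_of_discr_bdd ℂ (⌈x⌉₊)
  have h2 := h1.to_subtype
  refine Finite.of_injective (β := {K : { F : IntermediateField ℚ ℂ // FiniteDimensional ℚ F} |
      haveI :  NumberField K := @NumberField.mk _ _ inferInstance K.prop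
      |discr K| ≤ ⌈x⌉₊ }) (fun E => ⟨⟨E.1.1, (inferInstance : NumberField E.1.1).to_finiteDimensional⟩, ?_⟩) ?_
  · have h3 := E.2
    unfold absDisc at h3
    have h4 := h3.le.trans (Nat.le_ceil x)
    exact_mod_cast h4
  · intro E E' h
    have := congrArg (fun t => t.1.1) h
    exact Subtype.ext (Subtype.ext this)

lemma exists_quad : Nonempty QuadExt := by
  set f : Polynomial ℚ := Polynomial.X ^ 2 + 1 with hf
  have hdeg : f.natDegree = 2 := by rw [hf]; compute_degree!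
  have hmon : f.Monic := by rw [hf]; monicity!
  have hroot : Polynomial.aeval Complex.I f = 0 := by
    rw [hf]; simp
  have hir : Irreducible f := by
    refine Polynomial.irreducible_of_degree_le_three_of_not_isRoot (by rw [hdeg]; simp) ?_
    intro q hq
    rw [Polynomial.IsRoot.def, hf] at hq
    simp only [Polynomial.eval_add, Polynomial.eval_pow, Polynomial.eval_X, Polynomial.eval_one] at hq
    have : 0 ≤ q ^ 2 := sq_nonneg q
    linarith
  have hmin := minpoly.eq_of_irreducible_of_monic hir hroot hmon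
  have hint : IsIntegral ℚ Complex.I := ⟨f, hmon, by rw [← Polynomial.aeval_def]; exact hroot⟩
  exact ⟨⟨IntermediateField.adjoin ℚ {Complex.I}, by
    rw [IntermediateField.adjoin.finrank hint, ← hmin, hdeg]⟩⟩

theorem countAll_pos : ∀ᶠ x : ℝ in atTop, 0 < countAll x := by
  obtain ⟨E⟩ := exists_quad
  filter_upwards [eventually_gt_atTop (absDisc E)] with x hx
  have := finite_quad x
  have h2 : Nonempty {E : QuadExt // absDisc E < x} := ⟨⟨E, hx⟩⟩
  exact Nat.card_pos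

end Q276.OM
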