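import Pool.Agent.Q276.OM.MelW

/-!
# Twists by primitive quadratic characters: Gauss sums and the inversion formula
-/

set_option autoImplicit false

open MeasureTheory Filter Topology Set
open scoped MatrixGroups

namespace Q276.OM

variable {q : ℕ} [NeZero q] {χ : DirichletCharacter ℂ q}

lemma chi_inv (h2 : χ ^ 2 = 1) : χ⁻¹ = χ := by
  rw [pow_two] at h2
  exact inv_eq_of_mul_eq_one_right h2

lemma q_ne_one (hne : χ ≠ 1) : q ≠ 1 := by
  rintro rfl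
  exact hne (DirichletCharacter.level_one _)

lemma gsum (hp : χ.IsPrimitive) (h2 : χ ^ 2 = 1) (a : ZMod q) :
    ∑ u : ZMod q, χ u * ZMod.stdAddChar (a * u) = χ a * gaussSum χ ZMod.stdAddChar := by
  have := gaussSum_mulShift_of_isPrimitive (ZMod.stdAddChar (N := q)) hp a
  rw [chi_inv h2] at this
  rw [← this]
  rfl

lemma tau_ne (hp : χ.IsPrimitive) : gaussSum χ ZMod.stdAddChar ≠ 0 := by
  intro h0
  have h1 : ZMod.dft (χ : ZMod q → ℂ) = 0 := by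
    funext k
    rw [DirichletCharacter.IsPrimitive.fourierTransform_eq_inv_mul_gaussSum hp k, h0, mul_zero]
    rfl
  have h2 : (χ : ZMod q → ℂ) = 0 := by
    have := (ZMod.dft (N := q) (E := ℂ)).injective (a₁ := (χ : ZMod q → ℂ)) (a₂ := 0) (by rw [h1, map_zero])
    exact this
  have h3 := congrFun h2 1
  rw [map_one] at h3
  exact one_ne_zero h3

lemma exp_std (n : ℕ) (u : ZMod q) :
    Complex.exp (2 * Real.pi * Complex.I * n * ((u.val / q : ℝ) : ℂ)) = ZMod.stdAddChar ((n : ZMod q) * u) := by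
  have h1 : (n : ZMod q) * u = (((n : ℤ) * (u.val : ℤ) : ℤ) : ZMod q) := by
    push_cast
    rw [ZMod.natCast_zmod_val]
  rw [h1, ZMod.stdAddChar_coe]
  congr 1
  push_cast
  ring

lemma exp_std_neg (n : ℕ) (u : ZMod q) :
    Complex.exp (-(2 * Real.pi * Complex.I * n * ((u.val / q : ℝ) : ℂ))) = ZMod.stdAddChar ((-n : ZMod q) * u) := by
  have h1 : (-n : ZMod q) * u = ((-(n : ℤ) * (u.val : ℤ) : ℤ) : ZMod q) := by
    push_cast
    rw [ZMod.natCast_zmod_val]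
  rw [h1, ZMod.stdAddChar_coe]
  congr 1
  push_cast
  ring

lemma sum_units (F : ZMod q → ℂ) (hF : ∀ u, ¬ IsUnit u → F u = 0) :
    ∑ u : ZMod q, F u = ∑ u : (ZMod q)ˣ, F u := by
  symm
  apply Fintype.sum_of_injective (fun u : (ZMod q)ˣ => (u : ZMod q)) Units.val_injective
  · intro i hi
    apply hF
    rintro ⟨v, hv⟩
    exact hi ⟨v, hv⟩
  · intro i; rfl

/-- reindexing by `u ↦ -u⁻¹` -/
lemma sum_flip (h2 : χ ^ 2 = 1) (F G : ZMod q → ℂ) (hFG : ∀ u : (ZMod q)ˣ, F u = G (-((u⁻¹ : (ZMod q)ˣ) : ZMod q))) :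
    ∑ u : ZMod q, χ u * F u = χ (-1) * ∑ u : ZMod q, χ u * G u := by
  rw [sum_units (fun u => χ u * F u) (fun u hu => by rw [χ.map_nonunit hu, zero_mul]),
    sum_units (fun u => χ u * G u) (fun u hu => by rw [χ.map_nonunit hu, zero_mul])]
  rw [Finset.mul_sum]
  let e : (ZMod q)ˣ ≃ (ZMod q)ˣ := (Equiv.inv _).trans (Equiv.neg _)
  rw [← Equiv.sum_comp e (fun u : (ZMod q)ˣ => χ (-1) * (χ u * G u))]
  refine Finset.sum_congr rfl (fun u _ => ?_)
  have he : ((e u : (ZMod q)ˣ) : ZMod q) = -((u⁻¹ : (ZMod q)ˣ) : ZMod q) := by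
    simp [e]
  rw [he, hFG u, ← mul_assoc, ← map_mul]
  congr 1
  have h3 : (-1 : ZMod q) * -((u⁻¹ : (ZMod q)ˣ) : ZMod q) = ((u⁻¹ : (ZMod q)ˣ) : ZMod q) := by ring
  rw [h3]
  have h4 := MulChar.inv_apply_eq_inv' χ (u : ZMod q)
  have h5 : χ ((u⁻¹ : (ZMod q)ˣ) : ZMod q) = χ⁻¹ (u : ZMod q) := by
    rw [MulChar.inv_apply]
    congr 1
    exact (Ring.inverse_unit u).symm
  rw [h5, chi_inv h2]

/-- the Möbius transformation attached to a unit modulo `q` -/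
lemma exists_gamma (u : (ZMod q)ˣ) : ∃ g : SL(2, ℤ), g 1 0 = (q : ℤ) ∧ g 1 1 = -((u : ZMod q).val : ℤ) ∧
    ((g 0 0 : ℤ) : ZMod q) = -((u⁻¹ : (ZMod q)ˣ) : ZMod q) := by
  have hc : Nat.Coprime (u : ZMod q).val q := ZMod.val_coe_unit_coprime u
  have hc' : IsCoprime (((u : ZMod q).val : ℕ) : ℤ) (q : ℤ) := Nat.isCoprime_iff_coprime.2 hc
  obtain ⟨a, b, hab⟩ := hc'
  refine ⟨⟨!![-a, -b; (q : ℤ), -((u : ZMod q).val : ℤ)], ?_⟩, ?_, ?_, ?_⟩
  · rw [Matrix.det_fin_two_of]; linarith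
  · simp
  · simp
  · have h1 : (a : ZMod q) * (u : ZMod q) = 1 := by
      have := congrArg (fun t : ℤ => (t : ZMod q)) hab
      simp only [Int.cast_add, Int.cast_mul, Int.cast_natCast, ZMod.natCast_zmod_val, CharP.cast_eq_zero, mul_zero,
        add_zero, Int.cast_one] at this
      exact this
    have h2 : (a : ZMod q) = ((u⁻¹ : (ZMod q)ˣ) : ZMod q) := by
      have := congrArg (fun t => t * ((u⁻¹ : (ZMod q)ˣ) : ZMod q)) h1
      simpa [mul_assoc] using this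
    simp [h2]

variable {f : ℂ → ℂ} {Λ : ℂ} {c : ℕ → ℂ}

lemma qne : (q : ℂ) ≠ 0 := by exact_mod_cast (NeZero.ne q)

/-- action on the points `(t i + u) / q` -/
lemma gamma_act {g : SL(2, ℤ)} {u0 : ℤ} (h1 : g 1 0 = (q : ℤ)) (h2 : g 1 1 = -u0) {t : ℝ} (ht : 0 < t) :
    (((g 0 0 : ℤ) : ℂ) * ((t * Complex.I + u0) / q) + ((g 0 1 : ℤ) : ℂ)) / (((g 1 0 : ℤ) : ℂ) * ((t * Complex.I + u0) / q) + ((g 1 1 : ℤ) : ℂ)) =
      (((t⁻¹ : ℝ) : ℂ) * Complex.I + (g 0 0 : ℤ)) / q := by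
  have hdet : g 0 0 * g 1 1 - g 0 1 * g 1 0 = 1 := by
    have := g.det_coe
    rwa [Matrix.det_fin_two] at this
  rw [h1, h2] at hdet
  have hq := qne (q := q)
  have ht' : (t : ℂ) ≠ 0 := by exact_mod_cast ht.ne'
  have hdet' : ((g 0 0 : ℤ) : ℂ) * -(u0 : ℂ) - ((g 0 1 : ℤ) : ℂ) * (q : ℂ) = 1 := by exact_mod_cast hdet
  rw [h1, h2]
  have e1 : (((q : ℤ) : ℤ) : ℂ) * ((t * Complex.I + u0) / q) + ((-u0 : ℤ) : ℂ) = t * Complex.I := by
    push_cast
    field_simp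
    ring
  rw [e1]
  have hI : Complex.I ≠ 0 := Complex.I_ne_zero
  push_cast
  field_simp
  have hI2 := Complex.I_sq
  linear_combination (-1 : ℂ) * hdet' - hI2

end Q276.OM
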