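import Pool.Agent.Q276.OM.Tw

/-!
# Twisted theta-type functions: inversion formulas and series
-/

set_option autoImplicit false

open MeasureTheory Filter Topology Set
open scoped MatrixGroups

namespace Q276.OM

variable {q : ℕ} [NeZero q] {χ : DirichletCharacter ℂ q}
variable {f : ℂ → ℂ} {Λ : ℂ} {c : ℕ → ℂ}

lemma pt_eq (t : ℝ) (u : ZMod q) : (t * Complex.I + (u.val : ℂ)) / (q : ℂ) = ((u.val / q : ℝ) : ℂ) + ((t / q : ℝ) : ℂ) * Complex.I := by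
  push_cast
  ring

lemma pt_im {t : ℝ} (ht : 0 < t) (r : ℝ) : 0 < ((t * Complex.I + (r : ℂ)) / (q : ℂ)).im := by
  have h : (t * Complex.I + (r : ℂ)) / (q : ℂ) = ((r / q : ℝ) : ℂ) + ((t / q : ℝ) : ℂ) * Complex.I := by
    push_cast
    ring
  have hq : (0:ℝ) < q := by exact_mod_cast Nat.pos_of_ne_zero (NeZero.ne q)
  rw [h]
  exact mem_Up (by positivity)

lemma MF.Gs_inv (h : MF f Λ c) {t : ℝ} (ht : 0 < t) (u : (ZMod q)ˣ) :
    Gs f q (t * Complex.I) (u : ZMod q) = Gs f q (((t⁻¹ : ℝ) : ℂ) * Complex.I) (-((u⁻¹ : (ZMod q)ˣ) : ZMod q)) := by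
  obtain ⟨g, g1, g2, g3⟩ := exists_gamma u
  have hq : 0 < q := Nat.pos_of_ne_zero (NeZero.ne q)
  have h1 := gamma_act (q := q) g1 g2 ht
  have hz : 0 < ((t * Complex.I + (((u : ZMod q).val : ℤ) : ℂ)) / (q : ℂ)).im := by
    have := pt_im (q := q) ht ((u : ZMod q).val : ℝ)
    push_cast at this ⊢
    exact this
  have h2 := h.sl g _ hz
  rw [h1, Gs_int h.per hq (((t⁻¹ : ℝ) : ℂ) * Complex.I) (by simpa using ht), g3] at h2
  rw [h2]
  unfold Gs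
  push_cast
  rfl

lemma MF.per_Dx (h : MF f Λ c) : Per (Dx f) := by
  intro z hz
  have h1 := periodic_Dx h.smooth hz (h.periodic hz) z.re
  simp only [Complex.ofReal_add, Complex.ofReal_one] at h1
  rw [Complex.re_add_im] at h1
  rw [← h1]
  congr 1
  conv_lhs => rw [← Complex.re_add_im z]
  ring

lemma MF.Gs_inv_Dx (h : MF f Λ c) {t : ℝ} (ht : 0 < t) (u : (ZMod q)ˣ) :
    Gs (Dx f) q (t * Complex.I) (u : ZMod q) = -((t : ℂ) ^ 2)⁻¹ * Gs (Dx f) q (((t⁻¹ : ℝ) : ℂ) * Complex.I) (-((u⁻¹ : (ZMod q)ˣ) : ZMod q)) := by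
  obtain ⟨g, g1, g2, g3⟩ := exists_gamma u
  have hq : 0 < q := Nat.pos_of_ne_zero (NeZero.ne q)
  have hqc := qne (q := q)
  have ht' : (t : ℂ) ≠ 0 := by exact_mod_cast ht.ne'
  have h1 := gamma_act (q := q) g1 g2 ht
  set u0 : ℤ := ((u : ZMod q).val : ℤ) with hu0
  set z : ℂ := (t * Complex.I + (u0 : ℂ)) / (q : ℂ) with hzdef
  have hz : 0 < z.im := by
    have := pt_im (q := q) ht ((u : ZMod q).val : ℝ)
    rw [hzdef, hu0]
    push_cast at this ⊢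
    exact this
  set z' : ℂ := (((t⁻¹ : ℝ) : ℂ) * Complex.I + (g 0 0 : ℤ)) / q with hz'def
  have hz' : 0 < z'.im := by
    have := pt_im (q := q) (inv_pos.2 ht) ((g 0 0 : ℤ) : ℝ)
    rw [hz'def]
    push_cast at this ⊢
    exact this
  set γ : ℝ → ℂ := fun x => (((g 0 0 : ℤ) : ℂ) * (z + x) + ((g 0 1 : ℤ) : ℂ)) / (((g 1 0 : ℤ) : ℂ) * (z + x) + ((g 1 1 : ℤ) : ℂ)) with hγ
  have hden : ((g 1 0 : ℤ) : ℂ) * z + ((g 1 1 : ℤ) : ℂ) = t * Complex.I := by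
    rw [g1, g2, hzdef]
    push_cast
    field_simp
    ring
  have hdet : ((g 0 0 : ℤ) : ℂ) * ((g 1 1 : ℤ) : ℂ) - ((g 0 1 : ℤ) : ℂ) * ((g 1 0 : ℤ) : ℂ) = 1 := by
    have := g.det_coe
    rw [Matrix.det_fin_two] at this
    exact_mod_cast this
  have hγd : HasDerivAt γ (-((t : ℂ) ^ 2)⁻¹) 0 := by
    have a0 : HasDerivAt (fun x : ℝ => z + (x : ℂ)) 1 0 := by
      have := (Complex.ofRealCLM.hasDerivAt (x := (0:ℝ))).const_add z
      simpa using this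
    have a1 := (a0.const_mul ((g 0 0 : ℤ) : ℂ)).add_const ((g 0 1 : ℤ) : ℂ)
    have a2 := (a0.const_mul ((g 1 0 : ℤ) : ℂ)).add_const ((g 1 1 : ℤ) : ℂ)
    have hne : ((g 1 0 : ℤ) : ℂ) * (z + ((0:ℝ) : ℂ)) + ((g 1 1 : ℤ) : ℂ) ≠ 0 := by
      rw [Complex.ofReal_zero, add_zero, hden]
      exact mul_ne_zero ht' Complex.I_ne_zero
    have a3 := a1.div a2 hne
    refine a3.congr_deriv ?_
    simp only [Complex.ofReal_zero, add_zero, mul_one]
    rw [hden]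
    have e1 : ((g 0 0 : ℤ) : ℂ) * (t * Complex.I) - (((g 0 0 : ℤ) : ℂ) * z + ((g 0 1 : ℤ) : ℂ)) * ((g 1 0 : ℤ) : ℂ) = 1 := by
      rw [← hden]
      linear_combination hdet
    rw [e1, mul_pow, Complex.I_sq]
    field_simp
  have hγ0 : γ 0 = z' := by
    simp only [hγ, Complex.ofReal_zero, add_zero]
    exact h1
  have h3 : HasDerivAt (fun x : ℝ => f (γ x)) (fderiv ℝ f z' (-((t : ℂ) ^ 2)⁻¹)) 0 := by
    have := hasFDerivAt_of h.smooth (z := γ 0) (by rw [hγ0]; exact hz')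
    rw [← hγ0]
    exact this.comp_hasDerivAt (0:ℝ) hγd
  have h4 : (fun x : ℝ => f (γ x)) = fun x : ℝ => f (z + x) := by
    funext x
    exact h.sl g (z + x) (by simpa using hz)
  rw [h4] at h3
  have h5 : HasDerivAt (fun x : ℝ => f (z + x)) (Dx f z) 0 := by
    have := hasDerivAt_line h.smooth z 1 (t := 0) (by simpa [Up] using hz)
    simp only [mul_one, Complex.ofReal_zero, add_zero] at this
    exact this
  have h6 := h5.unique h3
  have h7 : fderiv ℝ f z' (-((t : ℂ) ^ 2)⁻¹) = -((t : ℂ) ^ 2)⁻¹ * Dx f z' := by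
    have e1 : (-((t : ℂ) ^ 2)⁻¹ : ℂ) = ((-(t ^ 2)⁻¹ : ℝ) : ℝ) • (1 : ℂ) := by
      rw [Complex.real_smul]; push_cast; ring
    calc fderiv ℝ f z' (-((t : ℂ) ^ 2)⁻¹) = fderiv ℝ f z' (((-(t ^ 2)⁻¹ : ℝ) : ℝ) • (1 : ℂ)) := by rw [← e1]
      _ = ((-(t ^ 2)⁻¹ : ℝ) : ℝ) • fderiv ℝ f z' 1 := map_smul _ _ _
      _ = -((t : ℂ) ^ 2)⁻¹ * Dx f z' := by
        rw [Complex.real_smul]
        unfold Dx
        push_cast
        rfl
  rw [h7, hz'def, Gs_int h.per_Dx hq (((t⁻¹ : ℝ) : ℂ) * Complex.I) (by simpa using ht), g3] at h6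
  rw [← h6]
  unfold Gs
  rw [hzdef, hu0]
  push_cast
  rfl

/-- twisted sum of values on the horizontal line of height `t/q` -/
noncomputable def Sg (g : ℂ → ℂ) (χ : DirichletCharacter ℂ q) (t : ℝ) : ℂ := ∑ u : ZMod q, χ u * Gs g q (t * Complex.I) u

lemma MF.Sg_inv (h : MF f Λ c) (h2 : χ ^ 2 = 1) {t : ℝ} (ht : 0 < t) : Sg f χ t = χ (-1) * Sg f χ t⁻¹ :=
  sum_flip h2 _ _ (fun u => h.Gs_inv ht u)

lemma MF.Sg_inv_Dx (h : MF f Λ c) (h2 : χ ^ 2 = 1) {t : ℝ} (ht : 0 < t) :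
    Sg (Dx f) χ t = -((t : ℂ) ^ 2)⁻¹ * (χ (-1) * Sg (Dx f) χ t⁻¹) := by
  have h3 := sum_flip h2 (fun u => Gs (Dx f) q (t * Complex.I) u)
    (fun u => -((t : ℂ) ^ 2)⁻¹ * Gs (Dx f) q (((t⁻¹ : ℝ) : ℂ) * Complex.I) u) (fun u => h.Gs_inv_Dx ht u)
  unfold Sg
  rw [h3, Finset.mul_sum, Finset.mul_sum, Finset.mul_sum]
  refine Finset.sum_congr rfl (fun u _ => ?_)
  ring

lemma cont_Sg {g : ℂ → ℂ} (hg : ContDiffOn ℝ (⊤ : ℕ∞) g Up) : ContinuousOn (Sg g χ) (Ioi 0) := by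
  unfold Sg
  refine continuousOn_finsetSum _ (fun u _ => ?_)
  refine ContinuousOn.mul continuousOn_const ?_
  unfold Gs
  refine hg.continuousOn.comp (by fun_prop) ?_
  intro t ht
  have := pt_im (q := q) ht (u.val : ℝ)
  push_cast at this
  exact this

lemma MF.Sg_series (h : MF f Λ c) (hp : χ.IsPrimitive) (h2 : χ ^ 2 = 1) {y : ℝ} (hy : 0 < y) :
    HasSum (fun n : ℕ => ((1 - χ (-1)) * gaussSum χ ZMod.stdAddChar * (χ n * (c n / n))) * W f 1 (n * y)) (Sg f χ (q * y)) := by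
  have hq : (0:ℝ) < q := by exact_mod_cast Nat.pos_of_ne_zero (NeZero.ne q)
  have hyq : (q * y) / q = y := by field_simp
  have h1 : HasSum (fun n : ℕ => ∑ u : ZMod q, χ u * (W f n y * (Complex.exp (2 * Real.pi * Complex.I * n * ((u.val / q : ℝ) : ℂ)) -
      Complex.exp (-(2 * Real.pi * Complex.I * n * ((u.val / q : ℝ) : ℂ)))))) (Sg f χ (q * y)) := by
    unfold Sg
    refine hasSum_sum (fun u _ => ?_)
    have e : Gs f q (((q * y : ℝ) : ℂ) * Complex.I) u = f (((u.val / q : ℝ) : ℂ) + (y : ℂ) * Complex.I) := by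
      unfold Gs; rw [pt_eq, hyq]
    rw [e]
    exact (h.exp_f (u.val / q : ℝ) hy).mul_left (χ u)
  convert h1 using 1
  funext n
  simp only [exp_std, exp_std_neg]
  have e1 := gsum hp h2 (n : ZMod q)
  have e2 := gsum hp h2 (-n : ZMod q)
  have e3 : ∑ u : ZMod q, χ u * (W f n y * (ZMod.stdAddChar ((n : ZMod q) * u) - ZMod.stdAddChar ((-n : ZMod q) * u))) =
      W f n y * (∑ u : ZMod q, χ u * ZMod.stdAddChar ((n : ZMod q) * u) - ∑ u : ZMod q, χ u * ZMod.stdAddChar ((-n : ZMod q) * u)) := by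
    rw [← Finset.sum_sub_distrib, Finset.mul_sum]
    refine Finset.sum_congr rfl (fun u _ => ?_)
    ring
  rw [e3, e1, e2, h.W_nat n hy]
  have e4 : χ (-(n : ZMod q)) = χ (-1) * χ n := by
    rw [← map_mul]; congr 1; ring
  rw [e4]
  ring

lemma MF.Sg_series_Dx (h : MF f Λ c) (hp : χ.IsPrimitive) (h2 : χ ^ 2 = 1) (hne : χ ≠ 1) {y : ℝ} (hy : 0 < y) :
    HasSum (fun n : ℕ => (2 * Real.pi * Complex.I * (1 + χ (-1)) * gaussSum χ ZMod.stdAddChar * (χ n * c n)) * W f 1 (n * y)) (Sg (Dx f) χ (q * y)) := by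
  have hq : (0:ℝ) < q := by exact_mod_cast Nat.pos_of_ne_zero (NeZero.ne q)
  have hyq : (q * y) / q = y := by field_simp
  have hq1 := q_ne_one hne
  have h1 : HasSum (fun n : ℕ => ∑ u : ZMod q, χ u * (2 * Real.pi * Complex.I * n * W f n y * (Complex.exp (2 * Real.pi * Complex.I * n * ((u.val / q : ℝ) : ℂ)) +
      Complex.exp (-(2 * Real.pi * Complex.I * n * ((u.val / q : ℝ) : ℂ)))))) (Sg (Dx f) χ (q * y)) := by
    unfold Sg
    refine hasSum_sum (fun u _ => ?_)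
    have e : Gs (Dx f) q (((q * y : ℝ) : ℂ) * Complex.I) u = Dx f (((u.val / q : ℝ) : ℂ) + (y : ℂ) * Complex.I) := by
      unfold Gs; rw [pt_eq, hyq]
    rw [e]
    exact (h.exp_Dx (u.val / q : ℝ) hy).mul_left (χ u)
  convert h1 using 1
  funext n
  simp only [exp_std, exp_std_neg]
  have e1 := gsum hp h2 (n : ZMod q)
  have e2 := gsum hp h2 (-n : ZMod q)
  have e3 : ∑ u : ZMod q, χ u * (2 * Real.pi * Complex.I * n * W f n y * (ZMod.stdAddChar ((n : ZMod q) * u) + ZMod.stdAddChar ((-n : ZMod q) * u))) =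
      2 * Real.pi * Complex.I * n * W f n y * (∑ u : ZMod q, χ u * ZMod.stdAddChar ((n : ZMod q) * u) + ∑ u : ZMod q, χ u * ZMod.stdAddChar ((-n : ZMod q) * u)) := by
    rw [← Finset.sum_add_distrib, Finset.mul_sum]
    refine Finset.sum_congr rfl (fun u _ => ?_)
    ring
  have e4 : χ (-(n : ZMod q)) = χ (-1) * χ n := by
    rw [← map_mul]; congr 1; ring
  rw [e3, e1, e2, h.W_nat n hy, e4]
  rcases Nat.eq_zero_or_pos n with rfl | hn
  · have : Nontrivial (ZMod q) := by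
      apply ZMod.nontrivial_iff.2 hq1
    have e5 : χ ((0 : ℕ) : ZMod q) = 0 := by
      rw [Nat.cast_zero]; exact χ.map_zero
    rw [e5]; ring
  · have hn' : (n : ℂ) ≠ 0 := by exact_mod_cast hn.ne'
    field_simp

end Q276.OM
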