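import Pool.Agent.Q276.OM.Fode

/-!
# The Hecke relation for the Fourier coefficients
-/

set_option autoImplicit false

open MeasureTheory Filter Topology Set

namespace Q276.OM

lemma co_sum {ι : Type*} (s : Finset ι) (g : ι → ℝ → ℂ) (hg : ∀ i ∈ s, Continuous (g i)) (m : ℤ) :
    co (fun x => ∑ i ∈ s, g i x) m = ∑ i ∈ s, co (g i) m := by
  unfold co
  rw [← intervalIntegral.integral_finsetSum]
  · refine intervalIntegral.integral_congr (fun x _ => ?_)
    simp only [Finset.sum_mul]
  · intro i hi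
    apply Continuous.intervalIntegrable
    exact (hg i hi).mul (by fun_prop)

variable {f : ℂ → ℂ} {Λ : ℂ} {c : ℕ → ℂ}

lemma MF.W_neg (h : MF f Λ c) (m : ℤ) {y : ℝ} (hy : 0 < y) : W f (-m) y = - W f m y := by
  unfold W co
  set G : ℝ → ℂ := fun x => f ((x : ℂ) + y * Complex.I) * Complex.exp (-(2 * Real.pi * Complex.I * (m : ℤ) * x)) with hG
  have hGp : Function.Periodic G 1 := by
    intro x
    simp only [hG]
    rw [exp_shift]
    have := h.periodic hy x
    simp only at this
    rw [this]
  have h1 : ∫ x in (0:ℝ)..1, G x = ∫ x in (-1:ℝ)..0, G x := by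
    have := hGp.intervalIntegral_add_eq 0 (-1)
    simpa using this
  have h2 : ∀ x : ℝ, f ((x : ℂ) + y * Complex.I) * Complex.exp (-(2 * Real.pi * Complex.I * ((-m : ℤ) : ℂ) * x)) = - G (-x) := by
    intro x
    simp only [hG]
    have e1 : (((-x : ℝ) : ℂ) + y * Complex.I) = -(starRingEnd ℂ) ((x : ℂ) + y * Complex.I) := by
      simp only [map_add, map_mul, Complex.conj_ofReal, Complex.conj_I]
      push_cast; ring
    rw [e1, h.odd _ (mem_Up hy)]
    have e2 : -(2 * Real.pi * Complex.I * ((-m : ℤ) : ℂ) * x) = -(2 * Real.pi * Complex.I * (m : ℂ) * ((-x : ℝ) : ℂ)) := by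
      push_cast; ring
    rw [e2]; ring
  have h3 : ∫ x in (0:ℝ)..1, f ((x : ℂ) + y * Complex.I) * Complex.exp (-(2 * Real.pi * Complex.I * ((-m : ℤ) : ℂ) * x)) =
      ∫ x in (0:ℝ)..1, - G (-x) := intervalIntegral.integral_congr (fun x _ => h2 x)
  rw [h3, intervalIntegral.integral_neg, intervalIntegral.integral_comp_neg, neg_zero, h1]

lemma MF.W_zero (h : MF f Λ c) {y : ℝ} (hy : 0 < y) : W f 0 y = 0 := by
  have := h.W_neg 0 hy
  rw [neg_zero] at this
  linear_combination this / 2

lemma cont_Vo {g : ℂ → ℂ} (hg : ContDiffOn ℝ (⊤ : ℕ∞) g Up) {y : ℝ} (hy : 0 < y) {a d : ℕ} (ha : 0 < a) (hd : 0 < d) :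
    Continuous fun x : ℝ => Vo d g ((a : ℂ) * ((x : ℂ) + y * Complex.I)) := by
  unfold Vo
  refine continuous_finsetSum _ (fun b _ => ?_)
  have hd' : (d : ℂ) ≠ 0 := by exact_mod_cast hd.ne'
  refine hg.continuousOn.comp_continuous (by fun_prop) ?_
  intro x
  exact im_div_pos (im_mul_pos (mem_Up hy) ha) _ (by simp) hd

lemma MF.hecke_W (h : MF f Λ c) {n : ℕ} (hn : 0 < n) {y : ℝ} (hy : 0 < y) :
    (n : ℂ) * W f n (y / n) = c n * W f 1 y := by
  have hn' : (n : ℂ) ≠ 0 := by exact_mod_cast hn.ne'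
  have hnR : (n : ℝ) ≠ 0 := by exact_mod_cast hn.ne'
  have h1 : co (fun x : ℝ => To n f ((x : ℂ) + y * Complex.I)) 1 = c n * W f 1 y := by
    unfold W co
    rw [← intervalIntegral.integral_const_mul]
    refine intervalIntegral.integral_congr (fun x _ => ?_)
    simp only
    rw [h.hecke n hn _ (mem_Up hy)]; ring
  rw [← h1]
  have hpos : ∀ d ∈ n.divisors, 0 < d ∧ 0 < n / d := by
    intro d hd
    have hd' := Nat.mem_divisors.1 hd
    have hdpos : 0 < d := Nat.pos_of_mem_divisors hd
    exact ⟨hdpos, Nat.div_pos (Nat.le_of_dvd hn hd'.1) hdpos⟩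
  have h2 : co (fun x : ℝ => To n f ((x : ℂ) + y * Complex.I)) 1 =
      ∑ d ∈ n.divisors, co (fun x : ℝ => Vo d f (((n / d : ℕ) : ℂ) * ((x : ℂ) + y * Complex.I))) 1 := by
    rw [← co_sum]
    · rfl
    · intro d hd
      exact cont_Vo h.smooth hy (hpos d hd).2 (hpos d hd).1
  rw [h2, Finset.sum_eq_single n]
  · -- the main term
    rw [Nat.div_self hn, Nat.cast_one]
    set G : ℝ → ℂ := fun t => f (((t : ℂ) + y * Complex.I) / n) * Complex.exp (-(2 * Real.pi * Complex.I * (1 : ℤ) * t)) with hG
    have hGc : Continuous G := by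
      refine Continuous.mul ?_ (by fun_prop)
      refine h.smooth.continuousOn.comp_continuous (by fun_prop) ?_
      intro x
      have := im_div_pos (mem_Up (x := x) hy) 0 (by simp) hn
      rwa [add_zero] at this
    have e1 : co (fun x : ℝ => Vo n f (1 * ((x : ℂ) + y * Complex.I))) 1 = ∑ b ∈ Finset.range n, ∫ x in (b:ℝ)..((b + 1 : ℕ) : ℝ), G x := by
      have e2 : (fun x : ℝ => Vo n f (1 * ((x : ℂ) + y * Complex.I))) = fun x : ℝ => ∑ b ∈ Finset.range n, f (((((x + b : ℝ) : ℝ) : ℂ) + y * Complex.I) / n) := by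
        funext x
        unfold Vo
        refine Finset.sum_congr rfl (fun b _ => ?_)
        congr 2
        push_cast; ring
      rw [e2, co_sum]
      · refine Finset.sum_congr rfl (fun b _ => ?_)
        have e3 : ∫ x in (b:ℝ)..((b + 1 : ℕ) : ℝ), G x = ∫ x in (0:ℝ)..1, G (x + b) := by
          rw [intervalIntegral.integral_comp_add_right, zero_add]
          congr 1
          push_cast; ring
        rw [e3]
        unfold co
        refine intervalIntegral.integral_congr (fun x _ => ?_)
        simp only [hG]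
        congr 1
        have e4 : -(2 * Real.pi * Complex.I * (1 : ℤ) * ((x + b : ℝ) : ℂ)) = -(2 * Real.pi * Complex.I * (1 : ℤ) * x) + ((-b : ℤ) : ℂ) * (2 * Real.pi * Complex.I) := by
          push_cast; ring
        rw [e4]
        exact (Complex.exp_periodic.int_mul (-b) _).symm
      · intro b _
        refine h.smooth.continuousOn.comp_continuous (by fun_prop) ?_
        intro x
        have := im_div_pos (mem_Up (x := x + b) hy) 0 (by simp) hn
        rwa [add_zero] at this
    rw [e1, intervalIntegral.sum_integral_adjacent_intervals (a := fun k : ℕ => (k : ℝ)) (fun k _ => hGc.intervalIntegrable _ _)]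
    have e5 := intervalIntegral.smul_integral_comp_mul_left G (a := 0) (b := 1) (n : ℝ)
    rw [mul_zero, mul_one, Complex.real_smul, Complex.ofReal_natCast] at e5
    rw [Nat.cast_zero, ← e5]
    unfold W co
    congr 1
    refine intervalIntegral.integral_congr (fun x _ => ?_)
    simp only [hG]
    congr 1
    · congr 1
      push_cast
      field_simp
    · congr 1
      push_cast
      ring
  · intro d hd hdn
    obtain ⟨hd0, ha0⟩ := hpos d hd
    have ha2 : 2 ≤ n / d := by
      have hd' := Nat.mem_divisors.1 hd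
      have h3 : n / d * d = n := Nat.div_mul_cancel hd'.1
      by_contra hcon
      have h4 : n / d = 1 := by omega
      rw [h4, one_mul] at h3
      exact hdn h3
    refine co_period_zero ha2 (fun x => ?_)
    have ha' : ((n / d : ℕ) : ℂ) ≠ 0 := by exact_mod_cast ha0.ne'
    have h5 : ((n / d : ℕ) : ℂ) * (((x + 1 / ((n / d : ℕ) : ℝ) : ℝ) : ℂ) + y * Complex.I) =
        ((n / d : ℕ) : ℂ) * ((x : ℂ) + y * Complex.I) + 1 := by
      push_cast
      field_simp
      ring
    rw [h5]
    exact (h.per.Vo hd0) _ (im_mul_pos (mem_Up hy) ha0)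
  · intro hcon
    exact absurd (Nat.mem_divisors.2 ⟨dvd_refl _, hn.ne'⟩) hcon

lemma MF.W_nat (h : MF f Λ c) (n : ℕ) {y : ℝ} (hy : 0 < y) : W f n y = c n / n * W f 1 (n * y) := by
  rcases Nat.eq_zero_or_pos n with rfl | hn
  · simp [h.W_zero hy]
  · have hn' : (n : ℂ) ≠ 0 := by exact_mod_cast hn.ne'
    have hnR : (0 : ℝ) < n := by exact_mod_cast hn
    have := h.hecke_W hn (y := n * y) (by positivity)
    rw [mul_div_cancel_left₀ _ hnR.ne'] at this
    field_simp
    linear_combination this

end Q276.OM
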