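import Pool.Agent.Q276.OM.BK

/-!
# Identification of the first Fourier coefficient
-/

set_option autoImplicit false

open MeasureTheory Filter Topology Set

namespace Q276.OM

lemma lin_unique {u u' Q : ℝ → ℂ} (hu : ∀ y, 0 < y → HasDerivAt u (u' y) y)
    (hu' : ∀ y, 0 < y → HasDerivAt u' (Q y * u y) y) (hQ : ContinuousOn Q (Ioi 0)) {y1 : ℝ} (hy1 : 0 < y1)
    (h0 : u y1 = 0) (h0' : u' y1 = 0) {y : ℝ} (hy : 0 < y) : u y = 0 := by
  set a : ℝ := min y y1 / 2 with ha
  set b : ℝ := max y y1 + 1 with hb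
  have ha0 : 0 < a := by
    have : 0 < min y y1 := lt_min hy hy1
    positivity
  obtain ⟨M, hM⟩ : ∃ M, ∀ t ∈ Icc a b, ‖Q t‖ ≤ M :=
    isCompact_Icc.exists_bound_of_continuousOn (hQ.mono fun t ht => lt_of_lt_of_le ha0 ht.1)
  have hmem : ∀ t, t ∈ ({y, y1} : Set ℝ) → t ∈ Ioo a b := by
    intro t ht
    have h1 : min y y1 ≤ t := by rcases ht with rfl | rfl <;> simp
    have h2 : t ≤ max y y1 := by rcases ht with rfl | rfl <;> simp
    constructor
    · have : 0 < min y y1 := lt_min hy hy1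
      rw [ha]; linarith
    · rw [hb]; linarith
  have key := ODE_solution_unique_of_mem_Ioo (E := ℂ × ℂ) (a := a) (b := b) (t₀ := y1)
    (v := fun t p => (p.2, Q t * p.1)) (s := fun _ => univ) (K := Real.toNNReal (max 1 M))
    (f := fun t => (u t, u' t)) (g := fun _ => 0) ?_ (hmem y1 (by simp)) ?_ ?_ ?_
  · have := key (hmem y (by simp))
    exact congrArg Prod.fst this
  · intro t ht
    refine LipschitzOnWith.of_dist_le_mul (fun p _ q _ => ?_)
    rw [Real.coe_toNNReal _ (by positivity)]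
    have hm : ‖Q t‖ ≤ max 1 M := (hM t ⟨ht.1.le, ht.2.le⟩).trans (le_max_right _ _)
    have h1 : dist p.1 q.1 ≤ dist p q := by rw [Prod.dist_eq]; exact le_max_left _ _
    have h2 : dist p.2 q.2 ≤ dist p q := by rw [Prod.dist_eq]; exact le_max_right _ _
    rw [Prod.dist_eq]
    apply max_le
    · simp only
      calc dist p.2 q.2 ≤ 1 * dist p q := by rw [one_mul]; exact h2
        _ ≤ max 1 M * dist p q := by gcongr; exact le_max_left _ _
    · simp only
      rw [dist_eq_norm, ← mul_sub, norm_mul, ← dist_eq_norm]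
      gcongr
  · intro t ht
    have ht0 : 0 < t := lt_trans ha0 ht.1
    exact ⟨(hu t ht0).prodMk (hu' t ht0), mem_univ _⟩
  · intro t ht
    refine ⟨?_, mem_univ _⟩
    have : ((0 : ℂ × ℂ).2, Q t * (0 : ℂ × ℂ).1) = (0 : ℂ × ℂ) := by simp
    simp only [this]
    exact hasDerivAt_const _ _
  · simp [h0, h0']

variable {f : ℂ → ℂ} {Λ : ℂ} {c : ℕ → ℂ}

lemma co_bound {g : ℝ → ℂ} {B : ℝ} (h : ∀ x, ‖g x‖ ≤ B) (m : ℤ) : ‖co g m‖ ≤ B := by
  unfold co
  have := intervalIntegral.norm_integral_le_of_norm_le_const (a := (0:ℝ)) (b := 1) (C := B)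
    (f := fun x : ℝ => g x * Complex.exp (-(2 * Real.pi * Complex.I * m * x))) ?_
  · simpa using this
  · intro x _
    rw [norm_mul]
    have : -(2 * Real.pi * Complex.I * m * x) = ((-(2 * Real.pi * m * x) : ℝ) : ℂ) * Complex.I := by
      push_cast; ring
    rw [this, Complex.norm_exp_ofReal_mul_I, mul_one]
    exact h x

lemma MF.W_bound (h : MF f Λ c) : ∃ B, ∀ m y, 0 < y → ‖W f m y‖ ≤ B := by
  obtain ⟨B, hB⟩ := h.bdd
  exact ⟨B, fun m y hy => co_bound (fun x => hB _ (mem_Up hy)) m⟩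

lemma tendsto_expdecay : Tendsto (fun y : ℝ => y ^ 2 * Real.exp (-(2 * y))) atTop (𝓝 0) := by
  have h1 := Real.tendsto_pow_mul_exp_neg_atTop_nhds_zero 2
  have h2 : ∀ᶠ y : ℝ in atTop, y ^ 2 * Real.exp (-(2 * y)) ≤ y ^ 2 * Real.exp (-y) := by
    filter_upwards [eventually_ge_atTop 0] with y hy
    gcongr
    linarith
  exact squeeze_zero' (Eventually.of_forall fun y => by positivity) h2 h1

theorem MF.W_one (h : MF f Λ c) {ν : ℂ} (hν : ν ^ 2 = 1 / 4 - Λ) :
    ∃ c₀ : ℂ, c₀ ≠ 0 ∧ ∀ y : ℝ, 0 < y → W f 1 y = c₀ * BK ν y := by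
  obtain ⟨M, hM⟩ := h.W_bound
  have hM0 : 0 ≤ M := (norm_nonneg _).trans (hM 1 1 one_pos)
  obtain ⟨A, hA0, hA⟩ := BK_decay ν
  have hW1 : ∀ y : ℝ, 0 < y → HasDerivAt (W' f 1) ((4 * Real.pi ^ 2 - Λ / (y : ℂ) ^ 2) * W f 1 y) y := by
    intro y hy
    have := h.hW' 1 hy
    simpa using this
  -- linear growth of the derivative
  set C : ℝ := (4 * Real.pi ^ 2 + ‖Λ‖) * M with hC
  have hC0 : 0 ≤ C := by positivity
  have hgrow : ∀ y, 1 ≤ y → ‖W' f 1 y‖ ≤ (‖W' f 1 1‖ + C) * y := by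
    intro y hy
    have h1 := norm_image_sub_le_of_norm_deriv_le_segment' (a := (1:ℝ)) (b := y) (f := W' f 1)
      (f' := fun y => (4 * Real.pi ^ 2 - Λ / (y : ℂ) ^ 2) * W f 1 y) (C := C) ?_ ?_ y ⟨hy, le_rfl⟩
    · have h2 : ‖W' f 1 y‖ ≤ ‖W' f 1 1‖ + ‖W' f 1 y - W' f 1 1‖ := by
        have := norm_add_le (W' f 1 1) (W' f 1 y - W' f 1 1)
        rwa [add_sub_cancel] at this
      have h3 : 0 ≤ ‖W' f 1 1‖ := norm_nonneg _
      nlinarith
    · intro x hx
      exact (hW1 x (by linarith [hx.1])).hasDerivWithinAt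
    · intro x hx
      have hx1 : 1 ≤ x := hx.1
      rw [norm_mul, hC]
      have e1 : ‖(4 * Real.pi ^ 2 - Λ / (x : ℂ) ^ 2 : ℂ)‖ ≤ 4 * Real.pi ^ 2 + ‖Λ‖ := by
        refine (norm_sub_le _ _).trans ?_
        have e2 : ‖(4 * Real.pi ^ 2 : ℂ)‖ = 4 * Real.pi ^ 2 := by
          rw [norm_mul, norm_pow, Complex.norm_real, Real.norm_of_nonneg Real.pi_pos.le]
          simp
        have e3 : ‖Λ / (x : ℂ) ^ 2‖ ≤ ‖Λ‖ := by
          rw [norm_div, norm_pow, Complex.norm_real, Real.norm_of_nonneg (by linarith)]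
          exact div_le_self (norm_nonneg _) (one_le_pow₀ hx1)
        linarith
      have e4 : ‖W f 1 x‖ ≤ M := hM 1 x (by linarith)
      gcongr
  -- the Wronskian
  set w : ℝ → ℂ := fun y => W f 1 y * BK' ν y - W' f 1 y * BK ν y with hw
  have hwd : ∀ y, 0 < y → HasDerivAt w 0 y := by
    intro y hy
    have := ((h.hW 1 hy).mul (hBK' hν hy)).sub ((hW1 y hy).mul (hBK ν hy))
    refine this.congr_deriv ?_
    ring
  have hw0 : ∀ y, 0 < y → w y = 0 := by
    have hconst : ∀ y, 0 < y → ∀ z, 0 < z → w y = w z := by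
      intro y hy z hz
      exact isOpen_Ioi.is_const_of_deriv_eq_zero (isPreconnected_Ioi)
        (fun t ht => (hwd t ht).differentiableAt.differentiableWithinAt) (fun t ht => (hwd t ht).deriv) hy hz
    have hlim : Tendsto w atTop (𝓝 0) := by
      have h1 : ∀ᶠ y : ℝ in atTop, ‖w y‖ ≤ (M * A + (‖W' f 1 1‖ + C) * A) * (y ^ 2 * Real.exp (-(2 * y))) := by
        filter_upwards [eventually_ge_atTop 1] with y hy
        have hy0 : 0 < y := by linarith
        obtain ⟨a1, a2⟩ := hA y hy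
        have a3 := hgrow y hy
        have a4 := hM 1 y hy0
        have hE := Real.exp_pos (-(2 * y))
        refine (norm_sub_le _ _).trans ?_
        rw [norm_mul, norm_mul]
        have b1 : ‖W f 1 y‖ * ‖BK' ν y‖ ≤ M * (A * y * Real.exp (-(2 * y))) := by gcongr
        have b2 : ‖W' f 1 y‖ * ‖BK ν y‖ ≤ ((‖W' f 1 1‖ + C) * y) * (A * y * Real.exp (-(2 * y))) := by gcongr
        have b3 : M * (A * y * Real.exp (-(2 * y))) ≤ M * (A * y ^ 2 * Real.exp (-(2 * y))) := by
          have : y ≤ y ^ 2 := by nlinarith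
          gcongr
        linarith
      have h2 := tendsto_expdecay.const_mul (M * A + (‖W' f 1 1‖ + C) * A)
      rw [mul_zero] at h2
      exact squeeze_zero_norm' h1 h2
    intro y hy
    have h1 : Tendsto (fun _ : ℝ => w y) atTop (𝓝 0) := by
      refine hlim.congr' ?_
      filter_upwards [eventually_gt_atTop 0] with z hz
      exact hconst z hz y hy
    exact tendsto_nhds_unique tendsto_const_nhds h1
  obtain ⟨y1, hy1, hne⟩ := BK_ne ν
  set c₀ : ℂ := W f 1 y1 / BK ν y1 with hc0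
  have hall : ∀ y, 0 < y → W f 1 y = c₀ * BK ν y := by
    intro y hy
    have h1 := lin_unique (u := fun y => W f 1 y - c₀ * BK ν y) (u' := fun y => W' f 1 y - c₀ * BK' ν y)
      (Q := fun y => 4 * Real.pi ^ 2 - Λ / (y : ℂ) ^ 2) ?_ ?_ ?_ hy1 ?_ ?_ hy
    · linear_combination h1
    · intro t ht
      exact (h.hW 1 ht).sub ((hBK ν ht).const_mul c₀)
    · intro t ht
      have := (hW1 t ht).sub ((hBK' hν ht).const_mul c₀)
      refine this.congr_deriv ?_
      ring
    · intro t ht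
      have ht' : (t : ℂ) ^ 2 ≠ 0 := by
        have : (0:ℝ) < t := ht
        exact pow_ne_zero _ (by exact_mod_cast this.ne')
      apply ContinuousAt.continuousWithinAt
      exact continuousAt_const.sub (continuousAt_const.div (by fun_prop) ht')
    · rw [hc0, div_mul_cancel₀ _ hne, sub_self]
    · have := hw0 y1 hy1
      simp only [hw] at this
      rw [hc0]
      field_simp
      linear_combination -this
  refine ⟨c₀, ?_, hall⟩
  intro hc
  obtain ⟨z, hz, hz0⟩ := h.ne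
  apply hz0
  have h2 : ∀ m, W f m z.im = 0 := by
    have h3 : ∀ n : ℕ, W f n z.im = 0 := by
      intro n
      rcases Nat.eq_zero_or_pos n with rfl | hn
      · exact h.W_zero hz
      · have hnR : (0 : ℝ) < n := by exact_mod_cast hn
        rw [h.W_nat n hz, hall _ (by positivity), hc, zero_mul, mul_zero]
    intro m
    obtain ⟨n, rfl | rfl⟩ := m.eq_nat_or_neg
    · exact h3 n
    · rw [h.W_neg _ hz, h3 n, neg_zero]
  have h4 := co_eq_zero (cont_x h.smooth hz) (h.periodic hz) h2 z.re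
  rwa [Complex.re_add_im] at h4

end Q276.OM
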